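import Pool.Agent.Helper16.VG.Defs
import Pool.Agent.Helper21.V2.BB

/-!
# Block VG-D5: multiplying the forms `g i` with powers of the coordinates

PROOF. `shift_snc`: for `p` take `I, s, f, e, A, B` of `SNCG φ g` and `B' (i, l) = B i * X l ^ N`; `p l ≠ 0` for some `l`. `shift_vn`: `aeval y (g i * X l ^ N) = g_i(y) * y_l ^ N` and `sup_{i,l} a_i b_l = (sup a_i) (sup b_l)` for nonnegative numbers (`vn` is the supremum of the `nv w`), `nv w (y ^ N) = (nv w y) ^ N`.
-/

namespace Pool.Agent.Helper16.VG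

open NumberField
open Pool.Agent.Helper64.Vojta (Pl nv sn)
open Pool.Agent.V2 (vn vH pn pH gsum FinS)
open MvPolynomial (aeval)

/-- The products `g i * X l ^ N`. -/
noncomputable def shift {R : Type*} [CommRing R] {d c ν : ℕ}
    (g : Fin ν → MvPolynomial (Fin (d + 1) ⊕ Fin c) R) (N : ℕ)
    (i : Fin (ν * (d + 1 + c))) : MvPolynomial (Fin (d + 1) ⊕ Fin c) R :=
  g (finProdFinEquiv.symm i).1 * MvPolynomial.X (finSumFinEquiv.symm (finProdFinEquiv.symm i).2) ^ N

theorem shift_hom {R : Type*} [CommRing R] {d c ν q : ℕ}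
    (g : Fin ν → MvPolynomial (Fin (d + 1) ⊕ Fin c) R) (hg : ∀ i, (g i).IsHomogeneous q) (N : ℕ)
    (i : Fin (ν * (d + 1 + c))) : (shift g N i).IsHomogeneous (q + N) := by
  unfold shift
  exact (hg _).mul (MvPolynomial.isHomogeneous_X_pow _ _)

theorem shift_map {R R' : Type*} [CommRing R] [CommRing R'] (ψ : R →+* R') {d c ν : ℕ}
    (g : Fin ν → MvPolynomial (Fin (d + 1) ⊕ Fin c) R) (N : ℕ) (i : Fin (ν * (d + 1 + c))) :
    (shift g N i).map ψ = shift (fun j => (g j).map ψ) N i := by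
  unfold shift
  rw [map_mul, map_pow, MvPolynomial.map_X]

theorem shift_snc {K : Type*} [Field K] {ι : Type*} {d c ν : ℕ}
    (φ : ι → MvPolynomial (Fin (d + 1) ⊕ Fin c) K)
    (g : Fin ν → MvPolynomial (Fin (d + 1) ⊕ Fin c) K) (N : ℕ) (h : SNCG φ g) :
    SNCG φ (shift g N) := by
  intro p hp hφ
  obtain ⟨I, s, f, e, A, B, h1, h2, ⟨i0, h3⟩, h4, h5⟩ := h p hp hφ
  obtain ⟨l, hl⟩ := Function.ne_iff.mp hp
  refine ⟨I, s, f, e, A, shift B N, h1, h2,
    ⟨finProdFinEquiv (i0, finSumFinEquiv l), ?_⟩, fun i => ?_, h5⟩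
  · unfold shift
    rw [Equiv.symm_apply_apply]
    simp only [Equiv.symm_apply_apply, map_mul, map_pow, MvPolynomial.aeval_X]
    exact mul_ne_zero h3 (pow_ne_zero _ hl)
  · have h6 : A * shift g N i - shift B N i * ∏ j, f j =
        (A * g (finProdFinEquiv.symm i).1 - B (finProdFinEquiv.symm i).1 * ∏ j, f j) *
          MvPolynomial.X (finSumFinEquiv.symm (finProdFinEquiv.symm i).2) ^ N := by
      unfold shift
      ring
    rw [h6]
    exact Ideal.mul_mem_right _ _ (h4 _)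

theorem shift_ne {k L : Type*} [Field k] [Field L] [Algebra k L] {d c ν : ℕ}
    (g : Fin ν → MvPolynomial (Fin (d + 1) ⊕ Fin c) k) (N : ℕ) (y : Fin (d + 1) ⊕ Fin c → L)
    (hy : ∃ j, y j ≠ 0) (h : ∃ i, aeval y (g i) ≠ 0) : ∃ i, aeval y (shift g N i) ≠ 0 := by
  obtain ⟨l, hl⟩ := hy
  obtain ⟨i0, h3⟩ := h
  refine ⟨finProdFinEquiv (i0, finSumFinEquiv l), ?_⟩
  unfold shift
  simp only [Equiv.symm_apply_apply, map_mul, map_pow, MvPolynomial.aeval_X]
  exact mul_ne_zero h3 (pow_ne_zero _ hl)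

theorem shift_vn {k L : Type*} [Field k] [Field L] [NumberField L] [Algebra k L] {d c ν : ℕ}
    (g : Fin ν → MvPolynomial (Fin (d + 1) ⊕ Fin c) k) (N : ℕ) (y : Fin (d + 1) ⊕ Fin c → L)
    (w : Pl L) :
    (vn w fun i => aeval y (shift g N i)) = (vn w fun i => aeval y (g i)) * vn w y ^ N := by
  have hval : ∀ i, nv w (aeval y (shift g N i)) =
      nv w (aeval y (g (finProdFinEquiv.symm i).1)) *
        nv w (y (finSumFinEquiv.symm (finProdFinEquiv.symm i).2)) ^ N := by
    intro i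
    unfold shift
    rw [map_mul, map_pow, MvPolynomial.aeval_X, Helper64.Vojta.nv_mul]
    congr 1
    induction N with
    | zero => simp [Helper64.Vojta.nv_one]
    | succ n ih => rw [pow_succ, pow_succ, Helper64.Vojta.nv_mul, ih]
  have hg0 : 0 ≤ vn w fun i => aeval y (g i) :=
    Real.iSup_nonneg fun i => Helper64.Vojta.nv_nonneg w _
  have hy0 : 0 ≤ vn w y := Real.iSup_nonneg fun i => Helper64.Vojta.nv_nonneg w _
  apply le_antisymm
  · refine V2.vn_le w _ (mul_nonneg hg0 (pow_nonneg hy0 _)) fun i => ?_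
    rw [hval]
    exact mul_le_mul (V2.le_vn w (fun i => aeval y (g i)) _)
      (pow_le_pow_left₀ (Helper64.Vojta.nv_nonneg w _) (V2.le_vn w y _) _)
      (pow_nonneg (Helper64.Vojta.nv_nonneg w _) _) hg0
  · rcases isEmpty_or_nonempty (Fin ν) with hν | hν
    · have h1 : (vn w fun i => aeval y (g i)) = 0 := by
        unfold vn
        exact Real.iSup_of_isEmpty _
      rw [h1, zero_mul]
      exact Real.iSup_nonneg fun i => Helper64.Vojta.nv_nonneg w _
    · obtain ⟨i0, hi0⟩ := exists_eq_ciSup_of_finite (f := fun i => nv w (aeval y (g i)))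
      obtain ⟨l0, hl0⟩ := exists_eq_ciSup_of_finite (f := fun l => nv w (y l))
      have h1 : (vn w fun i => aeval y (g i)) = nv w (aeval y (g i0)) := hi0.symm
      have h2 : vn w y = nv w (y l0) := hl0.symm
      have h3 := hval (finProdFinEquiv (i0, finSumFinEquiv l0))
      simp only [Equiv.symm_apply_apply] at h3
      rw [h1, h2, ← h3]
      exact V2.le_vn w (fun i => aeval y (shift g N i)) _

end Pool.Agent.Helper16.VG
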