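import Pool.Agent.Helper16.VG.Defs
import Pool.Agent.Helper16.UP.Null

/-!
# Block VG-A5: `Cov` follows from `SNCG` (Nullstellensatz)

MODEL: UP/Null.lean (`null_of_snc`, same argument).
PROOF. Let `𝔞` be the ideal generated by the `φ i` and all `w` with `Chart φ g w`. Its zeros in `AlgebraicClosure K` are contained in `{0}`: let `p ≠ 0` with `φ i (p) = 0` for all `i`; take `I, s, f, e, A, B` from `SNCG` and
`i0` with `B i0 (p) ≠ 0`; the gradients of the `φ (I i)` and the `f j` at `p` are linearly independent, so `complete19` (UP/Null.lean, with `J = Finset.univ`) gives `ρ` with all `j` in its image and such that the rows of the matrix of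
`mnr (fun i => φ (I i)) f ρ` at `p` are linearly independent, i.e. its determinant at `p` is not zero (`aeval p (mnr ..)` = determinant of the matrix of the values); then `w = A * B i0 * mnr ..` satisfies `Chart φ g w` and `w(p) ≠ 0`.
By the Nullstellensatz (see `null_of_snc`) every `X l` is in the radical of `𝔞`; `n` = the maximum (or sum) of the exponents over the finitely many `l`.
-/

namespace Pool.Agent.Helper16.VG

open MvPolynomial (aeval)

theorem cov_of_snc {K : Type*} [Field K] {d c : ℕ} {ι ι' : Type*}
    (φ : ι → MvPolynomial (Fin (d + 1) ⊕ Fin c) K)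
    (g : ι' → MvPolynomial (Fin (d + 1) ⊕ Fin c) K) (h : SNCG φ g) : Cov φ g := by
  classical
  set I : Ideal (MvPolynomial (Fin (d + 1) ⊕ Fin c) K) :=
    Ideal.span (Set.range φ ∪ {w | Chart φ g w}) with hI
  have key : ∀ p ∈ MvPolynomial.zeroLocus (AlgebraicClosure K) I, p = 0 := by
    intro p hp
    by_contra hp0
    have hφ : ∀ i, MvPolynomial.aeval p (φ i) = 0 := fun i =>
      hp _ (Ideal.subset_span (Or.inl ⟨i, rfl⟩))
    obtain ⟨J, s, f, e, A, B, hhom, hA, ⟨i0, hB⟩, hAB, hli⟩ := h p hp0 hφ
    obtain ⟨ρ, h1, -, h3⟩ := UP.complete19 (Finset.univ : Finset (Fin s))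
      (fun i l => MvPolynomial.aeval p (MvPolynomial.pderiv l (φ (J i))))
      (fun j l => MvPolynomial.aeval p (MvPolynomial.pderiv l (f j))) (by
        have hc := hli.comp (Sum.map id fun j : {j : Fin s // j ∈ (Finset.univ : Finset (Fin s))} =>
          j.1) (Sum.map_injective.2 ⟨Function.injective_id, Subtype.val_injective⟩)
        convert hc using 1
        funext i
        rcases i with i | i <;> rfl)
    have hw : MvPolynomial.aeval p (A * B i0 * UP.mnr (fun i => φ (J i)) f ρ) = 0 :=
      hp _ (Ideal.subset_span (Or.inr ⟨J, s, f, e, A, B, i0, ρ, hhom,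
        fun j => h1 j (Finset.mem_univ j), hAB, rfl⟩))
    rw [map_mul, map_mul] at hw
    have hdet : MvPolynomial.aeval p (UP.mnr (fun i => φ (J i)) f ρ) = 0 :=
      (mul_eq_zero.1 hw).resolve_left (mul_ne_zero hA hB)
    unfold UP.mnr at hdet
    rw [AlgHom.map_det] at hdet
    have hunit := (Matrix.linearIndependent_rows_iff_isUnit (A := ((MvPolynomial.aeval p).mapMatrix
      (UP.Bm (fun i => φ (J i)) f ρ) : Matrix _ _ (AlgebraicClosure K)))).1 (by
        convert h3 using 1
        funext i l
        rw [Matrix.row_apply, AlgHom.mapMatrix_apply, Matrix.map_apply]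
        unfold UP.Bm
        rw [Matrix.of_apply]
        rcases i with a | i
        · simp only [Sum.elim_inl]
          rcases ρ a with j | l'
          · rfl
          · simp only [Sum.elim_inr]
            rw [Pi.single_apply]
            by_cases hl : l' = l
            · simp [hl]
            · simp [hl, Ne.symm hl]
        · rfl)
    rw [Matrix.isUnit_iff_isUnit_det] at hunit
    exact hunit.ne_zero hdet
  have hrad : ∀ l : Fin (d + 1) ⊕ Fin c,
      (MvPolynomial.X l : MvPolynomial (Fin (d + 1) ⊕ Fin c) K) ∈ I.radical := by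
    intro l
    rw [← MvPolynomial.vanishingIdeal_zeroLocus_eq_radical (K := AlgebraicClosure K) I,
      MvPolynomial.mem_vanishingIdeal_iff]
    intro p hp
    rw [key p hp]
    simp
  choose n hn using hrad
  exact ⟨Finset.univ.sup n, fun l => I.pow_mem_of_pow_mem (hn l)
    (Finset.le_sup (f := n) (Finset.mem_univ l))⟩

end Pool.Agent.Helper16.VG
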