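import Pool.Agent.Helper16.VG.DFa
import Pool.Agent.Helper16.UP.ChowDefs
import Pool.Agent.Helper21.V2.BB

/-!
# Block VG-D3: upper bound for the discriminant

PROOF. Let `Γ` be the (finite) set of exponents `γ : κ →₀ ℕ` of degree `r`, `R0 = MvPolynomial Γ ℤ` and `𝐅 = ∑_γ X_γ U^γ` the generic form over `R0`. For a form `F` of degree `r` over `k` let `ψ : R0 → k`, `X_γ ↦ F.coeff γ`; `𝐅.map ψ = F`, so `dF F = (dF 𝐅).map ψ` (`dF_map`, `F ≠ 0`):
every coefficient of `dF F` is `ψ (D_μ)`, `D_μ = (dF 𝐅).coeff μ`, a fixed polynomial with integral coefficients in the coefficients of `F`, `μ` in the finite support of `dF 𝐅`.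
So `pn ν (dF F) ≤ c` if all coefficients of `F` have value `≤ 1`. In general divide `F` by a coefficient `a` with `nv ν a = pn ν F` and use `dF (a F') = a ^ (2 r - 2) dF F'` (`dF_C_mul`).
-/

namespace Pool.Agent.Helper16.VG

open NumberField Finset
open Pool.Agent.Helper64.Vojta (Pl nv sn)
open Pool.Agent.V2 (vn vH pn pH gsum FinS)

universe u

private theorem nv_add_d3 {k : Type u} [Field k] [NumberField k] (ν : Pl k) (a b : k) (B : ℝ) (hB : 0 ≤ B)
    (ha : nv ν a ≤ B) (hb : nv ν b ≤ B) : nv ν (a + b) ≤ 9 * B := by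
  have h := Pool.Agent.Helper64.Vojta.nv_sum_le ν (Finset.univ : Finset (Fin 2)) ![a, b] B hB (by
    intro i _
    fin_cases i
    · exact ha
    · exact hb)
  simp only [Fin.sum_univ_two, Matrix.cons_val_zero, Matrix.cons_val_one, Finset.card_univ,
    Fintype.card_fin] at h
  refine h.trans (le_of_eq ?_)
  norm_num

private theorem bd_eval_d3 {k : Type u} [Field k] [NumberField k] (ν : Pl k) {τ : Type}
    (P : MvPolynomial τ ℤ) : ∃ c : ℝ, 0 ≤ c ∧ ∀ x : τ → k, (∀ t, nv ν (x t) ≤ 1) →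
      nv ν (MvPolynomial.eval₂ (Int.castRingHom k) x P) ≤ c := by
  induction P using MvPolynomial.induction_on with
  | C a =>
    refine ⟨nv ν ((a : ℤ) : k), Pool.Agent.Helper64.Vojta.nv_nonneg _ _, fun x _ => ?_⟩
    rw [MvPolynomial.eval₂_C]
    exact le_refl _
  | add p q hp hq =>
    obtain ⟨c, hc, h1⟩ := hp
    obtain ⟨c', hc', h2⟩ := hq
    refine ⟨9 * (c + c'), by positivity, fun x hx => ?_⟩
    rw [MvPolynomial.eval₂_add]
    exact nv_add_d3 ν _ _ _ (by positivity) ((h1 x hx).trans (by linarith)) ((h2 x hx).trans (by linarith))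
  | mul_X p t hp =>
    obtain ⟨c, hc, h1⟩ := hp
    refine ⟨c, hc, fun x hx => ?_⟩
    rw [MvPolynomial.eval₂_mul, MvPolynomial.eval₂_X, Pool.Agent.Helper64.Vojta.nv_mul]
    calc nv ν (MvPolynomial.eval₂ (Int.castRingHom k) x p) * nv ν (x t) ≤ c * 1 :=
          mul_le_mul (h1 x hx) (hx t) (Pool.Agent.Helper64.Vojta.nv_nonneg _ _) hc
      _ = c := mul_one c

private noncomputable def gen_d3 (κ : Type) [Fintype κ] [DecidableEq κ] (r : ℕ) :
    MvPolynomial κ (MvPolynomial (κ →₀ ℕ) ℤ) :=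
  ∑ γ ∈ (Finset.univ : Finset κ).finsuppAntidiag r, MvPolynomial.monomial γ (MvPolynomial.X γ)

private theorem mem_S_d3 (κ : Type) [Fintype κ] [DecidableEq κ] (r : ℕ) (γ : κ →₀ ℕ) :
    γ ∈ (Finset.univ : Finset κ).finsuppAntidiag r ↔ γ.degree = r := by
  rw [Finset.mem_finsuppAntidiag]
  constructor
  · rintro ⟨h, _⟩
    rw [← h, Finsupp.degree_eq_sum]
  · intro h
    refine ⟨?_, Finset.subset_univ _⟩
    rw [← h, Finsupp.degree_eq_sum]

private theorem gen_hom_d3 (κ : Type) [Fintype κ] [DecidableEq κ] (r : ℕ) :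
    (gen_d3 κ r).IsHomogeneous r := by
  unfold gen_d3
  refine MvPolynomial.IsHomogeneous.sum _ _ _ fun γ hγ => ?_
  exact MvPolynomial.isHomogeneous_monomial _ ((mem_S_d3 κ r γ).1 hγ)

private theorem gen_map_d3 {k : Type u} [Field k] (κ : Type) [Fintype κ] [DecidableEq κ] (r : ℕ)
    (F : MvPolynomial κ k) (hF : F.IsHomogeneous r) :
    (gen_d3 κ r).map (MvPolynomial.eval₂Hom (Int.castRingHom k) fun γ => F.coeff γ) = F := by
  unfold gen_d3
  rw [map_sum]
  ext δ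
  rw [MvPolynomial.coeff_sum]
  simp only [MvPolynomial.map_monomial, MvPolynomial.coe_eval₂Hom, MvPolynomial.eval₂_X,
    MvPolynomial.coeff_monomial]
  by_cases hδ : δ ∈ (Finset.univ : Finset κ).finsuppAntidiag r
  · rw [Finset.sum_eq_single_of_mem δ hδ]
    · rw [if_pos rfl]
    · intro b _ hb
      rw [if_neg hb]
  · rw [Finset.sum_eq_zero]
    · by_contra hne
      apply hδ
      rw [mem_S_d3]
      have h1 := hF (d := δ) (fun h => hne h.symm)
      rw [← h1, Finsupp.degree_eq_weight_one, ← Pi.one_def]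
    · intro b hb
      rw [if_neg]
      rintro rfl
      exact hδ hb

private theorem bd_unit_d3 (k : Type u) [Field k] [NumberField k] (κ : Type) [Fintype κ] [DecidableEq κ]
    (r : ℕ) (hr : 1 ≤ r) (ν : Pl k) :
    ∃ c : ℝ, 1 ≤ c ∧ ∀ F : MvPolynomial κ k, F.IsHomogeneous r → F ≠ 0 →
      (∀ γ, nv ν (F.coeff γ) ≤ 1) → pn ν (dF F) ≤ c := by
  have hb := fun μ : (κ ⊕ κ) →₀ ℕ => bd_eval_d3 (k := k) ν ((dF (gen_d3 κ r)).coeff μ)
  choose c hc h using hb
  refine ⟨1 + ∑ μ ∈ (dF (gen_d3 κ r)).support, c μ,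
    le_add_of_nonneg_right (Finset.sum_nonneg fun μ _ => hc μ), fun F hF hF0 h1 => ?_⟩
  have hs0 : 0 ≤ ∑ μ ∈ (dF (gen_d3 κ r)).support, c μ := Finset.sum_nonneg fun μ _ => hc μ
  refine Pool.Agent.V2.pn_le _ _ (by linarith) fun μ => ?_
  have hm := dF_map (MvPolynomial.eval₂Hom (Int.castRingHom k) fun γ => F.coeff γ) hr (gen_d3 κ r)
    (gen_hom_d3 κ r) (by rw [gen_map_d3 κ r F hF]; exact hF0)
  rw [gen_map_d3 κ r F hF] at hm
  rw [← hm, MvPolynomial.coeff_map, MvPolynomial.coe_eval₂Hom]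
  by_cases hμ : μ ∈ (dF (gen_d3 κ r)).support
  · have h2 := h μ (fun γ => F.coeff γ) h1
    have h3 : c μ ≤ ∑ μ ∈ (dF (gen_d3 κ r)).support, c μ :=
      Finset.single_le_sum (f := c) (fun i _ => hc i) hμ
    linarith
  · rw [MvPolynomial.notMem_support_iff.1 hμ, MvPolynomial.eval₂_zero,
      Pool.Agent.Helper64.Vojta.nv_zero]
    linarith

theorem dF_up (k : Type u) [Field k] [NumberField k] (κ : Type) [Fintype κ] [DecidableEq κ]
    (r : ℕ) (hr : 1 ≤ r) (ν : Pl k) :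
    ∃ B : ℝ, ∀ F : MvPolynomial κ k, F.IsHomogeneous r → F ≠ 0 → dF F ≠ 0 →
      Real.log (pn ν (dF F)) ≤ (2 * (r : ℝ) - 2) * Real.log (pn ν F) + B := by
  obtain ⟨c, hc, h⟩ := bd_unit_d3 k κ r hr ν
  refine ⟨Real.log c, fun F hF hF0 hd => ?_⟩
  -- a coefficient of maximal value
  have hne : F.support.Nonempty := MvPolynomial.support_nonempty.2 hF0
  obtain ⟨γ₀, hγ₀, hmax⟩ := Finset.exists_max_image F.support (fun γ => nv ν (F.coeff γ)) hne
  have ha : F.coeff γ₀ ≠ 0 := MvPolynomial.mem_support_iff.1 hγ₀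
  have hmax' : ∀ γ, nv ν (F.coeff γ) ≤ nv ν (F.coeff γ₀) := by
    intro γ
    by_cases hγ : γ ∈ F.support
    · exact hmax γ hγ
    · rw [MvPolynomial.notMem_support_iff.1 hγ, Pool.Agent.Helper64.Vojta.nv_zero]
      exact Pool.Agent.Helper64.Vojta.nv_nonneg _ _
  have hpn : pn ν F = nv ν (F.coeff γ₀) :=
    le_antisymm (Pool.Agent.V2.pn_le _ _ (Pool.Agent.Helper64.Vojta.nv_nonneg _ _) hmax')
      (Pool.Agent.V2.le_pn _ _ _)
  set a := F.coeff γ₀ with hadef
  have hapos : 0 < nv ν a := Pool.Agent.Helper64.Vojta.nv_pos ν ha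
  set F' : MvPolynomial κ k := MvPolynomial.C a⁻¹ * F with hF'
  have hF'h : F'.IsHomogeneous r := by
    have := (MvPolynomial.isHomogeneous_C κ (a⁻¹)).mul hF
    rwa [zero_add] at this
  have hFF' : F = MvPolynomial.C a * F' := by
    rw [hF', ← mul_assoc, ← MvPolynomial.C_mul, mul_inv_cancel₀ ha, MvPolynomial.C_1, one_mul]
  have hF'0 : F' ≠ 0 := by
    intro h0
    apply hF0
    rw [hFF', h0, mul_zero]
  have h1 : pn ν (dF F') ≤ c := by
    refine h F' hF'h hF'0 fun γ => ?_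
    rw [hF', MvPolynomial.coeff_C_mul, Pool.Agent.Helper64.Vojta.nv_mul,
      Pool.Agent.Helper64.Vojta.nv_inv, inv_mul_le_iff₀ hapos, mul_one]
    exact hmax' γ
  have h2 : pn ν (dF F) ≤ nv ν a ^ (2 * r - 2) * c := by
    refine Pool.Agent.V2.pn_le _ _ (by positivity) fun μ => ?_
    rw [hFF', dF_C_mul hr a ha F' hF'h hF'0, ← MvPolynomial.C_pow, MvPolynomial.coeff_C_mul,
      Pool.Agent.Helper64.Vojta.nv_mul]
    have h3 : nv ν (a ^ (2 * r - 2)) = nv ν a ^ (2 * r - 2) := by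
      generalize 2 * r - 2 = n
      induction n with
      | zero => rw [pow_zero, pow_zero, Pool.Agent.Helper64.Vojta.nv_one]
      | succ n ih => rw [pow_succ, pow_succ, Pool.Agent.Helper64.Vojta.nv_mul, ih]
    rw [h3]
    exact mul_le_mul_of_nonneg_left ((Pool.Agent.V2.le_pn _ _ μ).trans h1) (by positivity)
  have hdp : 0 < pn ν (dF F) := Pool.Agent.V2.pn_pos ν hd
  have h4 := Real.log_le_log hdp h2
  rw [Real.log_mul (by positivity) (by positivity), Real.log_pow] at h4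
  rw [hpn]
  refine h4.trans (le_of_eq ?_)
  have h5 : 2 ≤ 2 * r := by omega
  rw [Nat.cast_sub h5]
  push_cast
  ring

end Pool.Agent.Helper16.VG
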