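import Pool.Agent.Helper16.VG.Defs
import Pool.Agent.Helper16.UP.DTerm

/-!
# Block VG-D2: the proximity to a divisor given by several forms

MODEL: UP/DTerm.lean (`dterm`; `eval_le_h32` is private, copy it).
PROOF. First inequality: `q * loc_low` at `ν` and `log (vn ν (norms)) ≤ ∑_{w ∣ ν} log (vn w (g_i(y))_i) + C`: for every `t ≤ ν' * r` `nv w (aeval y (gt g t)) = nv w (∑ t ^ i g_i(y)) ≤ c * vn w (g_i(y))_i` (`nv_sum_le`; `t ^ i` is an integer),
`nv ν (norm z) = ∏_{w ∣ ν} nv w z` (`nv_norm`), and the vector of the norms is not zero: some `g_i(y) ≠ 0`, so `∑ t ^ i g_i(y)` is a nonzero polynomial in `t` of degree `< ν'` and does not vanish for all `t ≤ ν' * r`.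
Second: `nv w (aeval y (gt g t)) ≤ c * vn w y ^ q` (as in `dterm`), so `log (vn ν (norms)) ≤ q ∑_{w ∣ ν} log (vn w y) + C ≤ q log (pn ν (chow k y)) + C'` (`loc_low`).
-/

namespace Pool.Agent.Helper16.VG

open NumberField Finset
open Pool.Agent.Helper64.Vojta (Pl nv sn above)
open Pool.Agent.V2 (vn vH pn pH gsum FinS)
open Pool.Agent.Helper16.UP (chow)
open MvPolynomial (aeval)
open Pool.Agent.Helper52.Vojta (nv_above nv_norm ldeg sum_ldeg)
open Pool.Agent.Helper64.Vojta (card_above_le)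
open Pool.Agent.Helper16.UP (dterm loc_low)

universe u

private theorem eval_le_h52 (k : Type u) [Field k] [NumberField k] {κ : Type} [Fintype κ]
    (g : MvPolynomial κ k) (q : ℕ) (hg : g.IsHomogeneous q) (ν : Pl k) (r : ℕ) :
    ∃ c : ℝ, 1 ≤ c ∧ ∀ (L : Type u) [Field L] [NumberField L] [Algebra k L],
      Module.finrank k L = r → ∀ y : κ → L, ∀ w ∈ above L ν, nv w (aeval y g) ≤ c * vn w y ^ q := by
  classical
  obtain ⟨A, hA⟩ : ∃ A : ℝ, A = 1 + ∑ m ∈ g.support, (max 1 (nv ν (g.coeff m))) ^ r := ⟨_, rfl⟩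
  have hA0 : ∀ m ∈ g.support, 0 ≤ (max 1 (nv ν (g.coeff m))) ^ r := fun m _ => by positivity
  have hA1 : 1 ≤ A := by
    rw [hA]
    have := Finset.sum_nonneg hA0
    linarith
  have hle : ∀ m ∈ g.support, (max 1 (nv ν (g.coeff m))) ^ r ≤ A := by
    intro m hm
    rw [hA]
    have := Finset.single_le_sum hA0 hm
    linarith
  have hcard : (1 : ℝ) ≤ ((g.support.card : ℝ) + 1) ^ 2 := by
    have : (0 : ℝ) ≤ g.support.card := Nat.cast_nonneg _
    nlinarith
  refine ⟨((g.support.card : ℝ) + 1) ^ 2 * A, by nlinarith, ?_⟩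
  intro L _ _ _ hr y w hw
  have hvn : 0 ≤ vn w y := by
    unfold vn
    exact Real.iSup_nonneg fun i => Pool.Agent.Helper64.Vojta.nv_nonneg w _
  rw [MvPolynomial.aeval_def, MvPolynomial.eval₂_eq', mul_assoc]
  refine Pool.Agent.Helper64.Vojta.nv_sum_le w _ _ _ (by positivity) fun m hm => ?_
  rw [Pool.Agent.Helper64.Vojta.nv_mul]
  have hdeg : ∑ j, m j = q := by
    rw [← Finsupp.degree_eq_sum]
    by_contra h
    exact (MvPolynomial.mem_support_iff.1 hm) (hg.coeff_eq_zero h)
  have h1 : nv w (algebraMap k L (g.coeff m)) ≤ A := by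
    rw [nv_above hw]
    refine le_trans ?_ (hle m hm)
    have h2 : ldeg ν w ≤ r := by
      rw [← hr, ← sum_ldeg (L' := L) ν]
      exact Finset.single_le_sum (f := fun w => ldeg ν w) (fun _ _ => Nat.zero_le _) hw
    calc nv ν (g.coeff m) ^ ldeg ν w ≤ (max 1 (nv ν (g.coeff m))) ^ ldeg ν w := by
          have := Pool.Agent.Helper64.Vojta.nv_nonneg ν (g.coeff m)
          gcongr
          exact le_max_right _ _
      _ ≤ _ := pow_le_pow_right₀ (le_max_left _ _) h2
  have h3 : nv w (∏ j, y j ^ m j) ≤ vn w y ^ q := by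
    have e : nv w (∏ j, y j ^ m j) = ∏ j, nv w (y j) ^ m j := by
      have hpow : ∀ (x : L) (n : ℕ), nv w (x ^ n) = nv w x ^ n := by
        intro x n
        induction n with
        | zero => simp [Pool.Agent.Helper64.Vojta.nv_one]
        | succ n ih => rw [pow_succ, Pool.Agent.Helper64.Vojta.nv_mul, ih, pow_succ]
      have hprod : ∀ (s : Finset κ) (f : κ → L), nv w (∏ j ∈ s, f j) = ∏ j ∈ s, nv w (f j) := by
        intro s f
        induction s using Finset.induction_on with
        | empty => simp [Pool.Agent.Helper64.Vojta.nv_one]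
        | insert a s ha ih => rw [Finset.prod_insert ha, Finset.prod_insert ha, Pool.Agent.Helper64.Vojta.nv_mul, ih]
      rw [hprod]
      exact Finset.prod_congr rfl fun j _ => hpow _ _
    rw [e, ← hdeg, ← Finset.prod_pow_eq_pow_sum]
    refine Finset.prod_le_prod (fun j _ => pow_nonneg (Pool.Agent.Helper64.Vojta.nv_nonneg w _) _) fun j _ => ?_
    have := Pool.Agent.Helper64.Vojta.nv_nonneg w (y j)
    gcongr
    exact Pool.Agent.V2.le_vn w y j
  exact mul_le_mul h1 h3 (Pool.Agent.Helper64.Vojta.nv_nonneg w _) (by linarith)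

private theorem gt_hom52 {k : Type u} [Field k] {κ : Type} [Fintype κ] [DecidableEq κ]
    {n : ℕ} (g : Fin n → MvPolynomial κ k) (q : ℕ) (hg : ∀ i, (g i).IsHomogeneous q) (t : ℕ) :
    (gt g t).IsHomogeneous q := by
  unfold gt
  refine MvPolynomial.IsHomogeneous.sum _ _ _ fun i _ => ?_
  exact (hg i).C_mul _

private theorem gt_eval52 {k L : Type u} [Field k] [Field L] [Algebra k L] {κ : Type} [Fintype κ]
    [DecidableEq κ] {n : ℕ} (g : Fin n → MvPolynomial κ k) (t : ℕ) (y : κ → L) :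
    aeval y (gt g t) = ∑ i : Fin n, (t : L) ^ (i : ℕ) * aeval y (g i) := by
  unfold gt
  rw [map_sum]
  refine Finset.sum_congr rfl fun i _ => ?_
  rw [map_mul]
  simp

private theorem lin_eval52 {k L : Type u} [Field k] [Field L] [Algebra k L] 
    {n : ℕ} (t : ℕ) (z : Fin n → L) :
    aeval z (gt (fun i : Fin n => (MvPolynomial.X i : MvPolynomial (Fin n) k)) t) =
      ∑ i : Fin n, (t : L) ^ (i : ℕ) * z i := by
  rw [gt_eval52]
  simp

/-- One of the norms is not zero. -/
theorem exists_gt_ne (k : Type u) [Field k] [NumberField k] (κ : Type) [Fintype κ] [DecidableEq κ]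
    (r : ℕ) (hr : 1 ≤ r) {n : ℕ} (g : Fin n → MvPolynomial κ k) (L : Type u) [Field L]
    [NumberField L] [Algebra k L] [FiniteDimensional k L] (y : κ → L)
    (h : ∃ i, aeval y (g i) ≠ 0) :
    ∃ t : Fin (n * r + 1), Algebra.norm k (aeval y (gt g t)) ≠ 0 := by
  classical
  by_contra hcon
  push Not at hcon
  have h1 : ∀ t : Fin (n * r + 1), ∑ i : Fin n, ((t : ℕ) : L) ^ (i : ℕ) * aeval y (g i) = 0 := by
    intro t
    have h2 := hcon t
    rw [Algebra.norm_eq_zero_iff] at h2
    rw [← gt_eval52 g t y]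
    exact h2
  have hn : n ≤ n * r := by nlinarith
  have h2 : (fun i : Fin n => aeval y (g i)) = 0 := by
    refine Matrix.eq_zero_of_mulVec_eq_zero (M := Matrix.vandermonde (fun t : Fin n => ((t : ℕ) : L))) ?_ ?_
    · rw [Matrix.det_vandermonde_ne_zero_iff]
      intro a b hab
      have : ((a : ℕ) : L) = ((b : ℕ) : L) := hab
      exact Fin.ext (Nat.cast_injective this)
    · funext t
      have h3 := h1 ⟨t, by have := t.2; omega⟩
      simpa [Matrix.mulVec, dotProduct, Matrix.vandermonde_apply] using h3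
  obtain ⟨i, hi⟩ := h
  exact hi (congrFun h2 i)

theorem dtermG (k : Type u) [Field k] [NumberField k] (κ : Type) [Fintype κ] [DecidableEq κ]
    (r : ℕ) (hr : 1 ≤ r) {n : ℕ} (g : Fin n → MvPolynomial κ k) (q : ℕ)
    (hg : ∀ i, (g i).IsHomogeneous q) (ν : Pl k) :
    ∃ C : ℝ, ∀ (L : Type u) [Field L] [NumberField L] [Algebra k L] [FiniteDimensional k L],
      Module.finrank k L = r → ∀ y : κ → L, (∃ j, y j ≠ 0) → (∃ i, aeval y (g i) ≠ 0) →
      ∑ w ∈ above L ν, (q * Real.log (vn w y) - Real.log (vn w fun i => aeval y (g i))) ≤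
        q * Real.log (pn ν (chow k y)) -
          Real.log (vn ν fun t : Fin (n * r + 1) => Algebra.norm k (aeval y (gt g t))) + C ∧
      -C ≤ q * Real.log (pn ν (chow k y)) -
        Real.log (vn ν fun t : Fin (n * r + 1) => Algebra.norm k (aeval y (gt g t))) := by
  classical
  obtain ⟨C1, -, hC1⟩ := loc_low k κ r hr
  choose c hc1 hc using fun t : Fin (n * r + 1) => eval_le_h52 k
    (gt (fun i : Fin n => (MvPolynomial.X i : MvPolynomial (Fin n) k)) t) 1
    (gt_hom52 _ 1 (fun i => MvPolynomial.isHomogeneous_X k i) t) ν r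
  choose C2 hC2 using fun t : Fin (n * r + 1) => dterm k κ r hr (gt g t) q (gt_hom52 g q hg t) ν
  have hlc : ∀ t, 0 ≤ Real.log (c t) := fun t => Real.log_nonneg (hc1 t)
  have hrc : ∀ t, 0 ≤ (r : ℝ) * Real.log (c t) := fun t => mul_nonneg (Nat.cast_nonneg r) (hlc t)
  have hrs : 0 ≤ ∑ t, (r : ℝ) * Real.log (c t) := Finset.sum_nonneg fun t _ => hrc t
  have hCs : 0 ≤ ∑ t, |C2 t| := Finset.sum_nonneg fun t _ => abs_nonneg _
  refine ⟨q * |C1 ν| + ∑ t, (r : ℝ) * Real.log (c t) + ∑ t, |C2 t|, ?_⟩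
  intro L _ _ _ _ hL y hy hne
  have hq0 : 0 ≤ (q : ℝ) * |C1 ν| := by positivity
  obtain ⟨t₀, ht₀⟩ := exists_gt_ne k κ r hr g L y hne
  set f : Fin (n * r + 1) → k := fun t => Algebra.norm k (aeval y (gt g t)) with hf
  obtain ⟨t, ht⟩ := exists_eq_ciSup_of_finite (f := fun t => nv ν (f t))
  have ht' : vn ν f = nv ν (f t) := ht.symm
  have hf0 : f ≠ 0 := fun h => ht₀ (congrFun h t₀)
  have hvf : 0 < vn ν f := Pool.Agent.V2.vn_pos ν hf0
  have hft : f t ≠ 0 := by
    intro h
    rw [ht', h, Pool.Agent.Helper64.Vojta.nv_zero] at hvf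
    exact lt_irrefl _ hvf
  have hne' : aeval y (gt g t) ≠ 0 := by
    intro h
    apply hft
    simp only [hf, h]
    exact Algebra.norm_eq_zero_iff.mpr rfl
  have h1 := hC1 L hL y hy ν
  have h2 : (q : ℝ) * ∑ w ∈ above L ν, Real.log (vn w y) ≤ q * Real.log (pn ν (chow k y)) + q * |C1 ν| := by
    rw [← mul_add]
    refine mul_le_mul_of_nonneg_left (h1.trans ?_) (Nat.cast_nonneg q)
    have := le_abs_self (C1 ν)
    linarith
  have h3 : Real.log (nv ν (f t)) = ∑ w ∈ above L ν, Real.log (nv w (aeval y (gt g t))) := by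
    simp only [hf]
    rw [nv_norm]
    exact Real.log_prod fun w _ => (Pool.Agent.Helper64.Vojta.nv_pos w hne').ne'
  have hz0 : (fun i => aeval y (g i)) ≠ 0 := by
    obtain ⟨i, hi⟩ := hne
    intro h
    exact hi (congrFun h i)
  have h4 : ∑ w ∈ above L ν, Real.log (nv w (aeval y (gt g t))) ≤
      r * Real.log (c t) + ∑ w ∈ above L ν, Real.log (vn w fun i => aeval y (g i)) := by
    calc ∑ w ∈ above L ν, Real.log (nv w (aeval y (gt g t))) ≤
        ∑ w ∈ above L ν, (Real.log (c t) + Real.log (vn w fun i => aeval y (g i))) := by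
          refine Finset.sum_le_sum fun w hw => ?_
          have h5 := hc t L hL (fun i => aeval y (g i)) w hw
          rw [lin_eval52, ← gt_eval52 g t y, pow_one] at h5
          have hvn : 0 < vn w (fun i => aeval y (g i)) := Pool.Agent.V2.vn_pos w hz0
          have h6 := Real.log_le_log (Pool.Agent.Helper64.Vojta.nv_pos w hne') h5
          rwa [Real.log_mul (by linarith [hc1 t]) (by positivity)] at h6
      _ = (above L ν).card * Real.log (c t) + ∑ w ∈ above L ν, Real.log (vn w fun i => aeval y (g i)) := by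
          rw [Finset.sum_add_distrib, Finset.sum_const, nsmul_eq_mul]
      _ ≤ _ := by
          have h7 : ((above L ν).card : ℝ) ≤ r := by
            rw [← hL]
            exact_mod_cast card_above_le (L := L) ν
          have := mul_le_mul_of_nonneg_right h7 (hlc t)
          linarith
  have h8 : (r : ℝ) * Real.log (c t) ≤ ∑ t, (r : ℝ) * Real.log (c t) :=
    Finset.single_le_sum (f := fun t => (r : ℝ) * Real.log (c t)) (fun t _ => hrc t) (Finset.mem_univ t)
  have h9 : |C2 t| ≤ ∑ t, |C2 t| :=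
    Finset.single_le_sum (f := fun t => |C2 t|) (fun t _ => abs_nonneg _) (Finset.mem_univ t)
  constructor
  · rw [Finset.sum_sub_distrib, ← Finset.mul_sum, ht', h3]
    linarith
  · have h10 := (hC2 t L hL y hy hne').2
    rw [ht']
    have h11 := le_abs_self (C2 t)
    simp only [hf]
    linarith

end Pool.Agent.Helper16.VG
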