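import Pool.Agent.Helper16.VG.DFa
import Pool.Agent.Helper16.UP.DeltaF
import Pool.Agent.Helper16.UP.Chow
import Pool.Agent.Helper16.UP.DiscEq

/-!
# Block VG-D4: the discriminant of the conjugates and the discriminant of the field

MODEL: UP/DeltaF.lean (`delta_forms`, `odd_dsc`), `Helper61/AD/DeltaLe.lean` (`odd_ram`, `sum_ram` in Helper61/AD/Ram.lean).
PROOF. `F = chow k y` (form of degree `r`, `≠ 0`, `F(h) = norm (∑ h_j y_j)`: `eval_chow`), over `AlgebraicClosure k`: `F = ∏_σ lf (σ y)` (`chow_split`), the points `σ y` are distinct (`y` generates `L`), so `dF F ≠ 0` (`dF_map`, `dF_dec`, `brk (x) (y) ≠ 0` if `x o = y o = 1`, `x ≠ y`).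
(a) For `h, c : κ → ℕ` with `N(h) := norm (∑ h_j y_j) ≠ 0` let `z = ∑ c_j y_j / ∑ h_j y_j`; then `eval (h, c) (dF F) = ± N(h) ^ (2 r - 2) * dsc k r z` (evaluate `dF_dec`: `∏_σ ∏_{τ ≠ σ} (c(σy) h(τy) - c(τy) h(σy)) = ∏ ∏ h(σy) h(τy) (σz - τz)`; `Algebra.discr` of the powers of `z`, see UP/DiscEq.lean).
(b) Let `P = (rename inl F) * dF F`, homogeneous of degree `r + 2 (r - 1) r` in `2 card κ` variables. By interpolation (see `interp_h12` in UP/LocU.lean: every coefficient of a form is a combination, with rational coefficients depending only on the degree, of the values at finitely many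
vectors of natural numbers) there is a finite set `S1` of finite places of `k`, depending only on `k, κ, r`, such that for `v ∉ S1` there is an `(h, c)` with natural coordinates with `|P|_v = |P(h, c)|_v`. For finite `v` `|P|_v = |F|_v |dF F|_v` (Gauss, `pn` is multiplicative at finite places) and `|F(h)|_v ≤ |F|_v`,
`|dF F (h, c)|_v ≤ |dF F|_v`, all not zero, so both are equalities: `F(h) ≠ 0` and `|dF F|_v = |eval (h, c) (dF F)|_v = |N(h)|_v ^ (2 r - 2) |dsc k r z|_v`. (c) So if `o_v` (the integer with `o_v log N v = (2 r - 2) log |F|_v - log |dF F|_v`) is odd and `v ∉ S1`, then the order of `dsc k r z` at `v` is odd,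
so `v` ramifies in `L` (`odd_dsc`, `odd_ram`). Hence `o_v log N v ≤ 2 ⌊o_v / 2⌋ log N v + (log N v if v ∈ S1) + (log N v if v is ramified)`; `sum_ram`; `C = ∑_{v ∈ S1} log N v`.
-/

namespace Pool.Agent.Helper16.VG

open NumberField Finset
open Pool.Agent.Helper64.Vojta (Pl nv sn above)
open Pool.Agent.V2 (vn vH pn pH gsum FinS)
open Pool.Agent.Helper16.UP (chow)

universe u

namespace DI

section local_

variable {k : Type*} [Field k] [NumberField k]

theorem nv_nat_le (v : FinitePlace k) (n : ℕ) : nv (.inr v) (n : k) ≤ 1 := by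
  have h := Pool.Agent.Helper64.Vojta.nv_int_le_one v (n : 𝓞 k)
  simpa using h

theorem nv_add_le (v : FinitePlace k) (a b : k) :
    nv (.inr v) (a + b) ≤ max (nv (.inr v) a) (nv (.inr v) b) := by
  have h := Pool.Agent.Helper64.Vojta.nv_sum_le_inr v (Finset.univ : Finset (Fin 2)) ![a, b]
    (max (nv (.inr v) a) (nv (.inr v) b))
    (le_max_of_le_left (Pool.Agent.Helper64.Vojta.nv_nonneg _ _)) (by
      intro i _
      fin_cases i
      · exact le_max_left _ _
      · exact le_max_right _ _)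
  simpa using h

theorem nv_neg (v : FinitePlace k) (a : k) : nv (.inr v) (-a) = nv (.inr v) a := by
  have h1 : nv (.inr v : Pl k) (-1 : k) * nv (.inr v) (-1 : k) = 1 := by
    rw [← Pool.Agent.Helper64.Vojta.nv_mul]
    simp [Pool.Agent.Helper64.Vojta.nv_one]
  have h0 := Pool.Agent.Helper64.Vojta.nv_nonneg (.inr v : Pl k) (-1 : k)
  have h2 : nv (.inr v : Pl k) (-1 : k) = 1 := by nlinarith
  rw [← neg_one_mul, Pool.Agent.Helper64.Vojta.nv_mul, h2, one_mul]

/-- The valuation ring. -/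
def vr (v : FinitePlace k) : Subring k where
  carrier := {x | nv (.inr v) x ≤ 1}
  mul_mem' := by
    intro a b ha hb
    rw [Set.mem_setOf_eq] at ha hb ⊢
    rw [Pool.Agent.Helper64.Vojta.nv_mul]
    exact mul_le_one₀ ha (Pool.Agent.Helper64.Vojta.nv_nonneg _ _) hb
  one_mem' := (Pool.Agent.Helper64.Vojta.nv_one _).le
  add_mem' := by
    intro a b ha hb
    exact (nv_add_le v a b).trans (max_le ha hb)
  zero_mem' := by
    rw [Set.mem_setOf_eq, Pool.Agent.Helper64.Vojta.nv_zero]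
    exact zero_le_one
  neg_mem' := by
    intro a ha
    rw [Set.mem_setOf_eq] at ha ⊢
    rwa [nv_neg]

/-- The maximal ideal. -/
def mi (v : FinitePlace k) : Ideal (vr v) where
  carrier := {x | nv (.inr v) (x : k) < 1}
  add_mem' := by
    intro a b ha hb
    exact (nv_add_le v a b).trans_lt (max_lt ha hb)
  zero_mem' := by
    rw [Set.mem_setOf_eq, ZeroMemClass.coe_zero, Pool.Agent.Helper64.Vojta.nv_zero]
    exact zero_lt_one
  smul_mem' := by
    intro a b hb
    rw [Set.mem_setOf_eq] at hb ⊢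
    rw [smul_eq_mul, Subring.coe_mul, Pool.Agent.Helper64.Vojta.nv_mul]
    have ha : nv (.inr v) (a : k) ≤ 1 := a.2
    calc _ ≤ 1 * nv (.inr v) (b : k) :=
          mul_le_mul_of_nonneg_right ha (Pool.Agent.Helper64.Vojta.nv_nonneg _ _)
      _ < 1 := by rwa [one_mul]

theorem mem_mi (v : FinitePlace k) (x : vr v) : x ∈ mi v ↔ nv (.inr v) (x : k) < 1 := Iff.rfl

theorem mi_prime (v : FinitePlace k) : (mi v).IsPrime := by
  refine ⟨fun h => ?_, fun {x y} hxy => ?_⟩
  · have h1 : (1 : vr v) ∈ mi v := by rw [h]; trivial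
    rw [mem_mi, Subring.coe_one, Pool.Agent.Helper64.Vojta.nv_one] at h1
    exact lt_irrefl _ h1
  · by_contra h
    push Not at h
    rw [mem_mi, not_lt, mem_mi, not_lt] at h
    rw [mem_mi, Subring.coe_mul, Pool.Agent.Helper64.Vojta.nv_mul] at hxy
    exact absurd hxy (not_lt.mpr (one_le_mul_of_one_le_of_one_le h.1 h.2))

theorem pn_nonneg (v : Pl k) {σ : Type*} (F : MvPolynomial σ k) : 0 ≤ pn v F :=
  Real.iSup_nonneg fun _ => Pool.Agent.Helper64.Vojta.nv_nonneg v _

theorem exists_lift (v : FinitePlace k) {σ : Type*} (F : MvPolynomial σ k)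
    (h : ∀ d, nv (.inr v) (F.coeff d) ≤ 1) :
    ∃ F₁ : MvPolynomial σ (vr v), F₁.map (vr v).subtype = F := by
  refine ⟨∑ d ∈ F.support, MvPolynomial.monomial d ⟨F.coeff d, h d⟩, ?_⟩
  rw [map_sum]
  conv_rhs => rw [← F.support_sum_monomial_coeff]
  refine Finset.sum_congr rfl fun d _ => ?_
  rw [MvPolynomial.map_monomial]
  rfl

/-- Gauss, normalised. -/
theorem gauss1 (v : FinitePlace k) {σ : Type*} (F D : MvPolynomial σ k)
    (hF : ∀ d, nv (.inr v) (F.coeff d) ≤ 1) (hD : ∀ d, nv (.inr v) (D.coeff d) ≤ 1)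
    (hF1 : ∃ d, F.coeff d = 1) (hD1 : ∃ d, D.coeff d = 1) : 1 ≤ pn (.inr v) (F * D) := by
  obtain ⟨F₁, rfl⟩ := exists_lift v F hF
  obtain ⟨D₁, rfl⟩ := exists_lift v D hD
  have hp := mi_prime v
  let π := Ideal.Quotient.mk (mi v)
  have hne : ∀ G : MvPolynomial σ (vr v), (∃ d, (G.map (vr v).subtype).coeff d = 1) →
      G.map π ≠ 0 := by
    rintro G ⟨d, hd⟩ h
    have h1 := congrArg (fun Q => MvPolynomial.coeff d Q) h
    simp only [MvPolynomial.coeff_map, MvPolynomial.coeff_zero] at h1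
    rw [MvPolynomial.coeff_map] at hd
    have h2 : G.coeff d = 1 := Subtype.ext hd
    rw [h2, map_one] at h1
    exact one_ne_zero h1
  have h3 : (F₁ * D₁).map π ≠ 0 := by
    rw [map_mul]
    exact mul_ne_zero (hne F₁ hF1) (hne D₁ hD1)
  obtain ⟨d, hd⟩ := MvPolynomial.ne_zero_iff.mp h3
  rw [MvPolynomial.coeff_map] at hd
  have h4 : (F₁ * D₁).coeff d ∉ mi v := fun h => hd (Ideal.Quotient.eq_zero_iff_mem.mpr h)
  rw [mem_mi, not_lt] at h4
  refine h4.trans ?_
  have h5 := Pool.Agent.V2.le_pn (.inr v) (F₁.map (vr v).subtype * D₁.map (vr v).subtype) d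
  rw [← map_mul, MvPolynomial.coeff_map] at h5
  rw [← map_mul]
  exact h5

theorem exists_coeff {σ : Type*} [Fintype σ] (v : Pl k) {F : MvPolynomial σ k} (hF : F ≠ 0) :
    ∃ γ, nv v (F.coeff γ) = pn v F ∧ F.coeff γ ≠ 0 := by
  obtain ⟨δ, hδ⟩ := MvPolynomial.ne_zero_iff.mp hF
  have : Nonempty F.support := ⟨⟨δ, MvPolynomial.mem_support_iff.mpr hδ⟩⟩
  obtain ⟨γ, hγ⟩ : ∃ γ : F.support, nv v (F.coeff γ) = vn v fun γ : F.support => F.coeff γ :=
    exists_eq_ciSup_of_finite (f := fun γ : F.support => nv v (F.coeff γ))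
  refine ⟨γ, ?_, MvPolynomial.mem_support_iff.mp γ.2⟩
  rw [hγ, ← Pool.Agent.Helper16.UP.DF21.pn_eq]

theorem pn_C_mul' {σ : Type*} (v : Pl k) (w : k) (F : MvPolynomial σ k) :
    pn v (MvPolynomial.C w * F) = nv v w * pn v F := by
  unfold pn
  rw [Real.mul_iSup_of_nonneg (Pool.Agent.Helper64.Vojta.nv_nonneg v w)]
  refine iSup_congr fun d => ?_
  rw [MvPolynomial.coeff_C_mul, Pool.Agent.Helper64.Vojta.nv_mul]

theorem gauss {σ : Type*} [Fintype σ] (v : FinitePlace k) {F D : MvPolynomial σ k} (hF : F ≠ 0)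
    (hD : D ≠ 0) : pn (.inr v) F * pn (.inr v) D ≤ pn (.inr v) (F * D) := by
  obtain ⟨γ, hγ, hγ0⟩ := exists_coeff (.inr v : Pl k) hF
  obtain ⟨δ, hδ, hδ0⟩ := exists_coeff (.inr v : Pl k) hD
  have hp1 := Pool.Agent.Helper64.Vojta.nv_pos (.inr v : Pl k) hγ0
  have hp2 := Pool.Agent.Helper64.Vojta.nv_pos (.inr v : Pl k) hδ0
  have h1 := gauss1 v (MvPolynomial.C (F.coeff γ)⁻¹ * F) (MvPolynomial.C (D.coeff δ)⁻¹ * D)
    (by
      intro d
      rw [MvPolynomial.coeff_C_mul, Pool.Agent.Helper64.Vojta.nv_mul,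
        Pool.Agent.Helper64.Vojta.nv_inv, inv_mul_le_iff₀ hp1, mul_one, hγ]
      exact Pool.Agent.V2.le_pn _ F d)
    (by
      intro d
      rw [MvPolynomial.coeff_C_mul, Pool.Agent.Helper64.Vojta.nv_mul,
        Pool.Agent.Helper64.Vojta.nv_inv, inv_mul_le_iff₀ hp2, mul_one, hδ]
      exact Pool.Agent.V2.le_pn _ D d)
    ⟨γ, by rw [MvPolynomial.coeff_C_mul, inv_mul_cancel₀ hγ0]⟩
    ⟨δ, by rw [MvPolynomial.coeff_C_mul, inv_mul_cancel₀ hδ0]⟩
  have h2 : MvPolynomial.C (F.coeff γ)⁻¹ * F * (MvPolynomial.C (D.coeff δ)⁻¹ * D) =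
      MvPolynomial.C (F.coeff γ)⁻¹ * (MvPolynomial.C (D.coeff δ)⁻¹ * (F * D)) := by ring
  rw [h2, pn_C_mul', pn_C_mul', Pool.Agent.Helper64.Vojta.nv_inv,
    Pool.Agent.Helper64.Vojta.nv_inv, hγ, hδ] at h1
  rw [hγ] at hp1
  rw [hδ] at hp2
  rw [le_inv_mul_iff₀ hp1, mul_one, le_inv_mul_iff₀ hp2] at h1
  linarith [mul_comm (pn (.inr v : Pl k) F) (pn (.inr v : Pl k) D)]

theorem eval_le {σ : Type*} (v : FinitePlace k) (F : MvPolynomial σ k) (u : σ → ℕ) :
    nv (.inr v) (MvPolynomial.eval (fun j => (u j : k)) F) ≤ pn (.inr v) F := by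
  rw [MvPolynomial.eval_eq]
  refine Pool.Agent.Helper64.Vojta.nv_sum_le_inr v _ _ _ (pn_nonneg _ _) fun d _ => ?_
  have h1 : ∏ i ∈ d.support, ((u i : ℕ) : k) ^ d i = ((∏ i ∈ d.support, u i ^ d i : ℕ) : k) := by
    push_cast
    rfl
  rw [h1, Pool.Agent.Helper64.Vojta.nv_mul]
  calc nv (.inr v) (F.coeff d) * nv (.inr v) ((∏ i ∈ d.support, u i ^ d i : ℕ) : k)
      ≤ pn (.inr v) F * 1 :=
        mul_le_mul (Pool.Agent.V2.le_pn _ _ _) (nv_nat_le v _)
          (Pool.Agent.Helper64.Vojta.nv_nonneg _ _) (pn_nonneg _ _)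
    _ = _ := mul_one _

theorem local_eq {κ : Type*} [Fintype κ] (v : FinitePlace k) {F : MvPolynomial κ k}
    {D : MvPolynomial (κ ⊕ κ) k} (hF : F ≠ 0) (hD : D ≠ 0) (u : κ ⊕ κ → ℕ)
    (hu : pn (.inr v) (MvPolynomial.rename Sum.inl F * D) ≤
      nv (.inr v) (MvPolynomial.eval (fun j => (u j : k)) (MvPolynomial.rename Sum.inl F * D))) :
    MvPolynomial.eval (fun j => (u (Sum.inl j) : k)) F ≠ 0 ∧
      nv (.inr v) (MvPolynomial.eval (fun j => (u j : k)) D) = pn (.inr v) D := by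
  have hF' : MvPolynomial.rename Sum.inl F ≠ (0 : MvPolynomial (κ ⊕ κ) k) := by
    intro h
    apply hF
    apply MvPolynomial.rename_injective (Sum.inl : κ → κ ⊕ κ) Sum.inl_injective
    rw [h, map_zero]
  have h1 := gauss v hF' hD
  rw [map_mul, Pool.Agent.Helper64.Vojta.nv_mul] at hu
  have h2 := eval_le v (MvPolynomial.rename Sum.inl F : MvPolynomial (κ ⊕ κ) k) u
  have h3 := eval_le v D u
  have hp1 := Pool.Agent.V2.pn_pos (.inr v : Pl k) hF'
  have hp2 := Pool.Agent.V2.pn_pos (.inr v : Pl k) hD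
  have h4 := Pool.Agent.Helper64.Vojta.nv_nonneg (.inr v : Pl k)
    (MvPolynomial.eval (fun j => (u j : k)) D)
  have h5 : MvPolynomial.eval (fun j => (u j : k)) (MvPolynomial.rename Sum.inl F) =
      MvPolynomial.eval (fun j => (u (Sum.inl j) : k)) F := by
    rw [MvPolynomial.eval_rename]
    rfl
  constructor
  · rw [← h5]
    intro h
    rw [h, Pool.Agent.Helper64.Vojta.nv_zero, zero_mul] at hu
    have := mul_pos hp1 hp2
    linarith
  · apply le_antisymm h3
    have h6 : pn (.inr v : Pl k) (MvPolynomial.rename Sum.inl F : MvPolynomial (κ ⊕ κ) k) *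
        pn (.inr v) D ≤ pn (.inr v : Pl k) (MvPolynomial.rename Sum.inl F : MvPolynomial (κ ⊕ κ) k) *
        nv (.inr v) (MvPolynomial.eval (fun j => (u j : k)) D) :=
      h1.trans (hu.trans (mul_le_mul_of_nonneg_right h2 h4))
    exact le_of_mul_le_mul_left h6 hp1

theorem interp {k : Type*} [Field k] [CharZero k] {κ : Type*} [Fintype κ] (r : ℕ)
    (γ : κ →₀ ℕ) : ∃ c : (κ → ℕ) →₀ k, ∀ F : MvPolynomial κ k, F.IsHomogeneous r →
      F.coeff γ = c.sum fun u a => a * MvPolynomial.eval (fun j => (u j : k)) F := by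
  classical
  let V : Submodule k (MvPolynomial κ k) := MvPolynomial.homogeneousSubmodule κ k r
  have hfd : FiniteDimensional k V :=
    Module.Finite.iff_fg.mpr (MvPolynomial.homogeneousSubmodule_fg κ k r)
  let ev : (κ → ℕ) → Module.Dual k V := fun u =>
    (MvPolynomial.aeval (fun j => (u j : k)) : MvPolynomial κ k →ₐ[k] k).toLinearMap ∘ₗ V.subtype
  have hev : ∀ (u : κ → ℕ) (x : V), ev u x = MvPolynomial.eval (fun j => (u j : k)) x.1 := by
    intro u x
    rfl
  let W : Submodule k (Module.Dual k V) := Submodule.span k (Set.range ev)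
  have hW : W.dualCoannihilator = ⊥ := by
    rw [Submodule.eq_bot_iff]
    intro x hx
    rw [Submodule.mem_dualCoannihilator] at hx
    apply Subtype.ext
    refine MvPolynomial.funext_set (fun _ => Set.range ((↑) : ℕ → k))
      (fun _ => Set.infinite_range_of_injective Nat.cast_injective) ?_
    intro z hz
    have hz' : ∀ j, ∃ n : ℕ, (n : k) = z j := fun j => hz j (Set.mem_univ j)
    choose u hu using hz'
    have h1 := hx (ev u) (Submodule.subset_span ⟨u, rfl⟩)
    rw [hev] at h1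
    have h2 : (fun j => (u j : k)) = z := funext hu
    rw [h2] at h1
    rw [h1]
    simp
  have hW2 : W = ⊤ := by
    rw [← Subspace.dualCoannihilator_dualAnnihilator_eq (W := W), hW,
      Submodule.dualAnnihilator_bot]
  let co : MvPolynomial κ k →ₗ[k] k :=
    { toFun := fun F => F.coeff γ
      map_add' := fun a b => MvPolynomial.coeff_add γ a b
      map_smul' := fun a b => MvPolynomial.coeff_smul γ a b }
  have hco : (co ∘ₗ V.subtype : Module.Dual k V) ∈ W := by rw [hW2]; trivial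
  rw [Finsupp.mem_span_range_iff_exists_finsupp] at hco
  obtain ⟨c, hc⟩ := hco
  refine ⟨c, fun F hF => ?_⟩
  have h2 := congrArg (fun φ : Module.Dual k V => φ ⟨F, hF⟩) hc
  have h3 : (co ∘ₗ V.subtype : Module.Dual k V) ⟨F, hF⟩ = F.coeff γ := rfl
  simp only [h3, Finsupp.sum, LinearMap.sum_apply, LinearMap.smul_apply, hev, smul_eq_mul] at h2
  rw [← h2, Finsupp.sum]

theorem exists_S1 (k : Type*) [Field k] [NumberField k] (σ : Type*) [Fintype σ] (m : ℕ) :
    ∃ S1 : Finset (FinitePlace k), ∀ v ∉ S1, ∀ P : MvPolynomial σ k, P.IsHomogeneous m → P ≠ 0 →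
      ∃ u : σ → ℕ, pn (.inr v) P ≤ nv (.inr v) (MvPolynomial.eval (fun j => (u j : k)) P) := by
  classical
  choose c hc using fun γ : σ →₀ ℕ => interp (k := k) m γ
  let Γ : Finset (σ →₀ ℕ) := Finset.finsuppAntidiag Finset.univ m
  have hfin : (⋃ γ ∈ (Γ : Set (σ →₀ ℕ)), ⋃ u ∈ ((c γ).support : Set (σ → ℕ)),
      Function.mulSupport (fun w : FinitePlace k => nv (.inr w) (c γ u))).Finite := by
    refine Set.Finite.biUnion Γ.finite_toSet fun γ _ => ?_
    refine Set.Finite.biUnion (c γ).support.finite_toSet fun u hu => ?_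
    exact Pool.Agent.Helper64.Vojta.fin_support_nv (Finsupp.mem_support_iff.mp hu)
  refine ⟨hfin.toFinset, fun v hv P hP hP0 => ?_⟩
  obtain ⟨γ, hγ, hγ0⟩ := exists_coeff (.inr v : Pl k) hP0
  have hγm : γ ∈ Γ := by
    have h1 := hP hγ0
    rw [Finsupp.weight_eq_sum] at h1
    rw [Finset.mem_finsuppAntidiag]
    refine ⟨by simpa using h1, Finset.subset_univ _⟩
  have hone : ∀ u ∈ (c γ).support, nv (.inr v) (c γ u) = 1 := by
    intro u hu
    by_contra h
    apply hv
    rw [Set.Finite.mem_toFinset]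
    simp only [Set.mem_iUnion]
    exact ⟨γ, hγm, u, hu, h⟩
  have hsum := hc γ P hP
  have hne : (c γ).support.Nonempty := by
    by_contra h
    rw [Finset.not_nonempty_iff_eq_empty] at h
    apply hγ0
    rw [hsum, Finsupp.sum, h, Finset.sum_empty]
  obtain ⟨u, hu, hmax⟩ := Finset.exists_max_image (c γ).support
    (fun u => nv (.inr v : Pl k) (MvPolynomial.eval (fun j => (u j : k)) P)) hne
  refine ⟨u, ?_⟩
  rw [← hγ, hsum, Finsupp.sum]
  refine Pool.Agent.Helper64.Vojta.nv_sum_le_inr v _ _ _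
    (Pool.Agent.Helper64.Vojta.nv_nonneg _ _) fun u' hu' => ?_
  rw [Pool.Agent.Helper64.Vojta.nv_mul, hone u' hu', one_mul]
  exact hmax u' hu'

end local_

end DI

namespace DI

section glob

private theorem prodsgn {N : Type*} [CommRing N] {r : ℕ} (v : Fin r → N) :
    ∃ ε : N, (ε = 1 ∨ ε = -1) ∧ ∏ i, ∏ j ∈ Finset.univ.erase i, (v i - v j) =
      ε * (∏ i, ∏ j ∈ Finset.Ioi i, (v j - v i)) ^ 2 := by
  have h1 : ∀ i : Fin r, ∏ j ∈ Finset.univ.erase i, (v i - v j) =
      (∏ j ∈ Finset.Iio i, (v i - v j)) * ∏ j ∈ Finset.Ioi i, (v i - v j) := by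
    intro i
    rw [← Finset.prod_union]
    · refine Finset.prod_congr ?_ fun _ _ => rfl
      ext j
      simp only [Finset.mem_erase, Finset.mem_univ, and_true, Finset.mem_union, Finset.mem_Iio,
        Finset.mem_Ioi]
      exact lt_or_lt_iff_ne.symm
    · rw [Finset.disjoint_left]
      intro j hj hj'
      rw [Finset.mem_Iio] at hj
      rw [Finset.mem_Ioi] at hj'
      exact lt_asymm hj hj'
  have h2 : ∏ i, ∏ j ∈ Finset.Iio i, (v i - v j) = ∏ i, ∏ j ∈ Finset.Ioi i, (v j - v i) := by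
    refine Finset.prod_comm' ?_
    intro i j
    simp [Finset.mem_Iio, Finset.mem_Ioi]
  have h3 : ∏ i, ∏ j ∈ Finset.Ioi i, (v i - v j) =
      (∏ i : Fin r, ∏ _j ∈ Finset.Ioi i, (-1 : N)) * ∏ i, ∏ j ∈ Finset.Ioi i, (v j - v i) := by
    rw [← Finset.prod_mul_distrib]
    refine Finset.prod_congr rfl fun i _ => ?_
    rw [← Finset.prod_mul_distrib]
    refine Finset.prod_congr rfl fun j _ => ?_
    ring
  refine ⟨∏ i : Fin r, ∏ _j ∈ Finset.Ioi i, (-1 : N), ?_, ?_⟩
  · have h4 : ∏ i : Fin r, ∏ _j ∈ Finset.Ioi i, (-1 : N) = (-1) ^ (∑ i : Fin r, (Finset.Ioi i).card) := by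
      rw [← Finset.prod_pow_eq_pow_sum]
      refine Finset.prod_congr rfl fun i _ => ?_
      rw [Finset.prod_const]
    rw [h4]
    exact neg_one_pow_eq_or N _
  · rw [Finset.prod_congr rfl fun i _ => h1 i, Finset.prod_mul_distrib, h2, h3]
    ring

theorem dsc_prod {k L N : Type*} [Field k] [CharZero k] [Field L] [Algebra k L]
    [FiniteDimensional k L] [Field N] [Algebra k N] [IsAlgClosed N] {r : ℕ}
    (e : Fin r ≃ (L →ₐ[k] N)) (z : L) :
    ∃ ε : N, (ε = 1 ∨ ε = -1) ∧ ∏ i, ∏ j ∈ Finset.univ.erase i, (e i z - e j z) =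
      ε * algebraMap k N (Pool.Agent.Helper16.UP.dsc k r z) := by
  obtain ⟨ε, hε, h4⟩ := prodsgn fun i => e i z
  refine ⟨ε, hε, ?_⟩
  rw [h4]
  congr 1
  unfold Pool.Agent.Helper16.UP.dsc
  rw [Algebra.discr_eq_det_embeddingsMatrixReindex_pow_two k N (fun i : Fin r => z ^ (i : ℕ)) e]
  have h3 : Algebra.embeddingsMatrixReindex k N (fun i : Fin r => z ^ (i : ℕ)) e =
      (Matrix.vandermonde fun i => e i z).transpose := by
    ext i j
    rw [Matrix.transpose_apply, Matrix.vandermonde_apply]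
    show e j (z ^ (i : ℕ)) = _
    rw [map_pow]
  rw [h3, Matrix.det_transpose, Matrix.det_vandermonde]

theorem eval_brk {κ : Type*} [Fintype κ] [DecidableEq κ] {R : Type*} [CommRing R] (x y : κ → R)
    (w : κ ⊕ κ → R) : MvPolynomial.eval w (brk x y) =
      (∑ j, x j * w (Sum.inr j)) * (∑ j, y j * w (Sum.inl j)) -
        (∑ j, y j * w (Sum.inr j)) * (∑ j, x j * w (Sum.inl j)) := by
  unfold brk
  simp only [map_sub, map_mul, map_sum, MvPolynomial.eval_C, MvPolynomial.eval_X]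

theorem brk_ne {κ : Type*} [Fintype κ] [DecidableEq κ] {R : Type*} [CommRing R] (x y : κ → R)
    (o : κ) (hx : x o = 1) (hy : y o = 1) (h : x ≠ y) : brk x y ≠ 0 := by
  obtain ⟨i, hi⟩ := Function.ne_iff.mp h
  intro h0
  have h1 := eval_brk x y (Sum.elim (Pi.single o 1) (Pi.single i 1))
  rw [h0, map_zero] at h1
  have h2 : ∀ (z : κ → R) (j : κ), ∑ l, z l * (Pi.single j (1 : R) : κ → R) l = z j := by
    intro z j
    rw [Finset.sum_eq_single j]
    · rw [Pi.single_eq_same, mul_one]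
    · intro l _ hl
      rw [Pi.single_eq_of_ne hl, mul_zero]
    · intro hj
      exact absurd (Finset.mem_univ _) hj
  simp only [Sum.elim_inl, Sum.elim_inr, h2, hx, hy, mul_one] at h1
  exact hi (sub_eq_zero.mp h1.symm)

theorem brk_hom {κ : Type*} [Fintype κ] [DecidableEq κ] {R : Type*} [CommRing R] (x y : κ → R) :
    (brk x y).IsHomogeneous 2 := by
  have h1 : ∀ (z : κ → R), (∑ j, MvPolynomial.C (z j) * MvPolynomial.X (Sum.inr j) :
      MvPolynomial (κ ⊕ κ) R).IsHomogeneous 1 := fun z =>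
    MvPolynomial.IsHomogeneous.sum _ _ _ fun j _ => MvPolynomial.isHomogeneous_C_mul_X _ _
  have h2 : ∀ (z : κ → R), (∑ j, MvPolynomial.C (z j) * MvPolynomial.X (Sum.inl j) :
      MvPolynomial (κ ⊕ κ) R).IsHomogeneous 1 := fun z =>
    MvPolynomial.IsHomogeneous.sum _ _ _ fun j _ => MvPolynomial.isHomogeneous_C_mul_X _ _
  exact ((h1 x).mul (h2 y)).sub ((h1 y).mul (h2 x))

variable {k L : Type u} [Field k] [NumberField k] [Field L] [NumberField L] [Algebra k L]
  [FiniteDimensional k L] {κ : Type} [Fintype κ] [DecidableEq κ]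

theorem dF_chow_map (r : ℕ) (hr : 1 ≤ r) (hL : Module.finrank k L = r) (o : κ) (y : κ → L)
    (hy : y o = 1) : ∃ (e : Fin r ≃ (L →ₐ[k] AlgebraicClosure k)) (ε : AlgebraicClosure k),
      (ε = 1 ∨ ε = -1) ∧ (dF (chow k y)).map (algebraMap k (AlgebraicClosure k)) =
        MvPolynomial.C ε * ∏ σ, ∏ τ ∈ Finset.univ.erase σ,
          brk (fun j => e σ (y j)) (fun j => e τ (y j)) := by
  classical
  let N := AlgebraicClosure k
  let ψ : k →+* N := algebraMap k N
  have hψ : Function.Injective ψ := (algebraMap k N).injective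
  have hcard : Fintype.card (L →ₐ[k] N) = Fintype.card (Fin r) := by
    rw [AlgHom.card, hL, Fintype.card_fin]
  let e : Fin r ≃ (L →ₐ[k] N) := (Fintype.equivOfCardEq hcard).symm
  let x : Fin r → κ → N := fun i j => e i (y j)
  have hx : ∀ i, x i o = 1 := by
    intro i
    show e i (y o) = 1
    rw [hy, map_one]
  have hchow : (chow k y).map ψ = MvPolynomial.C 1 * ∏ i, Pool.Agent.Helper16.UP.lf (x i) := by
    rw [Pool.Agent.Helper16.UP.chow_split y, MvPolynomial.C_1, one_mul]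
    exact (Equiv.prod_comp e fun σ : L →ₐ[k] N => Pool.Agent.Helper16.UP.lf fun j => σ (y j)).symm
  have hne : chow k y ≠ 0 :=
    Pool.Agent.Helper16.UP.chow_ne y o (by rw [hy]; exact one_ne_zero)
  have hne' : (chow k y).map ψ ≠ 0 := by
    intro h
    apply hne
    apply MvPolynomial.map_injective ψ hψ
    rw [h, map_zero]
  have hhom : (chow k y).IsHomogeneous r := by
    have := Pool.Agent.Helper16.UP.chow_hom (k := k) y
    rwa [hL] at this
  have h1 := dF_map ψ hr (chow k y) hhom hne'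
  rw [hchow] at h1
  rcases dF_dec hr (1 : N) one_ne_zero x (fun σ => ⟨o, by rw [hx]; exact one_ne_zero⟩) with h2 | h2
  · refine ⟨e, 1, Or.inl rfl, ?_⟩
    rw [h2, MvPolynomial.C_1, one_pow, one_mul] at h1
    rw [MvPolynomial.C_1, one_mul]
    exact h1
  · refine ⟨e, -1, Or.inr rfl, ?_⟩
    rw [h2, MvPolynomial.C_1, one_pow, one_mul] at h1
    rw [MvPolynomial.C_neg, MvPolynomial.C_1, neg_one_mul]
    exact h1

omit [NumberField k] [NumberField L] [Fintype κ] [DecidableEq κ] in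
theorem emb_ne {N : Type*} [Field N] [Algebra k N] (y : κ → L)
    (hgen : IntermediateField.adjoin k (Set.range y) = ⊤) {φ φ' : L →ₐ[k] N} (h : φ ≠ φ') :
    (fun j => φ (y j)) ≠ fun j => φ' (y j) := by
  intro h1
  apply h
  have h2 : Algebra.adjoin k (Set.range y) = ⊤ := by
    rw [← IntermediateField.adjoin_toSubalgebra_of_isAlgebraic
      (fun z _ => Algebra.IsAlgebraic.isAlgebraic z), hgen, IntermediateField.top_toSubalgebra]
  refine AlgHom.ext_of_adjoin_eq_top h2 ?_
  rintro _ ⟨j, rfl⟩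
  exact congrFun h1 j

theorem eval_dF (r : ℕ) (hr : 1 ≤ r) (hL : Module.finrank k L = r) (o : κ) (y : κ → L)
    (hy : y o = 1) (u : κ ⊕ κ → k) (hh : L) (hhh : ∑ j, algebraMap k L (u (Sum.inl j)) * y j = hh)
    (h0 : hh ≠ 0) : ∃ (z : L) (ε : k), (ε = 1 ∨ ε = -1) ∧
      MvPolynomial.eval u (dF (chow k y)) = ε * (Algebra.norm k hh ^ (2 * r - 2) *
        Pool.Agent.Helper16.UP.dsc k r z) := by
  classical
  obtain ⟨e, ε, hε, hmap⟩ := dF_chow_map r hr hL o y hy
  have hψ : Function.Injective (algebraMap k (AlgebraicClosure k)) :=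
    (algebraMap k (AlgebraicClosure k)).injective
  set cc : L := ∑ j, algebraMap k L (u (Sum.inr j)) * y j with hcc
  set z : L := cc / hh with hz
  obtain ⟨ε', hε', hdsc⟩ := dsc_prod e z
  have h1 : algebraMap k (AlgebraicClosure k) (MvPolynomial.eval u (dF (chow k y))) =
      MvPolynomial.eval (fun j => algebraMap k (AlgebraicClosure k) (u j))
        ((dF (chow k y)).map (algebraMap k (AlgebraicClosure k))) := by
    rw [MvPolynomial.eval_map, MvPolynomial.eval₂_comp]
    rfl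
  have h2 : ∀ σ τ, MvPolynomial.eval (fun j => algebraMap k (AlgebraicClosure k) (u j))
      (brk (fun j => e σ (y j)) (fun j => e τ (y j))) =
      e σ hh * e τ hh * (e σ z - e τ z) := by
    intro σ τ
    rw [eval_brk]
    have hc : ∀ i, ∑ j, e i (y j) * algebraMap k (AlgebraicClosure k) (u (Sum.inr j)) = e i cc := by
      intro i
      rw [hcc, map_sum]
      refine Finset.sum_congr rfl fun j _ => ?_
      rw [map_mul, AlgHom.commutes, mul_comm]
    have hd : ∀ i, ∑ j, e i (y j) * algebraMap k (AlgebraicClosure k) (u (Sum.inl j)) = e i hh := by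
      intro i
      rw [← hhh, map_sum]
      refine Finset.sum_congr rfl fun j _ => ?_
      rw [map_mul, AlgHom.commutes, mul_comm]
    rw [hc, hc, hd, hd, hz, map_div₀, map_div₀]
    have hσ : e σ hh ≠ 0 := (map_ne_zero (e σ)).mpr h0
    have hτ : e τ hh ≠ 0 := (map_ne_zero (e τ)).mpr h0
    field_simp
  have h3 : ∏ σ, ∏ τ ∈ Finset.univ.erase σ, (e σ hh * e τ hh * (e σ z - e τ z)) =
      (∏ σ, e σ hh) ^ (2 * r - 2) * ∏ σ, ∏ τ ∈ Finset.univ.erase σ, (e σ z - e τ z) := by
    have ha : ∏ σ : Fin r, ∏ τ ∈ Finset.univ.erase σ, e σ hh = (∏ σ, e σ hh) ^ (r - 1) := by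
      rw [← Finset.prod_pow]
      refine Finset.prod_congr rfl fun σ _ => ?_
      rw [Finset.prod_const, Finset.card_erase_of_mem (Finset.mem_univ σ), Finset.card_univ,
        Fintype.card_fin]
    have hb : ∏ σ : Fin r, ∏ τ ∈ Finset.univ.erase σ, e τ hh = (∏ σ, e σ hh) ^ (r - 1) := by
      rw [← ha]
      refine Finset.prod_comm' ?_
      intro i j
      simp only [Finset.mem_univ, Finset.mem_erase, true_and, and_true]
      exact ne_comm
    have he : 2 * r - 2 = (r - 1) + (r - 1) := by omega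
    rw [he, pow_add, ← ha]
    nth_rewrite 2 [ha]
    rw [← hb]
    simp only [Finset.prod_mul_distrib]
  have h4 : algebraMap k (AlgebraicClosure k) (Algebra.norm k hh) = ∏ σ, e σ hh := by
    rw [Algebra.norm_eq_prod_embeddings]
    exact (Equiv.prod_comp e fun σ : L →ₐ[k] AlgebraicClosure k => σ hh).symm
  have h5 : algebraMap k (AlgebraicClosure k) (MvPolynomial.eval u (dF (chow k y))) =
      ε * (ε' * algebraMap k (AlgebraicClosure k) (Algebra.norm k hh ^ (2 * r - 2) *
        Pool.Agent.Helper16.UP.dsc k r z)) := by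
    rw [h1, hmap, map_mul, MvPolynomial.eval_C, map_prod]
    congr 1
    simp only [map_prod, h2]
    rw [h3, hdsc, map_mul, map_pow, h4]
    ring
  rcases hε with rfl | rfl <;> rcases hε' with rfl | rfl
  · exact ⟨z, 1, Or.inl rfl, hψ (by rw [h5, one_mul, one_mul, one_mul])⟩
  · exact ⟨z, -1, Or.inr rfl, hψ (by rw [h5, one_mul, neg_one_mul, neg_one_mul, map_neg])⟩
  · exact ⟨z, -1, Or.inr rfl, hψ (by rw [h5, one_mul, neg_one_mul, neg_one_mul, map_neg])⟩
  · exact ⟨z, 1, Or.inl rfl, hψ (by rw [h5, neg_one_mul, neg_one_mul, neg_neg, one_mul])⟩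

theorem dF_chow_hom (r : ℕ) (hr : 1 ≤ r) (hL : Module.finrank k L = r) (o : κ) (y : κ → L)
    (hy : y o = 1) :
    (dF (chow k y)).IsHomogeneous (∑ σ : Fin r, ∑ _τ ∈ Finset.univ.erase σ, 2) := by
  classical
  obtain ⟨e, ε, hε, hmap⟩ := dF_chow_map r hr hL o y hy
  have h1 : ((dF (chow k y)).map (algebraMap k (AlgebraicClosure k))).IsHomogeneous
      (∑ σ : Fin r, ∑ _τ ∈ Finset.univ.erase σ, 2) := by
    rw [hmap]
    have h2 := (MvPolynomial.isHomogeneous_C (κ ⊕ κ) ε).mul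
      (MvPolynomial.IsHomogeneous.prod (Finset.univ : Finset (Fin r)) _ _
        fun σ _ => MvPolynomial.IsHomogeneous.prod (Finset.univ.erase σ) _ _
          fun τ _ => brk_hom (fun j => e σ (y j)) (fun j => e τ (y j)))
    rw [zero_add] at h2
    exact h2
  intro γ hγ
  apply h1
  rw [MvPolynomial.coeff_map]
  exact (map_ne_zero _).mpr hγ

end glob

end DI

theorem dF_chow_ne {k L : Type u} [Field k] [NumberField k] [Field L] [NumberField L]
    [Algebra k L] [FiniteDimensional k L] {κ : Type} [Fintype κ] [DecidableEq κ] (r : ℕ)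
    (hr : 1 ≤ r) (hL : Module.finrank k L = r) (o : κ) (y : κ → L) (hy : y o = 1)
    (hgen : IntermediateField.adjoin k (Set.range y) = ⊤) : dF (chow k y) ≠ 0 := by
  classical
  obtain ⟨e, ε, hε, hmap⟩ := DI.dF_chow_map r hr hL o y hy
  intro h0
  rw [h0, map_zero] at hmap
  have hε0 : (MvPolynomial.C ε : MvPolynomial (κ ⊕ κ) (AlgebraicClosure k)) ≠ 0 := by
    rw [Ne, MvPolynomial.C_eq_zero]
    rcases hε with rfl | rfl
    · exact one_ne_zero
    · exact neg_ne_zero.mpr one_ne_zero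
  refine mul_ne_zero hε0 ?_ hmap.symm
  refine Finset.prod_ne_zero_iff.mpr fun σ _ => Finset.prod_ne_zero_iff.mpr fun τ hτ => ?_
  refine DI.brk_ne _ _ o (by rw [hy, map_one]) (by rw [hy, map_one]) ?_
  refine DI.emb_ne y hgen ?_
  intro h
  exact (Finset.ne_of_mem_erase hτ) (e.injective h).symm

theorem delta_int (k : Type u) [Field k] [NumberField k] (κ : Type) [Fintype κ] [DecidableEq κ]
    (r : ℕ) (hr : 1 ≤ r) (o : κ) :
    ∃ C : ℝ, ∀ (L : Type u) [Field L] [NumberField L] [Algebra k L] [FiniteDimensional k L],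
      Module.finrank k L = r → ∀ y : κ → L, y o = 1 →
      IntermediateField.adjoin k (Set.range y) = ⊤ → ∀ S : Finset (Pl k),
      (∑ᶠ (v : FinitePlace k) (_ : Sum.inr v ∉ S),
        ((2 * (r : ℝ) - 2) * Real.log (pn (.inr v) (chow k y)) -
          Real.log (pn (.inr v) (dF (chow k y))))) ≤
      (Real.log |(discr L : ℝ)| - r * Real.log |(discr k : ℝ)|) +
        2 * ∑ᶠ (v : FinitePlace k) (_ : Sum.inr v ∉ S),
          (⌊((2 * (r : ℝ) - 2) * Real.log (pn (.inr v) (chow k y)) -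
              Real.log (pn (.inr v) (dF (chow k y)))) /
            (2 * Real.log (Ideal.absNorm v.maximalIdeal.asIdeal))⌋ : ℝ) *
            Real.log (Ideal.absNorm v.maximalIdeal.asIdeal) + C := by
  classical
  obtain ⟨S1, hS1⟩ := DI.exists_S1 k (κ ⊕ κ) (r + ∑ σ : Fin r, ∑ _τ ∈ Finset.univ.erase σ, 2)
  refine ⟨∑ v ∈ S1, Real.log (Ideal.absNorm v.maximalIdeal.asIdeal), ?_⟩
  intro L _ _ _ _ hL y hy hgen S
  have hF : chow k y ≠ 0 :=
    Pool.Agent.Helper16.UP.chow_ne y o (by rw [hy]; exact one_ne_zero)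
  have hD : dF (chow k y) ≠ 0 := dF_chow_ne r hr hL o y hy hgen
  set F := chow k y with hFdef
  set D := dF F with hDdef
  have hF' : (fun γ : F.support => F.coeff γ) ≠ 0 := by
    obtain ⟨γ, hγ⟩ := MvPolynomial.ne_zero_iff.mp hF
    exact fun h => hγ (congrFun h ⟨γ, MvPolynomial.mem_support_iff.mpr hγ⟩)
  set g : FinitePlace k → ℝ := fun v => (2 * (r : ℝ) - 2) * Real.log (pn (.inr v) F) -
    Real.log (pn (.inr v) D) with hg
  -- finitely many places matter
  have hfin : (Function.support g).Finite := by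
    have h1 := (Pool.Agent.V2.finS_pn hF).const_mul (2 * (r : ℝ) - 2)
    have h2 := (h1.add (Pool.Agent.V2.finS_pn hD).neg)
    refine Set.Finite.subset h2 fun v hv => ?_
    rw [Function.mem_support] at hv ⊢
    rw [hg] at hv
    simp only [sub_eq_add_neg] at hv ⊢
    exact hv
  choose γ hγ1 hγ2 using fun v : FinitePlace k => DI.exists_coeff (.inr v : Pl k) hD
  choose n hn1' hn2 using fun v : FinitePlace k =>
    Pool.Agent.Helper61.AD.DK.ld_int r (fun γ : F.support => F.coeff γ) hF' (D.coeff (γ v))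
      (hγ2 v) v
  have hn1 : ∀ v : FinitePlace k, g v =
      n v * Real.log (Ideal.absNorm v.maximalIdeal.asIdeal) := by
    intro v
    rw [← hn1' v, ← Pool.Agent.Helper16.UP.DF21.pn_eq, hγ1]
  have hN : ∀ v : FinitePlace k, 0 < Real.log (Ideal.absNorm v.maximalIdeal.asIdeal) := fun v =>
    Real.log_pos (Pool.Agent.V2.FC.one_lt_norm v)
  set T : Finset (FinitePlace k) := hfin.toFinset.filter (fun v => Sum.inr v ∉ S) with hT
  have hfloor : ∀ v : FinitePlace k,
      (⌊g v / (2 * Real.log (Ideal.absNorm v.maximalIdeal.asIdeal))⌋ : ℝ) = ((n v / 2 : ℤ) : ℝ) := by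
    intro v
    have h1 : g v / (2 * Real.log (Ideal.absNorm v.maximalIdeal.asIdeal)) = (n v : ℝ) / (2 : ℕ) := by
      rw [hn1 v]
      have := (hN v).ne'
      field_simp
      push_cast
      ring
    rw [h1, Int.floor_div_natCast, Int.floor_intCast]
    rfl
  have hs1 : ∑ᶠ (v : FinitePlace k) (_ : Sum.inr v ∉ S), g v = ∑ v ∈ T, g v := by
    refine Pool.Agent.Helper61.AD.DK.finsum_cond _ _ T (fun v hv hne => ?_)
      (fun v hv => (Finset.mem_filter.mp hv).2)
    exact Finset.mem_filter.mpr ⟨hfin.mem_toFinset.mpr hne, hv⟩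
  have hs2 : ∑ᶠ (v : FinitePlace k) (_ : Sum.inr v ∉ S),
      (⌊g v / (2 * Real.log (Ideal.absNorm v.maximalIdeal.asIdeal))⌋ : ℝ) *
        Real.log (Ideal.absNorm v.maximalIdeal.asIdeal)
      = ∑ v ∈ T, ((n v / 2 : ℤ) : ℝ) * Real.log (Ideal.absNorm v.maximalIdeal.asIdeal) := by
    simp_rw [hfloor]
    refine Pool.Agent.Helper61.AD.DK.finsum_cond _ _ T (fun v hv hne => ?_)
      (fun v hv => (Finset.mem_filter.mp hv).2)
    refine Finset.mem_filter.mpr ⟨hfin.mem_toFinset.mpr ?_, hv⟩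
    intro h0
    apply hne
    have h0' : (n v : ℝ) * Real.log (Ideal.absNorm v.maximalIdeal.asIdeal) = 0 := by
      rw [← hn1 v]; exact h0
    have h3 : (n v : ℝ) = 0 := (mul_eq_zero.mp h0').resolve_right (hN v).ne'
    have h4 : n v = 0 := by exact_mod_cast h3
    rw [h4]
    simp
  have hs1' := hs1
  have hs2' := hs2
  rw [hg] at hs1' hs2'
  simp only [] at hs1' hs2'
  rw [hs1', hs2']
  set W := (T.filter (fun v => Odd (n v))).filter (fun v => v ∉ S1) with hW
  have hhomF : F.IsHomogeneous r := by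
    have := Pool.Agent.Helper16.UP.chow_hom (k := k) y
    rwa [hL] at this
  have hhomD : D.IsHomogeneous (∑ σ : Fin r, ∑ _τ ∈ Finset.univ.erase σ, 2) :=
    DI.dF_chow_hom r hr hL o y hy
  have hP : (MvPolynomial.rename Sum.inl F * D).IsHomogeneous
      (r + ∑ σ : Fin r, ∑ _τ ∈ Finset.univ.erase σ, 2) := hhomF.rename_isHomogeneous.mul hhomD
  have hP0 : MvPolynomial.rename Sum.inl F * D ≠ 0 := by
    refine mul_ne_zero ?_ hD
    intro h
    apply hF
    apply MvPolynomial.rename_injective (Sum.inl : κ → κ ⊕ κ) Sum.inl_injective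
    rw [h, map_zero]
  have hram := Pool.Agent.Helper61.AD.sum_ram (k := k) (L := L) W (fun v hv => by
    obtain ⟨hv1, hvS⟩ := Finset.mem_filter.mp hv
    obtain ⟨m, hm⟩ := hn2 v (Finset.mem_filter.mp hv1).2
    obtain ⟨u, hu⟩ := hS1 v hvS _ hP hP0
    obtain ⟨hu1, hu2⟩ := DI.local_eq v hF hD u hu
    have hnorm : MvPolynomial.eval (fun j => (u (Sum.inl j) : k)) F =
        Algebra.norm k (∑ j, algebraMap k L ((u (Sum.inl j) : ℕ) : k) * y j) :=
      Pool.Agent.Helper16.UP.eval_chow y fun j => ((u (Sum.inl j) : ℕ) : k)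
    rw [hnorm] at hu1
    have hh0 : (∑ j, algebraMap k L ((u (Sum.inl j) : ℕ) : k) * y j) ≠ 0 := by
      intro h
      rw [h, Algebra.norm_zero] at hu1
      exact hu1 rfl
    obtain ⟨z, ε, hε, hz⟩ := DI.eval_dF r hr hL o y hy (fun j => ((u j : ℕ) : k)) _ rfl hh0
    obtain ⟨j, hj⟩ := Pool.Agent.Helper61.AD.Ram.fin_zpow v hu1
    have hεn : nv (.inr v) ε = 1 := by
      rcases hε with rfl | rfl
      · exact Pool.Agent.Helper64.Vojta.nv_one _
      · rw [DI.nv_neg, Pool.Agent.Helper64.Vojta.nv_one]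
    have hn0 : (1 : ℝ) < Ideal.absNorm v.maximalIdeal.asIdeal := by
      exact_mod_cast Pool.Agent.V2.FC.one_lt_norm v
    have hn0' : (Ideal.absNorm v.maximalIdeal.asIdeal : ℝ) ≠ 0 := by linarith
    have hval : (Ideal.absNorm v.maximalIdeal.asIdeal : ℝ) ^ (2 * m + 1) =
        ((Ideal.absNorm v.maximalIdeal.asIdeal : ℝ) ^ j) ^ (2 * r - 2) *
          nv (.inr v) (Pool.Agent.Helper16.UP.dsc k r z) := by
      rw [← hm, hγ1, ← hu2]
      have hz' := congrArg (nv (.inr v : Pl k)) hz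
      rw [Pool.Agent.Helper64.Vojta.nv_mul, hεn, one_mul, Pool.Agent.Helper64.Vojta.nv_mul] at hz'
      rw [hz']
      congr 1
      change v (Algebra.norm k _ ^ (2 * r - 2)) = _
      rw [map_pow, hj]
    have hdz : nv (.inr v) (Pool.Agent.Helper16.UP.dsc k r z) =
        (Ideal.absNorm v.maximalIdeal.asIdeal : ℝ) ^ (2 * (m - j * (r - 1)) + 1) := by
      have h1 : ((Ideal.absNorm v.maximalIdeal.asIdeal : ℝ) ^ j) ^ (2 * r - 2) =
          (Ideal.absNorm v.maximalIdeal.asIdeal : ℝ) ^ (2 * (j * (r - 1))) := by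
        rw [← zpow_natCast, ← zpow_mul]
        congr 1
        push_cast [show 2 ≤ 2 * r by omega]
        ring
      rw [h1] at hval
      have h2 : (Ideal.absNorm v.maximalIdeal.asIdeal : ℝ) ^ (2 * (j * (r - 1))) ≠ 0 :=
        zpow_ne_zero _ hn0'
      apply mul_left_cancel₀ h2
      rw [← hval, ← zpow_add₀ hn0']
      congr 1
      ring
    have hdz0 : Pool.Agent.Helper16.UP.dsc k r z ≠ 0 := by
      intro h
      rw [h, Pool.Agent.Helper64.Vojta.nv_zero] at hdz
      exact zpow_ne_zero _ hn0' hdz.symm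
    obtain ⟨h1, m', hm'⟩ := Pool.Agent.Helper16.UP.DF21.odd_dsc r (by omega) hL z hdz0 v _ hdz
    exact Pool.Agent.Helper61.AD.odd_ram z h1 v m' hm')
  rw [hL] at hram
  have hsum : ∑ v ∈ T, g v = 2 * ∑ v ∈ T, ((n v / 2 : ℤ) : ℝ) *
      Real.log (Ideal.absNorm v.maximalIdeal.asIdeal)
      + ∑ v ∈ T.filter (fun v => Odd (n v)), Real.log (Ideal.absNorm v.maximalIdeal.asIdeal) := by
    have hWs : ∑ v ∈ T.filter (fun v => Odd (n v)), Real.log (Ideal.absNorm v.maximalIdeal.asIdeal)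
        = ∑ v ∈ T, if Odd (n v) then Real.log (Ideal.absNorm v.maximalIdeal.asIdeal) else 0 :=
      Finset.sum_filter _ _
    rw [hWs, Finset.mul_sum, ← Finset.sum_add_distrib]
    refine Finset.sum_congr rfl fun v _ => ?_
    rw [hn1 v]
    split_ifs with h
    · obtain ⟨m, hm⟩ := h
      have h1 : n v / 2 = m := by omega
      rw [h1, hm]
      push_cast
      ring
    · rw [Int.not_odd_iff_even] at h
      obtain ⟨m, hm⟩ := h
      have h1 : n v / 2 = m := by omega
      rw [h1, hm]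
      push_cast
      ring
  have hsplit : ∑ v ∈ T.filter (fun v => Odd (n v)), Real.log (Ideal.absNorm v.maximalIdeal.asIdeal)
      ≤ ∑ v ∈ W, Real.log (Ideal.absNorm v.maximalIdeal.asIdeal) +
        ∑ v ∈ S1, Real.log (Ideal.absNorm v.maximalIdeal.asIdeal) := by
    rw [← Finset.sum_filter_add_sum_filter_not (T.filter (fun v => Odd (n v))) (fun v => v ∉ S1)]
    refine add_le_add le_rfl ?_
    refine Finset.sum_le_sum_of_subset_of_nonneg ?_ fun v _ _ => (hN v).le
    intro v hv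
    have := (Finset.mem_filter.mp hv).2
    push Not at this
    exact this
  have hsum' := hsum
  rw [hg] at hsum'
  simp only [] at hsum'
  linarith

end Pool.Agent.Helper16.VG
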