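import Pool.Agent.Helper16.UP.HtChow
import Pool.Agent.Helper16.UP.LocL

/-!
# Block VG-D1: the height of a vector in terms of norms of linear forms

MODEL: UP/LocL.lean (`loc_low`) and UP/HtChow.lean (`ht_chow`). PROOF. As in `loc_low`: enumerate `κ`, `R = r * card κ`, `u_t = (t ^ (index of j))_j` for `t = 0, ..., R`; for every place `ν` of `k` and every `y` there is a `t ≤ R` with
`∏_{w ∣ ν} vn w y ≤ const_ν * nv ν (norm (∑ u_t j * y j))`, `const_ν = 1` for almost all `ν` (this is the first half of the proof of `loc_low`; `nv_norm`). So `∑_{w ∣ ν} log (vn w y) ≤ log (vn ν (norms)) + C ν` with a family `V` which contains all `u_t` and `u0`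
(`n = R + 2`); the vector of the norms is not zero. Sum over `ν`: `Height.logHeight y = gsum over the places of L = gsum_ν ∑_{w ∣ ν}` (`gsum_above`, see `ht_chow`), `vH = gsum of log vn`.
-/

namespace Pool.Agent.Helper16.VG

open NumberField Finset
open Pool.Agent.Helper64.Vojta (Pl nv sn above)
open Pool.Agent.V2 (vn vH pn pH gsum FinS)
open Pool.Agent.Helper16.UP

universe u

section vand

variable {κ : Type} [Fintype κ] [DecidableEq κ]

private noncomputable def h93V (e : κ ≃ Fin (Fintype.card κ)) (f : κ → ℕ) : Matrix κ κ ℤ :=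
  Matrix.of fun i l => (f i : ℤ) ^ (e l : ℕ)

private lemma h93V_det (e : κ ≃ Fin (Fintype.card κ)) {f : κ → ℕ} (hf : Function.Injective f) : (h93V e f).det ≠ 0 := by
  have h1 : ((h93V e f).submatrix e.symm e.symm) = Matrix.vandermonde (fun i => (f (e.symm i) : ℤ)) := by
    ext i l
    simp [h93V, Matrix.vandermonde_apply]
  rw [← Matrix.det_submatrix_equiv_self e.symm, h1, Matrix.det_vandermonde_ne_zero_iff]
  intro i j h
  simp only [Nat.cast_inj] at h
  exact e.symm.injective (hf h)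

private lemma h93_cramer {L : Type*} [Field L] (V : Matrix κ κ ℤ) (y : κ → L) (j : κ) :
    ((V.det : ℤ) : L) * y j = ∑ i, ((V.adjugate j i : ℤ) : L) * ∑ l, ((V i l : ℤ) : L) * y l := by
  set V' : Matrix κ κ L := (Int.castRingHom L).mapMatrix V with hV'
  have h1 : V'.adjugate * V' = V'.det • (1 : Matrix κ κ L) := Matrix.adjugate_mul V'
  have h2 : (V'.adjugate * V').mulVec y = V'.det • y := by
    rw [h1, Matrix.smul_mulVec, Matrix.one_mulVec]
  have h3 := congrFun h2 j
  rw [← Matrix.mulVec_mulVec] at h3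
  have h4 : V'.det = ((V.det : ℤ) : L) := by
    rw [hV', ← RingHom.map_det]
    rfl
  have h5 : ∀ a b, V'.adjugate a b = ((V.adjugate a b : ℤ) : L) := by
    intro a b
    rw [hV', ← RingHom.map_adjugate]
    rfl
  have h6 : ∀ a b, V' a b = ((V a b : ℤ) : L) := fun a b => rfl
  simp only [Matrix.mulVec, dotProduct, Pi.smul_apply, smul_eq_mul, h4, h5, h6] at h3
  exact h3.symm

end vand

private lemma h93_inl_int {L : Type*} [Field L] [NumberField L] (w : InfinitePlace L) (z : ℤ) :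
    nv (.inl w) (z : L) = |(z : ℝ)| ^ w.mult := by
  change w (z : L) ^ w.mult = _
  rw [← InfinitePlace.norm_embedding_eq, map_intCast, Complex.norm_intCast]

private lemma h93_inr_int {L : Type*} [Field L] [NumberField L] (w : FinitePlace L) (z : ℤ) : nv (.inr w) (z : L) ≤ 1 := by
  apply Pool.Agent.V2.P2.nv_inr_int
  have : IsIntegral ℤ (algebraMap ℤ L z) := isIntegral_algebraMap
  simpa using this

private lemma h93_one_le_mult {L : Type*} [Field L] (w : InfinitePlace L) : 1 ≤ w.mult := by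
  have := InfinitePlace.mult_pos (w := w)
  omega

/-- all injective choices -/
private noncomputable def h93Δ {κ : Type} [Fintype κ] [DecidableEq κ] (e : κ ≃ Fin (Fintype.card κ)) (R : ℕ) : ℤ := by
  classical
  exact ∏ f ∈ (Finset.univ : Finset (κ → Fin (R + 1))).filter (fun f => Function.Injective f), (h93V e (fun i => (f i : ℕ))).det

private noncomputable def h93A {κ : Type} [Fintype κ] [DecidableEq κ] (e : κ ≃ Fin (Fintype.card κ)) (R : ℕ) : ℕ :=
  1 + ∑ f : κ → Fin (R + 1), ∑ i, ∑ j, ((h93V e (fun i => (f i : ℕ))).adjugate i j).natAbs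

private lemma h93Δ_ne {κ : Type} [Fintype κ] [DecidableEq κ] (e : κ ≃ Fin (Fintype.card κ)) (R : ℕ) : h93Δ e R ≠ 0 := by
  unfold h93Δ
  apply Finset.prod_ne_zero_iff.2
  intro f hf
  apply h93V_det
  intro a b hab
  exact (Finset.mem_filter.1 hf).2 (Fin.ext hab)

private lemma h93Δ_dvd {κ : Type} [Fintype κ] [DecidableEq κ] (e : κ ≃ Fin (Fintype.card κ)) (R : ℕ) (f : κ → Fin (R + 1))
    (hf : Function.Injective f) : (h93V e (fun i => (f i : ℕ))).det ∣ h93Δ e R := by
  unfold h93Δ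
  exact Finset.dvd_prod_of_mem (fun f : κ → Fin (R + 1) => (h93V e (fun i => (f i : ℕ))).det) (Finset.mem_filter.2 ⟨Finset.mem_univ _, hf⟩)

private lemma h93A_le {κ : Type} [Fintype κ] [DecidableEq κ] (e : κ ≃ Fin (Fintype.card κ)) (R : ℕ) (f : κ → Fin (R + 1)) (i j : κ) :
    |(((h93V e (fun i => (f i : ℕ))).adjugate i j : ℤ) : ℝ)| ≤ h93A e R := by
  have h1 : ((h93V e (fun i => (f i : ℕ))).adjugate i j).natAbs ≤ h93A e R := by
    unfold h93A
    have a1 : ((h93V e (fun i => (f i : ℕ))).adjugate i j).natAbs ≤ ∑ j, ((h93V e (fun i => (f i : ℕ))).adjugate i j).natAbs :=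
      Finset.single_le_sum (f := fun j => ((h93V e (fun i => (f i : ℕ))).adjugate i j).natAbs) (fun _ _ => Nat.zero_le _) (Finset.mem_univ j)
    have a2 : ∑ j, ((h93V e (fun i => (f i : ℕ))).adjugate i j).natAbs ≤ ∑ i, ∑ j, ((h93V e (fun i => (f i : ℕ))).adjugate i j).natAbs :=
      Finset.single_le_sum (f := fun i => ∑ j, ((h93V e (fun i => (f i : ℕ))).adjugate i j).natAbs) (fun _ _ => Nat.zero_le _) (Finset.mem_univ i)
    have a3 : ∑ i, ∑ j, ((h93V e (fun i => (f i : ℕ))).adjugate i j).natAbs ≤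
        ∑ f : κ → Fin (R + 1), ∑ i, ∑ j, ((h93V e (fun i => (f i : ℕ))).adjugate i j).natAbs :=
      Finset.single_le_sum (f := fun f : κ → Fin (R + 1) => ∑ i, ∑ j, ((h93V e (fun i => (f i : ℕ))).adjugate i j).natAbs)
        (fun _ _ => Nat.zero_le _) (Finset.mem_univ f)
    omega
  have h2 : |(((h93V e (fun i => (f i : ℕ))).adjugate i j : ℤ) : ℝ)| = (((h93V e (fun i => (f i : ℕ))).adjugate i j).natAbs : ℝ) := by
    rw [Nat.cast_natAbs, Int.cast_abs]
  rw [h2]
  exact_mod_cast h1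

/-- the local constant -/
private noncomputable def h93c {κ : Type} [Fintype κ] [DecidableEq κ] (e : κ ≃ Fin (Fintype.card κ)) (r R : ℕ)
    {k : Type*} [Field k] [NumberField k] : Pl k → ℝ
  | .inl _ => 1 / (((Fintype.card κ : ℝ) + 1) ^ 2 * (h93A e R : ℝ) ^ 2)
  | .inr ν => nv (.inr ν) ((h93Δ e R : ℤ) : k) ^ r

private lemma h93A_one {κ : Type} [Fintype κ] [DecidableEq κ] (e : κ ≃ Fin (Fintype.card κ)) (R : ℕ) : (1 : ℝ) ≤ h93A e R := by
  have : 1 ≤ h93A e R := by unfold h93A; omega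
  exact_mod_cast this

private lemma h93c_pos {κ : Type} [Fintype κ] [DecidableEq κ] (e : κ ≃ Fin (Fintype.card κ)) (r R : ℕ)
    {k : Type*} [Field k] [NumberField k] (ν : Pl k) : 0 < h93c e r R ν := by
  rcases ν with ν | ν
  · have := h93A_one e R
    unfold h93c
    positivity
  · unfold h93c
    apply pow_pos
    apply Pool.Agent.Helper64.Vojta.nv_pos
    exact_mod_cast h93Δ_ne e R

private lemma h93c_le {κ : Type} [Fintype κ] [DecidableEq κ] (e : κ ≃ Fin (Fintype.card κ)) (r R : ℕ)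
    {k : Type*} [Field k] [NumberField k] (ν : Pl k) : h93c e r R ν ≤ 1 := by
  rcases ν with ν | ν
  · have := h93A_one e R
    unfold h93c
    rw [div_le_one (by positivity)]
    have h1 : (1 : ℝ) ≤ ((Fintype.card κ : ℝ) + 1) ^ 2 := by
      have : (0 : ℝ) ≤ (Fintype.card κ : ℝ) := Nat.cast_nonneg _
      nlinarith
    have h2 : (1 : ℝ) ≤ (h93A e R : ℝ) ^ 2 := by nlinarith
    nlinarith
  · unfold h93c
    apply pow_le_one₀ (Pool.Agent.Helper64.Vojta.nv_nonneg _ _)
    exact h93_inr_int ν _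

/-- Cramer's rule at a place -/
private lemma h93_local {κ : Type} [Fintype κ] [DecidableEq κ] (e : κ ≃ Fin (Fintype.card κ)) {r R : ℕ}
    {k L : Type*} [Field k] [NumberField k] [Field L] [NumberField L] [Algebra k L] (hr : Module.finrank k L = r)
    {ν : Pl k} {w : Pl L} (hw : w ∈ above L ν) (f : κ → Fin (R + 1)) (hf : Function.Injective f) (y : κ → L) {B : ℝ} (hB : 0 ≤ B)
    (h : ∀ i, nv w (∑ l, ((((f i : ℕ) : ℤ) ^ (e l : ℕ) : ℤ) : L) * y l) ≤ B) :
    h93c e r R ν * vn w y ≤ B := by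
  classical
  set V := h93V e (fun i => (f i : ℕ)) with hV
  have hVd : V.det ≠ 0 := h93V_det e (fun a b hab => hf (Fin.ext hab))
  have hcr : ∀ j, nv w ((V.det : ℤ) : L) * nv w (y j) = nv w (∑ i, ((V.adjugate j i : ℤ) : L) * ∑ l, ((V i l : ℤ) : L) * y l) := by
    intro j
    rw [← Pool.Agent.Helper64.Vojta.nv_mul, h93_cramer V y j]
  have hc0 := h93c_pos e r R ν
  suffices hs : ∀ j, h93c e r R ν * nv w (y j) ≤ B by
    have h1 : vn w y ≤ B / h93c e r R ν := by
      apply Pool.Agent.V2.vn_le w y (by positivity)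
      intro j
      rw [le_div_iff₀ hc0, mul_comm]
      exact hs j
    rw [le_div_iff₀ hc0, mul_comm] at h1
    exact h1
  intro j
  rw [Pool.Agent.Helper64.Vojta.mem_above] at hw
  rcases ν with ν | ν <;> rcases w with w | w
  · -- infinite
    have h1 : nv (.inl w) (∑ i, ((V.adjugate j i : ℤ) : L) * ∑ l, ((V i l : ℤ) : L) * y l) ≤
        ((Fintype.card κ : ℝ) + 1) ^ 2 * ((h93A e R : ℝ) ^ 2 * B) := by
      have := Pool.Agent.Helper64.Vojta.nv_sum_le_inl w Finset.univ
        (fun i => ((V.adjugate j i : ℤ) : L) * ∑ l, ((V i l : ℤ) : L) * y l) ((h93A e R : ℝ) ^ 2 * B) (by positivity) (by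
          intro i _
          rw [Pool.Agent.Helper64.Vojta.nv_mul, h93_inl_int]
          have a1 : |((V.adjugate j i : ℤ) : ℝ)| ^ w.mult ≤ (h93A e R : ℝ) ^ 2 := by
            calc |((V.adjugate j i : ℤ) : ℝ)| ^ w.mult ≤ (h93A e R : ℝ) ^ w.mult := by
                  apply pow_le_pow_left₀ (abs_nonneg _)
                  exact h93A_le e R f j i
              _ ≤ (h93A e R : ℝ) ^ 2 := pow_le_pow_right₀ (h93A_one e R) (Pool.Agent.Helper64.Vojta.mult_le_two w)
          exact mul_le_mul a1 (h i) (Pool.Agent.Helper64.Vojta.nv_nonneg _ _) (by positivity))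
      simpa using this
    rw [← hcr, h93_inl_int] at h1
    have h2 : (1 : ℝ) ≤ |((V.det : ℤ) : ℝ)| ^ w.mult := by
      apply one_le_pow₀
      have : 1 ≤ |V.det| := Int.one_le_abs hVd
      exact_mod_cast this
    have h3 := Pool.Agent.Helper64.Vojta.nv_nonneg (.inl w : Pl L) (y j)
    have h4 : nv (.inl w) (y j) ≤ ((Fintype.card κ : ℝ) + 1) ^ 2 * ((h93A e R : ℝ) ^ 2 * B) := by nlinarith
    have h5 := h93A_one e R
    unfold h93c
    rw [div_mul_eq_mul_div, one_mul, div_le_iff₀ (by positivity)]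
    linarith
  · exact absurd hw id
  · exact absurd hw id
  · -- finite
    have h1 : nv (.inr w) (∑ i, ((V.adjugate j i : ℤ) : L) * ∑ l, ((V i l : ℤ) : L) * y l) ≤ B := by
      apply Pool.Agent.Helper64.Vojta.nv_sum_le_inr w Finset.univ _ B hB
      intro i _
      rw [Pool.Agent.Helper64.Vojta.nv_mul]
      calc nv (.inr w) ((V.adjugate j i : ℤ) : L) * nv (.inr w) (∑ l, ((V i l : ℤ) : L) * y l) ≤ 1 * B :=
            mul_le_mul (h93_inr_int w _) (h i) (Pool.Agent.Helper64.Vojta.nv_nonneg _ _) zero_le_one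
        _ = B := one_mul B
    rw [← hcr] at h1
    obtain ⟨z, hz⟩ := h93Δ_dvd e R f hf
    have h2 : nv (.inr w) ((h93Δ e R : ℤ) : L) ≤ nv (.inr w) ((V.det : ℤ) : L) := by
      rw [hz, Int.cast_mul, Pool.Agent.Helper64.Vojta.nv_mul]
      exact mul_le_of_le_one_right (Pool.Agent.Helper64.Vojta.nv_nonneg _ _) (h93_inr_int w z)
    have hw' : (.inr w : Pl L) ∈ above L (.inr ν : Pl k) := by
      rw [Pool.Agent.Helper64.Vojta.mem_above]; exact hw
    have h3 : nv (.inr w) ((h93Δ e R : ℤ) : L) = nv (.inr ν) ((h93Δ e R : ℤ) : k) ^ Pool.Agent.Helper52.Vojta.ldeg (.inr ν : Pl k) (.inr w : Pl L) := by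
      rw [← Pool.Agent.Helper52.Vojta.nv_above hw', map_intCast]
    have h4 : Pool.Agent.Helper52.Vojta.ldeg (.inr ν : Pl k) (.inr w : Pl L) ≤ r := by
      rw [← hr, ← Pool.Agent.Helper52.Vojta.sum_ldeg (L' := L) (.inr ν : Pl k)]
      exact Finset.single_le_sum (f := fun w => Pool.Agent.Helper52.Vojta.ldeg (.inr ν : Pl k) w) (fun _ _ => Nat.zero_le _) hw'
    have h5 : h93c e r R (.inr ν : Pl k) ≤ nv (.inr w) ((h93Δ e R : ℤ) : L) := by
      rw [h3]
      unfold h93c
      exact pow_le_pow_of_le_one (Pool.Agent.Helper64.Vojta.nv_nonneg _ _) (h93_inr_int ν _) h4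
    calc h93c e r R (.inr ν : Pl k) * nv (.inr w) (y j) ≤ nv (.inr w) ((V.det : ℤ) : L) * nv (.inr w) (y j) :=
          mul_le_mul_of_nonneg_right (h5.trans h2) (Pool.Agent.Helper64.Vojta.nv_nonneg _ _)
      _ ≤ B := h1


/-- a good value of `t` -/
private lemma h93_good {κ : Type} [Fintype κ] [DecidableEq κ] (e : κ ≃ Fin (Fintype.card κ)) {r : ℕ}
    {k L : Type*} [Field k] [NumberField k] [Field L] [NumberField L] [Algebra k L] (hrL : Module.finrank k L = r)
    (ν : Pl k) (y : κ → L) (hy : ∃ j, y j ≠ 0) :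
    ∃ t, t ≤ r * Fintype.card κ ∧ ∀ w ∈ above L ν,
      h93c e r (r * Fintype.card κ) ν * vn w y ≤ nv w (∑ l, (((t : ℤ) ^ (e l : ℕ) : ℤ) : L) * y l) := by
  classical
  obtain ⟨j0, hj0⟩ := hy
  have hn1 : 1 ≤ Fintype.card κ := Fintype.card_pos_iff.2 ⟨j0⟩
  set p : ℕ → L := fun t => ∑ l, (((t : ℤ) ^ (e l : ℕ) : ℤ) : L) * y l with hp
  have hbad : ∀ w ∈ above L ν, ((Finset.range (r * Fintype.card κ + 1)).filter (fun t => nv w (p t) < h93c e r (r * Fintype.card κ) ν * vn w y)).card < Fintype.card κ := by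
    intro w hw
    by_contra hcon
    rw [not_lt] at hcon
    obtain ⟨T', hT', hcard⟩ := Finset.exists_subset_card_eq hcon
    have hequiv : Fintype.card κ = Fintype.card T' := by rw [Fintype.card_coe, hcard]
    set g : κ ≃ T' := Fintype.equivOfCardEq hequiv with hg
    have hg1 : ∀ i, ((g i : T') : ℕ) < r * Fintype.card κ + 1 := fun i => by
      have := (Finset.mem_filter.1 (hT' (g i).2)).1
      exact Finset.mem_range.1 this
    have hg2 : ∀ i, nv w (p (g i : T')) < h93c e r (r * Fintype.card κ) ν * vn w y := fun i => (Finset.mem_filter.1 (hT' (g i).2)).2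
    set f : κ → Fin (r * Fintype.card κ + 1) := fun i => ⟨(g i : T'), hg1 i⟩ with hf
    have hfi : Function.Injective f := by
      intro a b hab
      apply g.injective
      apply Subtype.ext
      simpa [hf] using hab
    haveI : Nonempty κ := ⟨j0⟩
    obtain ⟨i0, hi0⟩ := Finite.exists_max (fun i => nv w (p (g i : T')))
    have h1 := h93_local e (r := r) (R := r * Fintype.card κ) hrL hw f hfi y (B := nv w (p (g i0 : T'))) (Pool.Agent.Helper64.Vojta.nv_nonneg _ _)
      (fun i => hi0 i)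
    exact absurd (hg2 i0) (not_lt.2 h1)
  by_contra hcon
  push Not at hcon
  have h1 : Finset.range (r * Fintype.card κ + 1) ⊆ (above L ν).biUnion (fun w => (Finset.range (r * Fintype.card κ + 1)).filter (fun t => nv w (p t) < h93c e r (r * Fintype.card κ) ν * vn w y)) := by
    intro t ht
    obtain ⟨w, hw, hlt⟩ := hcon t (by have := Finset.mem_range.1 ht; omega)
    exact Finset.mem_biUnion.2 ⟨w, hw, Finset.mem_filter.2 ⟨ht, hlt⟩⟩
  have h2 := Finset.card_le_card h1
  rw [Finset.card_range] at h2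
  have h3 : ((above L ν).biUnion (fun w => (Finset.range (r * Fintype.card κ + 1)).filter (fun t => nv w (p t) < h93c e r (r * Fintype.card κ) ν * vn w y))).card ≤
      (above L ν).card * Fintype.card κ := by
    refine Finset.card_biUnion_le.trans ?_
    rw [← smul_eq_mul]
    refine Finset.sum_le_card_nsmul _ _ _ fun w hw => (hbad w hw).le
  have h4 := Pool.Agent.Helper64.Vojta.card_above_le (L := L) ν
  rw [hrL] at h4
  have h5 : (above L ν).card * Fintype.card κ ≤ r * Fintype.card κ := Nat.mul_le_mul_right _ h4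
  omega

theorem ht_val (k : Type u) [Field k] [NumberField k] (κ : Type) [Fintype κ] (r : ℕ) (hr : 1 ≤ r)
    (u0 : κ → ℕ) :
    ∃ (n : ℕ) (V : Fin n → κ → ℕ) (i0 : Fin n) (C : ℝ), V i0 = u0 ∧
      ∀ (L : Type u) [Field L] [NumberField L] [Algebra k L] [FiniteDimensional k L],
        Module.finrank k L = r → ∀ y : κ → L, (∃ j, y j ≠ 0) →
        Height.logHeight y ≤
          vH (fun i : Fin n => Algebra.norm k (∑ j, ((V i j : ℕ) : L) * y j)) + C := by
  classical
  have _ := hr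
  set R := r * Fintype.card κ with hR
  set e : κ ≃ Fin (Fintype.card κ) := Fintype.equivFin κ with he
  refine ⟨R + 2, fun i j => if (i : ℕ) = R + 1 then u0 j else (i : ℕ) ^ (e j : ℕ), ⟨R + 1, by omega⟩,
    gsum (fun ν : Pl k => (-(r : ℝ)) * Real.log (h93c e r R ν)), ?_, ?_⟩
  · funext j
    simp
  intro L _ _ _ _ hrL y hy
  set V : Fin (R + 2) → κ → ℕ := fun i j => if (i : ℕ) = R + 1 then u0 j else (i : ℕ) ^ (e j : ℕ) with hV
  set Nm : Fin (R + 2) → k := fun i => Algebra.norm k (∑ j, ((V i j : ℕ) : L) * y j) with hNm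
  have hy0 : y ≠ 0 := by
    obtain ⟨j, hj⟩ := hy
    exact fun h0 => hj (by rw [h0]; rfl)
  have hfC : FinS (fun ν : Pl k => (-(r : ℝ)) * Real.log (h93c e r R ν)) := by
    apply FinS.const_mul
    have h1 : FinS (fun v : Pl k => (r : ℝ) * Real.log (nv v ((h93Δ e R : ℤ) : k))) :=
      (Pool.Agent.V2.finS_nv (by exact_mod_cast h93Δ_ne e R)).const_mul _
    refine Set.Finite.subset h1 fun v hv => ?_
    rw [Function.mem_support] at hv ⊢
    have h2 : Real.log (h93c e r R (.inr v : Pl k)) = (r : ℝ) * Real.log (nv (.inr v) ((h93Δ e R : ℤ) : k)) := by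
      unfold h93c
      rw [Real.log_pow]
    simp only at hv ⊢
    rwa [h2] at hv
  have hvn : ∀ w : Pl L, 0 < vn w y := fun w => Pool.Agent.V2.vn_pos w hy0
  -- the local inequality
  have hloc : ∀ ν : Pl k, 0 < vn ν Nm ∧ ∏ w ∈ above L ν, (h93c e r R ν * vn w y) ≤ vn ν Nm := by
    intro ν
    have hc0 := h93c_pos e r R ν
    obtain ⟨t, htR, ht⟩ := h93_good e hrL ν y hy
    have h1 : ∏ w ∈ above L ν, (h93c e r R ν * vn w y) ≤ vn ν Nm := by
      calc ∏ w ∈ above L ν, (h93c e r R ν * vn w y) ≤ ∏ w ∈ above L ν, nv w (∑ l, (((t : ℤ) ^ (e l : ℕ) : ℤ) : L) * y l) :=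
            Finset.prod_le_prod (fun w _ => mul_nonneg hc0.le (hvn w).le) ht
        _ = nv ν (Algebra.norm k (∑ l, (((t : ℤ) ^ (e l : ℕ) : ℤ) : L) * y l)) := (Pool.Agent.Helper52.Vojta.nv_norm ν _).symm
        _ = nv ν (Nm ⟨t, by omega⟩) := by
            rw [hNm]
            simp only
            congr 2
            refine Finset.sum_congr rfl fun l _ => ?_
            rw [hV]
            simp only
            rw [if_neg (by omega)]
            push_cast
            rfl
        _ ≤ vn ν Nm := Pool.Agent.V2.le_vn ν Nm _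
    exact ⟨lt_of_lt_of_le (Finset.prod_pos fun w _ => mul_pos hc0 (hvn w)) h1, h1⟩
  have hNm0 : Nm ≠ 0 := by
    intro h0
    obtain ⟨ν⟩ : Nonempty (InfinitePlace k) := inferInstance
    have h1 := (hloc (.inl ν)).1
    rw [h0] at h1
    have h2 : vn (.inl ν : Pl k) (0 : Fin (R + 2) → k) ≤ 0 := by
      apply Pool.Agent.V2.vn_le _ _ le_rfl
      intro j
      rw [Pi.zero_apply, Pool.Agent.Helper64.Vojta.nv_zero]
    linarith
  have hfn : FinS (fun ν : Pl k => Real.log (vn ν Nm)) := Pool.Agent.V2.finS_vn hNm0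
  have hfv : FinS (fun w : Pl L => Real.log (vn w y)) := Pool.Agent.V2.finS_vn hy0
  obtain ⟨hfa, hga⟩ := gsum_above (k := k) (fun w : Pl L => Real.log (vn w y)) hfv
  have hH : Height.logHeight y = gsum fun ν : Pl k => ∑ w ∈ above L ν, Real.log (vn w y) := by
    rw [← Pool.Agent.V2.vH_eq hy0]
    exact hga
  have hP : vH Nm = gsum fun ν : Pl k => Real.log (vn ν Nm) := rfl
  rw [hH, hP, ← Pool.Agent.V2.gsum_add hfn hfC]
  refine Pool.Agent.V2.gsum_mono hfa (hfn.add hfC) fun ν => ?_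
  obtain ⟨h0, h1⟩ := hloc ν
  have hc0 := h93c_pos e r R ν
  have hc1 := h93c_le e r R ν
  have h2 := Real.log_le_log (Finset.prod_pos fun w _ => mul_pos hc0 (hvn w)) h1
  rw [Real.log_prod (fun w _ => (mul_pos hc0 (hvn w)).ne')] at h2
  have h3 : ∑ w ∈ above L ν, Real.log (h93c e r R ν * vn w y) =
      (above L ν).card * Real.log (h93c e r R ν) + ∑ w ∈ above L ν, Real.log (vn w y) := by
    rw [Finset.sum_congr rfl fun w _ => Real.log_mul hc0.ne' (hvn w).ne', Finset.sum_add_distrib, Finset.sum_const, nsmul_eq_mul]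
  rw [h3] at h2
  have h4 := Pool.Agent.Helper64.Vojta.card_above_le (L := L) ν
  rw [hrL] at h4
  have h5 : Real.log (h93c e r R ν) ≤ 0 := Real.log_nonpos hc0.le hc1
  have h6 : (r : ℝ) * Real.log (h93c e r R ν) ≤ (above L ν).card * Real.log (h93c e r R ν) := by
    have : ((above L ν).card : ℝ) ≤ r := by exact_mod_cast h4
    nlinarith
  linarith

end Pool.Agent.Helper16.VG
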