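import Pool.Agent.Helper16.VG.KFormG
import Pool.Agent.Helper16.VG.Cov
import Pool.Agent.Helper16.VG.HtVal
import Pool.Agent.Helper16.VG.DTermG
import Pool.Agent.Helper16.VG.DFUp
import Pool.Agent.Helper16.VG.DeltaI
import Pool.Agent.Helper16.UP.VojtaUp

/-!
# VG-F12: Vojta's inequality over `k` (assembly, helper16)
-/

namespace Pool.Agent.Helper16.VG

open NumberField Finset
open Pool.Agent.Helper64.Vojta (Pl nv sn above)
open Pool.Agent.Helper52.Vojta (upW ldeg)
open Pool.Agent.V2 (vn vH pn pH gsum FinS)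
open Pool.Agent.Helper16.TP (MI lsum)
open MvPolynomial (aeval)
open Pool.Agent.Helper16.UP (lf o0 chow chow_ne chow_hom chow_split ht_chow lsum_ge osum_le pn_above
  vn_above gsum_above osum)
open Pool.Agent.Helper16.UP.VU (aeval_comp aeval_map')

universe u

namespace VGA

theorem gt_map {R R' : Type*} [CommRing R] [CommRing R'] {κ : Type*} (ψ : R →+* R') {ν : ℕ}
    (g : Fin ν → MvPolynomial κ R) (t : ℕ) :
    (gt g t).map ψ = gt (fun i => (g i).map ψ) t := by
  unfold gt
  rw [map_sum]
  refine Finset.sum_congr rfl fun i _ => ?_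
  rw [map_mul, MvPolynomial.map_C, map_pow, map_natCast]

theorem pH_above {k K : Type*} [Field k] [NumberField k] [Field K] [NumberField K] [Algebra k K]
    {κ : Type*} [Fintype κ] (F : MvPolynomial κ k) (hF : F ≠ 0) :
    pH (F.map (algebraMap k K)) = (Module.finrank k K : ℝ) * pH F := by
  unfold pH
  have hne : F.map (algebraMap k K) ≠ 0 := by
    intro h
    apply hF
    exact MvPolynomial.map_injective _ (algebraMap k K).injective (by rw [h, map_zero])
  rw [(gsum_above (k := k) (L := K) _ (Pool.Agent.V2.finS_pn hne)).2]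
  have h3 : (fun ν : Pl k => ∑ w ∈ above K ν, Real.log (pn w (F.map (algebraMap k K)))) =
      fun ν => (Module.finrank k K : ℝ) * Real.log (pn ν F) := by
    funext ν
    rw [← Pool.Agent.Helper52.Vojta.sum_ldeg (L' := K) ν]
    push_cast
    rw [Finset.sum_mul]
    refine Finset.sum_congr rfl fun w hw => ?_
    rw [pn_above hw, Real.log_pow]
  rw [h3]
  unfold gsum
  rw [mul_add, Finset.mul_sum, mul_finsum]

theorem vH_zero {N : Type*} [Field N] [NumberField N] {ι : Type*} [Nonempty ι] :
    vH (0 : ι → N) = 0 := by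
  unfold vH
  have h2 : (fun v : Pl N => Real.log (vn v (0 : ι → N))) = fun _ => 0 := by
    funext v
    have h3 : vn v (0 : ι → N) = 0 := by
      unfold vn
      have h4 : (fun i => nv v ((0 : ι → N) i)) = fun _ => (0 : ℝ) := by
        funext i
        rw [Pi.zero_apply, Pool.Agent.Helper64.Vojta.nv_zero]
      rw [h4, ciSup_const]
    rw [h3, Real.log_zero]
  rw [h2]
  unfold gsum
  simp

theorem vH_above {k K : Type*} [Field k] [NumberField k] [Field K] [NumberField K] [Algebra k K]
    {ι : Type*} [Finite ι] [Nonempty ι] (y : ι → k) :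
    vH (fun i => algebraMap k K (y i)) = (Module.finrank k K : ℝ) * vH y := by
  by_cases hy : y = 0
  · subst hy
    have h1 : (fun i => algebraMap k K ((0 : ι → k) i)) = 0 := by
      funext i
      rw [Pi.zero_apply, map_zero, Pi.zero_apply]
    rw [h1, vH_zero, vH_zero, mul_zero]
  unfold vH
  have hne : (fun i => algebraMap k K (y i)) ≠ 0 := by
    intro h
    apply hy
    funext i
    have := congrFun h i
    exact (map_eq_zero (algebraMap k K)).1 this
  rw [(gsum_above (k := k) (L := K) _ (Pool.Agent.V2.finS_vn hne)).2]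
  have h3 : (fun ν : Pl k => ∑ w ∈ above K ν, Real.log (vn w fun i => algebraMap k K (y i))) =
      fun ν => (Module.finrank k K : ℝ) * Real.log (vn ν y) := by
    funext ν
    rw [← Pool.Agent.Helper52.Vojta.sum_ldeg (L' := K) ν]
    push_cast
    rw [Finset.sum_mul]
    refine Finset.sum_congr rfl fun w hw => ?_
    rw [vn_above hw, Real.log_pow]
  rw [h3]
  unfold gsum
  rw [mul_add, Finset.mul_sum, mul_finsum]

theorem algHom_ext_gen {k L N : Type*} [Field k] [Field L] [Field N] [Algebra k L] [Algebra k N]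
    {κ : Type*} (σ τ : L →ₐ[k] N) (y : κ → L)
    (hgen : IntermediateField.adjoin k (Set.range y) = ⊤) (h : ∀ j, σ (y j) = τ (y j)) :
    σ = τ := by
  let E' : IntermediateField k L := (AlgHom.equalizer σ τ).toIntermediateField (fun x hx => by
    rw [AlgHom.mem_equalizer] at hx ⊢
    rw [map_inv₀, map_inv₀, hx])
  have h1 : IntermediateField.adjoin k (Set.range y) ≤ E' := by
    rw [IntermediateField.adjoin_le_iff]
    rintro _ ⟨j, rfl⟩
    exact h j
  rw [hgen] at h1
  ext x
  exact h1 (x := x) IntermediateField.mem_top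

end VGA

open VGA in
theorem vojtaG {k K : Type u} [Field k] [NumberField k] [Field K] [NumberField K] [Algebra k K]
    {d c m r M ν q : ℕ} (hd : 1 ≤ d) (hr : 1 ≤ r)
    (S : Finset (Pl k)) (hS : ∀ v : InfinitePlace k, Sum.inl v ∈ S)
    (φ : Fin m → MvPolynomial (Fin (d + 1) ⊕ Fin c) k) (a : Fin m → ℕ)
    (hφ : ∀ i, (φ i).IsHomogeneous (a i)) (g : Fin ν → MvPolynomial (Fin (d + 1) ⊕ Fin c) k)
    (hg : ∀ i, (g i).IsHomogeneous q)
    (hsnc : SNCG (fun i => (φ i).map (algebraMap k K)) fun i => (g i).map (algebraMap k K))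
    (hq : d + 1 ≤ q) (T : Finset (FinitePlace K))
    (G : Fin M → MvPolynomial (Fin (d + 1) ⊕ Fin c) K) (hG : ∀ j, (G j).IsHomogeneous r)
    (ε : ℝ) (hε : 0 < ε) :
    ∃ (Q : MvPolynomial (Fin d) k) (C : ℝ), Q ≠ 0 ∧
      ∀ (L : Type u) [Field L] [NumberField L] [Algebra k L] [FiniteDimensional k L],
        Module.finrank k L = r → ∀ y : Fin (d + 1) ⊕ Fin c → L, y (o0 d c) = 1 →
        IntermediateField.adjoin k (Set.range y) = ⊤ → (∀ i, aeval y (φ i) = 0) →
        aeval (fun b : Fin d => y (Sum.inl b.succ)) Q ≠ 0 → (∃ i, aeval y (g i) ≠ 0) →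
        ∀ I : Fin c → Fin m, (∃ J, aeval y (tang φ I J) ≠ 0) →
        ∀ (A : K) (u : Fin M → K), A ≠ 0 →
        (∀ j, u j = 0 ∨ ∀ v : FinitePlace K, v ∉ T → v (u j) = 1) →
        MvPolynomial.C A * (chow k y).map (algebraMap k K) = ∑ j, MvPolynomial.C (u j) * G j →
        (Height.logHeight (fun J => aeval y (tang φ I J)) / Module.finrank k L -
            ((d : ℝ) + 1) * (Height.logHeight y / Module.finrank k L)) +
          ∑ p ∈ S, (∑ w ∈ above L p, ((q : ℝ) * Real.log (vn w y) -
            Real.log (vn w fun i => aeval y (g i)))) / Module.finrank k L ≤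
        ε * (Height.logHeight y / Module.finrank k L) +
          (∑ᶠ (v : FinitePlace k) (_ : Sum.inr v ∉ S),
            ((2 * (r : ℝ) - 2) * Real.log (pn (.inr v) (chow k y)) -
              Real.log (pn (.inr v) (dF (chow k y))))) / r + C := by
  classical
  set T' : Finset (FinitePlace K) := T ∪ (upW K S).toRight with hT'
  have hTS : ∀ v : FinitePlace K, Sum.inr v ∈ upW K S → v ∈ T' := fun v hv =>
    Finset.mem_union_right _ (Finset.mem_toRight.2 hv)
  obtain ⟨n, V, i0, C5, hV, hC5⟩ := ht_val k (Fin (d + 1) → Fin (d + 1) ⊕ Fin c) r hr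
    (Pi.single Sum.inl 1)
  haveI hn0 : Nonempty (Fin n) := ⟨i0⟩
  obtain ⟨Q, C0, hQ0, hkf⟩ := kformG (k := k) (K := K) (r := r) hd hr T' G hG
    (fun i => (φ i).map (algebraMap k K)) a (fun i => (hφ i).map _)
    (fun i => (g i).map (algebraMap k K)) (fun i => (hg i).map _) (cov_of_snc _ _ hsnc) hq V i0 hV
    ε hε
  choose B1 hB1 using fun p : Pl k => dtermG k (Fin (d + 1) ⊕ Fin c) r hr g q hg p
  choose B2 hB2 using fun p : Pl k => dF_up k (Fin (d + 1) ⊕ Fin c) r hr p
  obtain ⟨C1, hC1⟩ := lsum_ge S hS T' hTS B1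
  obtain ⟨C2, hC2⟩ := osum_le S hS T' hTS B2
  obtain ⟨C4, hC4⟩ := ht_chow k (Fin (d + 1) ⊕ Fin c) r hr
  set κ' : ℝ := (d : ℝ) + 1 with hκ'
  refine ⟨Q, |C0| + |C1| + |C2| + |C5| + ∑ p ∈ S, |B1 p| + |κ' + ε| * |C4|, hQ0, ?_⟩
  intro L _ _ _ _ hL y hy1 hgen hyφ hyQ hyg I hyI A u hA hu hAu
  have hyne : ∃ j, y j ≠ 0 := ⟨o0 d c, by rw [hy1]; exact one_ne_zero⟩
  set F : MvPolynomial (Fin (d + 1) ⊕ Fin c) k := chow k y with hF
  have hFne : F ≠ 0 := chow_ne y (o0 d c) (by rw [hy1]; exact one_ne_zero)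
  have hFh : F.IsHomogeneous r := by
    have := chow_hom (k := k) y
    rwa [hL] at this
  have hdF : dF F ≠ 0 := dF_chow_ne r hr hL (o0 d c) y hy1 hgen
  set gg : Fin (ν * r + 1) → k := fun t => Algebra.norm k (aeval y (gt g t)) with hgg
  have hggne : gg ≠ 0 := by
    obtain ⟨t, ht⟩ := exists_gt_ne k (Fin (d + 1) ⊕ Fin c) r hr g L y hyg
    exact fun h => ht (congrFun h t)
  set tt : Fin n → k := fun l => Algebra.norm k
    (∑ J, ((V l J : ℕ) : L) * aeval y (tang φ I J)) with htt
  have hloght := hC5 L hL (fun J => aeval y (tang φ I J)) hyI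
  -- the embeddings
  have hcard : Fintype.card (L →ₐ[k] AlgebraicClosure K) = r := by
    rw [AlgHom.card k L (AlgebraicClosure K), hL]
  let en : Fin r ≃ (L →ₐ[k] AlgebraicClosure K) := (Fintype.equivFinOfCardEq hcard).symm
  have hnorm : ∀ z : L, algebraMap K (AlgebraicClosure K) (algebraMap k K (Algebra.norm k z)) =
      ∏ s, en s z := by
    intro z
    rw [← IsScalarTower.algebraMap_apply, Algebra.norm_eq_prod_embeddings]
    exact (Equiv.prod_comp en fun σ : L →ₐ[k] AlgebraicClosure K => σ z).symm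
  have htan : ∀ (s : Fin r) J, aeval (fun j => en s (y j))
      (tang (fun i => (φ i).map (algebraMap k K)) I J) = en s (aeval y (tang φ I J)) := by
    intro s J
    rw [← tang_map, aeval_map', aeval_comp]
  have hkey := hkf (F.map (algebraMap k K)) (fun s j => en s (y j))
    (fun t => algebraMap k K (gg t)) I (fun l => algebraMap k K (tt l)) A u
    (hFh.map _)
    (fun s => by rw [hy1, map_one])
    (by
      intro s s' h
      apply en.injective
      have h1 : ∀ j, en s (y j) = en s' (y j) := fun j => congrFun h j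
      exact algHom_ext_gen (en s) (en s') y hgen h1)
    (by
      rw [MvPolynomial.map_map, ← IsScalarTower.algebraMap_eq, hF, chow_split]
      exact (Equiv.prod_comp en fun σ : L →ₐ[k] AlgebraicClosure K => lf fun j => σ (y j)).symm)
    (fun s i => by
      rw [aeval_map', aeval_comp, hyφ, map_zero])
    (fun s => by
      rw [aeval_map', aeval_comp (en s) (fun b : Fin d => y (Sum.inl b.succ))]
      rw [Ne, map_eq_zero]
      exact hyQ)
    (fun t => by
      rw [hgg]
      simp only
      rw [hnorm]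
      refine Finset.prod_congr rfl fun s _ => ?_
      rw [← gt_map, aeval_map', aeval_comp])
    (by
      by_contra hcon
      push Not at hcon
      apply hggne
      funext t
      exact (map_eq_zero (algebraMap k K)).1 (hcon t))
    (fun s => by
      obtain ⟨J, hJ⟩ := hyI
      refine ⟨J, ?_⟩
      rw [htan, Ne, map_eq_zero]
      exact hJ)
    (fun l => by
      rw [htt]
      simp only
      rw [hnorm]
      refine Finset.prod_congr rfl fun s _ => ?_
      rw [map_sum]
      refine Finset.sum_congr rfl fun J _ => ?_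
      rw [htan, map_mul, map_natCast])
    hA
    (fun j => (hu j).imp id fun h v hv => h v fun h' => hv (Finset.mem_union_left _ h')) hAu
  -- local functions
  set f1 : Pl k → ℝ := fun p => (q : ℝ) * Real.log (pn p F) - Real.log (vn p gg) with hf1
  set f1' : Pl K → ℝ := fun v => (q : ℝ) * Real.log (pn v (F.map (algebraMap k K))) -
    Real.log (vn v fun t => algebraMap k K (gg t)) with hf1'
  set f2 : Pl k → ℝ := fun p => (2 * (r : ℝ) - 2) * Real.log (pn p F) -
    Real.log (pn p (dF F)) with hf2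
  set f2' : Pl K → ℝ := fun v => (2 * (r : ℝ) - 2) * Real.log (pn v (F.map (algebraMap k K))) -
    Real.log (pn v (dF (F.map (algebraMap k K)))) with hf2'
  have h11 : ∀ p : Pl k, ∀ v ∈ above K p, f1' v = ldeg p v * f1 p := by
    intro p v hv
    rw [hf1', hf1]
    simp only
    rw [pn_above hv, vn_above hv, Real.log_pow, Real.log_pow]
    ring
  have hmapF : F.map (algebraMap k K) ≠ 0 := by
    intro h
    apply hFne
    exact MvPolynomial.map_injective _ (algebraMap k K).injective (by rw [h, map_zero])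
  have h21 : ∀ p : Pl k, ∀ v ∈ above K p, f2' v = ldeg p v * f2 p := by
    intro p v hv
    rw [hf2', hf2]
    simp only
    rw [← dF_map (algebraMap k K) hr F hFh hmapF, pn_above hv, pn_above hv, Real.log_pow,
      Real.log_pow]
    ring
  have h12 : ∀ p : Pl k, - B1 p ≤ f1 p := fun p => (hB1 p L hL y hyne hyg).2
  have h22 : ∀ p : Pl k, - B2 p ≤ f2 p := by
    intro p
    have := hB2 p F hFh hFne hdF
    rw [hf2]
    simp only
    linarith
  have hfin2 : FinS f2 := by
    have h1 := (Pool.Agent.V2.finS_pn hFne).const_mul (2 * (r : ℝ) - 2)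
    have h2 := (Pool.Agent.V2.finS_pn hdF).const_mul (-1 : ℝ)
    refine Set.Finite.subset (h1.add h2) fun v hv => ?_
    rw [Function.mem_support] at hv ⊢
    intro h0
    apply hv
    rw [hf2]
    simp only at h0 ⊢
    linarith
  have A1 := hC1 f1 f1' h11 h12
  have A2 := hC2 f2 f2' hfin2 h21 h22
  set dK : ℝ := (Module.finrank k K : ℝ) with hdK
  have hfdK : FiniteDimensional k K := Module.Finite.right ℚ k K
  have hdK1 : (1 : ℝ) ≤ dK := by
    have : 0 < Module.finrank k K := Module.finrank_pos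
    rw [hdK]; exact_mod_cast this
  rw [pH_above F hFne, vH_above tt, ← hdK] at hkey
  set Fo : ℝ := ∑ᶠ (v : FinitePlace k) (_ : Sum.inr v ∉ S), f2 (.inr v) with hFo
  rw [hL]
  set h : ℝ := Height.logHeight y with hh
  set ht : ℝ := Height.logHeight (fun J => aeval y (tang φ I J)) with hht
  set Lam : ℝ := ∑ p ∈ S, ∑ w ∈ above L p, ((q : ℝ) * Real.log (vn w y) -
    Real.log (vn w fun i => aeval y (g i))) with hLam
  have A3 : Lam ≤ ∑ p ∈ S, f1 p + ∑ p ∈ S, |B1 p| := by
    rw [← Finset.sum_add_distrib]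
    refine Finset.sum_le_sum fun p _ => ?_
    have h3 := (hB1 p L hL y hyne hyg).1
    have h4 := le_abs_self (B1 p)
    rw [hf1]
    simp only
    linarith
  have A4 := hC4 L hL y hyne
  rw [← hF, ← hh] at A4
  have B0 : dK * (vH tt + ∑ p ∈ S, f1 p) ≤
      dK * ((κ' + ε) * pH F + Fo + |C0| + |C1| + |C2|) := by
    have e0 := le_abs_self C0
    have e1 := le_abs_self C1
    have e2 := le_abs_self C2
    have e3 : |C0| + |C1| + |C2| ≤ dK * (|C0| + |C1| + |C2|) :=
      le_mul_of_one_le_left (by positivity) hdK1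
    have e4 : dK * ((κ' + ε) * pH F + Fo + |C0| + |C1| + |C2|) =
      (κ' + ε) * (dK * pH F) + dK * Fo + dK * (|C0| + |C1| + |C2|) := by ring
    rw [e4, mul_add]
    linarith
  have B1' : vH tt + ∑ p ∈ S, f1 p ≤ (κ' + ε) * pH F + Fo + |C0| + |C1| + |C2| :=
    le_of_mul_le_mul_left B0 (by linarith)
  have B2' : (κ' + ε) * pH F ≤ (κ' + ε) * h + |κ' + ε| * |C4| := by
    have e1 : (κ' + ε) * (pH F - h) ≤ |κ' + ε| * |C4| := by
      refine (le_abs_self _).trans ?_
      rw [abs_mul]
      exact mul_le_mul_of_nonneg_left (A4.trans (le_abs_self _)) (abs_nonneg _)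
    linarith
  set Ct : ℝ := |C0| + |C1| + |C2| + |C5| + ∑ p ∈ S, |B1 p| + |κ' + ε| * |C4| with hCt
  have hCt0 : 0 ≤ Ct := by
    have : 0 ≤ ∑ p ∈ S, |B1 p| := Finset.sum_nonneg fun _ _ => abs_nonneg _
    positivity
  have B3 : ht + Lam ≤ Fo + (κ' + ε) * h + Ct := by
    have e1 := le_abs_self C5
    rw [hCt]
    linarith
  have hr0 : (0 : ℝ) < r := by exact_mod_cast hr
  have hr1 : (1 : ℝ) ≤ r := by exact_mod_cast hr
  rw [← Finset.sum_div]
  have B8 : (ht + Lam) / r ≤ (Fo + (κ' + ε) * h + Ct) / r := div_le_div_of_nonneg_right B3 hr0.le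
  have B9 : Ct / r ≤ Ct := div_le_self hCt0 hr1
  have e9 : (Fo + (κ' + ε) * h + Ct) / r = Fo / r + (κ' + ε) * (h / r) + Ct / r := by
    field_simp
  rw [e9, add_div] at B8
  linarith

end Pool.Agent.Helper16.VG
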