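import Pool.Agent.Helper16.VG.Defs
import Pool.Agent.Helper16.UP.Pencil

/-!
# Block VG-A1: the discriminant `dF`

`A = MvPolynomial (κ ⊕ κ) R`, `P = penU F ∈ A[T]`, `H_j = X (inl j)`, `C_j = X (inr j)`.
PROOFS. `penU_map`: both sides are algebra maps in `F` (`MvPolynomial.induction_on` or `aeval`/`eval₂` composition). `penU_natDegree_le`: each `C H_j * T - C C_j` has degree `≤ 1`, monomials of `F` have degree `r`.
`penU_coeff`: the coefficient of `T ^ r` in `∏ (H_j T - C_j) ^ γ_j`, `∑ γ_j = r`, is `∏ H_j ^ γ_j`. Hence `natDegree P = r` and the leading coefficient is `rename inl F ≠ 0` (`rename_injective`) if `F ≠ 0`.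
`dF_map`: `Polynomial.resultant_deriv` gives `Res(P, P'; r, r - 1) = ± lead(P) discr(P)` in `A` and for `F.map ψ`; apply `map ψ` to the first one (`resultant_map_map`, `derivative_map`) and cancel the leading
coefficient of `penU (F.map ψ)` (not zero, domain). `dF_C_mul`: `penU (C w * F) = C (C w) * penU F`, `resultant_C_mul_left`, `resultant_C_mul_right`: `Res(wP, wP') = w ^ (2 r - 1) Res(P, P')`, cancel `w` and the leading coefficient.
`dF_dec`: let `h_σ = ∑ x_j^σ H_j`, `c_σ = ∑ x_j^σ C_j`, `P = a ∏ (h_σ T - c_σ)`. Over the fraction field of `A` the roots are `c_σ / h_σ`, `Res(P, P'; r, r - 1) = (a ∏ h_σ) ^ (r - 1) ∏ P'(c_σ / h_σ)`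
(`resultant_eq_prod_eval`, or the lemmas `rd...` of Helper16/TP), `P'(c_σ / h_σ) = a h_σ ∏_{τ ≠ σ} (h_τ c_σ - c_τ h_σ) / h_σ`, together `a ^ (2 r - 1) ∏ h_σ ∏_{σ ≠ τ} (c_σ h_τ - c_τ h_σ)`; cancel the leading coefficient `a ∏ h_σ`.
`dF_rdp`: the evaluation `H = e_o`, `C = c` (a ring homomorphism `A → R`) maps `penU F` to `pen o c F`; apply it to `Res(P, P'; r, r - 1) = ± (rename inl F) * dF F`; `rd` in Helper16/TP/DefsA.lean (or where `rd` is) is this resultant.
-/

namespace Pool.Agent.Helper16.VG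

open Polynomial
open Pool.Agent.Helper16.UP (lf pen pend ev rs rdp lc Dec nn mx mnr)

variable {κ : Type*} [Fintype κ] [DecidableEq κ] {R : Type*} [CommRing R]

private lemma penU_eq77 (F : MvPolynomial κ R) : penU F = MvPolynomial.aeval
    (fun j => C (MvPolynomial.X (Sum.inl j)) * X - C (MvPolynomial.X (Sum.inr j))) F := rfl

private lemma penU_C77 (a : R) : penU (MvPolynomial.C a : MvPolynomial κ R) =
    C (MvPolynomial.C a) := by
  rw [penU_eq77, MvPolynomial.aeval_C]; rfl

private lemma penU_mul77 (F G : MvPolynomial κ R) : penU (F * G) = penU F * penU G := by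
  rw [penU_eq77, map_mul]; rfl

private lemma penU_add77 (F G : MvPolynomial κ R) : penU (F + G) = penU F + penU G := by
  rw [penU_eq77, map_add]; rfl

private lemma penU_X77 (j : κ) : penU (MvPolynomial.X j : MvPolynomial κ R) =
    C (MvPolynomial.X (Sum.inl j)) * X - C (MvPolynomial.X (Sum.inr j)) := by
  rw [penU_eq77, MvPolynomial.aeval_X]

private lemma penU_sum77 {ι : Type*} (s : Finset ι) (F : ι → MvPolynomial κ R) :
    penU (∑ i ∈ s, F i) = ∑ i ∈ s, penU (F i) := by
  rw [penU_eq77, map_sum]; rfl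

private lemma penU_prod77 {ι : Type*} (s : Finset ι) (F : ι → MvPolynomial κ R) :
    penU (∏ i ∈ s, F i) = ∏ i ∈ s, penU (F i) := by
  rw [penU_eq77, map_prod]; rfl

theorem penU_map {S : Type*} [CommRing S] (ψ : R →+* S) (F : MvPolynomial κ R) :
    (penU F).map (MvPolynomial.map ψ) = penU (F.map ψ) := by
  induction F using MvPolynomial.induction_on with
  | C a => rw [penU_C77, MvPolynomial.map_C, penU_C77, Polynomial.map_C, MvPolynomial.map_C]
  | add p q hp hq => rw [penU_add77, Polynomial.map_add, hp, hq, map_add, penU_add77]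
  | mul_X p j hp =>
    rw [penU_mul77, Polynomial.map_mul, hp, map_mul, penU_mul77, penU_X77, MvPolynomial.map_X,
      penU_X77]
    simp

private lemma lin_natDegree77 {A : Type*} [CommRing A] (h c : A) :
    (C h * X - C c : A[X]).natDegree ≤ 1 := by
  rw [sub_eq_add_neg, ← C_neg]
  exact natDegree_linear_le

private lemma lin_coeff77 {A : Type*} [CommRing A] (h c : A) :
    (C h * X - C c : A[X]).coeff 1 = h := by
  rw [coeff_sub, coeff_C_mul, coeff_X_one, mul_one, coeff_C_succ, sub_zero]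

private lemma prod_coeff77 {A : Type*} [CommRing A] (h c : κ → A) (n : κ → ℕ) (s : Finset κ) :
    (∏ j ∈ s, (C (h j) * X - C (c j)) ^ n j).natDegree ≤ ∑ j ∈ s, n j ∧
      (∏ j ∈ s, (C (h j) * X - C (c j)) ^ n j).coeff (∑ j ∈ s, n j) = ∏ j ∈ s, h j ^ n j := by
  induction s using Finset.induction_on with
  | empty => simp
  | insert a s ha ih =>
    have h1 : ((C (h a) * X - C (c a)) ^ n a).natDegree ≤ n a := by
      refine (natDegree_pow_le_of_le (n a) (lin_natDegree77 _ _)).trans (by rw [mul_one])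
    have h2 : ((C (h a) * X - C (c a)) ^ n a).coeff (n a) = h a ^ n a := by
      have := coeff_pow_of_natDegree_le (lin_natDegree77 (h a) (c a)) (m := n a)
      rw [mul_one, lin_coeff77] at this
      exact this
    rw [Finset.prod_insert ha, Finset.sum_insert ha, Finset.prod_insert ha]
    exact ⟨natDegree_mul_le_of_le h1 ih.1, by rw [coeff_mul_add_eq_of_natDegree_le h1 ih.1, h2, ih.2]⟩

private lemma hsum77 {r : ℕ} {F : MvPolynomial κ R} (hF : F.IsHomogeneous r) {γ : κ →₀ ℕ}
    (hγ : γ ∈ F.support) : ∑ j, γ j = r := by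
  have h2 := hF (MvPolynomial.mem_support_iff.1 hγ)
  rw [Finsupp.weight_eq_sum] at h2
  simpa using h2

theorem penU_natDegree_le {r : ℕ} (F : MvPolynomial κ R) (hF : F.IsHomogeneous r) :
    (penU F).natDegree ≤ r := by
  rw [penU_eq77, MvPolynomial.aeval_def, MvPolynomial.eval₂_eq']
  refine natDegree_sum_le_of_forall_le _ _ fun γ hγ => ?_
  have h1 := (prod_coeff77 (fun j => (MvPolynomial.X (Sum.inl j) : MvPolynomial (κ ⊕ κ) R))
    (fun j => MvPolynomial.X (Sum.inr j)) (fun j => γ j) Finset.univ).1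
  rw [hsum77 hF hγ] at h1
  have h2 : algebraMap R (MvPolynomial (κ ⊕ κ) R)[X] (F.coeff γ) =
      C (MvPolynomial.C (F.coeff γ)) := rfl
  rw [h2]
  exact (natDegree_C_mul_le _ _).trans h1

theorem penU_coeff {r : ℕ} (F : MvPolynomial κ R) (hF : F.IsHomogeneous r) :
    (penU F).coeff r = MvPolynomial.rename Sum.inl F := by
  rw [penU_eq77, MvPolynomial.aeval_def, MvPolynomial.eval₂_eq', finset_sum_coeff,
    MvPolynomial.rename_eq, MvPolynomial.aeval_def, MvPolynomial.eval₂_eq']
  refine Finset.sum_congr rfl fun γ hγ => ?_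
  have h1 := (prod_coeff77 (fun j => (MvPolynomial.X (Sum.inl j) : MvPolynomial (κ ⊕ κ) R))
    (fun j => MvPolynomial.X (Sum.inr j)) (fun j => γ j) Finset.univ).2
  rw [hsum77 hF hγ] at h1
  have h2 : algebraMap R (MvPolynomial (κ ⊕ κ) R)[X] (F.coeff γ) =
      C (MvPolynomial.C (F.coeff γ)) := rfl
  rw [h2, coeff_C_mul, h1]
  rfl

private lemma ren_ne77 {F : MvPolynomial κ R} (hF0 : F ≠ 0) :
    MvPolynomial.rename (Sum.inl : κ → κ ⊕ κ) F ≠ 0 := by
  intro h
  exact hF0 (MvPolynomial.rename_injective _ Sum.inl_injective (by rw [h, map_zero]))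

private lemma penU_deg77 {r : ℕ} {F : MvPolynomial κ R} (hF : F.IsHomogeneous r) (hF0 : F ≠ 0) :
    (penU F).natDegree = r :=
  le_antisymm (penU_natDegree_le F hF)
    (le_natDegree_of_ne_zero (by rw [penU_coeff F hF]; exact ren_ne77 hF0))

private lemma rel77 {r : ℕ} (hr : 1 ≤ r) {F : MvPolynomial κ R} (hF : F.IsHomogeneous r)
    (hF0 : F ≠ 0) : resultant (penU F) (derivative (penU F)) r (r - 1) =
      (-1) ^ (r * (r - 1) / 2) * MvPolynomial.rename Sum.inl F * dF F := by
  have hd := penU_deg77 hF hF0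
  have h1 := resultant_deriv (f := penU F) (natDegree_pos_iff_degree_pos.1 (by omega))
  rw [leadingCoeff, hd, penU_coeff F hF] at h1
  exact h1

private lemma sgn_ne77 {A : Type*} [CommRing A] [Nontrivial A] (n : ℕ) : ((-1 : A) ^ n) ≠ 0 := by
  rcases neg_one_pow_eq_or A n with h | h <;> rw [h]
  · exact one_ne_zero
  · exact neg_ne_zero.2 one_ne_zero

theorem dF_map {S : Type*} [CommRing S] [IsDomain S] (ψ : R →+* S) {r : ℕ} (hr : 1 ≤ r)
    (F : MvPolynomial κ R) (hF : F.IsHomogeneous r) (h : F.map ψ ≠ 0) :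
    (dF F).map ψ = dF (F.map ψ) := by
  have hF0 : F ≠ 0 := by
    rintro rfl
    exact h (map_zero _)
  have h1 := congrArg (MvPolynomial.map ψ) (rel77 hr hF hF0)
  have h2 := rel77 hr (MvPolynomial.IsHomogeneous.map hF ψ) h
  rw [← resultant_map_map, ← derivative_map, penU_map, h2, map_mul, map_mul, map_pow, map_neg,
    map_one, MvPolynomial.map_rename] at h1
  exact (mul_left_cancel₀ (mul_ne_zero (sgn_ne77 _) (ren_ne77 h)) h1).symm

theorem dF_C_mul [IsDomain R] {r : ℕ} (hr : 1 ≤ r) (w : R) (hw : w ≠ 0) (F : MvPolynomial κ R)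
    (hF : F.IsHomogeneous r) (hF0 : F ≠ 0) :
    dF (MvPolynomial.C w * F) = MvPolynomial.C w ^ (2 * r - 2) * dF F := by
  have hw' : (MvPolynomial.C w : MvPolynomial κ R) ≠ 0 := by
    rwa [Ne, MvPolynomial.C_eq_zero]
  have hwA : (MvPolynomial.C w : MvPolynomial (κ ⊕ κ) R) ≠ 0 := by
    rwa [Ne, MvPolynomial.C_eq_zero]
  have h0 : MvPolynomial.C w * F ≠ 0 := mul_ne_zero hw' hF0
  have hh : (MvPolynomial.C w * F).IsHomogeneous r := hF.C_mul w
  have h1 := rel77 hr hh h0
  rw [penU_mul77, penU_C77, derivative_C_mul, resultant_C_mul_left, resultant_C_mul_right,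
    rel77 hr hF hF0, map_mul, MvPolynomial.rename_C] at h1
  have h3 : (-1) ^ (r * (r - 1) / 2) * (MvPolynomial.C w * MvPolynomial.rename Sum.inl F) ≠
      (0 : MvPolynomial (κ ⊕ κ) R) := mul_ne_zero (sgn_ne77 _) (mul_ne_zero hwA (ren_ne77 hF0))
  refine mul_left_cancel₀ h3 ?_
  rw [← h1]
  have h4 : (MvPolynomial.C w : MvPolynomial (κ ⊕ κ) R) ^ (r - 1) * MvPolynomial.C w ^ r =
      MvPolynomial.C w * MvPolynomial.C w ^ (2 * r - 2) := by
    rw [← pow_add, ← pow_succ']
    congr 1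
    omega
  linear_combination ((-1) ^ (r * (r - 1) / 2) * MvPolynomial.rename Sum.inl F * dF F) * h4

/-- `(∑ C_j x_j) (∑ H_j y_j) - (∑ C_j y_j) (∑ H_j x_j)` -/
noncomputable def brk (x y : κ → R) : MvPolynomial (κ ⊕ κ) R :=
  (∑ j, MvPolynomial.C (x j) * MvPolynomial.X (Sum.inr j)) *
      (∑ j, MvPolynomial.C (y j) * MvPolynomial.X (Sum.inl j)) -
    (∑ j, MvPolynomial.C (y j) * MvPolynomial.X (Sum.inr j)) *
      (∑ j, MvPolynomial.C (x j) * MvPolynomial.X (Sum.inl j))

private lemma eval_deriv_prod77 {N : Type*} [Field N] {r : ℕ} (x : Fin r → N) (i : Fin r) :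
    (derivative (∏ i, (X - C (x i)))).eval (x i) = ∏ j ∈ Finset.univ.erase i, (x i - x j) := by
  rw [derivative_prod_finset, eval_finset_sum, Finset.sum_eq_single i]
  · rw [eval_mul, derivative_X_sub_C, eval_one, mul_one, eval_prod]
    refine Finset.prod_congr rfl fun j _ => ?_
    rw [eval_sub, eval_X, eval_C]
  · intro j _ hj
    rw [eval_mul, eval_prod, Finset.prod_eq_zero (Finset.mem_erase.2 ⟨hj.symm, Finset.mem_univ i⟩)
      (by rw [eval_sub, eval_X, eval_C, sub_self]), zero_mul]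
  · intro h
    exact absurd (Finset.mem_univ i) h

private lemma rd_prod77 {N : Type*} [Field N] {r : ℕ} (x : Fin r → N) :
    resultant (∏ i, (X - C (x i))) (derivative (∏ i, (X - C (x i)))) r (r - 1) =
      ∏ i, ∏ j ∈ Finset.univ.erase i, (x i - x j) := by
  have hQd : (∏ i, (X - C (x i))).natDegree = r := by
    rw [natDegree_prod_of_monic _ _ fun i _ => monic_X_sub_C _]
    simp
  have hQm : (∏ i, (X - C (x i))).Monic := monic_prod_of_monic _ _ fun i _ => monic_X_sub_C _
  have hsp : (∏ i, (X - C (x i))).Splits := Splits.prod fun i _ => Splits.X_sub_C _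
  have h3 := resultant_eq_prod_eval (∏ i, (X - C (x i))) (derivative (∏ i, (X - C (x i)))) (r - 1)
    ((natDegree_derivative_le _).trans (by rw [hQd])) hsp
  rw [hQd, hQm.leadingCoeff, one_pow, one_mul] at h3
  rw [h3]
  have : (∏ i, (X - C (x i))).roots = Finset.univ.val.map x := by
    have := roots_multiset_prod_X_sub_C (Finset.univ.val.map x)
    rw [Multiset.map_map] at this
    exact this
  rw [this, Multiset.map_map]
  exact Finset.prod_congr rfl fun i _ => eval_deriv_prod77 x i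

private lemma lin_ne77 {M : Type*} [Field M] (x : κ → M) (hx : ∃ j, x j ≠ 0) (f : κ → κ ⊕ κ)
    (hf : Function.Injective f) :
    (∑ j, MvPolynomial.C (x j) * MvPolynomial.X (f j) : MvPolynomial (κ ⊕ κ) M) ≠ 0 := by
  obtain ⟨i, hi⟩ := hx
  intro h
  have h1 := congrArg (MvPolynomial.coeff (Finsupp.single (f i) 1)) h
  rw [MvPolynomial.coeff_sum, MvPolynomial.coeff_zero] at h1
  apply hi
  rw [← h1, Finset.sum_eq_single i]
  · rw [MvPolynomial.coeff_C_mul, MvPolynomial.coeff_X', if_pos rfl, mul_one]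
  · intro j _ hj
    rw [MvPolynomial.coeff_C_mul, MvPolynomial.coeff_X', if_neg, mul_zero]
    intro h2
    exact hj (hf (Finsupp.single_left_injective one_ne_zero h2))
  · intro h2
    exact absurd (Finset.mem_univ i) h2

private lemma penU_lf77 (x : κ → R) : penU (lf x) =
    C (∑ j, MvPolynomial.C (x j) * MvPolynomial.X (Sum.inl j)) * X -
      C (∑ j, MvPolynomial.C (x j) * MvPolynomial.X (Sum.inr j)) := by
  unfold lf
  rw [penU_sum77, map_sum, map_sum, Finset.sum_mul, ← Finset.sum_sub_distrib]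
  refine Finset.sum_congr rfl fun j _ => ?_
  rw [penU_mul77, penU_C77, penU_X77, C_mul, C_mul]
  ring

private lemma rename_lf77 (x : κ → R) : MvPolynomial.rename (Sum.inl : κ → κ ⊕ κ) (lf x) =
    ∑ j, MvPolynomial.C (x j) * MvPolynomial.X (Sum.inl j) := by
  unfold lf
  rw [map_sum]
  refine Finset.sum_congr rfl fun j _ => ?_
  rw [map_mul, MvPolynomial.rename_C, MvPolynomial.rename_X]

private lemma lf_hom77 (x : κ → R) : (lf x).IsHomogeneous 1 := by
  unfold lf
  refine MvPolynomial.IsHomogeneous.sum _ _ _ fun j _ => ?_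
  exact (MvPolynomial.isHomogeneous_X _ _).C_mul _

private lemma prod_pair77 {N : Type*} [Field N] {r : ℕ} (hr : 1 ≤ r) (h : Fin r → N) :
    ∏ i, ∏ j ∈ Finset.univ.erase i, (h i * h j) = (∏ i, h i) ^ (2 * r - 2) := by
  have h1 : ∀ i, ∏ j ∈ Finset.univ.erase i, (h i * h j) =
      h i ^ (r - 1) * ∏ j ∈ Finset.univ.erase i, h j := by
    intro i
    rw [Finset.prod_mul_distrib, Finset.prod_const, Finset.card_erase_of_mem (Finset.mem_univ i),
      Finset.card_univ, Fintype.card_fin]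
  rw [Finset.prod_congr rfl fun i _ => h1 i, Finset.prod_mul_distrib, Finset.prod_pow]
  have h2 : ∏ i, ∏ j ∈ Finset.univ.erase i, h j = ∏ j, ∏ i ∈ Finset.univ.erase j, h j := by
    refine Finset.prod_comm' ?_
    intro i j
    simp only [Finset.mem_univ, Finset.mem_erase, and_true, true_and, ne_comm]
  rw [h2]
  have h3 : ∀ j, ∏ i ∈ Finset.univ.erase j, h j = h j ^ (r - 1) := by
    intro j
    rw [Finset.prod_const, Finset.card_erase_of_mem (Finset.mem_univ j), Finset.card_univ,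
      Fintype.card_fin]
  rw [Finset.prod_congr rfl fun j _ => h3 j, Finset.prod_pow, ← pow_add]
  congr 1
  omega

theorem dF_dec {M : Type*} [Field M] {r : ℕ} (hr : 1 ≤ r) (a : M) (ha : a ≠ 0) (x : Fin r → κ → M)
    (hx : ∀ σ, ∃ j, x σ j ≠ 0) :
    dF (MvPolynomial.C a * ∏ σ, lf (x σ)) = MvPolynomial.C a ^ (2 * r - 2) *
        ∏ σ, ∏ τ ∈ Finset.univ.erase σ, brk (x σ) (x τ) ∨
      dF (MvPolynomial.C a * ∏ σ, lf (x σ)) = - (MvPolynomial.C a ^ (2 * r - 2) *
        ∏ σ, ∏ τ ∈ Finset.univ.erase σ, brk (x σ) (x τ)) := by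
  set h : Fin r → MvPolynomial (κ ⊕ κ) M :=
    fun σ => ∑ j, MvPolynomial.C (x σ j) * MvPolynomial.X (Sum.inl j) with hh
  set c : Fin r → MvPolynomial (κ ⊕ κ) M :=
    fun σ => ∑ j, MvPolynomial.C (x σ j) * MvPolynomial.X (Sum.inr j) with hc
  have hne : ∀ σ, h σ ≠ 0 := fun σ => lin_ne77 (x σ) (hx σ) Sum.inl Sum.inl_injective
  have hlf : ∀ σ, lf (x σ) ≠ 0 := by
    intro σ h0
    apply hne σ
    rw [hh]
    dsimp only
    rw [← rename_lf77, h0, map_zero]
  have haA : (MvPolynomial.C a : MvPolynomial (κ ⊕ κ) M) ≠ 0 := by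
    rwa [Ne, MvPolynomial.C_eq_zero]
  have haK : (MvPolynomial.C a : MvPolynomial κ M) ≠ 0 := by
    rwa [Ne, MvPolynomial.C_eq_zero]
  have hF0 : MvPolynomial.C a * ∏ σ, lf (x σ) ≠ 0 :=
    mul_ne_zero haK (Finset.prod_ne_zero_iff.2 fun σ _ => hlf σ)
  have hF : (MvPolynomial.C a * ∏ σ, lf (x σ)).IsHomogeneous r := by
    have h1 := (MvPolynomial.IsHomogeneous.prod Finset.univ (fun σ => lf (x σ)) (fun _ => 1)
      fun σ _ => lf_hom77 (x σ)).C_mul a
    simpa using h1
  have hrel := rel77 hr hF hF0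
  have hpen : penU (MvPolynomial.C a * ∏ σ, lf (x σ)) =
      C (MvPolynomial.C a) * ∏ σ, (C (h σ) * X - C (c σ)) := by
    rw [penU_mul77, penU_C77, penU_prod77]
    congr 1
    exact Finset.prod_congr rfl fun σ _ => penU_lf77 (x σ)
  have hren : MvPolynomial.rename Sum.inl (MvPolynomial.C a * ∏ σ, lf (x σ)) =
      MvPolynomial.C a * ∏ σ, h σ := by
    rw [map_mul, MvPolynomial.rename_C, map_prod]
    congr 1
    exact Finset.prod_congr rfl fun σ _ => rename_lf77 (x σ)
  -- the fraction field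
  let L := FractionRing (MvPolynomial (κ ⊕ κ) M)
  let ι : MvPolynomial (κ ⊕ κ) M →+* L := algebraMap _ _
  have hι : Function.Injective ι := IsFractionRing.injective _ _
  have hιh : ∀ σ, ι (h σ) ≠ 0 := fun σ h0 => hne σ (hι (by rw [h0, map_zero]))
  have hmap : (penU (MvPolynomial.C a * ∏ σ, lf (x σ))).map ι =
      C (ι (MvPolynomial.C a) * ∏ σ, ι (h σ)) * ∏ σ, (X - C (ι (c σ) / ι (h σ))) := by
    rw [hpen, Polynomial.map_mul, Polynomial.map_C, Polynomial.map_prod, C_mul, mul_assoc, map_prod,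
      ← Finset.prod_mul_distrib]
    congr 1
    refine Finset.prod_congr rfl fun σ _ => ?_
    rw [Polynomial.map_sub, Polynomial.map_mul, Polynomial.map_C, Polynomial.map_C,
      Polynomial.map_X, mul_sub, ← C_mul, mul_div_cancel₀ _ (hιh σ)]
  have h5 := congrArg ι hrel
  rw [← resultant_map_map, ← derivative_map, hmap, derivative_C_mul, resultant_C_mul_left,
    resultant_C_mul_right, rd_prod77, hren] at h5
  have h6 : ∏ i, ∏ j ∈ Finset.univ.erase i, (ι (c i) / ι (h i) - ι (c j) / ι (h j)) =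
      (∏ i, ∏ j ∈ Finset.univ.erase i, ι (brk (x i) (x j))) / (∏ i, ι (h i)) ^ (2 * r - 2) := by
    rw [← prod_pair77 hr, ← Finset.prod_div_distrib]
    refine Finset.prod_congr rfl fun i _ => ?_
    rw [← Finset.prod_div_distrib]
    refine Finset.prod_congr rfl fun j _ => ?_
    have h7 : brk (x i) (x j) = c i * h j - c j * h i := rfl
    rw [h7, map_sub, map_mul, map_mul, div_sub_div _ _ (hιh i) (hιh j)]
    ring
  rw [h6] at h5
  have hP : (∏ σ, ι (h σ)) ≠ 0 := Finset.prod_ne_zero_iff.2 fun σ _ => hιh σ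
  have haι : ι (MvPolynomial.C a) ≠ 0 := fun h0 => haA (hι (by rw [h0, map_zero]))
  have key : (MvPolynomial.C a ^ (2 * r - 2) *
        ∏ σ, ∏ τ ∈ Finset.univ.erase σ, brk (x σ) (x τ)) = (-1) ^ (r * (r - 1) / 2) *
      dF (MvPolynomial.C a * ∏ σ, lf (x σ)) := by
    apply hι
    have h8 : ι (MvPolynomial.C a) * (∏ σ, ι (h σ)) ≠ 0 := mul_ne_zero haι hP
    refine mul_left_cancel₀ h8 ?_
    rw [map_mul, map_mul, map_pow, map_pow, map_prod, map_neg, map_one]
    rw [map_mul, map_mul, map_mul, map_pow, map_neg, map_one, map_prod] at h5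
    have h9 : ∏ σ, ι (∏ τ ∈ Finset.univ.erase σ, brk (x σ) (x τ)) =
        ∏ i, ∏ j ∈ Finset.univ.erase i, ι (brk (x i) (x j)) :=
      Finset.prod_congr rfl fun i _ => map_prod _ _ _
    rw [h9]
    set B := ∏ i, ∏ j ∈ Finset.univ.erase i, ι (brk (x i) (x j)) with hB
    set P := ∏ σ, ι (h σ) with hPd
    set α := ι (MvPolynomial.C a) with hα
    have h10 : (α * P) ^ (r - 1) * ((α * P) ^ r * (B / P ^ (2 * r - 2))) =
        α * P * (α ^ (2 * r - 2) * B) := by
      have e1 : (α * P) ^ (r - 1) * (α * P) ^ r = (α * P) * (α ^ (2 * r - 2) * P ^ (2 * r - 2)) := by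
        rw [← mul_pow, ← pow_add, ← pow_succ']
        congr 1
        omega
      rw [← mul_assoc, e1]
      have e2 : P ^ (2 * r - 2) * (B / P ^ (2 * r - 2)) = B :=
        mul_div_cancel₀ _ (pow_ne_zero _ hP)
      calc α * P * (α ^ (2 * r - 2) * P ^ (2 * r - 2)) * (B / P ^ (2 * r - 2)) =
          α * P * (α ^ (2 * r - 2) * (P ^ (2 * r - 2) * (B / P ^ (2 * r - 2)))) := by ring
        _ = _ := by rw [e2]
    rw [← h10, h5]
    ring
  rcases neg_one_pow_eq_or (MvPolynomial (κ ⊕ κ) M) (r * (r - 1) / 2) with h9 | h9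
  · left
    rw [key, h9, one_mul]
  · right
    rw [key, h9, neg_one_mul, neg_neg]

private lemma pen_map77 (o : κ) (c : κ → R) (F : MvPolynomial κ R) :
    (penU F).map (MvPolynomial.eval (Sum.elim (Pi.single o 1) c)) = pen o c F := by
  have hpe : ∀ G : MvPolynomial κ R, pen o c G =
      MvPolynomial.aeval (fun j => (if j = o then X else 0) - C (c j)) G := fun _ => rfl
  induction F using MvPolynomial.induction_on with
  | C a =>
    rw [penU_C77, Polynomial.map_C, MvPolynomial.eval_C, hpe, MvPolynomial.aeval_C]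
    rfl
  | add p q hp hq => rw [penU_add77, Polynomial.map_add, hp, hq, hpe, hpe, hpe, map_add]
  | mul_X p j hp =>
    rw [penU_mul77, Polynomial.map_mul, hp, penU_X77, hpe, hpe, map_mul, MvPolynomial.aeval_X]
    congr 1
    rw [Polynomial.map_sub, Polynomial.map_mul, Polynomial.map_C, Polynomial.map_C,
      Polynomial.map_X, MvPolynomial.eval_X, MvPolynomial.eval_X, Sum.elim_inl, Sum.elim_inr]
    by_cases h : j = o
    · subst h
      rw [Pi.single_eq_same, if_pos rfl, C_1, one_mul]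
    · rw [Pi.single_eq_of_ne h, if_neg h, C_0, zero_mul]

theorem dF_rdp {r : ℕ} (hr : 1 ≤ r) (o : κ) (c : κ → R) (F : MvPolynomial κ R)
    (hF : F.IsHomogeneous r) (hF0 : F ≠ 0) :
    lc r o F * MvPolynomial.eval (Sum.elim (Pi.single o 1) c) (dF F) = rdp r o c F ∨
      lc r o F * MvPolynomial.eval (Sum.elim (Pi.single o 1) c) (dF F) = - rdp r o c F := by
  have h1 := congrArg (MvPolynomial.eval (Sum.elim (Pi.single o 1) c)) (rel77 hr hF hF0)
  rw [← resultant_map_map, ← derivative_map, pen_map77, map_mul, map_mul, map_pow, map_neg,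
    map_one, ← penU_coeff F hF, ← coeff_map, pen_map77,
    Pool.Agent.Helper16.UP.pen_coeff o c F hF] at h1
  have h2 : rdp r o c F = resultant (pen o c F) (derivative (pen o c F)) r (r - 1) := rfl
  rw [h2, h1]
  rcases neg_one_pow_eq_or R (r * (r - 1) / 2) with h9 | h9 <;> rw [h9]
  · left; ring
  · right; ring

end Pool.Agent.Helper16.VG
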