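import Pool.Agent.Helper16.UP.Defs3
import Pool.Agent.Helper16.UP.Defs2

/-!
# Definitions for project VG (MP_71c16a_nt, helper16): all smooth projective varieties

`κ` is the index set of the homogeneous coordinates. The definitions of UP/Defs.lean (`pen`, `pend`, `ev`,
`rs`, `rdp`, `lc`, `Dec`, `nn`, `mx`, `lf`, `mnr`) are used unchanged.
-/

namespace Pool.Agent.Helper16.VG

open Polynomial
open Pool.Agent.Helper16.UP (lf pen pend ev rs rdp lc Dec nn mx mnr AA EE EC cA fA)

section general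

variable {κ : Type*} [Fintype κ] [DecidableEq κ] {R : Type*} [CommRing R] {d : ℕ}

/-- The determinant with columns `x, D_1 x, ..., D_d x` and rows the coordinates `J 0, ..., J d`. -/
noncomputable def JacJ (D : Fin d → R → R) (J : Fin (d + 1) → κ) (x : κ → R) : R :=
  Matrix.det (Matrix.of fun a i : Fin (d + 1) =>
    (Fin.cons (x (J a)) (fun i => D i (x (J a))) : Fin (d + 1) → R) i)

/-- A combination of the `JacJ`. -/
noncomputable def JacU (D : Fin d → R → R) (u : (Fin (d + 1) → κ) → R) (x : κ → R) : R :=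
  ∑ J, u J * JacJ D J x

/-- The polynomial whose value at `z_σ` is `P'(z_σ) ^ (2 d + 1) * JacJ (x^σ)`. -/
noncomputable def thetaJ (o : κ) (c : κ → R) (F : MvPolynomial κ R) (D : Fin d → R → R)
    (J : Fin (d + 1) → κ) : R[X] :=
  Matrix.det (Matrix.of fun a i : Fin (d + 1) =>
    (Fin.cons (pend o c F (J a)) (fun i => nn o c F (D i) (J a)) : Fin (d + 1) → R[X]) i)

/-- A combination of the `thetaJ`. -/
noncomputable def thetaU (o : κ) (c : κ → R) (F : MvPolynomial κ R) (D : Fin d → R → R)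
    (u : (Fin (d + 1) → κ) → R) : R[X] := ∑ J, C (u J) * thetaJ o c F D J

/-- The resultant which is `rd ^ (2 d + 1) * ∏_σ JacU (x^σ)`. -/
noncomputable def ThetaU (r : ℕ) (o : κ) (c : κ → R) (F : MvPolynomial κ R) (D : Fin d → R → R)
    (u : (Fin (d + 1) → κ) → R) : R :=
  resultant (pen o c F) (thetaU o c F D u) r ((2 * d + 1) * (r - 1))

/-- `F (T H - C)`, a polynomial in `T` over the ring of polynomials in the variables `H_j` (index
`Sum.inl j`) and `C_j` (index `Sum.inr j`). -/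
noncomputable def penU (F : MvPolynomial κ R) : (MvPolynomial (κ ⊕ κ) R)[X] :=
  MvPolynomial.aeval (fun j => C (MvPolynomial.X (Sum.inl j)) * X - C (MvPolynomial.X (Sum.inr j))) F

/-- The discriminant of `F (T H - C)`; if `F = a ∏_σ (∑_j x_j^σ U_j)` it is
`± a ^ (2 r - 2) ∏_{σ ≠ τ} (∑ C_j x_j^σ ∑ H_j x_j^τ - ∑ C_j x_j^τ ∑ H_j x_j^σ)`. -/
noncomputable def dF (F : MvPolynomial κ R) : MvPolynomial (κ ⊕ κ) R := (penU F).discr

/-- The maximum of the values of the `2 x 2` minors of the matrix with rows `x`, `y`. -/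
noncomputable def dist2 {M : Type*} [Field M] {Γ₀ : Type*} [LinearOrderedCommGroupWithZero Γ₀]
    (v : Valuation M Γ₀) (x y : κ → M) : Γ₀ :=
  Finset.univ.sup fun p : κ × κ => v (x p.1 * y p.2 - x p.2 * y p.1)

/-- The maximum of the values of the `g i (x)`. -/
noncomputable def mg {K M : Type*} [Field K] [Field M] [Algebra K M] {Γ₀ : Type*}
    [LinearOrderedCommGroupWithZero Γ₀] (v : Valuation M Γ₀) {ι : Type*} [Fintype ι]
    (g : ι → MvPolynomial κ K) (x : κ → M) : Γ₀ :=
  Finset.univ.sup fun i => v (MvPolynomial.aeval x (g i))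

/-- The combination `∑ t ^ i g i`. -/
noncomputable def gt {ν : ℕ} (g : Fin ν → MvPolynomial κ R) (t : ℕ) : MvPolynomial κ R :=
  ∑ i : Fin ν, MvPolynomial.C ((t : R) ^ (i : ℕ)) * g i

end general

section special

variable {d c : ℕ} {R : Type*} [CommRing R]

/-- The determinant with rows the unit vectors `J 0, ..., J d` and the gradients of the `φ (I i)`: up to
sign a maximal minor of the Jacobian matrix of the `φ (I i)`; for varying `J` these are the Plücker
coordinates of the tangent space. -/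
noncomputable def tang {ι : Type*} (φ : ι → MvPolynomial (Fin (d + 1) ⊕ Fin c) R) (I : Fin c → ι)
    (J : Fin (d + 1) → Fin (d + 1) ⊕ Fin c) : MvPolynomial (Fin (d + 1) ⊕ Fin c) R :=
  Matrix.det (Matrix.of fun i l : Fin (d + 1) ⊕ Fin c =>
    Sum.elim (fun b => if J b = l then 1 else 0) (fun i => MvPolynomial.pderiv l (φ (I i))) i)

/-- `X = {φ = 0}` is smooth of dimension `d` and the divisor with the ideal `(g i)` has simple normal
crossings on it: for every point `p` of `X` there are `c` of the forms `φ i` and forms `f 1, ..., f s`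
whose gradients at `p` are linearly independent such that the ideal generated by the `g i` on `X` is
generated by `f 1 * ... * f s` near `p`. -/
def SNCG {K : Type*} [Field K] {ι ι' : Type*} (φ : ι → MvPolynomial (Fin (d + 1) ⊕ Fin c) K)
    (g : ι' → MvPolynomial (Fin (d + 1) ⊕ Fin c) K) : Prop :=
  ∀ p : Fin (d + 1) ⊕ Fin c → AlgebraicClosure K, p ≠ 0 → (∀ i, MvPolynomial.aeval p (φ i) = 0) →
    ∃ (I : Fin c → ι) (s : ℕ) (f : Fin s → MvPolynomial (Fin (d + 1) ⊕ Fin c) K) (e : Fin s → ℕ)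
      (A : MvPolynomial (Fin (d + 1) ⊕ Fin c) K) (B : ι' → MvPolynomial (Fin (d + 1) ⊕ Fin c) K),
      (∀ j, (f j).IsHomogeneous (e j)) ∧ MvPolynomial.aeval p A ≠ 0 ∧
      (∃ i, MvPolynomial.aeval p (B i) ≠ 0) ∧
      (∀ i, A * g i - B i * ∏ j, f j ∈ Ideal.span (Set.range φ)) ∧
      LinearIndependent (AlgebraicClosure K)
        (Sum.elim (fun i l => MvPolynomial.aeval p (MvPolynomial.pderiv l (φ (I i))))
          (fun j l => MvPolynomial.aeval p (MvPolynomial.pderiv l (f j))) :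
          Fin c ⊕ Fin s → (Fin (d + 1) ⊕ Fin c → AlgebraicClosure K))

/-- `w` is the product of `A`, `B i0` and a determinant of gradients for a local description of the
ideal generated by the `g i` as in `SNCG`. -/
def Chart {K : Type*} [Field K] {ι ι' : Type*} (φ : ι → MvPolynomial (Fin (d + 1) ⊕ Fin c) K)
    (g : ι' → MvPolynomial (Fin (d + 1) ⊕ Fin c) K) (w : MvPolynomial (Fin (d + 1) ⊕ Fin c) K) :
    Prop :=
  ∃ (I : Fin c → ι) (s : ℕ) (f : Fin s → MvPolynomial (Fin (d + 1) ⊕ Fin c) K) (e : Fin s → ℕ)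
    (A : MvPolynomial (Fin (d + 1) ⊕ Fin c) K) (B : ι' → MvPolynomial (Fin (d + 1) ⊕ Fin c) K)
    (i0 : ι') (ρ : Fin (d + 1) → Fin s ⊕ (Fin (d + 1) ⊕ Fin c)),
    (∀ j, (f j).IsHomogeneous (e j)) ∧ (∀ j, ∃ b, ρ b = Sum.inl j) ∧
    (∀ i, A * g i - B i * ∏ j, f j ∈ Ideal.span (Set.range φ)) ∧
    w = A * B i0 * mnr (fun i => φ (I i)) f ρ

/-- The algebraic form of `SNCG` (Nullstellensatz). -/
def Cov {K : Type*} [Field K] {ι ι' : Type*} (φ : ι → MvPolynomial (Fin (d + 1) ⊕ Fin c) K)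
    (g : ι' → MvPolynomial (Fin (d + 1) ⊕ Fin c) K) : Prop :=
  ∃ n : ℕ, ∀ l : Fin (d + 1) ⊕ Fin c,
    (MvPolynomial.X l : MvPolynomial (Fin (d + 1) ⊕ Fin c) K) ^ n ∈
      Ideal.span (Set.range φ ∪ {w | Chart φ g w})

end special

end Pool.Agent.Helper16.VG
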