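import Pool.Agent.Helper16.VG.FFMG
import Pool.Agent.Helper16.UP.Ext
import Pool.Agent.Helper16.UP.DV2
import Pool.Agent.Helper16.UP.Model2
import Pool.Agent.Helper16.UP.Defs2

/-!
# Block VG-B6: the inequality of Newton polytopes (integral weights)

MODEL: UP/FFI.lean (`ffi`, same structure).
PROOF. `exists_model2 w`: `R, E', v, ψ : AA K s → E'`, derivations `δ i` of `E'` for `lam i`. `lift_closure ψ`, `dec_comp`, `fin_ext`, `dec_descend`: a finite extension `M` of `E'` and `y` with `Dec (algebraMap.comp ψ) o F y`, `M` an algebra over `K` through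
`ψ ∘ C`, `φ i (y σ) = 0`. `dv2`: `v'` on `M`, `D i` extends `δ i`, `v' (constants) = 1`, `D i (constants) = 0`, `v' (D i z) ≤ v' z`. `ffmG` with `a0 = ψ (lc)`, `c0 = constants`, for the coefficient `γ`; with `ThetaU_map`, `rdp_map`, `rs_map` it reads
`v' (ψ_M (ThetaU * rdp ^ q * F_γ ^ E)) ≤ v' (ψ_M (lc ^ E * rdp ^ (2 d + 1) * rs_t))`, `E = q - (d + 1)`. Multiply by `v' (ψ_M (lc ^ (d + 1) * G))`, insert `hΨ`, cancel `v' (ψ_M (rdp ^ (2 d + 1))) ≠ 0`:
`v' (ψ_M (Ψ * rdp ^ q * F_γ ^ E)) ≤ v' (ψ_M (lc ^ q * G * rs_t))`. The last property of the model.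
-/

namespace Pool.Agent.Helper16.VG

open MvPolynomial (aeval)
open Pool.Agent.Helper16.TP (der)
open Pool.Agent.Helper16.UP (lf pen pend ev rs rdp lc Dec nn mx mnr o0 AA EE EC cA fA)

universe u

private lemma rdp_zeroG {κ : Type*} [Fintype κ] [DecidableEq κ] {R : Type*} [CommRing R]
    {r : ℕ} (hr : 1 ≤ r) (o : κ) (c : κ → R) : rdp r o c 0 = 0 := by
  have h : pen o c (0 : MvPolynomial κ R) = 0 := by
    unfold pen
    rw [map_zero]
  unfold rdp Pool.Agent.Helper16.TP.rd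
  rw [h, Polynomial.derivative_zero, Polynomial.resultant_zero_zero, zero_pow (by omega)]

theorem ffiG {K : Type u} [Field K] [CharZero K] {d c s r ν q : ℕ} (hr : 1 ≤ r) {ι : Type*}
    (φ : ι → MvPolynomial (Fin (d + 1) ⊕ Fin c) K) (a : ι → ℕ)
    (hφ : ∀ i, (φ i).IsHomogeneous (a i)) (g : Fin ν → MvPolynomial (Fin (d + 1) ⊕ Fin c) K)
    (hg : ∀ i, (g i).IsHomogeneous q) (hC : Cov φ g) (hq : d + 1 ≤ q)
    (F : MvPolynomial (Fin (d + 1) ⊕ Fin c) (AA K s))
    (x : Fin r → Fin (d + 1) ⊕ Fin c → EC K s)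
    (hx : Dec (algebraMap (AA K s) (EC K s)) (o0 d c) F x)
    (hφx : ∀ σ i, aeval (x σ) (φ i) = 0) (c0 : Fin (d + 1) ⊕ Fin c → K)
    (h0 : rdp r (o0 d c) (cA s c0) F ≠ 0) (lam : Fin d → Fin s → K)
    (u : (Fin (d + 1) → Fin (d + 1) ⊕ Fin c) → K) (Ψ G : AA K s)
    (hΨ : Ψ * rdp r (o0 d c) (cA s c0) F ^ (2 * d + 1) = lc r (o0 d c) F ^ (d + 1) * G *
      ThetaU r (o0 d c) (cA s c0) F (fun i => der (lam i)) (fun J => MvPolynomial.C (u J)))
    (γ : (Fin (d + 1) ⊕ Fin c) →₀ ℕ) (w : Fin s → ℤ) :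
    ∀ μ ∈ (Ψ * rdp r (o0 d c) (cA s c0) F ^ q * F.coeff γ ^ (q - (d + 1))).support,
      ∃ t : Fin (ν * r + 1),
        ∃ μ' ∈ (lc r (o0 d c) F ^ q * G *
          rs r q (o0 d c) (cA s c0) F (fA s (gt g t))).support,
          ∑ b, w b * (μ' b : ℤ) ≤ ∑ b, w b * (μ b : ℤ) := by
  classical
  obtain ⟨R, E', _, _, _, _, _, v, ψ, hE, hψ, hψ1, hψd, hcmp⟩ :=
    Pool.Agent.Helper16.TP.exists_model2 (K := K) w
  haveI := hE
  obtain ⟨E, hEE⟩ : ∃ E : ℕ, E = q - (d + 1) := ⟨_, rfl⟩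
  have hqE : d + 1 + E = q := by omega
  -- the points over a finite extension
  obtain ⟨θ, hθ⟩ := Pool.Agent.Helper16.UP.lift_closure ψ hψ
  have hd1 : Dec ((algebraMap E' (AlgebraicClosure E')).comp ψ) (o0 d c) F fun σ j => θ (x σ j) := by
    have h1 := Pool.Agent.Helper16.UP.dec_comp (algebraMap (AA K s) (EC K s)) θ (o0 d c) F x hx
    have h2 : θ.comp (algebraMap (AA K s) (EC K s)) =
        (algebraMap E' (AlgebraicClosure E')).comp ψ := RingHom.ext fun P => hθ P
    rw [h2] at h1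
    exact h1
  obtain ⟨M, hM, y, hy⟩ := Pool.Agent.Helper16.UP.fin_ext fun σ j => θ (x σ j)
  haveI := hM
  have hd2 := Pool.Agent.Helper16.UP.dec_descend ψ (o0 d c) F _ hd1 M y hy
  obtain ⟨ψM, hψM⟩ : ∃ ψM : AA K s →+* M, ψM = (algebraMap E' M).comp ψ := ⟨_, rfl⟩
  rw [← hψM] at hd2
  have hψMi : Function.Injective ψM := by
    rw [hψM]
    exact (algebraMap E' M).injective.comp hψ
  letI : Algebra K M := (ψM.comp MvPolynomial.C).toAlgebra
  have hKM : ∀ c : K, algebraMap K M c = algebraMap E' M (ψ (MvPolynomial.C c)) := by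
    intro c
    show ψM (MvPolynomial.C c) = _
    rw [hψM]
    rfl
  have hKM' : algebraMap K M = ψM.comp MvPolynomial.C := rfl
  -- valuation and derivations
  have hv : ∀ n : ℕ, n ≠ 0 → v.valuation E' (n : E') = 1 := by
    intro k hk
    have := hψ1 (k : K) (by exact_mod_cast hk)
    simpa using this
  obtain ⟨v', hv', hlog'⟩ := Pool.Agent.Helper16.TP.dv2 (M := M) v hv
  have hle1 : ∀ z : E', v.valuation E' z = 1 → v' (algebraMap E' M z) = 1 := by
    intro z hz
    apply le_antisymm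
    · have := (hv' z 1).2 (by rw [hz, map_one])
      rwa [map_one, map_one] at this
    · have := (hv' 1 z).2 (by rw [hz, map_one])
      rwa [map_one, map_one] at this
  choose δ hδ1 hδ2 using fun i => hψd (lam i)
  choose D hD1 using fun i => Pool.Agent.Helper16.TP.h53_exists_ext (M := M) (δ i)
  have hK : ∀ c : K, c ≠ 0 → v' (algebraMap K M c) = 1 := by
    intro c hc
    rw [hKM]
    exact hle1 _ (hψ1 c hc)
  have hn : ∀ n : ℕ, n ≠ 0 → v' (n : M) = 1 := by
    intro n hn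
    have h1 : ((n : ℕ) : M) = algebraMap K M ((n : ℕ) : K) := (map_natCast _ n).symm
    rw [h1]
    exact hK _ (by exact_mod_cast hn)
  have hDψ : ∀ i (P : AA K s), D i (ψM P) = ψM (der (lam i) P) := by
    intro i P
    rw [hψM]
    show D i (algebraMap E' M (ψ P)) = algebraMap E' M (ψ (der (lam i) P))
    rw [hD1, hδ1]
  have hDK : ∀ i (c : K), D i (algebraMap K M c) = 0 := by
    intro i c
    have h1 : algebraMap K M c = ψM (MvPolynomial.C c) := rfl
    rw [h1, hDψ]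
    have h2 : der (lam i) (MvPolynomial.C c) = 0 := by
      rw [← MvPolynomial.algebraMap_eq]
      exact Derivation.map_algebraMap _ c
    rw [h2, map_zero]
  have hlog : ∀ i z, v' (D i z) ≤ v' z := fun i z => hlog' (δ i) (hδ2 i) (D i) (hD1 i) z
  -- the equations
  have hyφ : ∀ σ i, aeval (y σ) (φ i) = 0 := by
    intro σ i
    have h1 : (algebraMap M (AlgebraicClosure E')) (aeval (y σ) (φ i)) = θ (aeval (x σ) (φ i)) := by
      rw [MvPolynomial.aeval_def, MvPolynomial.aeval_def, MvPolynomial.hom_eval₂,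
        MvPolynomial.hom_eval₂]
      have h2 : (algebraMap M (AlgebraicClosure E')).comp (algebraMap K M) =
          θ.comp (algebraMap K (EC K s)) := by
        ext c
        rw [RingHom.comp_apply, RingHom.comp_apply, hKM,
          IsScalarTower.algebraMap_apply K (AA K s) (EC K s), hθ]
        rfl
      have h3 : (fun i => (algebraMap M (AlgebraicClosure E')) (y σ i)) = fun i => θ (x σ i) := by
        funext j
        exact hy σ j
      rw [h2, h3]
    rw [hφx, map_zero] at h1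
    exact (map_eq_zero_iff _ (algebraMap M (AlgebraicClosure E')).injective).1 h1
  -- the inequality for the form
  have ha0 : ψM (lc r (o0 d c) F) ≠ 0 := by
    intro hz
    have h1 := hd2.2
    rw [hz, map_zero, zero_mul] at h1
    have h2 : F = 0 := by
      apply MvPolynomial.map_injective ψM hψMi
      rw [h1, map_zero]
    apply h0
    rw [h2]
    exact rdp_zeroG hr _ _
  obtain ⟨t, hff⟩ := ffmG v' φ a hφ g hg hC hq hn hK D hDK hlog hr (ψM (lc r (o0 d c) F)) ha0 y hd2.1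
    hyφ (fun j => ψM (cA s c0 j)) (F.map ψM) hd2.2 γ u
  have hT : ThetaU r (o0 d c) (fun j => ψM (cA s c0 j)) (F.map ψM) (fun i => D i)
        (fun J => algebraMap K M (u J)) =
      ψM (ThetaU r (o0 d c) (cA s c0) F (fun i => der (lam i)) (fun J => MvPolynomial.C (u J))) :=
    (ThetaU_map ψM r (o0 d c) (cA s c0) F (fun i => der (lam i)) (fun i => D i) (fun i => map_zero _)
      (fun i => map_zero _) hDψ (fun J => MvPolynomial.C (u J))).symm
  have hmapQ : ∀ Q : MvPolynomial (Fin (d + 1) ⊕ Fin c) K,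
      Q.map (algebraMap K M) = (fA s Q).map ψM := by
    intro Q
    rw [Pool.Agent.Helper16.UP.fA, MvPolynomial.map_map, hKM']
  rw [hT, ← Pool.Agent.Helper16.UP.rdp_map, MvPolynomial.coeff_map, hmapQ,
    ← Pool.Agent.Helper16.UP.rs_map, ← hEE] at hff
  rw [← hEE]
  have hcomp : ∀ P, algebraMap E' M (ψ P) = ψM P := fun P => by
    rw [hψM]
    rfl
  have hmain : v.valuation E' (ψ (Ψ * rdp r (o0 d c) (cA s c0) F ^ q * F.coeff γ ^ E)) ≤
      v.valuation E' (ψ (lc r (o0 d c) F ^ q * G *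
          rs r q (o0 d c) (cA s c0) F (fA s (gt g t)))) := by
    refine (hv' _ _).1 ?_
    rw [hcomp, hcomp]
    generalize lc r (o0 d c) F = l at hff hΨ ⊢
    generalize rdp r (o0 d c) (cA s c0) F = Rr at hff hΨ h0 ⊢
    generalize ThetaU r (o0 d c) (cA s c0) F (fun i => der (lam i))
      (fun J => MvPolynomial.C (u J)) = Th at hff hΨ
    generalize MvPolynomial.coeff γ F = Fg at hff ⊢
    generalize rs r q (o0 d c) (cA s c0) F (fA s (gt g t)) = Pf at hff ⊢
    rw [← map_pow, ← map_pow, ← map_pow, ← map_pow, ← map_mul, ← map_mul, ← map_mul,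
      ← map_mul] at hff
    have hB' : v' (ψM (Rr ^ (2 * d + 1))) ≠ 0 := by
      rw [Valuation.ne_zero_iff]
      intro hz
      exact pow_ne_zero _ h0 ((map_eq_zero_iff ψM hψMi).1 hz)
    have e1 : Rr ^ (2 * d + 1) * (Ψ * Rr ^ q * Fg ^ E) =
        l ^ (d + 1) * G * (Th * Rr ^ q * Fg ^ E) := by
      have h1 : l ^ (d + 1) * G * (Th * Rr ^ q * Fg ^ E) =
          (l ^ (d + 1) * G * Th) * (Rr ^ q * Fg ^ E) := by ring
      rw [h1, ← hΨ]
      ring
    have e2 : Rr ^ (2 * d + 1) * (l ^ q * G * Pf) =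
        l ^ (d + 1) * G * (l ^ E * Rr ^ (2 * d + 1) * Pf) := by
      rw [← hqE, pow_add l (d + 1) E]
      ring
    have hfin : v' (ψM (Rr ^ (2 * d + 1))) * v' (ψM (Ψ * Rr ^ q * Fg ^ E)) ≤
        v' (ψM (Rr ^ (2 * d + 1))) * v' (ψM (l ^ q * G * Pf)) := by
      rw [← map_mul, ← map_mul, e1, ← map_mul, ← map_mul, e2, map_mul ψM,
        map_mul ψM (l ^ (d + 1) * G), map_mul v', map_mul v' (ψM (l ^ (d + 1) * G))]
      exact mul_le_mul_right hff _
    exact le_of_mul_le_mul_left hfin (zero_lt_iff.2 hB')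
  intro μ hμ
  obtain ⟨μ', h1, h2⟩ := hcmp _ _ hmain μ hμ
  exact ⟨t, μ', h1, h2⟩

end Pool.Agent.Helper16.VG
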