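import Pool.Agent.Helper16.VG.ValG
import Pool.Agent.Helper16.UP.Gauss
import Pool.Agent.Helper16.UP.Mx
import Pool.Agent.Helper16.UP.Values

/-!
# Block VG-B5: product over the conjugates, logarithmic derivations

MODEL: UP/FFM.lean (`ffm`). `E = q - (d + 1)`.
PROOF. `exists_gt` (generic combination): for `y σ : Fin ν → M` and `t : ℕ` call `t` bad for `σ` if `v (∑ t ^ i * y σ i) ≠ mx v (y σ)` (it is `≤`). Fewer than `ν` (at most `ν - 1`, or none if `ν = 0`) numbers `t` are bad for a given `σ`: for `ν`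
different bad `t` Cramer's rule for the Vandermonde matrix (determinant of value `1` by `hn`) gives `v (y σ i) < mx v (y σ)` for all `i` (this is `bad_h36` in UP/Mx.lean, private, copy it). So at most `r * (ν - 1) < ν * r + 1`
numbers are bad for some `σ`, and some `t ≤ ν * r` is good for all `σ`.
`ffmG`: with `μ σ = mx v (x σ) ≠ 0`: `v (JacU (x σ)) * μ σ ^ q ≤ μ σ ^ (d + 1) * mg v g (x σ)` (`valG` for every `J`, `v (u J) ≤ 1`), `v (F_γ) ≤ v a0 * ∏ μ σ` (`gauss_le`), `ThetaU_eq`, `rs_eq` (`rs = rdp ^ q * ∏ σ, value of the form at x σ`),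
`v (value of gt g t at x σ) = mg v g (x σ)` for all `σ` for the good `t` (`aeval x (gt g t) = ∑ t ^ i * aeval x (g i)`). So
`v (left side) ≤ v (rdp) ^ (2 d + 1 + q) * ∏ (μ σ ^ (d + 1) μ σ ^ (-q) mg (x σ)) * (v a0 ∏ μ σ) ^ E = v (rdp) ^ (2 d + 1 + q) * v a0 ^ E * ∏ mg (x σ)`, which is the value for the good `t` on the right.
-/

namespace Pool.Agent.Helper16.VG

open MvPolynomial (aeval)
open Pool.Agent.Helper16.UP (lf pen pend ev rs rdp lc Dec nn mx mnr o0)

variable {K M : Type*} [Field K] [Field M] [Algebra K M] {Γ₀ : Type*}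
  [LinearOrderedCommGroupWithZero Γ₀] (v : Valuation M Γ₀) {d c : ℕ}

private theorem val_int_h72 (hn : ∀ n : ℕ, n ≠ 0 → v (n : M) = 1) {z : ℤ} (hz : z ≠ 0) :
    v (z : M) = 1 := by
  rcases Int.natAbs_eq z with h | h
  · rw [h, Int.cast_natCast]
    exact hn _ (Int.natAbs_ne_zero.2 hz)
  · rw [h, Int.cast_neg, Int.cast_natCast, Valuation.map_neg]
    exact hn _ (Int.natAbs_ne_zero.2 hz)

private theorem val_int_le_h72 (hn : ∀ n : ℕ, n ≠ 0 → v (n : M) = 1) (z : ℤ) :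
    v (z : M) ≤ 1 := by
  by_cases hz : z = 0
  · rw [hz, Int.cast_zero, map_zero]
    exact zero_le
  · exact (val_int_h72 v hn hz).le

/-- fewer than `N` values are bad -/
private theorem bad_h72 (hn : ∀ n : ℕ, n ≠ 0 → v (n : M) = 1) {N : ℕ} (hN : 0 < N) (y : Fin N → M)
    (τ : Fin N → ℕ) (hτ : Function.Injective τ)
    (hb : ∀ i, v (∑ k : Fin N, (τ i : M) ^ (k : ℕ) * y k) < mx v y) : False := by
  have : Nonempty (Fin N) := ⟨⟨0, hN⟩⟩
  set VZ : Matrix (Fin N) (Fin N) ℤ := Matrix.vandermonde (fun i => (τ i : ℤ)) with hVZ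
  have hdet : VZ.det ≠ 0 := by
    rw [hVZ, Matrix.det_vandermonde_ne_zero_iff]
    intro a b hab
    have hab' : (τ a : ℤ) = (τ b : ℤ) := hab
    exact hτ (by exact_mod_cast hab')
  set V : Matrix (Fin N) (Fin N) M := VZ.map (Int.castRingHom M) with hV
  have hVe : ∀ i k, V i k = (τ i : M) ^ (k : ℕ) := by
    intro i k
    simp [hV, hVZ, Matrix.vandermonde_apply]
  have hVd : V.det = (VZ.det : M) := by
    rw [hV]
    exact (RingHom.map_det (Int.castRingHom M) VZ).symm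
  have hadj : ∀ a b, V.adjugate a b = ((VZ.adjugate a b : ℤ) : M) := by
    intro a b
    have h1 := RingHom.map_adjugate (Int.castRingHom M) VZ
    have h2 := congrFun (congrFun h1 a) b
    exact h2.symm
  have hmul : V.adjugate.mulVec (V.mulVec y) = V.det • y := by
    rw [Matrix.mulVec_mulVec, Matrix.adjugate_mul, Matrix.smul_mulVec, Matrix.one_mulVec]
  have hW : ∀ i, V.mulVec y i = ∑ k : Fin N, (τ i : M) ^ (k : ℕ) * y k := by
    intro i
    show ∑ k : Fin N, V i k * y k = _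
    refine Finset.sum_congr rfl fun k _ => ?_
    rw [hVe]
  obtain ⟨j, hj⟩ := Pool.Agent.Helper16.UP.exists_mx v y
  have hne : mx v y ≠ 0 := (lt_of_le_of_lt zero_le (hb ⟨0, hN⟩)).ne'
  have h1 : v (V.det • y j) < mx v y := by
    have h2 := congrFun hmul j
    rw [Pi.smul_apply] at h2
    rw [← h2]
    show v (∑ i : Fin N, V.adjugate j i * V.mulVec y i) < mx v y
    refine v.map_sum_lt hne fun i _ => ?_
    rw [map_mul, hadj, hW]
    exact lt_of_le_of_lt (mul_le_of_le_one_left' (val_int_le_h72 v hn _)) (hb i)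
  rw [smul_eq_mul, map_mul, hVd, val_int_h72 v hn hdet, one_mul, hj] at h1
  exact lt_irrefl _ h1

theorem exists_gt (hn : ∀ n : ℕ, n ≠ 0 → v (n : M) = 1) {r ν : ℕ} (y : Fin r → Fin ν → M) :
    ∃ t : Fin (ν * r + 1), ∀ σ, v (∑ i : Fin ν, ((t : ℕ) : M) ^ (i : ℕ) * y σ i) = mx v (y σ) := by
  classical
  rcases Nat.eq_zero_or_pos ν with rfl | hν
  · refine ⟨0, fun σ => ?_⟩
    unfold mx
    simp only [Finset.univ_eq_empty, Finset.sum_empty, map_zero, Finset.sup_empty]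
    exact bot_eq_zero.symm
  by_contra hcon
  push Not at hcon
  choose f hf using hcon
  obtain ⟨σ, hσ⟩ := Fintype.exists_lt_card_fiber_of_mul_lt_card (n := ν) f (by
    rw [Fintype.card_fin, Fintype.card_fin, mul_comm]
    exact Nat.lt_succ_self _)
  obtain ⟨s, hs, hcard⟩ := Finset.exists_subset_card_eq hσ.le
  let e : Fin ν ≃ s := (finCongr hcard.symm).trans s.equivFin.symm
  refine bad_h72 v hn hν (y σ) (fun i => ((e i : Fin (ν * r + 1)) : ℕ)) ?_ ?_
  · intro a b hab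
    exact e.injective (Subtype.ext (Fin.ext hab))
  · intro i
    have h1 := (Finset.mem_filter.1 (hs (e i).2)).2
    have h2 := hf (e i)
    rw [h1] at h2
    refine lt_of_le_of_ne ?_ h2
    exact Pool.Agent.Helper16.UP.mx_sum_le v _ _ fun j => by
      have := val_int_le_h72 v hn ((((e i : Fin (ν * r + 1)) : ℕ) ^ (j : ℕ) : ℕ) : ℤ)
      rw [Int.cast_natCast, Nat.cast_pow] at this
      exact this

theorem ffmG {ι : Type*} (φ : ι → MvPolynomial (Fin (d + 1) ⊕ Fin c) K) (a : ι → ℕ)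
    (hφ : ∀ i, (φ i).IsHomogeneous (a i)) {ν q : ℕ}
    (g : Fin ν → MvPolynomial (Fin (d + 1) ⊕ Fin c) K) (hg : ∀ i, (g i).IsHomogeneous q)
    (hC : Cov φ g) (hq : d + 1 ≤ q) (hn : ∀ n : ℕ, n ≠ 0 → v (n : M) = 1)
    (hK : ∀ c : K, c ≠ 0 → v (algebraMap K M c) = 1) (D : Fin d → Derivation ℤ M M)
    (hD : ∀ i (c : K), D i (algebraMap K M c) = 0) (hlog : ∀ i z, v (D i z) ≤ v z)
    {r : ℕ} (hr : 1 ≤ r) (a0 : M) (ha0 : a0 ≠ 0) (x : Fin r → Fin (d + 1) ⊕ Fin c → M)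
    (hx1 : ∀ σ, x σ (o0 d c) = 1) (hx : ∀ σ i, aeval (x σ) (φ i) = 0)
    (c0 : Fin (d + 1) ⊕ Fin c → M) (F : MvPolynomial (Fin (d + 1) ⊕ Fin c) M)
    (hF : F = MvPolynomial.C a0 * ∏ σ, lf (x σ)) (γ : (Fin (d + 1) ⊕ Fin c) →₀ ℕ)
    (u : (Fin (d + 1) → Fin (d + 1) ⊕ Fin c) → K) :
    ∃ t : Fin (ν * r + 1),
      v (ThetaU r (o0 d c) c0 F (fun i => D i) (fun J => algebraMap K M (u J)) *
          rdp r (o0 d c) c0 F ^ q * F.coeff γ ^ (q - (d + 1))) ≤
        v (a0 ^ (q - (d + 1)) * rdp r (o0 d c) c0 F ^ (2 * d + 1) *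
          rs r q (o0 d c) c0 F ((gt g t).map (algebraMap K M))) := by
  classical
  obtain ⟨E, hE⟩ : ∃ E : ℕ, E = q - (d + 1) := ⟨_, rfl⟩
  rw [← hE]
  have hqE : q = E + (d + 1) := by omega
  have hmx : ∀ σ, mx v (x σ) ≠ 0 := by
    intro σ h0
    have h1 : v (x σ (o0 d c)) ≤ mx v (x σ) :=
      Finset.le_sup (f := fun j => v (x σ j)) (Finset.mem_univ (o0 d c))
    rw [hx1 σ, map_one, h0] at h1
    exact absurd h1 (by simp)
  have hu : ∀ J, v (algebraMap K M (u J)) ≤ 1 := by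
    intro J
    by_cases h0 : u J = 0
    · rw [h0, map_zero, map_zero]
      exact zero_le
    · exact (hK _ h0).le
  -- the inequality at one point
  have hpt : ∀ σ, v (JacU (fun i => D i) (fun J => algebraMap K M (u J)) (x σ)) *
      mx v (x σ) ^ E ≤ mg v g (x σ) := by
    intro σ
    have hpos : ∀ n : ℕ, 0 < mx v (x σ) ^ n := fun n => zero_lt_iff.2 (pow_ne_zero _ (hmx σ))
    have h1 : ∀ J, v (JacJ (fun i => D i) J (x σ)) ≤
        mx v (x σ) ^ (d + 1) * mg v g (x σ) / mx v (x σ) ^ q := by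
      intro J
      rw [le_div_iff₀ (hpos q)]
      exact valG v φ a hφ g hg hC hK D hD hlog (x σ) (o0 d c)
        (by rw [hx1 σ]; exact one_ne_zero) (hx σ) J
    have h2 : v (JacU (fun i => D i) (fun J => algebraMap K M (u J)) (x σ)) ≤
        mx v (x σ) ^ (d + 1) * mg v g (x σ) / mx v (x σ) ^ q := by
      unfold JacU
      refine v.map_sum_le fun J _ => ?_
      rw [map_mul]
      exact (mul_le_of_le_one_left' (hu J)).trans (h1 J)
    rw [le_div_iff₀ (hpos q), hqE, pow_add, ← mul_assoc,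
      mul_comm (mx v (x σ) ^ (d + 1)) (mg v g (x σ))] at h2
    exact le_of_mul_le_mul_right h2 (hpos (d + 1))
  have hprod : (∏ σ, v (JacU (fun i => D i) (fun J => algebraMap K M (u J)) (x σ))) *
      (∏ σ, mx v (x σ)) ^ E ≤ ∏ σ, mg v g (x σ) := by
    rw [← Finset.prod_pow, ← Finset.prod_mul_distrib]
    exact Finset.prod_le_prod' fun σ _ => hpt σ
  have hgl : v (F.coeff γ) ≤ v a0 * ∏ σ, mx v (x σ) := by
    rw [hF]
    exact Pool.Agent.Helper16.UP.gauss_le v a0 x γ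
  have hg2 : v (F.coeff γ) ^ E ≤ v a0 ^ E * (∏ σ, mx v (x σ)) ^ E := by
    rw [← mul_pow]
    exact pow_le_pow_left' hgl E
  obtain ⟨t, ht⟩ := exists_gt v hn (fun σ i => aeval (x σ) (g i))
  have hgt : ∀ σ, v (aeval (x σ) (gt g t)) = mg v g (x σ) := by
    intro σ
    have h1 : aeval (x σ) (gt g t) =
        ∑ i : Fin ν, ((t : ℕ) : M) ^ (i : ℕ) * aeval (x σ) (g i) := by
      unfold gt
      rw [map_sum]
      refine Finset.sum_congr rfl fun i _ => ?_
      rw [map_mul, MvPolynomial.aeval_C, map_pow, map_natCast]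
    rw [h1]
    exact ht σ
  have hkey : (∏ σ, v (JacU (fun i => D i) (fun J => algebraMap K M (u J)) (x σ))) *
      v (F.coeff γ) ^ E ≤ v a0 ^ E * ∏ σ, v (aeval (x σ) (gt g t)) := by
    rw [Finset.prod_congr rfl fun σ _ => hgt σ]
    calc _ ≤ (∏ σ, v (JacU (fun i => D i) (fun J => algebraMap K M (u J)) (x σ))) *
          (v a0 ^ E * (∏ σ, mx v (x σ)) ^ E) := mul_le_mul_right hg2 _
      _ = v a0 ^ E * ((∏ σ, v (JacU (fun i => D i) (fun J => algebraMap K M (u J)) (x σ))) *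
          (∏ σ, mx v (x σ)) ^ E) := by rw [mul_left_comm]
      _ ≤ _ := mul_le_mul_right hprod _
  have hgth : (gt g t).IsHomogeneous q := by
    unfold gt
    refine MvPolynomial.IsHomogeneous.sum _ _ q fun i _ => ?_
    have := (MvPolynomial.isHomogeneous_C (Fin (d + 1) ⊕ Fin c) (((t : ℕ) : K) ^ (i : ℕ))).mul (hg i)
    rwa [zero_add] at this
  have hrs : rs r q (o0 d c) c0 F ((gt g t).map (algebraMap K M)) =
      rdp r (o0 d c) c0 F ^ q * ∏ σ, aeval (x σ) (gt g t) := by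
    rw [hF, Pool.Agent.Helper16.UP.rs_eq (o0 d c) c0 hr a0 ha0 x hx1 _ (hgth.map _)]
    congr 1
    refine Finset.prod_congr rfl fun σ _ => ?_
    rw [MvPolynomial.eval_map, MvPolynomial.aeval_def]
  have hTh : ThetaU r (o0 d c) c0 F (fun i => D i) (fun J => algebraMap K M (u J)) =
      rdp r (o0 d c) c0 F ^ (2 * d + 1) *
        ∏ σ, JacU (fun i => D i) (fun J => algebraMap K M (u J)) (x σ) := by
    rw [hF]
    exact ThetaU_eq (o0 d c) c0 hr a0 ha0 x hx1 D _
  refine ⟨t, ?_⟩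
  rw [hrs, hTh]
  generalize rdp r (o0 d c) c0 F = R
  simp only [map_mul, map_pow, map_prod]
  have e1 : v R ^ (2 * d + 1) *
      (∏ σ, v (JacU (fun i => D i) (fun J => algebraMap K M (u J)) (x σ))) * v R ^ q *
      v (F.coeff γ) ^ E = v R ^ (2 * d + 1) * v R ^ q *
      ((∏ σ, v (JacU (fun i => D i) (fun J => algebraMap K M (u J)) (x σ))) *
        v (F.coeff γ) ^ E) := by
    rw [mul_right_comm (v R ^ (2 * d + 1)), mul_assoc]
  have e2 : v a0 ^ E * v R ^ (2 * d + 1) * (v R ^ q * ∏ σ, v (aeval (x σ) (gt g t))) =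
      v R ^ (2 * d + 1) * v R ^ q * (v a0 ^ E * ∏ σ, v (aeval (x σ) (gt g t))) := by
    ac_rfl
  rw [e1, e2]
  exact mul_le_mul_right hkey _

end Pool.Agent.Helper16.VG
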