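import Pool.Agent.Helper16.VG.PsiG
import Pool.Agent.Helper16.VG.FFIG
import Pool.Agent.Helper16.UP.NV
import Pool.Agent.Helper16.TP.Weights

/-!
# Block VG-B7: the theorem for families

MODEL: UP/Fam.lean (`fam`, `fam_gcd`).
PROOF. `nv_lam` (UP/NV.lean, with `m := c`) and `ThetaU_single` give `lam`. `G` = greatest common divisor of the coefficients `(dF F).coeff μ`, `μ` in the (finite) support of `dF F` (`fam_gcd`, private in UP/Fam.lean: copy it; `G` divides the other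
coefficients, which are `0`). `dF F ≠ 0` by `dF_rdp` and `h0` (`F ≠ 0` because `rdp ≠ 0`), so `G ≠ 0`. `lc ≠ 0` since `rdp ≠ 0` (`F = lc * ∏` over `EC`, `lc = 0` gives `F = 0`, `rdp r o c 0 = 0`). `psiG` for all `μ`: `rdp ^ (2 d + 1)` divides `lc ^ (d + 1) * ThetaU * (dF F).coeff μ`,
so it divides `lc ^ (d + 1) * ThetaU * G`; `Ψ u` = the quotient. `yy t = λ ^ t` for a `λ : ℕ` (or in `K`) such that for every monomial `μ'` in the union of the supports of the `Q_t = lc ^ q * G * rs_t` the polynomial `∑_t λ ^ t coeff μ' (Q_t)` in `λ` does not vanish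
(finitely many nonzero polynomials, `K` infinite). Then the support of `Q = ∑ C (yy t) * Q_t = lc ^ q * G * R` contains the supports of all `Q_t`, in particular `R ≠ 0` by `hR`. `ffiG` and `real_of_int` (TP/Weights.lean).
-/

namespace Pool.Agent.Helper16.VG

open MvPolynomial (aeval)
open Pool.Agent.Helper16.TP (der)
open Pool.Agent.Helper16.UP (lf pen pend ev rs rdp lc Dec nn mx mnr o0 AA EE EC cA fA)

universe u

/-- A greatest common divisor of a finite family. -/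
private theorem fam_gcd11 {R : Type*} [CommRing R] [IsDomain R] [UniqueFactorizationMonoid R]
    {ι : Type*} (S : Finset ι) (r : ι → R) :
    ∃ G : R, (∀ l ∈ S, G ∣ r l) ∧ ∀ g t : R, (∀ l ∈ S, g ∣ t * r l) → g ∣ t * G := by
  classical
  let _ := UniqueFactorizationMonoid.strongNormalizationMonoid (α := R)
  let _ := UniqueFactorizationMonoid.toNormalizedGCDMonoid R
  refine ⟨S.gcd r, fun l hl => Finset.gcd_dvd hl, fun g t h => ?_⟩
  have h1 : g ∣ S.gcd fun l => t * r l := Finset.dvd_gcd fun l hl => h l hl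
  exact h1.trans (Finset.gcd_mul_left' S r t).dvd

/-- A combination whose support contains all the supports. -/
private theorem exists_yy11 {K : Type*} [Field K] [CharZero K] {s n : ℕ}
    (Q : Fin n → MvPolynomial (Fin s) K) :
    ∃ yy : Fin n → K, ∀ t, (Q t).support ⊆ (∑ t, MvPolynomial.C (yy t) * Q t).support := by
  classical
  let S : Finset (Fin s →₀ ℕ) := Finset.univ.biUnion fun t => (Q t).support
  let p : (Fin s →₀ ℕ) → Polynomial K := fun μ =>
    ∑ t : Fin n, Polynomial.monomial (t : ℕ) ((Q t).coeff μ)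
  have hp : ∀ μ ∈ S, p μ ≠ 0 := by
    intro μ hμ h
    obtain ⟨t, _, ht⟩ := Finset.mem_biUnion.1 hμ
    rw [MvPolynomial.mem_support_iff] at ht
    apply ht
    have h1 := congrArg (fun P : Polynomial K => P.coeff (t : ℕ)) h
    simp only [p, Polynomial.finset_sum_coeff, Polynomial.coeff_zero] at h1
    rw [Finset.sum_eq_single t] at h1
    · rwa [Polynomial.coeff_monomial, if_pos rfl] at h1
    · intro b _ hb
      rw [Polynomial.coeff_monomial, if_neg]
      exact fun h => hb (Fin.ext h)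
    · exact fun h => absurd (Finset.mem_univ t) h
  have hprod : ∏ μ ∈ S, p μ ≠ 0 := Finset.prod_ne_zero_iff.2 hp
  obtain ⟨l, hl⟩ : ∃ l : K, (∏ μ ∈ S, p μ).eval l ≠ 0 := by
    by_contra hcon
    push Not at hcon
    exact hprod (Polynomial.funext fun x => by rw [hcon x, Polynomial.eval_zero])
  rw [Polynomial.eval_prod, Finset.prod_ne_zero_iff] at hl
  refine ⟨fun t => l ^ (t : ℕ), fun t μ hμ => ?_⟩
  have hμS : μ ∈ S := Finset.mem_biUnion.2 ⟨t, Finset.mem_univ t, hμ⟩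
  have h1 := hl μ hμS
  rw [MvPolynomial.mem_support_iff, MvPolynomial.coeff_sum]
  simp only [p, Polynomial.eval_finset_sum, Polynomial.eval_monomial] at h1
  simp only [MvPolynomial.coeff_C_mul]
  intro h2
  apply h1
  rw [← h2]
  exact Finset.sum_congr rfl fun t _ => mul_comm _ _

theorem famG {k K : Type u} [Field k] [Field K] [CharZero K] [Algebra k K]
    [Algebra.IsAlgebraic k K] {d c s r ν q : ℕ} (hd : 1 ≤ d) (hr : 1 ≤ r) {ι : Type*}
    (φ : ι → MvPolynomial (Fin (d + 1) ⊕ Fin c) K) (a : ι → ℕ)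
    (hφ : ∀ i, (φ i).IsHomogeneous (a i)) (g : Fin ν → MvPolynomial (Fin (d + 1) ⊕ Fin c) K)
    (hg : ∀ i, (g i).IsHomogeneous q) (hC : Cov φ g) (hq : d + 1 ≤ q)
    (F : MvPolynomial (Fin (d + 1) ⊕ Fin c) (AA K s)) (hF : F.IsHomogeneous r)
    (hprim : ∀ π : AA K s, Irreducible π → ∃ γ, ¬ π ∣ F.coeff γ)
    (x : Fin r → Fin (d + 1) ⊕ Fin c → EC K s)
    (hx : Dec (algebraMap (AA K s) (EC K s)) (o0 d c) F x)
    (hφx : ∀ σ i, aeval (x σ) (φ i) = 0)
    (hal : ∀ σ, AlgebraicIndependent k fun b : Fin d => x σ (Sum.inl b.succ))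
    (c0 : Fin (d + 1) ⊕ Fin c → K) (h0 : rdp r (o0 d c) (cA s c0) F ≠ 0)
    (hR : ∃ t : Fin (ν * r + 1), rs r q (o0 d c) (cA s c0) F (fA s (gt g t)) ≠ 0) :
    ∃ (lam : Fin d → Fin s → K) (Ψ : ((Fin (d + 1) → Fin (d + 1) ⊕ Fin c) → K) → AA K s)
      (G : AA K s) (yy : Fin (ν * r + 1) → K),
      ThetaU r (o0 d c) (cA s c0) F (fun i => der (lam i)) (Pi.single Sum.inl 1) ≠ 0 ∧
      lc r (o0 d c) F ≠ 0 ∧ dF F ≠ 0 ∧ G ≠ 0 ∧ (∀ μ, G ∣ (dF F).coeff μ) ∧
      (∀ u, Ψ u * rdp r (o0 d c) (cA s c0) F ^ (2 * d + 1) = lc r (o0 d c) F ^ (d + 1) * G *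
        ThetaU r (o0 d c) (cA s c0) F (fun i => der (lam i)) (fun J => MvPolynomial.C (u J))) ∧
      (∑ t, MvPolynomial.C (yy t) * rs r q (o0 d c) (cA s c0) F (fA s (gt g t))) ≠ 0 ∧
      ∀ u (γ : (Fin (d + 1) ⊕ Fin c) →₀ ℕ) (w : Fin s → ℝ),
        ∀ μ ∈ (Ψ u * rdp r (o0 d c) (cA s c0) F ^ q * F.coeff γ ^ (q - (d + 1))).support,
          ∃ μ' ∈ (lc r (o0 d c) F ^ q * G *
            ∑ t, MvPolynomial.C (yy t) * rs r q (o0 d c) (cA s c0) F (fA s (gt g t))).support,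
            ∑ b, w b * (μ b : ℝ) ≤ ∑ b, w b * (μ' b : ℝ) := by
  classical
  obtain ⟨lam, hT⟩ := Pool.Agent.Helper16.UP.nv_lam hr F x hx hal c0 h0
  have hF0 : F ≠ 0 := by
    intro h
    apply h0
    rw [h]
    unfold rdp Pool.Agent.Helper16.TP.rd pen
    rw [map_zero, Polynomial.derivative_zero, Polynomial.resultant_zero_zero,
      zero_pow (by omega)]
  have hpr : lc r (o0 d c) F * MvPolynomial.eval (Sum.elim (Pi.single (o0 d c) 1) (cA s c0))
      (dF F) ≠ 0 := by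
    rcases dF_rdp hr (o0 d c) (cA s c0) F hF hF0 with h | h
    · rw [h]
      exact h0
    · rw [h]
      exact neg_ne_zero.2 h0
  have hlc : lc r (o0 d c) F ≠ 0 := left_ne_zero_of_mul hpr
  have hdF : dF F ≠ 0 := by
    intro h
    apply hpr
    rw [h, map_zero, mul_zero]
  obtain ⟨G, hG1, hG2⟩ := fam_gcd11 (dF F).support fun μ => (dF F).coeff μ
  have hG1' : ∀ μ, G ∣ (dF F).coeff μ := by
    intro μ
    by_cases hμ : μ ∈ (dF F).support
    · exact hG1 μ hμ
    · rw [MvPolynomial.notMem_support_iff.1 hμ]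
      exact dvd_zero _
  have hG0 : G ≠ 0 := by
    intro h
    apply hdF
    ext1 μ
    have h1 := hG1' μ
    rw [h, zero_dvd_iff] at h1
    rw [h1, MvPolynomial.coeff_zero]
  have hpsi : ∀ u : (Fin (d + 1) → Fin (d + 1) ⊕ Fin c) → K, ∃ Ψ : AA K s,
      Ψ * rdp r (o0 d c) (cA s c0) F ^ (2 * d + 1) = lc r (o0 d c) F ^ (d + 1) * G *
        ThetaU r (o0 d c) (cA s c0) F (fun i => der (lam i)) (fun J => MvPolynomial.C (u J)) := by
    intro u
    have hdiv := hG2 (rdp r (o0 d c) (cA s c0) F ^ (2 * d + 1)) (lc r (o0 d c) F ^ (d + 1) *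
      ThetaU r (o0 d c) (cA s c0) F (fun i => der (lam i)) (fun J => MvPolynomial.C (u J)))
      (fun μ _ => by
        refine (psiG hd hr (o0 d c) F hF hprim x hx c0 h0 lam u μ).trans (dvd_of_eq ?_)
        ring)
    obtain ⟨Ψ, hΨ⟩ := hdiv
    refine ⟨Ψ, ?_⟩
    rw [mul_comm Ψ, ← hΨ]
    ring
  choose Ψ hΨ using hpsi
  obtain ⟨yy, hyy⟩ := exists_yy11 fun t : Fin (ν * r + 1) =>
    (lc r (o0 d c) F ^ q * G * rs r q (o0 d c) (cA s c0) F (fA s (gt g t)) : AA K s)
  have hsum : ∑ t, MvPolynomial.C (yy t) * (lc r (o0 d c) F ^ q * G *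
      rs r q (o0 d c) (cA s c0) F (fA s (gt g t)) : AA K s) = lc r (o0 d c) F ^ q * G *
      ∑ t, MvPolynomial.C (yy t) * rs r q (o0 d c) (cA s c0) F (fA s (gt g t)) := by
    rw [Finset.mul_sum]
    refine Finset.sum_congr rfl fun t _ => ?_
    ring
  rw [hsum] at hyy
  refine ⟨lam, Ψ, G, yy, ?_, hlc, hdF, hG0, hG1', hΨ, ?_, fun u γ w => ?_⟩
  · rw [ThetaU_single]
    exact hT
  · obtain ⟨t, ht⟩ := hR
    intro h
    have h1 : (lc r (o0 d c) F ^ q * G * rs r q (o0 d c) (cA s c0) F (fA s (gt g t)) : AA K s) ≠ 0 :=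
      mul_ne_zero (mul_ne_zero (pow_ne_zero _ hlc) hG0) ht
    obtain ⟨μ, hμ⟩ := MvPolynomial.support_nonempty.2 h1
    have h2 := hyy t hμ
    rw [h, mul_zero, MvPolynomial.support_zero] at h2
    exact absurd h2 (Finset.notMem_empty _)
  · refine Pool.Agent.Helper16.TP.real_of_int _ _ (fun w' => ?_) w
    intro μ hμ
    obtain ⟨t, μ', hμ', hle⟩ := ffiG hr φ a hφ g hg hC hq F x hx hφx c0 h0 lam u (Ψ u) G (hΨ u)
      γ w' μ hμ
    exact ⟨μ', hyy t hμ', hle⟩

end Pool.Agent.Helper16.VG
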