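import Pool.Agent.Helper16.UP.GLow

/-!
# Block VG-K4: bounds outside `T`

PROOF. `glowP`: enumerate the support of `P` (`P.support.equivFin`), apply `glow` (UP/GLow.lean) to `R l = P.coeff (μ l)`; `pn v (P.map ..) = vn v (fun l => eval (P.coeff (μ l)))` because the other coefficients are `0` (both are suprema of the same values, see `pn_eq`-like lemmas in
UP/DeltaF.lean, `pn_eq_vn` in UP/KForm.lean). `vlow`: apply `hlow` to `H = ∑ l, C (Ψ l) * X l : MvPolynomial (Fin n) (AA K s)`: `pn v (H.map ..) = vn v (..)` and `pH = vH` (`vH x = gsum of log vn`, `pH F = gsum of log pn`).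
-/

namespace Pool.Agent.Helper16.VG

open NumberField Finset Filter
open Pool.Agent.Helper64.Vojta (Pl nv sn)
open Pool.Agent.Helper26.DMC (SUnit)
open Pool.Agent.V2 (vn vH pn pH)
open Pool.Agent.Helper16.TP (MI lsum)
open Pool.Agent.Helper16.UP (osum AA)

variable {K : Type*} [Field K] [NumberField K] (U : Ultrafilter ℕ)
    (T : Finset (FinitePlace K)) {s : ℕ} (e : Fin s → ℕ → K)

omit [NumberField K] in
private theorem h93_lin_coeff {n : ℕ} (Ψ : Fin n → AA K s) (d : Fin n →₀ ℕ) :
    (∑ l, MvPolynomial.C (Ψ l) * MvPolynomial.X l : MvPolynomial (Fin n) (AA K s)).coeff d =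
      ∑ l, if Finsupp.single l 1 = d then Ψ l else 0 := by
  rw [MvPolynomial.coeff_sum]
  refine Finset.sum_congr rfl fun l _ => ?_
  rw [MvPolynomial.coeff_C_mul, MvPolynomial.coeff_X']
  split_ifs <;> simp

omit [NumberField K] in
private theorem h93_lin_coeff_single {n : ℕ} (Ψ : Fin n → AA K s) (l : Fin n) :
    (∑ l, MvPolynomial.C (Ψ l) * MvPolynomial.X l : MvPolynomial (Fin n) (AA K s)).coeff (Finsupp.single l 1) = Ψ l := by
  rw [h93_lin_coeff, Finset.sum_eq_single l]
  · rw [if_pos rfl]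
  · intro b _ hb
    rw [if_neg]
    intro h
    exact hb (Finsupp.single_left_injective one_ne_zero h)
  · intro h
    exact absurd (Finset.mem_univ _) h

theorem glowP (he : ∀ b, SUnit U T (e b)) (hmi : MI U e) {κ' : Type*} [Finite κ'] (G : AA K s)
    (hG : G ≠ 0) (P : MvPolynomial κ' (AA K s)) (hP : P ≠ 0) (hdvd : ∀ μ, G ∣ P.coeff μ) :
    ∃ C : ℝ, ∀ᶠ i in (U : Filter ℕ),
      (lsum T fun v => Real.log (nv v (MvPolynomial.eval (fun b => e b i) G))) ≤
        - (osum T fun v => Real.log (pn v (P.map (MvPolynomial.eval fun b => e b i)))) + C := by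
  classical
  set q := P.support.equivFin with hq
  obtain ⟨μ0, hμ0⟩ := MvPolynomial.ne_zero_iff.1 hP
  have hμ0' : μ0 ∈ P.support := MvPolynomial.mem_support_iff.2 hμ0
  obtain ⟨C, hC⟩ := Pool.Agent.Helper16.UP.glow U T e he hmi G hG
    (fun l : Fin P.support.card => P.coeff (q.symm l).1) (q ⟨μ0, hμ0'⟩)
    (by simpa using hμ0) (fun l => hdvd _)
  refine ⟨C, ?_⟩
  filter_upwards [hC] with i hi
  refine hi.trans (le_of_eq ?_)
  congr 3
  funext v
  congr 1
  apply le_antisymm
  · apply Pool.Agent.V2.vn_le _ _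
      ((Pool.Agent.Helper64.Vojta.nv_nonneg _ _).trans (Pool.Agent.V2.le_pn v _ 0))
    intro l
    have h1 := Pool.Agent.V2.le_pn v (P.map (MvPolynomial.eval fun b => e b i)) (q.symm l).1
    rw [MvPolynomial.coeff_map] at h1
    exact h1
  · apply Pool.Agent.V2.pn_le _ _
      ((Pool.Agent.Helper64.Vojta.nv_nonneg _ _).trans (Pool.Agent.V2.le_vn v _ (q ⟨μ0, hμ0'⟩)))
    intro d
    rw [MvPolynomial.coeff_map]
    by_cases hd : d ∈ P.support
    · have h1 := Pool.Agent.V2.le_vn v (fun l : Fin P.support.card =>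
        MvPolynomial.eval (fun b => e b i) (P.coeff (q.symm l).1)) (q ⟨d, hd⟩)
      simpa using h1
    · rw [MvPolynomial.notMem_support_iff.1 hd, map_zero, Pool.Agent.Helper64.Vojta.nv_zero]
      exact (Pool.Agent.Helper64.Vojta.nv_nonneg _ _).trans (Pool.Agent.V2.le_vn v _ (q ⟨μ0, hμ0'⟩))

theorem vlow (he : ∀ b, SUnit U T (e b)) (hmi : MI U e) {n : ℕ} (Ψ : Fin n → AA K s) (l0 : Fin n)
    (h0 : Ψ l0 ≠ 0) :
    ∃ C : ℝ, ∀ᶠ i in (U : Filter ℕ),
      vH (fun l => MvPolynomial.eval (fun b => e b i) (Ψ l)) - C ≤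
        lsum T fun v => Real.log (vn v fun l => MvPolynomial.eval (fun b => e b i) (Ψ l)) := by
  classical
  set H : MvPolynomial (Fin n) (AA K s) := ∑ l, MvPolynomial.C (Ψ l) * MvPolynomial.X l with hH
  have hH0 : H ≠ 0 := by
    refine MvPolynomial.ne_zero_iff.2 ⟨Finsupp.single l0 1, ?_⟩
    rw [hH, h93_lin_coeff_single]
    exact h0
  obtain ⟨C, hC⟩ := Pool.Agent.Helper16.UP.hlow U T e he hmi H hH0
  refine ⟨C, ?_⟩
  have key : ∀ (i : ℕ) (v : Pl K), pn v (H.map (MvPolynomial.eval fun b => e b i)) =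
      vn v (fun l => MvPolynomial.eval (fun b => e b i) (Ψ l)) := by
    intro i v
    have hnn : 0 ≤ vn v (fun l => MvPolynomial.eval (fun b => e b i) (Ψ l)) :=
      (Pool.Agent.Helper64.Vojta.nv_nonneg _ _).trans (Pool.Agent.V2.le_vn v _ l0)
    apply le_antisymm
    · apply Pool.Agent.V2.pn_le _ _ hnn
      intro d
      rw [MvPolynomial.coeff_map]
      by_cases hd : ∃ l, Finsupp.single l 1 = d
      · obtain ⟨l, rfl⟩ := hd
        rw [hH, h93_lin_coeff_single]
        exact Pool.Agent.V2.le_vn v (fun l => MvPolynomial.eval (fun b => e b i) (Ψ l)) l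
      · have h1 : H.coeff d = 0 := by
          rw [hH, h93_lin_coeff]
          refine Finset.sum_eq_zero fun l _ => ?_
          rw [if_neg fun h => hd ⟨l, h⟩]
        rw [h1, map_zero, Pool.Agent.Helper64.Vojta.nv_zero]
        exact hnn
    · apply Pool.Agent.V2.vn_le _ _
        ((Pool.Agent.Helper64.Vojta.nv_nonneg _ _).trans (Pool.Agent.V2.le_pn v _ 0))
      intro l
      have h1 := Pool.Agent.V2.le_pn v (H.map (MvPolynomial.eval fun b => e b i)) (Finsupp.single l 1)
      rw [MvPolynomial.coeff_map, hH, h93_lin_coeff_single] at h1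
      exact h1
  filter_upwards [hC] with i hi
  have e1 : vH (fun l => MvPolynomial.eval (fun b => e b i) (Ψ l)) = pH (H.map (MvPolynomial.eval fun b => e b i)) := by
    unfold vH pH
    congr 1
    funext v
    rw [key]
  rw [e1]
  refine hi.trans (le_of_eq ?_)
  congr 1
  funext v
  rw [key]

end Pool.Agent.Helper16.VG
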