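import Pool.Agent.Helper16.VG.Defs
import Pool.Agent.Helper16.UP.Values
import Pool.Agent.Helper16.UP.Funct

/-!
# Block VG-C3: a finite set of projections separates the conjugates

PROOF. Enumerate `κ` (`Fintype.equivFin`), `cc t j = t ^ (index of j)` for `t = 0, ..., N - 1`, `N = r * r * card κ + 1`. For `σ ≠ τ` the vector `x σ - x τ` is not zero, so `∑ t ^ j (x σ j - x τ j)`, a nonzero polynomial in `t` of degree `< card κ`, vanishes for at most
`card κ` numbers `t`. So for some `t` all `z_σ = ∑ cc t j * x σ j` are distinct. `rdp_map` (with `algebraMap`), `rdp_eq` with `a = 1` and `eval_der`: `rdp` is mapped to `∏_σ ∏_{τ ≠ σ} (z_σ - z_τ) ≠ 0`.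
-/

namespace Pool.Agent.Helper16.VG

open Pool.Agent.Helper16.UP (lf pen pend ev rs rdp lc Dec nn mx mnr)

universe u

theorem exists_sep {K : Type u} [Field K] [CharZero K] {κ : Type} [Fintype κ] [DecidableEq κ]
    {r : ℕ} (hr : 1 ≤ r) (o : κ) :
    ∃ (N : ℕ) (cc : Fin N → κ → K), ∀ (F : MvPolynomial κ K)
      (x : Fin r → κ → AlgebraicClosure K), (∀ σ, x σ o = 1) → Function.Injective x →
      F.map (algebraMap K (AlgebraicClosure K)) = ∏ σ, lf (x σ) → ∃ l, rdp r o (cc l) F ≠ 0 := by
  classical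
  set e : κ ≃ Fin (Fintype.card κ) := Fintype.equivFin κ with he
  refine ⟨Fintype.card (Fin r × Fin r) * Fintype.card κ + 1,
    fun t j => ((t : ℕ) : K) ^ (e j : ℕ), fun F x hx hinj hF => ?_⟩
  have hc0 : CharZero (AlgebraicClosure K) :=
    charZero_of_injective_algebraMap (algebraMap K (AlgebraicClosure K)).injective
  by_contra hcon
  push Not at hcon
  -- a bad pair for every `t`
  have hbad : ∀ t : Fin (Fintype.card (Fin r × Fin r) * Fintype.card κ + 1),
      ∃ p : Fin r × Fin r, p.1 ≠ p.2 ∧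
        ∑ j, ((t : ℕ) : AlgebraicClosure K) ^ (e j : ℕ) * (x p.1 j - x p.2 j) = 0 := by
    intro t
    have h1 := congrArg (algebraMap K (AlgebraicClosure K)) (hcon t)
    rw [map_zero, Pool.Agent.Helper16.UP.rdp_map, hF] at h1
    have h2 : (fun j => algebraMap K (AlgebraicClosure K) (((t : ℕ) : K) ^ (e j : ℕ))) =
        fun j => ((t : ℕ) : AlgebraicClosure K) ^ (e j : ℕ) := by
      funext j
      rw [map_pow, map_natCast]
    rw [h2] at h1
    have h3 := Pool.Agent.Helper16.UP.rdp_eq o (fun j => ((t : ℕ) : AlgebraicClosure K) ^ (e j : ℕ))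
      hr (1 : AlgebraicClosure K) one_ne_zero x hx
    rw [MvPolynomial.C_1, one_mul] at h3
    rw [h3, one_pow, one_mul] at h1
    obtain ⟨σ, -, hσ⟩ := Finset.prod_eq_zero_iff.1 h1
    have h4 := Pool.Agent.Helper16.UP.eval_der o
      (fun j => ((t : ℕ) : AlgebraicClosure K) ^ (e j : ℕ)) (1 : AlgebraicClosure K) x hx σ
    rw [MvPolynomial.C_1, one_mul, one_mul] at h4
    rw [h4] at hσ
    obtain ⟨τ, hτ, hτ0⟩ := Finset.prod_eq_zero_iff.1 hσ
    refine ⟨(σ, τ), (Finset.ne_of_mem_erase hτ).symm, ?_⟩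
    rw [← hτ0, ← Finset.sum_sub_distrib]
    refine Finset.sum_congr rfl fun j _ => ?_
    ring
  choose f hf using hbad
  obtain ⟨p, hp⟩ := Fintype.exists_lt_card_fiber_of_mul_lt_card (n := Fintype.card κ) f (by
    rw [Fintype.card_fin]
    exact Nat.lt_succ_self _)
  obtain ⟨t0, ht0⟩ : ∃ t, f t = p := by
    have : 0 < (Finset.univ.filter fun t => f t = p).card := lt_of_le_of_lt (Nat.zero_le _) hp
    obtain ⟨t, ht⟩ := Finset.card_pos.1 this
    exact ⟨t, (Finset.mem_filter.1 ht).2⟩
  have hne : p.1 ≠ p.2 := by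
    rw [← ht0]
    exact (hf t0).1
  -- the polynomial
  set P : Polynomial (AlgebraicClosure K) :=
    ∑ j, Polynomial.C (x p.1 j - x p.2 j) * Polynomial.X ^ (e j : ℕ) with hP
  have hdeg : P.natDegree ≤ Fintype.card κ := by
    refine Polynomial.natDegree_sum_le_of_forall_le _ _ fun j _ => ?_
    exact (Polynomial.natDegree_C_mul_X_pow_le _ _).trans (e j).2.le
  have hP0 : P = 0 := by
    refine Polynomial.eq_zero_of_natDegree_lt_card_of_eval_eq_zero' P
      ((Finset.univ.filter fun t => f t = p).image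
        fun t : Fin (Fintype.card (Fin r × Fin r) * Fintype.card κ + 1) =>
          ((t : ℕ) : AlgebraicClosure K)) ?_ ?_
    · intro z hz
      obtain ⟨t, ht, rfl⟩ := Finset.mem_image.1 hz
      have h5 := (hf t).2
      rw [(Finset.mem_filter.1 ht).2] at h5
      rw [hP, Polynomial.eval_finsetSum, ← h5]
      refine Finset.sum_congr rfl fun j _ => ?_
      simp [mul_comm]
    · rw [Finset.card_image_of_injective]
      · exact lt_of_le_of_lt hdeg hp
      · intro a b hab
        exact Fin.ext (by exact_mod_cast (show ((a : ℕ) : AlgebraicClosure K) = (b : ℕ) from hab))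
  apply hne
  apply hinj
  funext j
  have h6 := congrArg (fun Q : Polynomial (AlgebraicClosure K) => Q.coeff (e j)) hP0
  simp only [hP, Polynomial.finsetSum_coeff, Polynomial.coeff_C_mul, Polynomial.coeff_X_pow,
    Polynomial.coeff_zero] at h6
  rw [Finset.sum_eq_single j] at h6
  · simpa [sub_eq_zero] using h6
  · intro b _ hb
    have : (e j : ℕ) ≠ (e b : ℕ) := by
      intro h
      exact hb (e.injective (Fin.ext h)).symm
    simp [this]
  · intro h
    exact absurd (Finset.mem_univ _) h

end Pool.Agent.Helper16.VG
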