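import Pool.Agent.Helper16.VG.Spec
import Pool.Agent.Helper16.UP.GLow
import Pool.Agent.Helper16.TP.Poly

/-!
# Block VG-C2: proportionality at the points of the sequence

Notation: `z_i^σ = ∑ c0_j x_j^σ(i)`, `P_i = pen o c0 (C (w i) * F i) = w_i ∏ (T - z_i^σ)` (`pen_lf` over `AlgebraicClosure K`), `θ_J^i` = `thetaJ .. J` with its coefficients evaluated at `e i`.
PROOF. For the finitely many pairs `J, J'` and `I` (`ι` finite) take `b` from `tang_fam`; `b (e i) ≠ 0` for almost all `i` (`Pool.Agent.Helper16.TP.li`), also `rdp r o c0 (F i) ≠ 0`, `hw`, and `ThetaU .. (Pi.single Sum.inl 1)` evaluated at `e i` is `≠ 0`. Fix such an `i`.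
Map the divisibility to `AlgebraicClosure K` by evaluation at `e i` and evaluate at `z_i^σ` (a root of `P_i`): `θ_J^i(z) * T_{J'}(z) = θ_{J'}^i(z) * T_J(z)`, where `T_J(z)`, the value of `ev o c0 (C w * F i) (tang φ I J)`, is `P_i'(z) ^ δ * tang φ I J (x^σ(i))`
(`eval_pend`, homogeneity `tang_hom`), and `P_i'(z) ≠ 0` (`rdp_eq`). So (*) `θ_J^i(z) tang_{J'}(x^σ) = θ_{J'}^i(z) tang_J(x^σ)` for all `J, J', σ`.
`ThetaU .. u` at `e i` is the resultant of `P_i` and `∑ u_J θ_J^i` with degree `N = (2 d + 1) (r - 1)` (`resultant_map_map`, definition of `thetaU`; `natDegree_thetaU`), so it is `w_i ^ N ∏_σ ∑_J u_J θ_J^i(z_i^σ)` (as in the proof of `rs_eq`/`Theta_eq`).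
For `u = Pi.single Sum.inl 1` it is not `0`, so `θ_inl^i(z_i^σ) ≠ 0` for all `σ`. If `tang_inl(x^σ) = 0` then by (*) with `J = inl` all `tang_{J'}(x^σ) = 0`, contradiction. Finally by (*) `(∑ u_J θ_J^i(z)) tang_inl(x^σ) = θ_inl^i(z) ∑ u_J tang_J(x^σ)`; take the product over `σ`
and multiply by `w_i ^ N`.
-/

namespace Pool.Agent.Helper16.VG

open Filter NumberField
open MvPolynomial (aeval)
open Pool.Agent.Helper16.TP (der MI)
open Pool.Agent.Helper26.DMC (SUnit)
open Pool.Agent.Helper16.UP (lf pen pend ev rs rdp lc Dec nn mx mnr o0 AA EE EC cA fA)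

universe u

section aux40

open Polynomial

variable {κ : Type*} [Fintype κ] [DecidableEq κ] {M : Type*} [Field M]

private lemma eval_hom40 {e : ℕ} (Q : MvPolynomial κ M) (hQ : Q.IsHomogeneous e) (y : κ → M)
    (t : M) : MvPolynomial.eval (fun j => y j * t) Q = t ^ e * MvPolynomial.eval y Q := by
  rw [MvPolynomial.eval_eq', MvPolynomial.eval_eq', Finset.mul_sum]
  refine Finset.sum_congr rfl fun γ hγ => ?_
  have hs : ∑ j, γ j = e := by
    have h2 := hQ (MvPolynomial.mem_support_iff.1 hγ)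
    rw [Finsupp.weight_eq_sum] at h2
    simpa using h2
  have h3 : ∏ j, (y j * t) ^ γ j = t ^ e * ∏ j, y j ^ γ j := by
    rw [← hs, ← Finset.prod_pow_eq_pow_sum, ← Finset.prod_mul_distrib]
    refine Finset.prod_congr rfl fun j _ => ?_
    rw [mul_pow, mul_comm]
  rw [h3]
  ring

private lemma res_prod40 {a : M} (ha : a ≠ 0) {r : ℕ} (Z : Fin r → M) (G : M[X]) (k : ℕ)
    (hG : G.natDegree ≤ k) :
    resultant (C a * ∏ σ, (X - C (Z σ))) G r k = a ^ k * ∏ σ, G.eval (Z σ) := by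
  have hmon : (∏ σ, (X - C (Z σ))).Monic := monic_prod_of_monic _ _ fun σ _ => monic_X_sub_C _
  have hdeg : (C a * ∏ σ, (X - C (Z σ))).natDegree = r := by
    rw [natDegree_C_mul ha, natDegree_prod_of_monic _ _ fun σ _ => monic_X_sub_C _]
    simp
  have hlc : (C a * ∏ σ, (X - C (Z σ))).leadingCoeff = a := by
    rw [leadingCoeff_mul, leadingCoeff_C, hmon.leadingCoeff, mul_one]
  have hsp : (C a * ∏ σ, (X - C (Z σ))).Splits :=
    Splits.C_mul (Splits.prod fun σ _ => Splits.X_sub_C _) a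
  have hroots : (C a * ∏ σ, (X - C (Z σ))).roots = Finset.univ.val.map Z := by
    rw [roots_C_mul _ ha]
    have h1 : (∏ σ, (X - C (Z σ))) = ((Finset.univ.val.map Z).map fun z => X - C z).prod := by
      rw [Multiset.map_map]; rfl
    rw [h1, roots_multiset_prod_X_sub_C]
  have h1 := resultant_eq_prod_eval (C a * ∏ σ, (X - C (Z σ))) G k hG hsp
  rw [hdeg, hlc, hroots, Multiset.map_map] at h1
  exact h1

private lemma ev_eval40 (o : κ) (c : κ → M) {r : ℕ} (a : M) (x : Fin r → κ → M)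
    (hx : ∀ σ, x σ o = 1) {e : ℕ} (Q : MvPolynomial κ M) (hQ : Q.IsHomogeneous e) (σ : Fin r) :
    (ev o c (MvPolynomial.C a * ∏ σ, lf (x σ)) Q).eval (∑ j, c j * x σ j) =
      (derivative (pen o c (MvPolynomial.C a * ∏ σ, lf (x σ)))).eval (∑ j, c j * x σ j) ^ e *
        MvPolynomial.eval (x σ) Q := by
  unfold ev
  rw [MvPolynomial.aeval_def]
  have h6 := MvPolynomial.eval₂_comp_left (evalRingHom (∑ j, c j * x σ j)) (algebraMap M M[X])
    (pend o c (MvPolynomial.C a * ∏ σ, lf (x σ))) Q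
  rw [coe_evalRingHom] at h6
  rw [h6]
  have h7 : (evalRingHom (∑ j, c j * x σ j)).comp (algebraMap M M[X]) = RingHom.id M := by
    ext z
    simp
  have h8 : (eval (∑ j, c j * x σ j) ∘ pend o c (MvPolynomial.C a * ∏ σ, lf (x σ))) =
      fun j => x σ j * (derivative (pen o c (MvPolynomial.C a * ∏ σ, lf (x σ)))).eval
      (∑ j, c j * x σ j) := by
    funext j
    exact Pool.Agent.Helper16.UP.eval_pend o c a x hx σ j
  rw [h7, h8]
  exact eval_hom40 Q hQ (x σ) _

/-- The resultant after specialisation. -/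
private lemma ThetaU_val40 {R : Type*} [CommRing R] (ψ : R →+* M) {d r : ℕ} (o : κ) (c : κ → R)
    (F : MvPolynomial κ R) (hF : F.IsHomogeneous r) (D : Fin d → R → R) (h0 : ∀ i, D i 0 = 0)
    (a : M) (ha : a ≠ 0) (x : Fin r → κ → M) (hx : ∀ σ, x σ o = 1)
    (hFx : F.map ψ = MvPolynomial.C a * ∏ σ, lf (x σ)) (u : (Fin (d + 1) → κ) → R) :
    ψ (ThetaU r o c F D u) = a ^ ((2 * d + 1) * (r - 1)) *
      ∏ σ, ∑ J, ψ (u J) * ((thetaJ o c F D J).map ψ).eval (∑ j, ψ (c j) * x σ j) := by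
  unfold ThetaU
  rw [← resultant_map_map, Pool.Agent.Helper16.UP.pen_map, hFx,
    Pool.Agent.Helper16.UP.pen_lf o _ a x hx, res_prod40 ha _ _ _
      (natDegree_map_le.trans (natDegree_thetaU o c F hF D h0 u))]
  congr 1
  refine Finset.prod_congr rfl fun σ _ => ?_
  unfold thetaU
  rw [Polynomial.map_sum, eval_finsetSum]
  refine Finset.sum_congr rfl fun J _ => ?_
  rw [Polynomial.map_mul, map_C, eval_mul, eval_C]

private lemma der_ne40 (o : κ) (c : κ → M) {r : ℕ} (hr : 1 ≤ r) (x : Fin r → κ → M)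
    (hx : ∀ σ, x σ o = 1) (h : rdp r o c (∏ σ, lf (x σ)) ≠ 0) (a : M) (ha : a ≠ 0) (σ : Fin r) :
    (derivative (pen o c (MvPolynomial.C a * ∏ σ, lf (x σ)))).eval (∑ j, c j * x σ j) ≠ 0 := by
  have h1 := Pool.Agent.Helper16.UP.rdp_eq o c hr (1 : M) one_ne_zero x hx
  have h2 : (MvPolynomial.C (1 : M) * ∏ σ, lf (x σ) : MvPolynomial κ M) = ∏ σ, lf (x σ) := by
    rw [MvPolynomial.C_1, one_mul]
  rw [h2] at h1
  rw [h1] at h
  have h3 := Finset.prod_ne_zero_iff.1 (right_ne_zero_of_mul h) σ (Finset.mem_univ σ)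
  have h4 := Pool.Agent.Helper16.UP.eval_der o c (1 : M) x hx σ
  rw [h2] at h4
  rw [h4, one_mul] at h3
  rw [Pool.Agent.Helper16.UP.eval_der o c a x hx σ]
  exact mul_ne_zero ha h3

private lemma rdp_ne40 (o : κ) (c : κ → M) {r : ℕ} (hr : 1 ≤ r) (x : Fin r → κ → M)
    (hx : ∀ σ, x σ o = 1) (h : rdp r o c (∏ σ, lf (x σ)) ≠ 0) (a : M) (ha : a ≠ 0) :
    rdp r o c (MvPolynomial.C a * ∏ σ, lf (x σ)) ≠ 0 := by
  rw [Pool.Agent.Helper16.UP.rdp_eq o c hr a ha x hx]
  exact mul_ne_zero (pow_ne_zero _ ha)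
    (Finset.prod_ne_zero_iff.2 fun σ _ => der_ne40 o c hr x hx h a ha σ)

end aux40

theorem tang_spec {K : Type u} [Field K] [NumberField K] (U : Ultrafilter ℕ)
    (T : Finset (FinitePlace K)) {d c s r : ℕ} (hr : 1 ≤ r) (e : Fin s → ℕ → K)
    (he : ∀ b, SUnit U T (e b)) (hmi : MI U e)
    (F : ℕ → MvPolynomial (Fin (d + 1) ⊕ Fin c) K)
    (x : ℕ → Fin r → Fin (d + 1) ⊕ Fin c → AlgebraicClosure K)
    (hx1 : ∀ i σ, x i σ (o0 d c) = 1)
    (hFx : ∀ i, (F i).map (algebraMap K (AlgebraicClosure K)) = ∏ σ, lf (x i σ))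
    (H : MvPolynomial (Fin (d + 1) ⊕ Fin c) (AA K s)) (hH : H.IsHomogeneous r) (w : ℕ → K)
    (hw : ∀ᶠ i in (U : Filter ℕ), w i ≠ 0 ∧
        H.map (MvPolynomial.eval fun b => e b i) = MvPolynomial.C (w i) * F i)
    {ι : Type*} [Finite ι] (φ : ι → MvPolynomial (Fin (d + 1) ⊕ Fin c) K) (a : ι → ℕ)
    (hφ : ∀ i, (φ i).IsHomogeneous (a i)) (y : Fin r → Fin (d + 1) ⊕ Fin c → EC K s)
    (hy : Dec (algebraMap (AA K s) (EC K s)) (o0 d c) H y)
    (hφy : ∀ σ i, aeval (y σ) (φ i) = 0) (c0 : Fin (d + 1) ⊕ Fin c → K)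
    (h0 : ∀ᶠ i in (U : Filter ℕ), rdp r (o0 d c) c0 (F i) ≠ 0) (lam : Fin d → Fin s → K)
    (hT : ThetaU r (o0 d c) (cA s c0) H (fun i => der (lam i)) (Pi.single Sum.inl 1) ≠ 0) :
    ∀ᶠ i in (U : Filter ℕ), ∀ I : Fin c → ι, (∀ σ, ∃ J, aeval (x i σ) (tang φ I J) ≠ 0) →
      (∏ σ, aeval (x i σ) (tang φ I Sum.inl)) ≠ 0 ∧
      ∀ u : (Fin (d + 1) → Fin (d + 1) ⊕ Fin c) → K,
        algebraMap K (AlgebraicClosure K) (MvPolynomial.eval (fun b => e b i)
            (ThetaU r (o0 d c) (cA s c0) H (fun i => der (lam i))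
              (fun J => MvPolynomial.C (u J)))) * ∏ σ, aeval (x i σ) (tang φ I Sum.inl) =
          algebraMap K (AlgebraicClosure K) (MvPolynomial.eval (fun b => e b i)
            (ThetaU r (o0 d c) (cA s c0) H (fun i => der (lam i)) (Pi.single Sum.inl 1))) *
            ∏ σ, ∑ J, algebraMap K (AlgebraicClosure K) (u J) * aeval (x i σ) (tang φ I J) := by
  classical
  -- facts at one index
  have hfact : ∀ i, rdp r (o0 d c) c0 (F i) ≠ 0 →
      rdp r (o0 d c) (fun j => ((algebraMap K (AlgebraicClosure K)).comp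
        (MvPolynomial.eval fun b => e b i)) (cA s c0 j)) (∏ σ, lf (x i σ)) ≠ 0 := by
    intro i h1
    have h2 := Pool.Agent.Helper16.UP.rdp_map (algebraMap K (AlgebraicClosure K)) r (o0 d c) c0
      (F i)
    rw [hFx i] at h2
    have h3 : (fun j => ((algebraMap K (AlgebraicClosure K)).comp
        (MvPolynomial.eval fun b => e b i)) (cA s c0 j)) =
        fun j => algebraMap K (AlgebraicClosure K) (c0 j) := by
      funext j
      rw [RingHom.comp_apply, MvPolynomial.eval_C]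
    rw [h3, ← h2]
    exact (map_ne_zero _).2 h1
  have hHmap : ∀ i, H.map (MvPolynomial.eval fun b => e b i) = MvPolynomial.C (w i) * F i →
      H.map ((algebraMap K (AlgebraicClosure K)).comp (MvPolynomial.eval fun b => e b i)) =
        MvPolynomial.C (algebraMap K (AlgebraicClosure K) (w i)) * ∏ σ, lf (x i σ) := by
    intro i h1
    rw [← MvPolynomial.map_map, h1, map_mul, MvPolynomial.map_C, hFx]
  -- the discriminant of the family
  have h0H : rdp r (o0 d c) (cA s c0) H ≠ 0 := by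
    obtain ⟨i, hi0, hiw, hiH⟩ := (h0.and hw).exists
    intro hzero
    have h1 := Pool.Agent.Helper16.UP.rdp_map
      ((algebraMap K (AlgebraicClosure K)).comp (MvPolynomial.eval fun b => e b i)) r (o0 d c)
      (cA s c0) H
    rw [hzero, map_zero, hHmap i hiH] at h1
    exact rdp_ne40 _ _ hr (x i) (hx1 i) (hfact i hi0) _ ((map_ne_zero _).2 hiw) h1.symm
  have hfam := fun (q : (Fin c → ι) × (Fin (d + 1) → Fin (d + 1) ⊕ Fin c) ×
      (Fin (d + 1) → Fin (d + 1) ⊕ Fin c)) =>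
    tang_fam hr φ a hφ H hH y hy hφy c0 h0H lam q.1 q.2.1 q.2.2
  choose b hb0 hb using hfam
  have hev : ∀ᶠ i in (U : Filter ℕ), ∀ q, MvPolynomial.eval (fun β => e β i) (b q) ≠ 0 :=
    Filter.eventually_all.2 fun q => Pool.Agent.Helper16.TP.li U T e he hmi (b q) (hb0 q)
  filter_upwards [hev, h0, hw, Pool.Agent.Helper16.TP.li U T e he hmi _ hT] with i hbi h0i hwi hTi
    I hI
  obtain ⟨hwi, hHi⟩ := hwi
  obtain ⟨ψ, hψ⟩ : ∃ ψ : AA K s →+* AlgebraicClosure K, ψ =
    (algebraMap K (AlgebraicClosure K)).comp (MvPolynomial.eval fun b => e b i) := ⟨_, rfl⟩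
  have hψe : ∀ P : AA K s, algebraMap K (AlgebraicClosure K) (MvPolynomial.eval (fun b => e b i) P)
      = ψ P := by
    intro P
    rw [hψ, RingHom.comp_apply]
  have hψC : ∀ u : K, ψ (MvPolynomial.C u) = algebraMap K (AlgebraicClosure K) u := by
    intro u
    rw [← hψe, MvPolynomial.eval_C]
  have hr0 := hfact i h0i
  have hHψ := hHmap i hHi
  rw [← hψ] at hr0 hHψ
  have hw0 : algebraMap K (AlgebraicClosure K) (w i) ≠ 0 := (map_ne_zero _).2 hwi
  have hder := der_ne40 (o0 d c) (fun j => ψ (cA s c0 j)) hr (x i) (hx1 i) hr0 _ hw0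
  obtain ⟨w', hw'⟩ : ∃ w', w' = algebraMap K (AlgebraicClosure K) (w i) := ⟨_, rfl⟩
  rw [← hw'] at hHψ hw0 hder
  obtain ⟨z, hz⟩ : ∃ z : Fin r → AlgebraicClosure K, z = fun σ => ∑ j, ψ (cA s c0 j) * x i σ j :=
    ⟨_, rfl⟩
  have hzσ : ∀ σ, ∑ j, ψ (cA s c0 j) * x i σ j = z σ := fun σ => by rw [hz]
  obtain ⟨th, hth⟩ : ∃ th : (Fin (d + 1) → Fin (d + 1) ⊕ Fin c) → Fin r → AlgebraicClosure K,
    th = fun J σ => ((thetaJ (o0 d c) (cA s c0) H (fun i => der (lam i)) J).map ψ).eval (z σ) :=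
    ⟨_, rfl⟩
  -- the value of the resultant
  have hval : ∀ u : (Fin (d + 1) → Fin (d + 1) ⊕ Fin c) → AA K s,
      ψ (ThetaU r (o0 d c) (cA s c0) H (fun i => der (lam i)) u) =
        w' ^ ((2 * d + 1) * (r - 1)) * ∏ σ, ∑ J, ψ (u J) * th J σ := by
    intro u
    rw [ThetaU_val40 ψ (o0 d c) (cA s c0) H hH (fun i => der (lam i))
      (fun i => map_zero (der (lam i))) w' hw0 (x i) (hx1 i) hHψ u]
    congr 1
    refine Finset.prod_congr rfl fun σ _ => Finset.sum_congr rfl fun J _ => ?_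
    rw [hzσ, hth]
  -- the proportionality
  have hstar : ∀ J J' σ, th J σ * aeval (x i σ) (tang φ I J') =
      th J' σ * aeval (x i σ) (tang φ I J) := by
    intro J J' σ
    obtain ⟨G, hG⟩ := hb (I, J, J')
    have h1 := congrArg (fun P => (Polynomial.map ψ P).eval (z σ)) hG
    simp only [Polynomial.map_mul, Polynomial.map_sub, Polynomial.eval_mul, Polynomial.eval_sub,
      Polynomial.map_C, Polynomial.eval_C] at h1
    have hpen : ((pen (o0 d c) (cA s c0) H).map ψ).eval (z σ) = 0 := by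
      rw [Pool.Agent.Helper16.UP.pen_map, hHψ,
        Pool.Agent.Helper16.UP.pen_lf (o0 d c) _ w' (x i) (hx1 i), Polynomial.eval_mul,
        Polynomial.eval_prod, Finset.prod_eq_zero (Finset.mem_univ σ), mul_zero]
      rw [Polynomial.eval_sub, Polynomial.eval_X, Polynomial.eval_C, hzσ, sub_self]
    obtain ⟨δ, hδ⟩ : ∃ δ, δ = ∑ i, (a (I i) - 1) := ⟨_, rfl⟩
    obtain ⟨t, ht⟩ : ∃ t, t = (Polynomial.derivative (pen (o0 d c) (fun j => ψ (cA s c0 j))
      (MvPolynomial.C w' * ∏ σ, lf (x i σ)))).eval (z σ) := ⟨_, rfl⟩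
    have ht0 : t ≠ 0 := by
      rw [ht, ← hzσ]
      exact hder σ
    have hevv : ∀ J, ((ev (o0 d c) (cA s c0) H (fA s (tang φ I J))).map ψ).eval (z σ) =
        t ^ δ * aeval (x i σ) (tang φ I J) := by
      intro J
      have h3 : (fA s (tang φ I J)).map ψ =
          (tang φ I J).map (algebraMap K (AlgebraicClosure K)) := by
        have h5 : ψ.comp MvPolynomial.C = algebraMap K (AlgebraicClosure K) := RingHom.ext hψC
        rw [MvPolynomial.map_map, h5]
      rw [Pool.Agent.Helper16.UP.ev_map, hHψ, h3, ← hzσ,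
        ev_eval40 (o0 d c) _ w' (x i) (hx1 i) _ ((tang_hom φ a hφ I J).map _) σ, hzσ, ← ht, ← hδ,
        MvPolynomial.eval_map]
      rfl
    rw [hpen, zero_mul, hevv, hevv] at h1
    have hb1 : ψ (b (I, J, J')) ≠ 0 := by
      rw [← hψe]
      exact (map_ne_zero _).2 (hbi _)
    have h2 := (mul_eq_zero.1 h1).resolve_left hb1
    have h4 : t ^ δ * (th J σ * aeval (x i σ) (tang φ I J') -
        th J' σ * aeval (x i σ) (tang φ I J)) = 0 := by
      rw [hth]
      linear_combination h2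
    exact sub_eq_zero.1 ((mul_eq_zero.1 h4).resolve_left (pow_ne_zero _ ht0))
  -- the values of `theta` for the first coordinates
  have hsingle : ψ (ThetaU r (o0 d c) (cA s c0) H (fun i => der (lam i)) (Pi.single Sum.inl 1)) =
      w' ^ ((2 * d + 1) * (r - 1)) * ∏ σ, th Sum.inl σ := by
    rw [hval]
    congr 1
    refine Finset.prod_congr rfl fun σ _ => ?_
    rw [Finset.sum_eq_single Sum.inl]
    · rw [Pi.single_eq_same, map_one, one_mul]
    · intro J _ hJ
      rw [Pi.single_eq_of_ne hJ, map_zero, zero_mul]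
    · intro h
      exact absurd (Finset.mem_univ _) h
  have hne : ∀ σ, th Sum.inl σ ≠ 0 := by
    have h1 : ψ (ThetaU r (o0 d c) (cA s c0) H (fun i => der (lam i)) (Pi.single Sum.inl 1)) ≠ 0 :=
      by
      rw [← hψe]
      exact (map_ne_zero _).2 hTi
    rw [hsingle] at h1
    exact fun σ => Finset.prod_ne_zero_iff.1 (right_ne_zero_of_mul h1) σ (Finset.mem_univ σ)
  refine ⟨?_, ?_⟩
  · rw [Finset.prod_ne_zero_iff]
    intro σ _ h1
    obtain ⟨J, hJ⟩ := hI σ
    have h2 := hstar Sum.inl J σ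
    rw [h1, mul_zero] at h2
    exact hJ ((mul_eq_zero.1 h2).resolve_left (hne σ))
  · intro u
    rw [hψe, hψe, hval, hsingle, mul_assoc, mul_assoc, ← Finset.prod_mul_distrib,
      ← Finset.prod_mul_distrib]
    congr 1
    refine Finset.prod_congr rfl fun σ _ => ?_
    rw [Finset.sum_mul, Finset.mul_sum]
    refine Finset.sum_congr rfl fun J _ => ?_
    rw [hψC]
    linear_combination algebraMap K (AlgebraicClosure K) (u J) * hstar J Sum.inl σ

end Pool.Agent.Helper16.VG
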