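import Pool.Agent.Helper16.VG.FamG
import Pool.Agent.Helper16.VG.TangS
import Pool.Agent.Helper16.VG.Sep
import Pool.Agent.Helper16.VG.GLowP
import Pool.Agent.Helper16.UP.KForm

/-!
# Block VG-K6: the inequality over `K` (assembly, helper16)
-/

namespace Pool.Agent.Helper16.VG

open NumberField Finset Filter
open Pool.Agent.Helper64.Vojta (Pl nv sn)
open Pool.Agent.Helper26.DMC (SUnit)
open Pool.Agent.V2 (vn vH pn pH gsum FinS)
open Pool.Agent.Helper16.TP (MI lsum rd der)
open MvPolynomial (aeval)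
open Pool.Agent.Helper16.UP (lf pen pend ev rs rdp lc Dec nn mx mnr o0 AA EE EC cA fA osum rep_forms
  deco place_forms hlow osum_add osum_smul osum_nv lsum_add lsum_smul lsum_mono pn_C_mul vn_smul
  rs_map rdp_map lc_map rs_eq rdp_eq pen_lf pen_coeff hom_prod_lf)
open Pool.Agent.Helper16.UP.KF (exists_seq rdp_C_mul nv_pow pH_C_mul cfv exists_cfv pn_eq_vn eq_of_cfv)

universe u

namespace KG

section

variable {K : Type*} [Field K] {κ : Type*} [Fintype κ] [DecidableEq κ]

theorem key_Q {r : ℕ} (hr : 1 ≤ r) (o : κ) {e : ℕ} (Q : MvPolynomial κ K)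
    (hQ : Q.IsHomogeneous e) (c : κ → K) (F : MvPolynomial κ K)
    (x : Fin r → κ → AlgebraicClosure K) (hx1 : ∀ σ, x σ o = 1)
    (hFx : F.map (algebraMap K (AlgebraicClosure K)) = ∏ σ, lf (x σ)) (g w : K)
    (hg : algebraMap K (AlgebraicClosure K) g = ∏ σ, aeval (x σ) Q) (hw : w ≠ 0) :
    rs r e o c (MvPolynomial.C w * F) Q = rdp r o c (MvPolynomial.C w * F) ^ e * g := by
  apply (algebraMap K (AlgebraicClosure K)).injective
  have hw' : algebraMap K (AlgebraicClosure K) w ≠ 0 := by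
    rwa [Ne, map_eq_zero]
  have hF : (MvPolynomial.C w * F).map (algebraMap K (AlgebraicClosure K)) =
      MvPolynomial.C (algebraMap K (AlgebraicClosure K) w) * ∏ σ, lf (x σ) := by
    rw [map_mul, MvPolynomial.map_C, hFx]
  rw [map_mul, map_pow, rdp_map, hF, hg, rs_map, hF, rs_eq o _ hr _ hw' x hx1 _ (hQ.map _)]
  congr 1
  refine Finset.prod_congr rfl fun σ _ => ?_
  rw [MvPolynomial.eval_map]
  rfl

end

section

variable {K : Type*} [Field K] [NumberField K]

theorem vH_smul {ι : Type*} [Finite ι] (w : K) (hw : w ≠ 0) (y : ι → K) (hy : y ≠ 0) :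
    vH (fun i => w * y i) = vH y := by
  unfold vH
  have h1 : (fun v : Pl K => Real.log (vn v fun i => w * y i)) =
      fun v => Real.log (nv v w) + Real.log (vn v y) := by
    funext v
    rw [vn_smul, Real.log_mul (Pool.Agent.Helper64.Vojta.nv_pos v hw).ne'
      (Pool.Agent.V2.vn_pos v hy).ne']
  rw [h1, Pool.Agent.V2.gsum_add (Pool.Agent.V2.finS_nv hw) (Pool.Agent.V2.finS_vn hy),
    Pool.Agent.V2.gsum_nv hw, zero_add]

theorem vn_nonneg {ι : Type*} (v : Pl K) (y : ι → K) : 0 ≤ vn v y :=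
  Real.iSup_nonneg fun _ => Pool.Agent.Helper64.Vojta.nv_nonneg v _

/-- a linear form in a vector -/
theorem nv_lin {N : ℕ} (v : Pl K) (yy : Fin N → K) :
    ∃ C : ℝ, ∀ gg : Fin N → K, (∑ t, yy t * gg t) ≠ 0 →
      Real.log (nv v (∑ t, yy t * gg t)) ≤ Real.log (vn v gg) + C := by
  classical
  obtain ⟨A, hA⟩ : ∃ A : ℝ, A = 1 + ∑ t, nv v (yy t) := ⟨_, rfl⟩
  have hA0 : ∀ t, nv v (yy t) ≤ A := by
    intro t
    rw [hA]
    have := Finset.single_le_sum (f := fun t => nv v (yy t))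
      (fun t _ => Pool.Agent.Helper64.Vojta.nv_nonneg v _) (Finset.mem_univ t)
    linarith
  have hA1 : 1 ≤ A := by
    rw [hA]
    have := Finset.sum_nonneg (s := Finset.univ) (f := fun t => nv v (yy t))
      (fun t _ => Pool.Agent.Helper64.Vojta.nv_nonneg v _)
    linarith
  refine ⟨Real.log ((((Finset.univ : Finset (Fin N)).card : ℝ) + 1) ^ 2 * A), ?_⟩
  intro gg h
  have hgg : gg ≠ 0 := by
    rintro rfl
    apply h
    simp
  have hv := Pool.Agent.V2.vn_pos v hgg
  have h1 : nv v (∑ t, yy t * gg t) ≤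
      (((Finset.univ : Finset (Fin N)).card : ℝ) + 1) ^ 2 * (A * vn v gg) := by
    refine Pool.Agent.Helper64.Vojta.nv_sum_le v _ _ _ (by positivity) fun t _ => ?_
    rw [Pool.Agent.Helper64.Vojta.nv_mul]
    exact mul_le_mul (hA0 t) (Pool.Agent.V2.le_vn v gg t)
      (Pool.Agent.Helper64.Vojta.nv_nonneg v _) (by linarith)
  have hpos : (0 : ℝ) < (((Finset.univ : Finset (Fin N)).card : ℝ) + 1) ^ 2 * A := by positivity
  rw [← Real.log_mul hv.ne' hpos.ne']
  refine Real.log_le_log (Pool.Agent.Helper64.Vojta.nv_pos v h) (h1.trans (le_of_eq ?_))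
  ring

/-- The numerical part. -/
theorem num {E q dd r Lw LF LΨ LG Lg OF OD Lp H HT C1 C2 C3 CY δ N t : ℝ} (hE : E = q - dd)
    (h1 : LΨ + E * Lp ≤ q * Lw + (LG + (Lg + (CY + N * (δ * t))))) (hΨ : HT - C1 ≤ LΨ)
    (hG : LG ≤ -(-(2 * r - 2) * Lw + OD) + C2) (hp : Lp = Lw + LF) (hH : H = LF + OF)
    (hp1 : Lp ≤ H + δ * t) (hp2 : H - C3 ≤ Lp) (hC3 : 0 ≤ C3) (hδt : 0 ≤ δ * t) :
    HT + (q * LF - Lg) ≤ dd * H + ((2 * r - 2) * OF - OD) +
      (C1 + C2 + CY + |dd + (2 * r - 2)| * C3) + (N + |dd + (2 * r - 2)|) * (δ * t) := by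
  have h2 : |Lw - OF| ≤ δ * t + C3 := by
    rw [abs_le]
    constructor <;> linarith
  have h3 : (dd + (2 * r - 2)) * (Lw - OF) ≤ |dd + (2 * r - 2)| * (δ * t + C3) := by
    refine (le_abs_self _).trans ?_
    rw [abs_mul]
    exact mul_le_mul_of_nonneg_left h2 (abs_nonneg _)
  subst hE hp hH
  nlinarith

end

end KG

open KG in
theorem kformG {k K : Type u} [Field k] [NumberField k] [Field K] [NumberField K] [Algebra k K]
    {d c m r M ν q n : ℕ} (hd : 1 ≤ d) (hr : 1 ≤ r) (T : Finset (FinitePlace K))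
    (G : Fin M → MvPolynomial (Fin (d + 1) ⊕ Fin c) K) (hG : ∀ j, (G j).IsHomogeneous r)
    (φ : Fin m → MvPolynomial (Fin (d + 1) ⊕ Fin c) K) (a : Fin m → ℕ)
    (hφ : ∀ i, (φ i).IsHomogeneous (a i)) (g : Fin ν → MvPolynomial (Fin (d + 1) ⊕ Fin c) K)
    (hg : ∀ i, (g i).IsHomogeneous q) (hC : Cov φ g) (hq : d + 1 ≤ q)
    (V : Fin n → (Fin (d + 1) → Fin (d + 1) ⊕ Fin c) → ℕ) (i0 : Fin n)
    (hV : V i0 = Pi.single Sum.inl 1) (ε : ℝ) (hε : 0 < ε) :
    ∃ (Q : MvPolynomial (Fin d) k) (C : ℝ), Q ≠ 0 ∧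
      ∀ (F : MvPolynomial (Fin (d + 1) ⊕ Fin c) K)
        (x : Fin r → Fin (d + 1) ⊕ Fin c → AlgebraicClosure K) (gg : Fin (ν * r + 1) → K)
        (I : Fin c → Fin m) (tt : Fin n → K) (A : K) (u : Fin M → K),
        F.IsHomogeneous r → (∀ σ, x σ (o0 d c) = 1) → Function.Injective x →
        F.map (algebraMap K (AlgebraicClosure K)) = ∏ σ, lf (x σ) →
        (∀ σ i, aeval (x σ) (φ i) = 0) →
        (∀ σ, aeval (fun b : Fin d => x σ (Sum.inl b.succ)) (Q.map (algebraMap k K)) ≠ 0) →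
        (∀ t : Fin (ν * r + 1), algebraMap K (AlgebraicClosure K) (gg t) =
          ∏ σ, aeval (x σ) (gt g t)) → (∃ t, gg t ≠ 0) →
        (∀ σ, ∃ J, aeval (x σ) (tang φ I J) ≠ 0) →
        (∀ l, algebraMap K (AlgebraicClosure K) (tt l) = ∏ σ, ∑ J,
          ((V l J : ℕ) : AlgebraicClosure K) * aeval (x σ) (tang φ I J)) → A ≠ 0 →
        (∀ j, u j = 0 ∨ ∀ v : FinitePlace K, v ∉ T → v (u j) = 1) →
        MvPolynomial.C A * F = ∑ j, MvPolynomial.C (u j) * G j →
        vH tt + (lsum T fun v => (q : ℝ) * Real.log (pn v F) - Real.log (vn v gg)) ≤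
          ((d : ℝ) + 1 + ε) * pH F +
          (osum T fun v => (2 * (r : ℝ) - 2) * Real.log (pn v F) - Real.log (pn v (dF F))) +
            C := by
  classical
  obtain ⟨qs, hq0, hqdvd⟩ := exists_seq k d
  by_contra hcon
  push Not at hcon
  choose F x gg I tt A u hFh hx1 hxi hFx hφx hQx hgg hgg0 htg htt hA hu hsum hbad using
    fun n : ℕ => hcon (qs n) n (hq0 n)
  let U : Ultrafilter ℕ := Filter.hyperfilter ℕ
  have hU : (U : Filter ℕ) ≤ atTop := _root_.Nat.hyperfilter_le_atTop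
  have hFne : ∀ n, F n ≠ 0 := by
    intro n h
    have h1 := hFx n
    rw [h, map_zero] at h1
    have h2 : ∀ σ, lf (x n σ) ≠ 0 := by
      intro σ h3
      have h4 := congrArg (fun P => MvPolynomial.eval (Pi.single (o0 d c) 1) P) h3
      simp only [lf, map_sum, map_mul, MvPolynomial.eval_C, MvPolynomial.eval_X, map_zero] at h4
      rw [Finset.sum_eq_single (o0 d c)] at h4
      · rw [Pi.single_eq_same, mul_one, hx1] at h4
        exact one_ne_zero h4
      · intro b _ hb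
        rw [Pi.single_eq_of_ne hb, mul_zero]
      · intro h5
        exact absurd (Finset.mem_univ _) h5
    exact Finset.prod_ne_zero_iff.2 (fun σ _ => h2 σ) h1.symm
  -- a common projection `c0`, minor `I0` and index `t0`
  obtain ⟨Ns, cc, hsep⟩ := exists_sep (K := K) (κ := Fin (d + 1) ⊕ Fin c) hr (o0 d c)
  choose lf' hlf' using fun n => hsep (F n) (x n) (hx1 n) (hxi n) (hFx n)
  obtain ⟨l0, hl0⟩ := Pool.Agent.Helper26.DMC.SU1.ult_finite U (Set.univ : Set (Fin Ns))
    Set.finite_univ lf' (Eventually.of_forall fun _ => Set.mem_univ _)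
  obtain ⟨I0, hI0⟩ := Pool.Agent.Helper26.DMC.SU1.ult_finite U (Set.univ : Set (Fin c → Fin m))
    Set.finite_univ I (Eventually.of_forall fun _ => Set.mem_univ _)
  choose tf htf using hgg0
  obtain ⟨t0, ht0⟩ := Pool.Agent.Helper26.DMC.SU1.ult_finite U
    (Set.univ : Set (Fin (ν * r + 1))) Set.finite_univ tf
    (Eventually.of_forall fun _ => Set.mem_univ _)
  set c0 := cc l0 with hc0
  have hrd : ∀ᶠ i in (U : Filter ℕ), rdp r (o0 d c) c0 (F i) ≠ 0 := by
    filter_upwards [hl0] with i hi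
    rw [hc0, ← hi]
    exact hlf' i
  have hlc1 : ∀ n, (F n).coeff (Finsupp.single (o0 d c) r) = 1 := by
    intro n
    apply (algebraMap K (AlgebraicClosure K)).injective
    have h1 := lc_map (algebraMap K (AlgebraicClosure K)) r (o0 d c) (F n)
    rw [hFx n] at h1
    unfold lc at h1
    rw [h1, map_one]
    have h2 := pen_lf (o0 d c) (0 : Fin (d + 1) ⊕ Fin c → AlgebraicClosure K) 1 (x n) (hx1 n)
    have h3 := pen_coeff (o0 d c) (0 : Fin (d + 1) ⊕ Fin c → AlgebraicClosure K)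
      (MvPolynomial.C 1 * ∏ σ, lf (x n σ)) (hom_prod_lf 1 (x n))
    rw [h2] at h3
    unfold lc at h3
    simp only [map_one, one_mul, Pi.zero_apply, zero_mul, Finset.sum_const_zero, map_zero, sub_zero,
      Finset.prod_const, Finset.card_univ, Fintype.card_fin, Polynomial.coeff_X_pow_self] at h3
    exact h3.symm
  have hpH0 : ∀ n, 0 ≤ pH (F n) := fun n => Pool.Agent.V2.pH_nonneg (hFne n)
  have hpHv : ∀ n, pH (F n) = vH (cfv r (F n)) := by
    intro n
    unfold pH vH
    congr 1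
    funext v
    rw [pn_eq_vn v (F n) (hFh n)]
  -- the forms `g_t` and the combinations of the minors
  have hgth : ∀ t : ℕ, (gt g t).IsHomogeneous q := by
    intro t
    unfold gt
    refine MvPolynomial.IsHomogeneous.sum _ _ _ fun i _ => ?_
    have := (MvPolynomial.isHomogeneous_C (Fin (d + 1) ⊕ Fin c) ((t : K) ^ (i : ℕ))).mul (hg i)
    rwa [zero_add] at this
  set tgl : Fin n → MvPolynomial (Fin (d + 1) ⊕ Fin c) K := fun l =>
    ∑ J, MvPolynomial.C ((V l J : ℕ) : K) * tang φ I0 J with htgl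
  have htglh : ∀ l, (tgl l).IsHomogeneous (∑ i, (a (I0 i) - 1)) := by
    intro l
    rw [htgl]
    refine MvPolynomial.IsHomogeneous.sum _ _ _ fun J _ => ?_
    have := (MvPolynomial.isHomogeneous_C (Fin (d + 1) ⊕ Fin c) ((V l J : ℕ) : K)).mul
      (tang_hom φ a hφ I0 J)
    rwa [zero_add] at this
  have htt' : ∀ n, I n = I0 → ∀ l, algebraMap K (AlgebraicClosure K) (tt n l) =
      ∏ σ, aeval (x n σ) (tgl l) := by
    intro n hn l
    rw [htt n l, hn]
    refine Finset.prod_congr rfl fun σ _ => ?_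
    rw [htgl]
    simp only [map_sum, map_mul, map_natCast]
  -- (1) the heights tend to infinity
  have hlim : Tendsto (fun n => pH (F n)) (U : Filter ℕ) atTop := by
    obtain ⟨γ0, hγ0⟩ := exists_cfv (F 0) (hFh 0) (Finsupp.single (o0 d c) r)
      (by rw [hlc1]; exact one_ne_zero)
    have hγ1 : ∀ n, cfv r (F n) γ0 = 1 := by
      intro n
      unfold cfv
      rw [hγ0, hlc1]
    rcases Pool.Agent.Helper16.TP.bdd_vec U (fun n => cfv r (F n)) γ0
      (Filter.Eventually.of_forall hγ1) with h | ⟨y, hy⟩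
    · refine h.congr fun n => ?_
      exact (hpHv n).symm
    · exfalso
      obtain ⟨n0, hn0, hn0', hn0I⟩ := (hy.and (hrd.and hI0)).exists
      set L0 := vH (tt n0) + (lsum T fun v => (q : ℝ) * Real.log (pn v (F n0)) -
        Real.log (vn v (gg n0))) - (((d : ℝ) + 1 + ε) * pH (F n0) +
          (osum T fun v => (2 * (r : ℝ) - 2) * Real.log (pn v (F n0)) -
            Real.log (pn v (dF (F n0))))) with hL0
      have h3 : ∀ᶠ n : ℕ in (U : Filter ℕ), L0 < (n : ℝ) :=
        ((tendsto_natCast_atTop_atTop (R := ℝ)).eventually_gt_atTop L0).filter_mono hU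
      obtain ⟨n, hn1, hn2, hnI⟩ := (hy.and (h3.and hI0)).exists
      have hFn : F n = F n0 := eq_of_cfv _ _ (hFh n) (hFh n0) (hn1.trans hn0.symm)
      have hggn : gg n = gg n0 := by
        funext t
        have k1 := key_Q hr (o0 d c) _ (hgth t) c0 (F n) (x n) (hx1 n) (hFx n) (gg n t) 1
          (hgg n t) one_ne_zero
        have k2 := key_Q hr (o0 d c) _ (hgth t) c0 (F n0) (x n0) (hx1 n0) (hFx n0) (gg n0 t) 1
          (hgg n0 t) one_ne_zero
        rw [hFn, k2, map_one, one_mul] at k1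
        exact (mul_left_cancel₀ (pow_ne_zero _ hn0') k1).symm
      have httn : tt n = tt n0 := by
        funext l
        have k1 := key_Q hr (o0 d c) _ (htglh l) c0 (F n) (x n) (hx1 n) (hFx n) (tt n l) 1
          (htt' n hnI l) one_ne_zero
        have k2 := key_Q hr (o0 d c) _ (htglh l) c0 (F n0) (x n0) (hx1 n0) (hFx n0) (tt n0 l) 1
          (htt' n0 hn0I l) one_ne_zero
        rw [hFn, k2, map_one, one_mul] at k1
        exact (mul_left_cancel₀ (pow_ne_zero _ hn0') k1).symm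
      have h4 := hbad n
      rw [hFn, hggn, httn] at h4
      linarith
  -- (2) the family
  obtain ⟨s, eu, H, w, t, B, he, hmi, hHh, hprim, hrep, ht, hB, htH, hgcd⟩ :=
    rep_forms U T G hG F hFh hFne A hA u hu hsum hlim
  have hgen : ∀ Q : MvPolynomial (Fin d) k, Q ≠ 0 → ∀ᶠ i in (U : Filter ℕ), ∀ σ,
      aeval (fun b : Fin d => x i σ (Sum.inl b.succ)) (Q.map (algebraMap k K)) ≠ 0 := by
    intro Q hQ
    obtain ⟨n, hn⟩ := hqdvd Q hQ
    have h1 : ∀ᶠ i in (U : Filter ℕ), n ≤ i := (eventually_ge_atTop n).filter_mono hU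
    filter_upwards [h1] with i hi σ h2
    obtain ⟨R, hR⟩ := hn i hi
    apply hQx i σ
    rw [hR, map_mul, map_mul, h2, zero_mul]
  obtain ⟨y, hDec, hφy, hal⟩ := deco U T hr eu he hmi F x hx1 hFx H w hrep φ hφx hgen c0 hrd
  -- values at `e_i`
  have hevc : ∀ (i : ℕ) (c' : Fin (d + 1) ⊕ Fin c → K),
      (fun j => MvPolynomial.eval (fun b => eu b i) (cA s c' j)) = c' := by
    intro i c'
    funext j
    simp [cA]
  have hevf : ∀ (i : ℕ) (Q : MvPolynomial (Fin (d + 1) ⊕ Fin c) K),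
      (fA s Q).map (MvPolynomial.eval fun b => eu b i) = Q := by
    intro i Q
    unfold fA
    rw [MvPolynomial.map_map]
    have h1 : (MvPolynomial.eval fun b => eu b i).comp (MvPolynomial.C : K →+* AA K s) =
        RingHom.id K := by
      ext y
      simp
    rw [h1, MvPolynomial.map_id]
  have hvrd : ∀ᶠ i in (U : Filter ℕ), MvPolynomial.eval (fun b => eu b i)
      (rdp r (o0 d c) (cA s c0) H) = w i ^ (2 * r - 1) * rdp r (o0 d c) c0 (F i) := by
    filter_upwards [hrep] with i hi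
    rw [rdp_map (MvPolynomial.eval fun b => eu b i), hevc, hi.2, rdp_C_mul hr]
  have hvlc : ∀ᶠ i in (U : Filter ℕ), MvPolynomial.eval (fun b => eu b i)
      (lc r (o0 d c) H) = w i := by
    filter_upwards [hrep] with i hi
    rw [lc_map (MvPolynomial.eval fun b => eu b i), hi.2]
    unfold lc
    rw [MvPolynomial.coeff_C_mul, hlc1, mul_one]
  have hvrs : ∀ᶠ i in (U : Filter ℕ), ∀ t : Fin (ν * r + 1),
      MvPolynomial.eval (fun b => eu b i)
        (rs r q (o0 d c) (cA s c0) H (fA s (gt g t))) =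
      (w i ^ (2 * r - 1) * rdp r (o0 d c) c0 (F i)) ^ q * gg i t := by
    filter_upwards [hrep] with i hi t
    rw [rs_map (MvPolynomial.eval fun b => eu b i), hevc, hi.2, hevf, ← rdp_C_mul hr,
      key_Q hr (o0 d c) _ (hgth t) c0 (F i) (x i) (hx1 i) (hFx i) (gg i t) (w i) (hgg i t) hi.1]
  have hrdH : rdp r (o0 d c) (cA s c0) H ≠ 0 := by
    intro h
    obtain ⟨i, h1, h2, h3⟩ := (hvrd.and (hrep.and hrd)).exists
    rw [h, map_zero] at h1
    exact mul_ne_zero (pow_ne_zero _ h2.1) h3 h1.symm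
  have hrsH : rs r q (o0 d c) (cA s c0) H (fA s (gt g t0)) ≠ 0 := by
    intro h
    obtain ⟨i, h1, h2, h3, h4⟩ := (hvrs.and (hrep.and (hrd.and ht0))).exists
    have h5 := h1 t0
    rw [h, map_zero] at h5
    refine mul_ne_zero (pow_ne_zero _ (mul_ne_zero (pow_ne_zero _ h2.1) h3)) ?_ h5.symm
    rw [← h4]
    exact htf i
  obtain ⟨lam, Ψ, Gd, yy, hT, hlcH, hdFH, hGd0, hGdvd, hΨ, hR0, hsub⟩ := famG (k := k) hd hr φ a hφ
    g hg hC hq H hHh hprim y hDec hφy hal c0 hrdH ⟨t0, hrsH⟩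
  have hH0 : H ≠ 0 := by
    rintro rfl
    apply hlcH
    unfold lc
    exact MvPolynomial.coeff_zero _
  set uV : Fin n → (Fin (d + 1) → Fin (d + 1) ⊕ Fin c) → K := fun l J => ((V l J : ℕ) : K)
    with huV
  have huV0 : uV i0 = Pi.single Sum.inl 1 := by
    rw [huV]
    funext J
    simp only
    rw [hV]
    by_cases hJ : J = Sum.inl
    · rw [hJ, Pi.single_eq_same, Pi.single_eq_same, Nat.cast_one]
    · rw [Pi.single_eq_of_ne hJ, Pi.single_eq_of_ne hJ, Nat.cast_zero]
  have hCs : (fun J => (MvPolynomial.C (uV i0 J) : AA K s)) = Pi.single Sum.inl 1 := by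
    rw [huV0]
    funext J
    by_cases hJ : J = Sum.inl
    · rw [hJ, Pi.single_eq_same, Pi.single_eq_same, map_one]
    · rw [Pi.single_eq_of_ne hJ, Pi.single_eq_of_ne hJ, map_zero]
  have hΨ0 : Ψ (uV i0) ≠ 0 := by
    intro h
    have h1 := hΨ (uV i0)
    rw [h, zero_mul, hCs] at h1
    exact mul_ne_zero (mul_ne_zero (pow_ne_zero _ hlcH) hGd0) hT h1.symm
  have htan := tang_spec U T hr eu he hmi F x hx1 hFx H hHh w hrep φ a hφ y hDec hφy c0 hrd lam hT
  -- (3) the constants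
  obtain ⟨C1, hC1⟩ := vlow U T eu he hmi (fun l => Ψ (uV l)) i0 hΨ0
  obtain ⟨C2, hC2⟩ := glowP U T eu he hmi Gd hGd0 (dF H) hdFH hGdvd
  obtain ⟨C3, hC3⟩ := hlow U T eu he hmi H hH0
  choose CY hCY using fun v : Pl K => nv_lin v yy
  set CYs : ℝ := lsum T CY with hCYs
  set N0 : ℝ := (Fintype.card (InfinitePlace K) : ℝ) + T.card with hN0
  have hN00 : 0 ≤ N0 := by positivity
  set kk : ℝ := |((d : ℝ) + 1) + (2 * r - 2)| with hkk
  have hkk0 : 0 ≤ kk := abs_nonneg _
  set δ : ℝ := ε / (4 * (N0 + kk + 1)) with hδ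
  have hδ0 : 0 < δ := by positivity
  set Rs : AA K s := ∑ t : Fin (ν * r + 1),
    MvPolynomial.C (yy t) * rs r q (o0 d c) (cA s c0) H (fA s (gt g t)) with hRs
  set E : ℕ := q - (d + 1) with hE
  have hQ0 : lc r (o0 d c) H ^ q * Gd * Rs ≠ 0 :=
    mul_ne_zero (mul_ne_zero (pow_ne_zero _ hlcH) hGd0) hR0
  have hpl := fun (l : Fin n) (hl : Ψ (uV l) ≠ 0) v => place_forms U T eu he hmi H hH0
    (Ψ (uV l) * rdp r (o0 d c) (cA s c0) H ^ q) _ (mul_ne_zero hl (pow_ne_zero _ hrdH)) hQ0 E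
    (hsub (uV l)) t ht B hB v δ hδ0
  have hplI : ∀ᶠ i in (U : Filter ℕ), ∀ v : InfinitePlace K, ∀ l : Fin n, Ψ (uV l) ≠ 0 →
      Real.log (nv (.inl v) (MvPolynomial.eval (fun b => eu b i)
        (Ψ (uV l) * rdp r (o0 d c) (cA s c0) H ^ q))) +
        E * Real.log (pn (.inl v) (H.map (MvPolynomial.eval fun b => eu b i))) ≤
      Real.log (nv (.inl v) (MvPolynomial.eval (fun b => eu b i)
        (lc r (o0 d c) H ^ q * Gd * Rs))) + δ * t i := by
    refine Filter.eventually_all.2 fun v => Filter.eventually_all.2 fun l => ?_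
    by_cases hl : Ψ (uV l) = 0
    · exact Eventually.of_forall fun i h => absurd hl h
    · filter_upwards [hpl l hl (.inl v)] with i hi _
      exact hi
  have hplT : ∀ᶠ i in (U : Filter ℕ), ∀ v ∈ T, ∀ l : Fin n, Ψ (uV l) ≠ 0 →
      Real.log (nv (.inr v) (MvPolynomial.eval (fun b => eu b i)
        (Ψ (uV l) * rdp r (o0 d c) (cA s c0) H ^ q))) +
        E * Real.log (pn (.inr v) (H.map (MvPolynomial.eval fun b => eu b i))) ≤
      Real.log (nv (.inr v) (MvPolynomial.eval (fun b => eu b i)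
        (lc r (o0 d c) H ^ q * Gd * Rs))) + δ * t i := by
    refine (Filter.eventually_all_finset T).2 fun v _ => Filter.eventually_all.2 fun l => ?_
    by_cases hl : Ψ (uV l) = 0
    · exact Eventually.of_forall fun i h => absurd hl h
    · filter_upwards [hpl l hl (.inr v)] with i hi _
      exact hi
  have hbig : ∀ᶠ n : ℕ in (U : Filter ℕ), C1 + C2 + CYs + kk * |C3| < (n : ℝ) :=
    ((tendsto_natCast_atTop_atTop (R := ℝ)).eventually_gt_atTop _).filter_mono hU
  obtain ⟨i, hi⟩ := (hplI.and (hplT.and (hbig.and (hrep.and (hvrd.and (hvlc.and (hvrs.and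
    (hrd.and (hC1.and (hC2.and (hC3.and ((hgcd δ hδ0).and (htH.and ((ht.eventually_ge_atTop 0).and
    ((Pool.Agent.Helper16.TP.li U T eu he hmi _ hΨ0).and
    ((Pool.Agent.Helper16.TP.li U T eu he hmi Gd hGd0).and
    ((Pool.Agent.Helper16.TP.li U T eu he hmi Rs hR0).and
    ((Pool.Agent.Helper16.TP.li U T eu he hmi _ hT).and (htan.and hI0))))))))))))))))))).exists
  obtain ⟨iI, iT, ibig, irep, ivrd, ivlc, ivrs, ird, iC1, iC2, iC3, igcd, itH, it0, iΨ, iG, iR, iTh,
    itan, iI0⟩ := hi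
  obtain ⟨hw0, irep2⟩ := irep
  have nvpos : ∀ (v : Pl K) {z : K}, z ≠ 0 → 0 < nv v z := fun v _ hz =>
    Pool.Agent.Helper64.Vojta.nv_pos v hz
  set Ψe : Fin n → K := fun l => MvPolynomial.eval (fun b => eu b i) (Ψ (uV l)) with hΨe
  set Ge : K := MvPolynomial.eval (fun b => eu b i) Gd with hGe
  set R0 : K := w i ^ (2 * r - 1) * rdp r (o0 d c) c0 (F i) with hR0'
  have hR00 : R0 ≠ 0 := mul_ne_zero (pow_ne_zero _ hw0) ird
  set gy : K := ∑ t : Fin (ν * r + 1), yy t * gg i t with hgy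
  have hRv : MvPolynomial.eval (fun b => eu b i) Rs = R0 ^ q * gy := by
    rw [hRs, map_sum, hgy, Finset.mul_sum]
    refine Finset.sum_congr rfl fun t _ => ?_
    rw [map_mul, ivrs t, MvPolynomial.eval_C, hR0']
    ring
  have hgy0 : gy ≠ 0 := by
    intro h
    rw [hRv, h, mul_zero] at iR
    exact iR rfl
  have hPv : ∀ l, MvPolynomial.eval (fun b => eu b i)
      (Ψ (uV l) * rdp r (o0 d c) (cA s c0) H ^ q) = Ψe l * R0 ^ q := by
    intro l
    rw [map_mul, map_pow, ivrd]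
  have hQv : MvPolynomial.eval (fun b => eu b i) (lc r (o0 d c) H ^ q * Gd * Rs) =
      w i ^ q * Ge * (R0 ^ q * gy) := by
    rw [map_mul, map_mul, map_pow, ivlc, hRv]
  have hggi : gg i ≠ 0 := by
    intro h
    apply hgy0
    rw [hgy, h]
    simp
  have hΨene : Ψe ≠ 0 := by
    intro h
    exact iΨ (congrFun h i0)
  have hΨl : ∀ l, Ψe l ≠ 0 → Ψ (uV l) ≠ 0 := by
    intro l h1 h2
    apply h1
    rw [hΨe]
    simp only
    rw [h2, map_zero]
  have hn0 : Nonempty (Fin n) := ⟨i0⟩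
  have hlog : ∀ v : Pl K, (∀ l : Fin n, Ψ (uV l) ≠ 0 →
      Real.log (nv v (MvPolynomial.eval (fun b => eu b i)
        (Ψ (uV l) * rdp r (o0 d c) (cA s c0) H ^ q))) +
        E * Real.log (pn v (H.map (MvPolynomial.eval fun b => eu b i))) ≤
      Real.log (nv v (MvPolynomial.eval (fun b => eu b i)
        (lc r (o0 d c) H ^ q * Gd * Rs))) + δ * t i) →
      Real.log (vn v Ψe) + (E : ℝ) * Real.log (pn v (MvPolynomial.C (w i) * F i)) ≤
      (q : ℝ) * Real.log (nv v (w i)) + (Real.log (nv v Ge) + (Real.log (vn v (gg i)) +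
        (CY v + δ * t i))) := by
    intro v hv
    obtain ⟨l, hl⟩ := exists_eq_ciSup_of_finite (f := fun l => nv v (Ψe l))
    have hl' : nv v (Ψe l) = vn v Ψe := hl
    have hl0 : Ψe l ≠ 0 := by
      intro h
      rw [h, Pool.Agent.Helper64.Vojta.nv_zero] at hl'
      exact (Pool.Agent.V2.vn_pos v hΨene).ne hl'
    have h1 := hv l (hΨl l hl0)
    have h2 := hCY v (gg i) hgy0
    rw [irep2, hPv l, hQv, Pool.Agent.Helper64.Vojta.nv_mul,
      Real.log_mul (nvpos v hl0).ne' (nvpos v (pow_ne_zero _ hR00)).ne',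
      Pool.Agent.Helper64.Vojta.nv_mul, Pool.Agent.Helper64.Vojta.nv_mul,
      Pool.Agent.Helper64.Vojta.nv_mul,
      Real.log_mul (mul_ne_zero (nvpos v (pow_ne_zero _ hw0)).ne' (nvpos v iG).ne')
        (mul_ne_zero (nvpos v (pow_ne_zero _ hR00)).ne' (nvpos v hgy0).ne'),
      Real.log_mul (nvpos v (pow_ne_zero _ hw0)).ne' (nvpos v iG).ne',
      Real.log_mul (nvpos v (pow_ne_zero _ hR00)).ne' (nvpos v hgy0).ne',
      nv_pow, nv_pow, Real.log_pow, Real.log_pow] at h1
    rw [← hl']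
    rw [← hgy] at h2
    linarith
  have hsumL : lsum T (fun v => Real.log (vn v Ψe) +
        (E : ℝ) * Real.log (pn v (MvPolynomial.C (w i) * F i))) ≤
      lsum T (fun v => (q : ℝ) * Real.log (nv v (w i)) + (Real.log (nv v Ge) +
        (Real.log (vn v (gg i)) + (CY v + δ * t i)))) := by
    unfold lsum
    exact add_le_add (Finset.sum_le_sum fun v _ => hlog _ (iI v))
      (Finset.sum_le_sum fun v hv => hlog _ (iT v hv))
  rw [lsum_add, lsum_smul, lsum_add, lsum_smul, lsum_add, lsum_add, lsum_add, ← hCYs] at hsumL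
  have hconst : lsum T (fun _ : Pl K => δ * t i) = N0 * (δ * t i) := by
    unfold lsum
    rw [Finset.sum_const, Finset.sum_const, Finset.card_univ, nsmul_eq_mul, nsmul_eq_mul, hN0]
    ring
  rw [hconst] at hsumL
  have hCwF : MvPolynomial.C (w i) * F i ≠ 0 :=
    mul_ne_zero (by rwa [Ne, MvPolynomial.C_eq_zero]) (hFne i)
  have hLp : lsum T (fun v => Real.log (pn v (MvPolynomial.C (w i) * F i))) =
      lsum T (fun v => Real.log (nv v (w i))) + lsum T (fun v => Real.log (pn v (F i))) := by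
    rw [← lsum_add]
    congr 1
    funext v
    rw [pn_C_mul, Real.log_mul (nvpos v hw0).ne' (Pool.Agent.V2.pn_pos v (hFne i)).ne']
  have hHF : pH (F i) = lsum T (fun v => Real.log (pn v (F i))) +
      osum T (fun v => Real.log (pn v (F i))) := by
    unfold osum pH
    ring
  -- the discriminant
  have hmapH : H.map (MvPolynomial.eval fun b => eu b i) ≠ 0 := by
    rw [irep2]; exact hCwF
  have hdF1 : (dF H).map (MvPolynomial.eval fun b => eu b i) =
      MvPolynomial.C (w i) ^ (2 * r - 2) * dF (F i) := by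
    rw [dF_map (MvPolynomial.eval fun b => eu b i) hr H hHh hmapH, irep2,
      dF_C_mul hr (w i) hw0 (F i) (hFh i) (hFne i)]
  have hDne : dF (F i) ≠ 0 := by
    intro h
    rcases dF_rdp hr (o0 d c) c0 (F i) (hFh i) (hFne i) with h1 | h1
    · rw [h, map_zero, mul_zero] at h1
      exact ird h1.symm
    · rw [h, map_zero, mul_zero] at h1
      exact ird (neg_eq_zero.1 h1.symm)
  have hOD : osum T (fun v => Real.log (pn v ((dF H).map (MvPolynomial.eval fun b => eu b i)))) =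
      -(2 * (r : ℝ) - 2) * lsum T (fun v => Real.log (nv v (w i))) +
      osum T (fun v => Real.log (pn v (dF (F i)))) := by
    have h1 : (fun v : Pl K => Real.log (pn v ((dF H).map (MvPolynomial.eval fun b => eu b i)))) =
        fun v => (2 * (r : ℝ) - 2) * Real.log (nv v (w i)) + Real.log (pn v (dF (F i))) := by
      funext v
      rw [hdF1, ← map_pow, pn_C_mul, Real.log_mul (nvpos v (pow_ne_zero _ hw0)).ne'
        (Pool.Agent.V2.pn_pos v hDne).ne', nv_pow, Real.log_pow]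
      have h2 : ((2 * r - 2 : ℕ) : ℝ) = 2 * r - 2 := by
        rw [Nat.cast_sub (by omega)]
        push_cast
        ring
      rw [h2]
    rw [h1, osum_add T (fun v => (2 * (r : ℝ) - 2) * Real.log (nv v (w i))) _
      ((Pool.Agent.V2.finS_nv hw0).const_mul _) (Pool.Agent.V2.finS_pn hDne),
      osum_smul T _ _ (Pool.Agent.V2.finS_nv hw0), osum_nv T _ hw0]
    ring
  rw [hOD] at iC2
  rw [irep2, pH_C_mul _ hw0 _ (hFne i)] at iC3
  -- the tangent space
  have hΘ : ∀ l, ∃ z : K, Ψe l * R0 ^ (2 * d + 1) = w i ^ (d + 1) * Ge * z ∧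
      z = MvPolynomial.eval (fun b => eu b i) (ThetaU r (o0 d c) (cA s c0) H
        (fun i => der (lam i)) (fun J => MvPolynomial.C (uV l J))) := by
    intro l
    refine ⟨_, ?_, rfl⟩
    have h1 := congrArg (MvPolynomial.eval fun b => eu b i) (hΨ (uV l))
    rw [map_mul, map_pow, map_mul, map_mul, map_pow, ivlc, ivrd] at h1
    exact h1
  choose Θ hΘ1 hΘ2 using hΘ
  obtain ⟨hp0, hptan⟩ := itan I0 (fun σ => by
    obtain ⟨J, hJ⟩ := htg i σ
    exact ⟨J, by rw [← iI0]; exact hJ⟩)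
  have htt1 : ∀ l, algebraMap K (AlgebraicClosure K) (tt i l) = ∏ σ, ∑ J,
      algebraMap K (AlgebraicClosure K) (uV l J) * aeval (x i σ) (tang φ I0 J) := by
    intro l
    rw [htt i l, iI0]
    refine Finset.prod_congr rfl fun σ _ => Finset.sum_congr rfl fun J _ => ?_
    rw [huV]
    simp only [map_natCast]
  have htt0 : algebraMap K (AlgebraicClosure K) (tt i i0) =
      ∏ σ, aeval (x i σ) (tang φ I0 Sum.inl) := by
    rw [htt1, huV0]
    refine Finset.prod_congr rfl fun σ _ => ?_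
    rw [Finset.sum_eq_single (Sum.inl : Fin (d + 1) → Fin (d + 1) ⊕ Fin c)]
    · rw [Pi.single_eq_same, map_one, one_mul]
    · intro J _ hJ
      rw [Pi.single_eq_of_ne hJ, map_zero, zero_mul]
    · intro h
      exact absurd (Finset.mem_univ _) h
  have htt00 : tt i i0 ≠ 0 := by
    intro h
    rw [h, map_zero] at htt0
    exact hp0 htt0.symm
  have hΘ00 : Θ i0 ≠ 0 := by
    rw [hΘ2, hCs]
    exact iTh
  have hΘt : ∀ l, Θ l * tt i i0 = Θ i0 * tt i l := by
    intro l
    apply (algebraMap K (AlgebraicClosure K)).injective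
    rw [map_mul, map_mul, htt0, htt1 l, hΘ2 l, hΘ2 i0, hCs]
    exact hptan (uV l)
  have hΨt : Ψe = fun l => (w i ^ (d + 1) * Ge * Θ i0 / (R0 ^ (2 * d + 1) * tt i i0)) * tt i l := by
    funext l
    have h1 : Θ l = Θ i0 * tt i l / tt i i0 := by
      rw [eq_div_iff htt00]; exact hΘt l
    have h2 : Ψe l = w i ^ (d + 1) * Ge * Θ l / R0 ^ (2 * d + 1) := by
      rw [eq_div_iff (pow_ne_zero _ hR00)]; exact hΘ1 l
    rw [h2, h1]
    field_simp
  have httne : tt i ≠ 0 := fun h => htt00 (congrFun h i0)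
  have hvH : vH Ψe = vH (tt i) := by
    rw [hΨt]
    exact vH_smul _ (div_ne_zero (mul_ne_zero (mul_ne_zero (pow_ne_zero _ hw0) iG) hΘ00)
      (mul_ne_zero (pow_ne_zero _ hR00) htt00)) _ httne
  have iC1' : vH (tt i) - C1 ≤ lsum T fun v => Real.log (vn v Ψe) := by
    rw [← hvH]
    exact iC1
  have hEr : (E : ℝ) = (q : ℝ) - ((d : ℝ) + 1) := by
    rw [hE, Nat.cast_sub hq]
    push_cast
    ring
  have hfin := num (C1 := C1) (C2 := C2) (C3 := |C3|) (r := (r : ℝ)) hEr hsumL iC1' iC2 hLp hHF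
    igcd (by have := le_abs_self C3; linarith) (abs_nonneg _) (mul_nonneg hδ0.le it0)
  have hLHS : (lsum T fun v => (q : ℝ) * Real.log (pn v (F i)) - Real.log (vn v (gg i))) =
      q * lsum T (fun v => Real.log (pn v (F i))) - lsum T (fun v => Real.log (vn v (gg i))) := by
    have h1 : (fun v : Pl K => (q : ℝ) * Real.log (pn v (F i)) - Real.log (vn v (gg i))) =
        fun v => (q : ℝ) * Real.log (pn v (F i)) + (-1) * Real.log (vn v (gg i)) := by
      funext v; ring
    rw [h1, lsum_add, lsum_smul, lsum_smul]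
    ring
  have hRHS : (osum T fun v => (2 * (r : ℝ) - 2) * Real.log (pn v (F i)) -
            Real.log (pn v (dF (F i)))) =
      (2 * (r : ℝ) - 2) * osum T (fun v => Real.log (pn v (F i))) -
        osum T (fun v => Real.log (pn v (dF (F i)))) := by
    have h1 : (fun v : Pl K => (2 * (r : ℝ) - 2) * Real.log (pn v (F i)) -
            Real.log (pn v (dF (F i)))) =
        fun v => (2 * (r : ℝ) - 2) * Real.log (pn v (F i)) +
          (-1) * Real.log (pn v (dF (F i))) := by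
      funext v; ring
    rw [h1, osum_add T (fun v => (2 * (r : ℝ) - 2) * Real.log (pn v (F i))) _
      ((Pool.Agent.V2.finS_pn (hFne i)).const_mul _)
      ((Pool.Agent.V2.finS_pn hDne).const_mul _), osum_smul T _ _ (Pool.Agent.V2.finS_pn (hFne i)),
      osum_smul T _ _ (Pool.Agent.V2.finS_pn hDne)]
    ring
  have hb := hbad i
  rw [hLHS, hRHS] at hb
  have hδt : (N0 + kk) * (δ * t i) ≤ ε * pH (F i) := by
    have h1 : (N0 + kk) * δ ≤ ε / 2 := by
      rw [hδ, mul_div_assoc', div_le_iff₀ (by positivity)]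
      nlinarith
    have h2 : (N0 + kk) * (δ * t i) = ((N0 + kk) * δ) * t i := by ring
    rw [h2]
    calc ((N0 + kk) * δ) * t i ≤ ε / 2 * t i := mul_le_mul_of_nonneg_right h1 it0
      _ ≤ ε / 2 * (2 * pH (F i)) := mul_le_mul_of_nonneg_left itH (by linarith)
      _ = ε * pH (F i) := by ring
  linarith

end Pool.Agent.Helper16.VG
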