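import Pool.Agent.Helper16.VG.ThU
import Pool.Agent.Helper16.UP.RootDer
import Pool.Agent.Helper16.UP.Mx

/-!
# Block VG-B2: the local inequality at a place where one derivation is not logarithmic

MODEL: UP/Loc.lean (`loc`); here it is simpler (no `φ`, no pencil, all coordinates).
PROOF. `μ_τ = mx v (x τ) ≠ 0` (`x τ o = 1`). `exists_gen` (UP/Mx.lean): `u0 : κ → ℕ` with `v (L τ) = μ_τ`, `L τ = ∑ u0 j * x τ j`, for all `τ`. `y τ j = x τ j / L τ`, so `mx v (y τ) = 1`. `root_der` (UP/RootDer.lean) with `D i0`: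
(1) `mx v (D i0 (y σ)) * (v a0 * ∏ τ, μ_τ) * ∏_{τ ≠ σ} mx v (y σ - y τ) ≤ 1`. (2) `v (JacJ J (y σ)) ≤ mx v (D i0 (y σ))`: expand the determinant; the column `y σ` and the columns `D i (y σ)`, `i ≠ i0`, have values `≤ 1`
(`hlog`), the column `i0` has values `≤ mx v (D i0 (y σ))`. `JacJ J (x σ) = (L σ) ^ (d + 1) * JacJ J (y σ)` (`jacJ_smul`). (3) `dist2 v (x σ) (x τ) ≤ μ_σ * μ_τ * mx v (y σ - y τ)`, because
`x σ i x τ j - x σ j x τ i = L σ L τ (y σ i (y τ j - y σ j) - y σ j (y τ i - y σ i))`. Product: left side `≤ μ_σ ^ (d + 1) * mx v (D i0 (y σ)) * v a0 * ∏_{τ ≠ σ} (μ_σ μ_τ mx v (y σ - y τ))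
= μ_σ ^ (d + 1) * μ_σ ^ (r - 1) * μ_σ⁻¹ * [(1)] ≤ μ_σ ^ (d + r - 1)` (`1 ≤ r`; the exponent is `(d + 1) + (r - 1) - 1`).
-/

namespace Pool.Agent.Helper16.VG

open Pool.Agent.Helper16.UP (lf pen pend ev rs rdp lc Dec nn mx mnr)

variable {M : Type*} [Field M] {Γ₀ : Type*} [LinearOrderedCommGroupWithZero Γ₀]
  (v : Valuation M Γ₀) {κ : Type*} [Fintype κ] [DecidableEq κ] {d : ℕ}

private theorem val_sign11 (s : ℤˣ) : v ((((s : ℤˣ) : ℤ) : M)) = 1 := by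
  rcases Int.units_eq_one_or s with h | h
  · rw [h]
    simp
  · rw [h]
    simp

omit [DecidableEq κ] in
private theorem jac_le11 (D : Fin d → Derivation ℤ M M) (i0 : Fin d)
    (hlog : ∀ i, i ≠ i0 → ∀ z, v (D i z) ≤ v z) (J : Fin (d + 1) → κ) (y : κ → M)
    (hy : ∀ j, v (y j) ≤ 1) :
    v (JacJ (fun i => D i) J y) ≤ mx v fun l => D i0 (y l) := by
  unfold JacJ
  rw [Matrix.det_apply']
  refine v.map_sum_le fun s _ => ?_
  rw [map_mul, val_sign11, one_mul, map_prod, Fin.prod_univ_succ]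
  have h0 : v (Matrix.of (fun a i : Fin (d + 1) =>
      (Fin.cons (y (J a)) (fun i => D i (y (J a))) : Fin (d + 1) → M) i) (s 0) 0) ≤ 1 := by
    simp only [Matrix.of_apply, Fin.cons_zero]
    exact hy _
  have h1 : ∏ i : Fin d, v (Matrix.of (fun a i : Fin (d + 1) =>
      (Fin.cons (y (J a)) (fun i => D i (y (J a))) : Fin (d + 1) → M) i) (s i.succ) i.succ) ≤
      mx v fun l => D i0 (y l) := by
    rw [← Finset.mul_prod_erase Finset.univ _ (Finset.mem_univ i0)]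
    have h2 : v (Matrix.of (fun a i : Fin (d + 1) =>
        (Fin.cons (y (J a)) (fun i => D i (y (J a))) : Fin (d + 1) → M) i) (s i0.succ) i0.succ) ≤
        mx v fun l => D i0 (y l) := by
      simp only [Matrix.of_apply, Fin.cons_succ]
      exact Pool.Agent.Helper16.UP.le_mx v (fun l => D i0 (y l)) _
    have h3 : ∏ i ∈ Finset.univ.erase i0, v (Matrix.of (fun a i : Fin (d + 1) =>
        (Fin.cons (y (J a)) (fun i => D i (y (J a))) : Fin (d + 1) → M) i) (s i.succ) i.succ) ≤ 1 := by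
      refine Finset.prod_le_one' fun i hi => ?_
      simp only [Matrix.of_apply, Fin.cons_succ]
      exact (hlog i (Finset.ne_of_mem_erase hi) _).trans (hy _)
    calc _ ≤ (mx v fun l => D i0 (y l)) * 1 := mul_le_mul' h2 h3
      _ = _ := mul_one _
  calc _ ≤ 1 * (mx v fun l => D i0 (y l)) := mul_le_mul' h0 h1
    _ = _ := one_mul _

theorem locG (hn : ∀ n : ℕ, n ≠ 0 → v (n : M) = 1) (D : Fin d → Derivation ℤ M M) (i0 : Fin d)
    (hlog : ∀ i, i ≠ i0 → ∀ z, v (D i z) ≤ v z) {r : ℕ} (a0 : M) (ha0 : a0 ≠ 0)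
    (x : Fin r → κ → M) (o : κ) (hx1 : ∀ σ, x σ o = 1)
    (hF : ∀ γ, v (D i0 ((MvPolynomial.C a0 * ∏ σ, lf (x σ)).coeff γ)) ≤ 1)
    (J : Fin (d + 1) → κ) (σ : Fin r) :
    v (JacJ (fun i => D i) J (x σ)) *
        (v a0 * ∏ τ ∈ Finset.univ.erase σ, dist2 v (x σ) (x τ)) ≤ mx v (x σ) ^ (d + r - 1) := by
  classical
  set μ : Fin r → Γ₀ := fun τ => mx v (x τ) with hμ
  have hμ0 : ∀ τ, μ τ ≠ 0 := fun τ =>
    Pool.Agent.Helper16.UP.mx_ne_zero v (x τ) o (by rw [hx1]; exact one_ne_zero)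
  obtain ⟨u0, hu0⟩ := Pool.Agent.Helper16.UP.exists_gen v hn (β := Fin r) x
  set L0 : Fin r → M := fun τ => ∑ j, (u0 j : M) * x τ j with hL0
  have hL0v : ∀ τ, v (L0 τ) = μ τ := hu0
  have hL0ne : ∀ τ, L0 τ ≠ 0 := fun τ h => hμ0 τ (by rw [← hL0v, h, map_zero])
  set y : Fin r → κ → M := fun τ j => x τ j / L0 τ with hy
  have hxy : ∀ τ j, x τ j = L0 τ * y τ j := by
    intro τ j
    rw [hy]
    simp only
    rw [mul_div_cancel₀ _ (hL0ne τ)]
  have hy1 : ∀ τ, mx v (y τ) = 1 := by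
    intro τ
    have h1 : y τ = fun j => (L0 τ)⁻¹ * x τ j := by
      funext j
      rw [hy]
      simp only
      rw [div_eq_inv_mul]
    rw [h1, Pool.Agent.Helper16.UP.mx_smul, map_inv₀, hL0v]
    exact inv_mul_cancel₀ (hμ0 τ)
  have hyle : ∀ τ j, v (y τ j) ≤ 1 := fun τ j =>
    (Pool.Agent.Helper16.UP.le_mx v (y τ) j).trans (hy1 τ).le
  set E : Γ₀ := mx v fun l => D i0 (y σ l) with hE
  have H1 : v (JacJ (fun i => D i) J (y σ)) ≤ E := jac_le11 v D i0 hlog J (y σ) (hyle σ)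
  set δ : Fin r → Γ₀ := fun τ => mx v (fun j => y σ j - y τ j) with hδ
  have H2 : E * (v a0 * ∏ τ, μ τ) * ∏ τ ∈ Finset.univ.erase σ, δ τ ≤ 1 :=
    Pool.Agent.Helper16.UP.root_der v hn a0 x (fun τ => ⟨o, by rw [hx1]; exact one_ne_zero⟩)
      (D i0) hF u0 hu0 σ
  have H3 : ∀ τ, dist2 v (x σ) (x τ) ≤ μ σ * μ τ * δ τ := by
    intro τ
    unfold dist2
    refine Finset.sup_le fun p _ => ?_
    have h1 : x σ p.1 * x τ p.2 - x σ p.2 * x τ p.1 =
        L0 σ * L0 τ * (y σ p.2 * (y σ p.1 - y τ p.1) - y σ p.1 * (y σ p.2 - y τ p.2)) := by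
      rw [hxy σ p.1, hxy σ p.2, hxy τ p.1, hxy τ p.2]
      ring
    rw [h1, map_mul, map_mul, hL0v, hL0v]
    refine mul_le_mul' le_rfl ?_
    refine (Valuation.map_sub _ _ _).trans (max_le ?_ ?_)
    · rw [map_mul]
      exact (mul_le_mul' (hyle σ _)
        (Pool.Agent.Helper16.UP.le_mx v (fun j => y σ j - y τ j) p.1)).trans (by rw [one_mul])
    · rw [map_mul]
      exact (mul_le_mul' (hyle σ _)
        (Pool.Agent.Helper16.UP.le_mx v (fun j => y σ j - y τ j) p.2)).trans (by rw [one_mul])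
  have hr : 1 ≤ r := by
    have := σ.2
    omega
  have hprod : ∏ τ ∈ Finset.univ.erase σ, (μ σ * μ τ * δ τ) =
      μ σ ^ (r - 1) * (∏ τ ∈ Finset.univ.erase σ, μ τ) * ∏ τ ∈ Finset.univ.erase σ, δ τ := by
    rw [Finset.prod_mul_distrib, Finset.prod_mul_distrib, Finset.prod_const,
      Finset.card_erase_of_mem (Finset.mem_univ σ), Finset.card_univ, Fintype.card_fin]
  have H3' : ∏ τ ∈ Finset.univ.erase σ, dist2 v (x σ) (x τ) ≤
      μ σ ^ (r - 1) * (∏ τ ∈ Finset.univ.erase σ, μ τ) * ∏ τ ∈ Finset.univ.erase σ, δ τ := by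
    rw [← hprod]
    exact Finset.prod_le_prod' fun τ _ => H3 τ
  have H4 : v (JacJ (fun i => D i) J (x σ)) = μ σ ^ (d + 1) * v (JacJ (fun i => D i) J (y σ)) := by
    rw [show x σ = fun j => L0 σ * y σ j from funext (hxy σ), jacJ_smul, map_mul, map_pow, hL0v]
  have hμ' : ∏ τ, μ τ = μ σ * ∏ τ ∈ Finset.univ.erase σ, μ τ :=
    (Finset.mul_prod_erase Finset.univ _ (Finset.mem_univ σ)).symm
  rw [hμ'] at H2
  rw [H4]
  set P1 := ∏ τ ∈ Finset.univ.erase σ, μ τ with hP1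
  set P2 := ∏ τ ∈ Finset.univ.erase σ, δ τ with hP2
  calc μ σ ^ (d + 1) * v (JacJ (fun i => D i) J (y σ)) *
        (v a0 * ∏ τ ∈ Finset.univ.erase σ, dist2 v (x σ) (x τ)) ≤
        μ σ ^ (d + 1) * E * (v a0 * (μ σ ^ (r - 1) * P1 * P2)) :=
        mul_le_mul' (mul_le_mul' le_rfl H1) (mul_le_mul' le_rfl H3')
    _ = (μ σ ^ (d + 1) * μ σ ^ (r - 1)) * (E * (v a0 * P1) * P2) := by ac_rfl
    _ = μ σ ^ (d + r - 1) * (E * (v a0 * (μ σ * P1)) * P2) := by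
        have e1 : μ σ ^ (d + 1) * μ σ ^ (r - 1) = μ σ ^ (d + r - 1) * μ σ := by
          rw [← pow_add, ← pow_succ]
          congr 1
          omega
        rw [e1]
        ac_rfl
    _ ≤ μ σ ^ (d + r - 1) * 1 := mul_le_mul' le_rfl H2
    _ = mx v (x σ) ^ (d + r - 1) := mul_one _

end Pool.Agent.Helper16.VG
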