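import Pool.Agent.Helper16.VG.LocG
import Pool.Agent.Helper16.VG.DFa

/-!
# Block VG-B3: product over the conjugates

MODEL: UP/LocM.lean (`locM`).
PROOF. `JacU u = ∑ u J * JacJ J` has `v (JacU u (x σ)) ≤ max_J v (JacJ J (x σ))` (`hu`), so `locG` holds with `JacU u` instead of `JacJ J`. Multiply over `σ`; `∏ σ, mx v (x σ) = (v a0)⁻¹` (`h1`):
`∏ v (JacU) * (v a0) ^ r * ∏_σ ∏_{τ ≠ σ} dist2 ≤ (v a0)⁻¹ ^ (d + r - 1)`. `dF_dec`: `dF F = ± C a0 ^ (2 r - 2) * ∏_σ ∏_{τ ≠ σ} brk (x σ) (x τ)`, all coefficients of `brk x y` have value `≤ dist2 v x y` (the coefficient of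
`C_i H_j` is `x_i y_j - y_i x_j`; no other monomials), so all coefficients of the product have value `≤ (v a0) ^ (2 r - 2) * ∏ ∏ dist2` (induction over products of polynomials, ultrametric inequality).
Together `v (a0 ^ (d + 1) * coeff * ∏ JacU) ≤ (v a0) ^ (d + 1 + 2 r - 2 - r - (d + r - 1)) = (v a0) ^ 0 = 1`.
-/

namespace Pool.Agent.Helper16.VG

open Pool.Agent.Helper16.UP (lf pen pend ev rs rdp lc Dec nn mx mnr)

variable {M : Type*} [Field M] {Γ₀ : Type*} [LinearOrderedCommGroupWithZero Γ₀]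
  (v : Valuation M Γ₀) {κ : Type*} [Fintype κ] [DecidableEq κ] {d : ℕ}

/-- all coefficients have value at most `c` -/
def CBd {ι : Type*} (p : MvPolynomial ι M) (c : Γ₀) : Prop := ∀ μ, v (p.coeff μ) ≤ c

variable {v}

theorem CBd.mul {ι : Type*} {p q : MvPolynomial ι M} {c c' : Γ₀} (hp : CBd v p c)
    (hq : CBd v q c') : CBd v (p * q) (c * c') := by
  classical
  intro μ
  rw [MvPolynomial.coeff_mul]
  refine v.map_sum_le fun x _ => ?_
  rw [map_mul]
  exact mul_le_mul' (hp _) (hq _)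

theorem CBd.one {ι : Type*} : CBd v (1 : MvPolynomial ι M) 1 := by
  classical
  intro μ
  rw [MvPolynomial.coeff_one]
  split_ifs
  · rw [map_one]
  · rw [map_zero]
    exact zero_le

theorem CBd.prod {ι α : Type*} (s : Finset α) {p : α → MvPolynomial ι M} {c : α → Γ₀}
    (h : ∀ i ∈ s, CBd v (p i) (c i)) : CBd v (∏ i ∈ s, p i) (∏ i ∈ s, c i) := by
  classical
  induction s using Finset.induction_on with
  | empty =>
    rw [Finset.prod_empty, Finset.prod_empty]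
    exact CBd.one
  | insert a s ha ih =>
    rw [Finset.prod_insert ha, Finset.prod_insert ha]
    exact (h a (Finset.mem_insert_self a s)).mul
      (ih fun i hi => h i (Finset.mem_insert_of_mem hi))

theorem CBd.sum {ι α : Type*} (s : Finset α) {p : α → MvPolynomial ι M} {c : Γ₀}
    (h : ∀ i ∈ s, CBd v (p i) c) : CBd v (∑ i ∈ s, p i) c := by
  intro μ
  rw [MvPolynomial.coeff_sum]
  exact v.map_sum_le fun i hi => h i hi μ

theorem CBd.C_pow {ι : Type*} (a : M) (k : ℕ) :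
    CBd v (MvPolynomial.C a ^ k : MvPolynomial ι M) (v a ^ k) := by
  classical
  intro μ
  rw [← MvPolynomial.C_pow, MvPolynomial.coeff_C]
  split_ifs
  · rw [map_pow]
  · rw [map_zero]
    exact zero_le

theorem CBd.term {ι : Type*} (c : M) (a b : ι) :
    CBd v (MvPolynomial.C c * (MvPolynomial.X a * MvPolynomial.X b)) (v c) := by
  classical
  intro μ
  have h : (MvPolynomial.X a * MvPolynomial.X b : MvPolynomial ι M) =
      MvPolynomial.monomial (Finsupp.single a 1 + Finsupp.single b 1) 1 := by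
    rw [MvPolynomial.X, MvPolynomial.X, MvPolynomial.monomial_mul, one_mul]
  rw [h, MvPolynomial.coeff_C_mul, MvPolynomial.coeff_monomial]
  split_ifs
  · rw [mul_one]
  · rw [mul_zero, map_zero]
    exact zero_le

theorem brk_eq (x y : κ → M) : brk x y = ∑ i, ∑ j, MvPolynomial.C (x i * y j - x j * y i) *
    (MvPolynomial.X (Sum.inr i) * MvPolynomial.X (Sum.inl j)) := by
  rw [brk, Finset.sum_mul_sum, Finset.sum_mul_sum, ← Finset.sum_sub_distrib]
  refine Finset.sum_congr rfl fun i _ => ?_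
  rw [← Finset.sum_sub_distrib]
  refine Finset.sum_congr rfl fun j _ => ?_
  rw [MvPolynomial.C_sub, MvPolynomial.C_mul, MvPolynomial.C_mul]
  ring

theorem CBd_brk (x y : κ → M) : CBd v (brk x y) (dist2 v x y) := by
  rw [brk_eq]
  refine CBd.sum _ fun i _ => CBd.sum _ fun j _ => ?_
  intro μ
  refine (CBd.term _ _ _ μ).trans ?_
  exact Finset.le_sup (f := fun p : κ × κ => v (x p.1 * y p.2 - x p.2 * y p.1))
    (Finset.mem_univ (i, j))

variable (v)

theorem locMG (hn : ∀ n : ℕ, n ≠ 0 → v (n : M) = 1) (D : Fin d → Derivation ℤ M M) (i0 : Fin d)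
    (hlog : ∀ i, i ≠ i0 → ∀ z, v (D i z) ≤ v z) {r : ℕ} (hr : 1 ≤ r) (a0 : M)
    (x : Fin r → κ → M) (o : κ) (hx1 : ∀ σ, x σ o = 1)
    (hF : ∀ γ, v (D i0 ((MvPolynomial.C a0 * ∏ σ, lf (x σ)).coeff γ)) ≤ 1)
    (h1 : v a0 * ∏ σ, mx v (x σ) = 1) (u : (Fin (d + 1) → κ) → M) (hu : ∀ J, v (u J) ≤ 1)
    (μ : κ ⊕ κ →₀ ℕ) :
    v (a0 ^ (d + 1) * (dF (MvPolynomial.C a0 * ∏ σ, lf (x σ))).coeff μ *
        ∏ σ, JacU (fun i => D i) u (x σ)) ≤ 1 := by
  have ha0 : a0 ≠ 0 := by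
    rintro rfl
    rw [map_zero, zero_mul] at h1
    exact zero_ne_one h1
  set P : Fin r → Γ₀ := fun σ => ∏ τ ∈ Finset.univ.erase σ, dist2 v (x σ) (x τ) with hP
  have hloc : ∀ σ, v (JacU (fun i => D i) u (x σ)) * (v a0 * P σ) ≤ mx v (x σ) ^ (d + r - 1) := by
    intro σ
    rcases eq_or_ne (v a0 * P σ) 0 with h0 | h0
    · rw [h0, mul_zero]
      exact zero_le
    · have hpos : 0 < v a0 * P σ := zero_lt_iff.2 h0
      rw [← le_div_iff₀ hpos, JacU]
      refine v.map_sum_le fun J _ => ?_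
      rw [le_div_iff₀ hpos, map_mul]
      calc v (u J) * v (JacJ (fun i => D i) J (x σ)) * (v a0 * P σ)
          ≤ 1 * v (JacJ (fun i => D i) J (x σ)) * (v a0 * P σ) :=
            mul_le_mul' (mul_le_mul' (hu J) le_rfl) le_rfl
        _ ≤ mx v (x σ) ^ (d + r - 1) := by
            rw [one_mul]
            exact locG v hn D i0 hlog a0 ha0 x o hx1 hF J σ
  set F : MvPolynomial κ M := MvPolynomial.C a0 * ∏ σ, lf (x σ) with hFd
  set Q : Γ₀ := ∏ σ, P σ with hQ
  set T : Γ₀ := ∏ σ, v (JacU (fun i => D i) u (x σ)) with hT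
  set μ' : Γ₀ := ∏ σ, mx v (x σ) with hμ'
  have hprod : T * (v a0 ^ r * Q) ≤ μ' ^ (d + r - 1) := by
    have h2 : ∏ σ, (v (JacU (fun i => D i) u (x σ)) * (v a0 * P σ)) ≤
        ∏ σ, mx v (x σ) ^ (d + r - 1) := Finset.prod_le_prod' fun σ _ => hloc σ
    rw [Finset.prod_mul_distrib, Finset.prod_mul_distrib, Finset.prod_const, Finset.card_univ,
      Fintype.card_fin, Finset.prod_pow] at h2
    exact h2
  have hcoef : v ((dF F).coeff μ) ≤ v a0 ^ (2 * r - 2) * Q := by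
    have hb : CBd v (MvPolynomial.C a0 ^ (2 * r - 2) *
        ∏ σ, ∏ τ ∈ Finset.univ.erase σ, brk (x σ) (x τ)) (v a0 ^ (2 * r - 2) * Q) :=
      (CBd.C_pow a0 _).mul (CBd.prod _ fun σ _ => CBd.prod _ fun τ _ => CBd_brk _ _)
    have hxo : ∀ σ, ∃ j, x σ j ≠ 0 := fun σ => ⟨o, by rw [hx1]; exact one_ne_zero⟩
    rcases dF_dec hr a0 ha0 x hxo with h | h
    · rw [hFd, h]
      exact hb μ
    · rw [hFd, h, MvPolynomial.coeff_neg, Valuation.map_neg]
      exact hb μ
  rw [map_mul, map_mul, map_pow, map_prod]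
  calc v a0 ^ (d + 1) * v ((dF F).coeff μ) * T
      ≤ v a0 ^ (d + 1) * (v a0 ^ (2 * r - 2) * Q) * T :=
        mul_le_mul' (mul_le_mul' le_rfl hcoef) le_rfl
    _ = v a0 ^ (d + r - 1) * (T * (v a0 ^ r * Q)) := by
        have e : v a0 ^ (d + 1) * v a0 ^ (2 * r - 2) = v a0 ^ (d + r - 1) * v a0 ^ r := by
          rw [← pow_add, ← pow_add]
          congr 1
          omega
        calc v a0 ^ (d + 1) * (v a0 ^ (2 * r - 2) * Q) * T
            = (v a0 ^ (d + 1) * v a0 ^ (2 * r - 2)) * (Q * T) := by ac_rfl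
          _ = (v a0 ^ (d + r - 1) * v a0 ^ r) * (Q * T) := by rw [e]
          _ = v a0 ^ (d + r - 1) * (T * (v a0 ^ r * Q)) := by ac_rfl
    _ ≤ v a0 ^ (d + r - 1) * μ' ^ (d + r - 1) := mul_le_mul' le_rfl hprod
    _ = 1 := by rw [← mul_pow, h1, one_pow]

end Pool.Agent.Helper16.VG
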