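import Pool.Agent.Helper16.VG.Defs
import Pool.Agent.Helper16.UP.DetId

/-!
# Block VG-A3: Plücker coordinates of the tangent space

MODEL: UP/DetId.lean (`det_id`: the case `J = Sum.inl`, `m` forms).
PROOFS. `plu_det`: let `[A / Γ]` be the square matrix with the rows of `A` above those of `Γ` (here `Matrix.of` of `Sum.elim`). For every `V` (`c` columns) `[A / Γ] * [W | V] = [A W, A V; 0, Γ V]` because `Γ W = 0`
(`Matrix.fromRows`, `Matrix.fromCols`, `Matrix.fromBlocks`, `Matrix.det_fromBlocks_zero₂₁`), so `det [A / Γ] * det [W | V] = det (A W) * det (Γ V)`. Use this for `A` and for `A'`: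
`det (A W) det (Γ V) det [A' / Γ] = det [A / Γ] det [W | V] det [A' / Γ] = det [A / Γ] det (A' W) det (Γ V)`. If `det (Γ V) ≠ 0` for some `V` cancel it. Otherwise `det [A / Γ] = det [A' / Γ] = 0` (if
`[A / Γ]` is invertible, the last `c` columns `V` of its inverse have `Γ V = 1`). `plu`, `tang_prop`: `W` = columns `x, D_1 x, ..., D_d x`, `Γ` = gradients of the `φ (I i)` at `x`; `Γ W = 0` by Euler's identity
and the chain rule (`D (φ(x)) = ∑ (∂_l φ)(x) D x_l` since `D` kills `K`), `A` = rows given by `ρ` as in `det_id`, `A'` = unit vectors `J b`; the rows of `A W` are computed in the proof of `det_id`.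
`tang_hom`: as `Del_hom` (UP/Deg.lean); `tang_map`: as `Del_map` (UP/Funct.lean).
-/

namespace Pool.Agent.Helper16.VG

open MvPolynomial (aeval)
open Pool.Agent.Helper16.UP (lf pen pend ev rs rdp lc Dec nn mx mnr)

/-- Euler's identity, evaluated. -/
private theorem plu_euler {κ : Type*} [Fintype κ] {K M : Type*} [Field K] [Field M] [Algebra K M]
    (g : MvPolynomial κ K) (a : ℕ) (hg : g.IsHomogeneous a) (x : κ → M) :
    ∑ l, aeval x (MvPolynomial.pderiv l g) * x l = (a : M) * aeval x g := by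
  classical
  have h1 := congrArg (aeval x) hg.sum_X_mul_pderiv
  rw [map_sum, map_nsmul, nsmul_eq_mul] at h1
  rw [← h1]
  apply Finset.sum_congr rfl
  intro l _
  rw [map_mul, MvPolynomial.aeval_X, mul_comm]

/-- The chain rule. -/
private theorem plu_chain {κ : Type*} [Fintype κ] {K M : Type*} [Field K] [Field M] [Algebra K M]
    (δ : Derivation ℤ M M) (hδ : ∀ c : K, δ (algebraMap K M c) = 0) (g : MvPolynomial κ K)
    (x : κ → M) : ∑ l, aeval x (MvPolynomial.pderiv l g) * δ (x l) = δ (aeval x g) := by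
  classical
  induction g using MvPolynomial.induction_on with
  | C c =>
    rw [MvPolynomial.aeval_C, hδ]
    apply Finset.sum_eq_zero
    intro l _
    rw [MvPolynomial.pderiv_C, map_zero, zero_mul]
  | add p q hp hq =>
    rw [map_add, map_add, ← hp, ← hq, ← Finset.sum_add_distrib]
    apply Finset.sum_congr rfl
    intro l _
    rw [map_add, map_add, add_mul]
  | mul_X p i hp =>
    rw [map_mul, Derivation.leibniz, MvPolynomial.aeval_X, ← hp, smul_eq_mul, smul_eq_mul,
      Finset.mul_sum]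
    have h1 : aeval x p * δ (x i) = ∑ l, (if l = i then aeval x p * δ (x l) else 0) := by
      rw [Finset.sum_ite_eq' Finset.univ i fun l => aeval x p * δ (x l), if_pos (Finset.mem_univ _)]
    rw [h1, ← Finset.sum_add_distrib]
    apply Finset.sum_congr rfl
    intro l _
    rw [Derivation.leibniz, MvPolynomial.pderiv_X, smul_eq_mul, smul_eq_mul, map_add, map_mul,
      map_mul, MvPolynomial.aeval_X]
    by_cases h : l = i
    · subst h
      rw [Pi.single_eq_same, if_pos rfl, map_one]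
      ring
    · rw [Pi.single_eq_of_ne (fun h' => h h'.symm), if_neg h, map_zero]
      ring

private theorem plu_aux {M : Type*} [Field M] {d c : ℕ}
    (A : Matrix (Fin (d + 1)) (Fin (d + 1) ⊕ Fin c) M)
    (Γ : Matrix (Fin c) (Fin (d + 1) ⊕ Fin c) M)
    (W : Matrix (Fin (d + 1) ⊕ Fin c) (Fin (d + 1)) M) (hW : Γ * W = 0)
    (V : Matrix (Fin (d + 1) ⊕ Fin c) (Fin c) M) :
    (Matrix.fromRows A Γ).det * (Matrix.fromCols W V).det = (A * W).det * (Γ * V).det := by
  rw [← Matrix.det_mul, Matrix.fromRows_mul_fromCols, hW, Matrix.det_fromBlocks_zero₂₁]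

private theorem plu_aux2 {M : Type*} [Field M] {d c : ℕ}
    (A : Matrix (Fin (d + 1)) (Fin (d + 1) ⊕ Fin c) M)
    (Γ : Matrix (Fin c) (Fin (d + 1) ⊕ Fin c) M)
    (h : ∀ V : Matrix (Fin (d + 1) ⊕ Fin c) (Fin c) M, (Γ * V).det = 0) :
    (Matrix.fromRows A Γ).det = 0 := by
  by_contra hne
  have hu : IsUnit (Matrix.fromRows A Γ).det := isUnit_iff_ne_zero.2 hne
  have h1 : Matrix.fromRows A Γ * (Matrix.fromRows A Γ)⁻¹ = 1 := Matrix.mul_nonsing_inv _ hu
  generalize (Matrix.fromRows A Γ)⁻¹ = N at h1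
  rw [← Matrix.fromCols_toCols N, Matrix.fromRows_mul_fromCols] at h1
  have h2 := congrArg Matrix.toBlocks₂₂ h1
  rw [Matrix.toBlocks_fromBlocks₂₂] at h2
  have h3 : (1 : Matrix (Fin (d + 1) ⊕ Fin c) (Fin (d + 1) ⊕ Fin c) M).toBlocks₂₂ = 1 := by
    rw [← Matrix.fromBlocks_one, Matrix.toBlocks_fromBlocks₂₂]
  have h4 := h N.toCols₂
  rw [h2, h3, Matrix.det_one] at h4
  exact one_ne_zero h4

theorem plu_det {M : Type*} [Field M] {d c : ℕ}
    (A A' : Matrix (Fin (d + 1)) (Fin (d + 1) ⊕ Fin c) M)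
    (Γ : Matrix (Fin c) (Fin (d + 1) ⊕ Fin c) M)
    (W : Matrix (Fin (d + 1) ⊕ Fin c) (Fin (d + 1)) M) (hW : Γ * W = 0) :
    (A * W).det * (Matrix.fromRows A' Γ).det = (A' * W).det * (Matrix.fromRows A Γ).det := by
  by_cases h : ∀ V : Matrix (Fin (d + 1) ⊕ Fin c) (Fin c) M, (Γ * V).det = 0
  · rw [plu_aux2 A Γ h, plu_aux2 A' Γ h, mul_zero, mul_zero]
  · push Not at h
    obtain ⟨V, hV⟩ := h
    have h1 := plu_aux A Γ W hW V
    have h2 := plu_aux A' Γ W hW V
    apply mul_right_cancel₀ hV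
    linear_combination (Matrix.fromRows A Γ).det * h2 - (Matrix.fromRows A' Γ).det * h1

variable {K M : Type*} [Field K] [Field M] [Algebra K M] {d c : ℕ}

/-- The matrix with the columns `x, D_1 x, ..., D_d x`. -/
private noncomputable def WW (D : Fin d → Derivation ℤ M M) (x : Fin (d + 1) ⊕ Fin c → M) :
    Matrix (Fin (d + 1) ⊕ Fin c) (Fin (d + 1)) M :=
  Matrix.of fun l i => (Fin.cons (x l) (fun i => D i (x l)) : Fin (d + 1) → M) i

/-- The gradients of the `φ (I i)`. -/
private noncomputable def GG {ι : Type*} (φ : ι → MvPolynomial (Fin (d + 1) ⊕ Fin c) K)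
    (I : Fin c → ι) (x : Fin (d + 1) ⊕ Fin c → M) : Matrix (Fin c) (Fin (d + 1) ⊕ Fin c) M :=
  Matrix.of fun i l => aeval x (MvPolynomial.pderiv l (φ (I i)))

private theorem WW_zero (D : Fin d → Derivation ℤ M M) (x : Fin (d + 1) ⊕ Fin c → M)
    (l : Fin (d + 1) ⊕ Fin c) : WW D x l 0 = x l := rfl

private theorem WW_succ (D : Fin d → Derivation ℤ M M) (x : Fin (d + 1) ⊕ Fin c → M)
    (l : Fin (d + 1) ⊕ Fin c) (i : Fin d) : WW D x l i.succ = D i (x l) := rfl

private theorem GG_WW {ι : Type*} (φ : ι → MvPolynomial (Fin (d + 1) ⊕ Fin c) K) (a : ι → ℕ)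
    (hφ : ∀ i, (φ i).IsHomogeneous (a i)) (D : Fin d → Derivation ℤ M M)
    (hD : ∀ i (c : K), D i (algebraMap K M c) = 0) (x : Fin (d + 1) ⊕ Fin c → M)
    (hx : ∀ i, aeval x (φ i) = 0) (I : Fin c → ι) : GG φ I x * WW D x = 0 := by
  ext i j
  rw [Matrix.mul_apply]
  refine Fin.cases ?_ (fun j => ?_) j
  · change ∑ l, aeval x (MvPolynomial.pderiv l (φ (I i))) * x l = 0
    rw [plu_euler (φ (I i)) (a (I i)) (hφ (I i)) x, hx, mul_zero]
  · change ∑ l, aeval x (MvPolynomial.pderiv l (φ (I i))) * D j (x l) = 0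
    rw [plu_chain (D j) (hD j) (φ (I i)) x, hx, map_zero]

/-- The matrix with the rows `J b`. -/
private noncomputable def UU (M : Type*) [Field M] (J : Fin (d + 1) → Fin (d + 1) ⊕ Fin c) :
    Matrix (Fin (d + 1)) (Fin (d + 1) ⊕ Fin c) M :=
  Matrix.of fun b l => if J b = l then 1 else 0

private theorem UU_WW (D : Fin d → Derivation ℤ M M) (x : Fin (d + 1) ⊕ Fin c → M)
    (J : Fin (d + 1) → Fin (d + 1) ⊕ Fin c) :
    (UU M J * WW D x).det = JacJ (fun i => D i) J x := by
  unfold JacJ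
  congr 1
  ext b i
  rw [Matrix.mul_apply]
  change ∑ l, (if J b = l then (1 : M) else 0) * WW D x l i = _
  simp only [ite_mul, one_mul, zero_mul]
  rw [Finset.sum_ite_eq Finset.univ (J b) fun l => WW D x l i, if_pos (Finset.mem_univ _)]
  rfl

private theorem UU_GG {ι : Type*} (φ : ι → MvPolynomial (Fin (d + 1) ⊕ Fin c) K)
    (x : Fin (d + 1) ⊕ Fin c → M) (I : Fin c → ι) (J : Fin (d + 1) → Fin (d + 1) ⊕ Fin c) :
    (Matrix.fromRows (UU M J) (GG φ I x)).det = aeval x (tang φ I J) := by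
  unfold tang
  rw [AlgHom.map_det]
  congr 1
  ext i l
  rcases i with b | i
  · change (if J b = l then (1 : M) else 0) = aeval x (if J b = l then 1 else 0)
    split_ifs
    · exact (map_one _).symm
    · exact (map_zero _).symm
  · rfl

theorem plu {ι ι' : Type*} (φ : ι → MvPolynomial (Fin (d + 1) ⊕ Fin c) K) (a : ι → ℕ)
    (hφ : ∀ i, (φ i).IsHomogeneous (a i)) (f : ι' → MvPolynomial (Fin (d + 1) ⊕ Fin c) K)
    (e : ι' → ℕ) (hf : ∀ j, (f j).IsHomogeneous (e j)) (D : Fin d → Derivation ℤ M M)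
    (hD : ∀ i (c : K), D i (algebraMap K M c) = 0) (x : Fin (d + 1) ⊕ Fin c → M)
    (hx : ∀ i, aeval x (φ i) = 0) (I : Fin c → ι) (ρ : Fin (d + 1) → ι' ⊕ (Fin (d + 1) ⊕ Fin c))
    (J : Fin (d + 1) → Fin (d + 1) ⊕ Fin c) :
    aeval x (mnr (fun i => φ (I i)) f ρ) * JacJ (fun i => D i) J x =
      Matrix.det (Matrix.of fun b i : Fin (d + 1) =>
        (Fin.cons (Sum.elim (fun j => (e j : M) * aeval x (f j)) x (ρ b))
          (fun i => D i (Sum.elim (fun j => aeval x (f j)) x (ρ b))) : Fin (d + 1) → M) i) *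
      aeval x (tang φ I J) := by
  classical
  let A : Matrix (Fin (d + 1)) (Fin (d + 1) ⊕ Fin c) M := Matrix.of fun b l =>
    Sum.elim (fun j => aeval x (MvPolynomial.pderiv l (f j)))
      (fun l' => if l' = l then 1 else 0) (ρ b)
  have hA : (Matrix.fromRows A (GG φ I x)).det = aeval x (mnr (fun i => φ (I i)) f ρ) := by
    unfold mnr
    rw [AlgHom.map_det]
    congr 1
    ext i l
    rcases i with b | i
    · change Sum.elim (fun j => aeval x (MvPolynomial.pderiv l (f j)))
        (fun l' => if l' = l then (1 : M) else 0) (ρ b) =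
        aeval x (Sum.elim (fun j => MvPolynomial.pderiv l (f j))
            (fun l' => if l' = l then 1 else 0) (ρ b))
      rcases ρ b with j' | l'
      · rfl
      · change (if l' = l then (1 : M) else 0) = aeval x (if l' = l then 1 else 0)
        split_ifs
        · exact (map_one _).symm
        · exact (map_zero _).symm
    · rfl
  have hAW : A * WW D x = Matrix.of fun b i : Fin (d + 1) =>
        (Fin.cons (Sum.elim (fun j => (e j : M) * aeval x (f j)) x (ρ b))
          (fun i => D i (Sum.elim (fun j => aeval x (f j)) x (ρ b))) : Fin (d + 1) → M) i := by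
    ext b i
    rw [Matrix.mul_apply]
    have hrow : ∀ l, A b l =
        Sum.elim (fun j => aeval x (MvPolynomial.pderiv l (f j)))
          (fun l' => if l' = l then 1 else 0) (ρ b) := fun l => rfl
    refine Fin.cases ?_ (fun j => ?_) i
    · simp only [hrow, WW_zero, Matrix.of_apply, Fin.cons_zero]
      rcases ρ b with j' | l'
      · exact plu_euler (f j') (e j') (hf j') x
      · change ∑ l, (if l' = l then (1 : M) else 0) * x l = x l'
        simp
    · simp only [hrow, WW_succ, Matrix.of_apply, Fin.cons_succ]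
      rcases ρ b with j' | l'
      · exact plu_chain (D j) (hD j) (f j') x
      · change ∑ l, (if l' = l then (1 : M) else 0) * D j (x l) = D j (x l')
        simp
  have h := plu_det A (UU M J) (GG φ I x) (WW D x) (GG_WW φ a hφ D hD x hx I)
  rw [hA, UU_WW, UU_GG, hAW] at h
  rw [h, mul_comm]

theorem tang_prop {ι : Type*} (φ : ι → MvPolynomial (Fin (d + 1) ⊕ Fin c) K) (a : ι → ℕ)
    (hφ : ∀ i, (φ i).IsHomogeneous (a i)) (D : Fin d → Derivation ℤ M M)
    (hD : ∀ i (c : K), D i (algebraMap K M c) = 0) (x : Fin (d + 1) ⊕ Fin c → M)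
    (hx : ∀ i, aeval x (φ i) = 0) (I : Fin c → ι) (J J' : Fin (d + 1) → Fin (d + 1) ⊕ Fin c) :
    JacJ (fun i => D i) J x * aeval x (tang φ I J') =
      JacJ (fun i => D i) J' x * aeval x (tang φ I J) := by
  have h := plu_det (UU M J) (UU M J') (GG φ I x) (WW D x) (GG_WW φ a hφ D hD x hx I)
  rwa [UU_WW, UU_WW, UU_GG, UU_GG] at h

section ring

variable {R : Type*} [CommRing R]

theorem tang_hom {ι : Type*} (φ : ι → MvPolynomial (Fin (d + 1) ⊕ Fin c) R) (a : ι → ℕ)
    (hφ : ∀ i, (φ i).IsHomogeneous (a i)) (I : Fin c → ι)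
    (J : Fin (d + 1) → Fin (d + 1) ⊕ Fin c) :
    (tang φ I J).IsHomogeneous (∑ i, (a (I i) - 1)) := by
  unfold tang
  rw [Matrix.det_apply]
  refine MvPolynomial.IsHomogeneous.sum _ _ _ fun σ _ => ?_
  have hprod : (∏ i, (Matrix.of fun i l : Fin (d + 1) ⊕ Fin c =>
      (Sum.elim (fun b => if J b = l then 1 else 0)
        (fun i => MvPolynomial.pderiv l (φ (I i))) i :
          MvPolynomial (Fin (d + 1) ⊕ Fin c) R)) (σ i) i).IsHomogeneous
      (∑ i, (a (I i) - 1)) := by
    have h1 : ∑ i, (a (I i) - 1) = ∑ i : Fin (d + 1) ⊕ Fin c,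
        Sum.elim (fun _ => 0) (fun i => a (I i) - 1) (σ i) := by
      rw [Equiv.sum_comp σ fun i : Fin (d + 1) ⊕ Fin c =>
        (Sum.elim (fun _ => 0) (fun i => a (I i) - 1) i : ℕ), Fintype.sum_sum_type]
      simp
    rw [h1]
    refine MvPolynomial.IsHomogeneous.prod _ _ _ fun i _ => ?_
    rw [Matrix.of_apply]
    rcases σ i with b | j
    · simp only [Sum.elim_inl]
      split_ifs
      · exact MvPolynomial.isHomogeneous_one _ _
      · exact MvPolynomial.isHomogeneous_zero _ _ _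
    · simp only [Sum.elim_inr]
      exact (hφ (I j)).pderiv
  rcases Int.units_eq_one_or (Equiv.Perm.sign σ) with h | h
  · rw [h, one_smul]
    exact hprod
  · rw [h, Units.neg_smul, one_smul]
    exact hprod.neg

theorem tang_map {S : Type*} [CommRing S] (ψ : R →+* S) {ι : Type*}
    (φ : ι → MvPolynomial (Fin (d + 1) ⊕ Fin c) R) (I : Fin c → ι)
    (J : Fin (d + 1) → Fin (d + 1) ⊕ Fin c) :
    (tang φ I J).map ψ = tang (fun i => (φ i).map ψ) I J := by
  unfold tang
  rw [RingHom.map_det]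
  congr 1
  refine Matrix.ext fun i l => ?_
  rw [RingHom.mapMatrix_apply, Matrix.map_apply, Matrix.of_apply, Matrix.of_apply]
  rcases i with b | i
  · simp only [Sum.elim_inl]
    split_ifs
    · exact map_one _
    · exact map_zero _
  · simp only [Sum.elim_inr]
    rw [MvPolynomial.pderiv_map]

end ring

end Pool.Agent.Helper16.VG
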