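import Pool.Agent.Helper16.VG.ThU
import Pool.Agent.Helper16.VG.Plu
import Pool.Agent.Helper16.UP.Ext
import Pool.Agent.Helper16.UP.NV

/-!
# Block VG-C1: proportionality of `thetaJ` and `tang` for a family

PROOF. `spec`: over `EC = EC K s` `pen = C a * ∏ (T - z_σ)` (`pen_map`, `pen_lf`, `Dec`), `a ≠ 0` and the `z_σ` are distinct because `rdp ≠ 0` (`rdp_map`, `rdp_eq`, `eval_der`). So `pen` divides `Q` in `EC[T]` (`Finset.prod_X_sub_C_dvd` or `Polynomial.prod_multiset_X_sub_C_dvd`,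
pairwise coprime factors), hence in `EE[T]` (`Polynomial.map_dvd_map'`), `EE` the fraction field; multiply by a common denominator `b` (`IsLocalization.integerNormalization` or `IsLocalization.exist_integer_multiples`).
`tang_fam`: by `spec` it suffices that the value at `z_σ` is `0`. In a finite extension `M` of `EE` with the points `y σ` (`fin_ext`, `dec_descend`) let `D i` be derivations of `M` which extend `der (lam i)` (as in UP/Psi.lean). `eval_thetaJ` (with `thetaJ_map`): the value of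
`thetaJ J` at `z_σ` is `P'(z_σ) ^ (2 d + 1) JacJ J (y σ)`; the value of `ev o c F (tang φ I J')` is `P'(z_σ) ^ δ * tang(y σ)`, `δ = ∑ (a (I i) - 1)` (`eval_pend`, homogeneity, `tang_hom`, see the proof of `rs_eq` in UP/Values.lean); now `tang_prop`.
`D i` kills `K` because `der (lam i) (C c) = 0`.
-/

namespace Pool.Agent.Helper16.VG

open MvPolynomial (aeval)
open Pool.Agent.Helper16.TP (der)
open Pool.Agent.Helper16.UP (lf pen pend ev rs rdp lc Dec nn mx mnr o0 AA EE EC cA fA)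

universe u

private theorem eval_hom_h10 {κ M : Type*} [Fintype κ] [Field M] {e : ℕ} (Q : MvPolynomial κ M)
    (hQ : Q.IsHomogeneous e) (y : κ → M) (t : M) :
    MvPolynomial.eval (fun j => y j * t) Q = t ^ e * MvPolynomial.eval y Q := by
  rw [MvPolynomial.eval_eq', MvPolynomial.eval_eq', Finset.mul_sum]
  refine Finset.sum_congr rfl fun γ hγ => ?_
  have hs : ∑ j, γ j = e := by
    have h2 := hQ (MvPolynomial.mem_support_iff.1 hγ)
    rw [Finsupp.weight_eq_sum] at h2
    simpa using h2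
  have h3 : ∏ j, (y j * t) ^ γ j = t ^ e * ∏ j, y j ^ γ j := by
    rw [← hs, ← Finset.prod_pow_eq_pow_sum, ← Finset.prod_mul_distrib]
    refine Finset.prod_congr rfl fun j _ => ?_
    rw [mul_pow, mul_comm]
  rw [h3]
  ring

private theorem eval_ev_h10 {κ M : Type*} [Fintype κ] [DecidableEq κ] [Field M] (o : κ) (c : κ → M)
    {r : ℕ} (a : M) (x : Fin r → κ → M) (hx : ∀ σ, x σ o = 1) {e : ℕ} (Q : MvPolynomial κ M)
    (hQ : Q.IsHomogeneous e) (σ : Fin r) :
    (ev o c (MvPolynomial.C a * ∏ σ, lf (x σ)) Q).eval (∑ j, c j * x σ j) =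
      (Polynomial.derivative (pen o c (MvPolynomial.C a * ∏ σ, lf (x σ)))).eval
        (∑ j, c j * x σ j) ^ e * MvPolynomial.eval (x σ) Q := by
  unfold ev
  rw [MvPolynomial.aeval_def]
  have h6 := MvPolynomial.eval₂_comp_left (Polynomial.evalRingHom (∑ j, c j * x σ j))
    (algebraMap M (Polynomial M)) (pend o c (MvPolynomial.C a * ∏ σ, lf (x σ))) Q
  rw [Polynomial.coe_evalRingHom] at h6
  rw [h6]
  have h7 : (Polynomial.evalRingHom (∑ j, c j * x σ j)).comp (algebraMap M (Polynomial M)) =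
      RingHom.id M := by
    ext z
    simp
  have h8 : (Polynomial.eval (∑ j, c j * x σ j) ∘ pend o c (MvPolynomial.C a * ∏ σ, lf (x σ))) =
      fun j => x σ j * (Polynomial.derivative (pen o c
        (MvPolynomial.C a * ∏ σ, lf (x σ)))).eval (∑ j, c j * x σ j) := by
    funext j
    exact Pool.Agent.Helper16.UP.eval_pend o c a x hx σ j
  rw [h7, h8]
  exact eval_hom_h10 Q hQ (x σ) _

private theorem rdp_zero_h10 {κ R : Type*} [Fintype κ] [DecidableEq κ] [CommRing R] {r : ℕ}
    (hr : 1 ≤ r) (o : κ) (c : κ → R) : rdp r o c 0 = 0 := by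
  unfold rdp Pool.Agent.Helper16.TP.rd pen
  rw [map_zero, Polynomial.derivative_zero, Polynomial.resultant_zero_zero, zero_pow (by omega)]

private theorem tang_core_h10 {K : Type u} [Field K] [CharZero K] {d c s r : ℕ} {ι : Type*}
    (φ : ι → MvPolynomial (Fin (d + 1) ⊕ Fin c) K) (a : ι → ℕ)
    (hφ : ∀ i, (φ i).IsHomogeneous (a i)) (F : MvPolynomial (Fin (d + 1) ⊕ Fin c) (AA K s))
    {M : Type u} [Field M] [Algebra K M] [Algebra (EE K s) M] [FiniteDimensional (EE K s) M]
    (ψ : AA K s →+* M)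
    (hψa : ∀ x, ψ x = algebraMap (EE K s) M (algebraMap (AA K s) (EE K s) x))
    (hKψ : ∀ c : K, algebraMap K M c = ψ (MvPolynomial.C c))
    (y : Fin r → Fin (d + 1) ⊕ Fin c → M) (hy : Dec ψ (o0 d c) F y)
    (hφy : ∀ σ i, aeval (y σ) (φ i) = 0) (c0 : Fin (d + 1) ⊕ Fin c → K)
    (lam : Fin d → Fin s → K) (I : Fin c → ι)
    (J J' : Fin (d + 1) → Fin (d + 1) ⊕ Fin c) (σ : Fin r) :
    ((thetaJ (o0 d c) (cA s c0) F (fun i => der (lam i)) J *
          ev (o0 d c) (cA s c0) F (fA s (tang φ I J')) -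
        thetaJ (o0 d c) (cA s c0) F (fun i => der (lam i)) J' *
          ev (o0 d c) (cA s c0) F (fA s (tang φ I J))).map ψ).eval
      (∑ j, ψ (cA s c0 j) * y σ j) = 0 := by
  classical
  obtain ⟨hy1, hyF⟩ := hy
  have hchE : CharZero (EE K s) := charZero_of_injective_ringHom
    (f := (algebraMap (AA K s) (EE K s)).comp MvPolynomial.C)
    ((IsFractionRing.injective (AA K s) (EE K s)).comp (MvPolynomial.C_injective _ _))
  have hDE : ∀ i, ∃ D : Derivation ℤ M M, ∀ x, D (ψ x) = ψ (der (lam i) x) := by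
    intro i
    obtain ⟨D, hD⟩ := Pool.Agent.Helper16.TP.exists_frac_der (A := AA K s) (L := EE K s)
      ((der (lam i)).restrictScalars ℤ)
    obtain ⟨D', hD'⟩ := Pool.Agent.Helper16.TP.h53_exists_ext (M := M) D
    refine ⟨D', fun x => ?_⟩
    rw [hψa, hψa, hD', hD]
    rfl
  choose DM hDψ using hDE
  have hDK : ∀ i (c : K), DM i (algebraMap K M c) = 0 := by
    intro i c
    have e1 : der (lam i) (MvPolynomial.C c) = 0 := (der (lam i)).map_algebraMap c
    rw [hKψ, hDψ, e1, map_zero]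
  have e2 : ψ.comp MvPolynomial.C = algebraMap K M := RingHom.ext fun c => (hKψ c).symm
  have hth : ∀ J : Fin (d + 1) → Fin (d + 1) ⊕ Fin c,
      ((thetaJ (o0 d c) (cA s c0) F (fun i => der (lam i)) J).map ψ).eval
        (∑ j, ψ (cA s c0 j) * y σ j) =
      (Polynomial.derivative (pen (o0 d c) (fun j => ψ (cA s c0 j))
        (MvPolynomial.C (ψ (lc r (o0 d c) F)) * ∏ σ, lf (y σ)))).eval
          (∑ j, ψ (cA s c0 j) * y σ j) ^ (2 * d + 1) * JacJ (fun i => DM i) J (y σ) := by
    intro J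
    rw [thetaJ_map ψ (o0 d c) (cA s c0) F (fun i => der (lam i)) (fun i => DM i)
      (fun i => map_zero _) (fun i => map_zero _) hDψ J, hyF]
    exact eval_thetaJ (o0 d c) (fun j => ψ (cA s c0 j)) (ψ (lc r (o0 d c) F)) y hy1 DM J σ
  have hev : ∀ J : Fin (d + 1) → Fin (d + 1) ⊕ Fin c,
      ((ev (o0 d c) (cA s c0) F (fA s (tang φ I J))).map ψ).eval
        (∑ j, ψ (cA s c0 j) * y σ j) =
      (Polynomial.derivative (pen (o0 d c) (fun j => ψ (cA s c0 j))
        (MvPolynomial.C (ψ (lc r (o0 d c) F)) * ∏ σ, lf (y σ)))).eval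
          (∑ j, ψ (cA s c0 j) * y σ j) ^ (∑ i, (a (I i) - 1)) * aeval (y σ) (tang φ I J) := by
    intro J
    have e1 : (fA s (tang φ I J)).map ψ = (tang φ I J).map (algebraMap K M) := by
      unfold fA
      rw [MvPolynomial.map_map, e2]
    rw [Pool.Agent.Helper16.UP.ev_map, hyF, e1]
    have h := eval_ev_h10 (o0 d c) (fun j => ψ (cA s c0 j)) (ψ (lc r (o0 d c) F)) y hy1
      ((tang φ I J).map (algebraMap K M)) ((tang_hom φ a hφ I J).map _) σ
    rw [h, MvPolynomial.eval_map, MvPolynomial.aeval_def]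
  rw [Polynomial.map_sub, Polynomial.map_mul, Polynomial.map_mul, Polynomial.eval_sub,
    Polynomial.eval_mul, Polynomial.eval_mul, hth, hth, hev, hev]
  have key := tang_prop φ a hφ DM hDK (y σ) (hφy σ) I J J'
  linear_combination ((Polynomial.derivative (pen (o0 d c) (fun j => ψ (cA s c0 j))
        (MvPolynomial.C (ψ (lc r (o0 d c) F)) * ∏ σ, lf (y σ)))).eval
          (∑ j, ψ (cA s c0 j) * y σ j) ^ (2 * d + 1)) *
    ((Polynomial.derivative (pen (o0 d c) (fun j => ψ (cA s c0 j))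
        (MvPolynomial.C (ψ (lc r (o0 d c) F)) * ∏ σ, lf (y σ)))).eval
          (∑ j, ψ (cA s c0 j) * y σ j) ^ (∑ i, (a (I i) - 1))) * key

theorem spec {K : Type u} [Field K] [CharZero K] {κ : Type} [Fintype κ] [DecidableEq κ]
    {s r : ℕ} (hr : 1 ≤ r) (o : κ) (F : MvPolynomial κ (AA K s)) (y : Fin r → κ → EC K s)
    (hy : Dec (algebraMap (AA K s) (EC K s)) o F y) (c0 : κ → AA K s) (h0 : rdp r o c0 F ≠ 0)
    (Q : Polynomial (AA K s))
    (hQ : ∀ σ, (Q.map (algebraMap (AA K s) (EC K s))).eval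
      (∑ j, algebraMap (AA K s) (EC K s) (c0 j) * y σ j) = 0) :
    ∃ b : AA K s, b ≠ 0 ∧ pen o c0 F ∣ Polynomial.C b * Q := by
  classical
  have hψeq : (algebraMap (EE K s) (EC K s)).comp (algebraMap (AA K s) (EE K s)) =
      algebraMap (AA K s) (EC K s) := (IsScalarTower.algebraMap_eq _ _ _).symm
  obtain ⟨ψ, hψ⟩ : ∃ ψ : AA K s →+* EC K s, ψ = algebraMap (AA K s) (EC K s) := ⟨_, rfl⟩
  rw [← hψ] at hy hQ hψeq
  have hinjE : Function.Injective (algebraMap (AA K s) (EE K s)) :=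
    IsFractionRing.injective (AA K s) (EE K s)
  have hinj : Function.Injective ψ := by
    rw [← hψeq]
    exact (algebraMap (EE K s) (EC K s)).injective.comp hinjE
  obtain ⟨hy1, hyF⟩ := hy
  have ha : ψ (lc r o F) ≠ 0 := by
    intro ha
    rw [ha, map_zero, zero_mul] at hyF
    have h2 : F = 0 := MvPolynomial.map_injective ψ hinj (by rw [hyF, map_zero])
    apply h0
    rw [h2, rdp_zero_h10 hr]
  have hrd : rdp r o (fun j => ψ (c0 j)) (MvPolynomial.C (ψ (lc r o F)) * ∏ σ, lf (y σ)) ≠ 0 := by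
    rw [← hyF, ← Pool.Agent.Helper16.UP.rdp_map]
    exact fun h => h0 (hinj (h.trans (map_zero _).symm))
  rw [Pool.Agent.Helper16.UP.rdp_eq o _ hr _ ha y hy1] at hrd
  have hz : Function.Injective fun σ => ∑ j, ψ (c0 j) * y σ j := by
    intro σ τ hστ
    by_contra hne
    have h1 := Finset.prod_ne_zero_iff.1 (right_ne_zero_of_mul hrd) σ (Finset.mem_univ σ)
    rw [Pool.Agent.Helper16.UP.eval_der o _ _ y hy1] at h1
    apply right_ne_zero_of_mul h1
    refine Finset.prod_eq_zero (Finset.mem_erase.2 ⟨Ne.symm hne, Finset.mem_univ τ⟩) ?_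
    exact sub_eq_zero.2 hστ
  have hpen : (pen o c0 F).map ψ = Polynomial.C (ψ (lc r o F)) *
      ∏ σ, (Polynomial.X - Polynomial.C (∑ j, ψ (c0 j) * y σ j)) := by
    rw [Pool.Agent.Helper16.UP.pen_map, hyF, Pool.Agent.Helper16.UP.pen_lf o _ _ y hy1]
  have hdvd : (pen o c0 F).map ψ ∣ Q.map ψ := by
    rw [hpen]
    have hu : IsUnit (Polynomial.C (ψ (lc r o F))) := Polynomial.isUnit_C.2 (isUnit_iff_ne_zero.2 ha)
    rw [IsUnit.mul_left_dvd hu]
    refine Finset.prod_dvd_of_coprime ?_ ?_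
    · intro σ _ τ _ hne
      exact Polynomial.pairwise_coprime_X_sub_C hz hne
    · intro σ _
      exact Polynomial.dvd_iff_isRoot.2 (hQ σ)
  have hdvd2 : (pen o c0 F).map (algebraMap (AA K s) (EE K s)) ∣
      Q.map (algebraMap (AA K s) (EE K s)) := by
    rw [← Polynomial.map_dvd_map' (algebraMap (EE K s) (EC K s)), Polynomial.map_map,
      Polynomial.map_map, hψeq]
    exact hdvd
  obtain ⟨H, hH⟩ := hdvd2
  obtain ⟨b, hb⟩ := IsLocalization.integerNormalization_map_to_map (nonZeroDivisors (AA K s)) H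
  refine ⟨b, nonZeroDivisors.ne_zero b.2,
    IsLocalization.integerNormalization (nonZeroDivisors (AA K s)) H, ?_⟩
  apply Polynomial.map_injective _ hinjE
  rw [Polynomial.map_mul, Polynomial.map_mul, hb, hH, Polynomial.map_C, Algebra.smul_def]
  have e3 : algebraMap (AA K s) (Polynomial (EE K s)) b =
      Polynomial.C (algebraMap (AA K s) (EE K s) b) := rfl
  rw [e3]
  ring

theorem tang_fam {K : Type u} [Field K] [CharZero K] {d c s r : ℕ} (hr : 1 ≤ r) {ι : Type*}
    (φ : ι → MvPolynomial (Fin (d + 1) ⊕ Fin c) K) (a : ι → ℕ)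
    (hφ : ∀ i, (φ i).IsHomogeneous (a i)) (F : MvPolynomial (Fin (d + 1) ⊕ Fin c) (AA K s))
    (hF : F.IsHomogeneous r) (y : Fin r → Fin (d + 1) ⊕ Fin c → EC K s)
    (hy : Dec (algebraMap (AA K s) (EC K s)) (o0 d c) F y)
    (hφy : ∀ σ i, aeval (y σ) (φ i) = 0) (c0 : Fin (d + 1) ⊕ Fin c → K)
    (h0 : rdp r (o0 d c) (cA s c0) F ≠ 0) (lam : Fin d → Fin s → K) (I : Fin c → ι)
    (J J' : Fin (d + 1) → Fin (d + 1) ⊕ Fin c) :
    ∃ b : AA K s, b ≠ 0 ∧ pen (o0 d c) (cA s c0) F ∣ Polynomial.C b *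
      (thetaJ (o0 d c) (cA s c0) F (fun i => der (lam i)) J *
          ev (o0 d c) (cA s c0) F (fA s (tang φ I J')) -
        thetaJ (o0 d c) (cA s c0) F (fun i => der (lam i)) J' *
          ev (o0 d c) (cA s c0) F (fA s (tang φ I J))) := by
  classical
  refine spec hr (o0 d c) F y hy (cA s c0) h0 _ fun σ => ?_
  obtain ⟨M, hfin, yM, hyx⟩ := Pool.Agent.Helper16.UP.fin_ext y
  have hy' : Dec ((algebraMap (EE K s) (EC K s)).comp (algebraMap (AA K s) (EE K s)))
      (o0 d c) F y := by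
    rw [← IsScalarTower.algebraMap_eq]
    exact hy
  have hyM := Pool.Agent.Helper16.UP.dec_descend (algebraMap (AA K s) (EE K s)) (o0 d c) F y hy'
    M yM hyx
  have hmap : (algebraMap M (EC K s)).comp
      ((algebraMap (EE K s) M).comp (algebraMap (AA K s) (EE K s))) =
      algebraMap (AA K s) (EC K s) := by
    rw [← RingHom.comp_assoc, ← IsScalarTower.algebraMap_eq (EE K s) M (EC K s),
      ← IsScalarTower.algebraMap_eq (AA K s) (EE K s) (EC K s)]
  have key := tang_core_h10 φ a hφ F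
    ((algebraMap (EE K s) M).comp (algebraMap (AA K s) (EE K s))) (fun x => rfl)
    (fun c => rfl) yM hyM
    (fun σ i => by
      have h1 := hφy σ i
      have h2 : algebraMap M (EC K s) (aeval (yM σ) (φ i)) = aeval (y σ) (φ i) := by
        rw [MvPolynomial.aeval_def, MvPolynomial.aeval_def, MvPolynomial.eval₂_comp_left]
        congr 1
        funext j
        exact hyx σ j
      rw [h1] at h2
      exact (algebraMap M (EC K s)).injective (by rw [h2, map_zero])) c0 lam I J J' σ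
  have h2 := congrArg (algebraMap M (EC K s)) key
  rw [map_zero, ← Polynomial.eval_map_apply, Polynomial.map_map, hmap] at h2
  rw [← h2]
  congr 1
  rw [map_sum]
  refine Finset.sum_congr rfl fun j _ => ?_
  rw [map_mul]
  congr 1
  exact (hyx σ j).symm

end Pool.Agent.Helper16.VG
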