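import Pool.Agent.Helper16.VG.Defs
import Pool.Agent.Helper16.UP.ThetaVal
import Pool.Agent.Helper16.UP.Deg
import Pool.Agent.Helper16.UP.Funct

/-!
# Block VG-A2: values of `thetaJ`, `thetaU`, `ThetaU`

MODEL: UP/ThetaVal.lean (`Theta_eq`, `jac_smul`), UP/Deg.lean (`natDegree_theta`), UP/Funct.lean (`Theta_map`): the same statements for the coordinates `Sum.inl 0, ..., Sum.inl d`; here the rows
are the coordinates `J 0, ..., J d` of an arbitrary index set and there is a sum over `J` with coefficients `u J`. Proofs are the same: at `z_σ = ∑ c_j x_j^σ`, `P = pen o c F = a ∏ (T - z_τ)`: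
`pend o c F j` has the value `x_j^σ P'(z_σ)` (`eval_pend`), `nn o c F D j` has the value `P'(z_σ) D(pend_j(z_σ)) = P'(z_σ) (x_j^σ D(P'(z_σ)) + P'(z_σ) D(x_j^σ))`; subtract a multiple of the first column: the
determinant has the value `P'(z_σ) ^ (2 d + 1) JacJ (x^σ)`. `ThetaU_eq`: the resultant of `a ∏ (T - z_σ)` with a polynomial of degree `≤ N` is `a ^ N ∏ (values)`, `N = (2 d + 1) (r - 1)`, and `rdp_eq`.
-/

namespace Pool.Agent.Helper16.VG

open Polynomial
open Pool.Agent.Helper16.UP (lf pen pend ev rs rdp lc Dec nn mx mnr AA EE EC cA fA)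
open Pool.Agent.Helper16.TP (mapD rd der coeff_mapD)

section general

variable {κ : Type*} [Fintype κ] [DecidableEq κ] {R : Type*} [CommRing R] {d : ℕ}

theorem natDegree_thetaJ {r : ℕ} (o : κ) (c : κ → R) (F : MvPolynomial κ R)
    (hF : F.IsHomogeneous r) (D : Fin d → R → R) (h0 : ∀ i, D i 0 = 0) (J : Fin (d + 1) → κ) :
    (thetaJ o c F D J).natDegree ≤ (2 * d + 1) * (r - 1) := by
  unfold thetaJ
  rw [Matrix.det_apply]
  refine natDegree_sum_le_of_forall_le _ _ fun σ _ => ?_
  have hs : ∀ p : R[X], (Equiv.Perm.sign σ • p).natDegree ≤ p.natDegree := by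
    intro p
    rcases Int.units_eq_one_or (Equiv.Perm.sign σ) with h | h
    · rw [h, one_smul]
    · rw [h, Units.neg_smul, one_smul, natDegree_neg]
  refine (hs _).trans ((natDegree_prod_le _ _).trans ?_)
  rw [Fin.sum_univ_succ]
  simp only [Matrix.of_apply, Fin.cons_zero, Fin.cons_succ]
  have h1 := Pool.Agent.Helper16.UP.natDegree_pend o c F hF (J (σ 0))
  have h2 : ∑ i : Fin d, (nn o c F (D i) (J (σ i.succ))).natDegree ≤ ∑ i : Fin d, 2 * (r - 1) :=
    Finset.sum_le_sum fun i _ => Pool.Agent.Helper16.UP.natDegree_nn _ _ _ hF _ (h0 i) _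
  rw [Finset.sum_const, Finset.card_univ, Fintype.card_fin, smul_eq_mul] at h2
  calc _ ≤ (r - 1) + d * (2 * (r - 1)) := Nat.add_le_add h1 h2
    _ = (2 * d + 1) * (r - 1) := by ring

theorem natDegree_thetaU {r : ℕ} (o : κ) (c : κ → R) (F : MvPolynomial κ R)
    (hF : F.IsHomogeneous r) (D : Fin d → R → R) (h0 : ∀ i, D i 0 = 0)
    (u : (Fin (d + 1) → κ) → R) : (thetaU o c F D u).natDegree ≤ (2 * d + 1) * (r - 1) := by
  unfold thetaU
  refine natDegree_sum_le_of_forall_le _ _ fun J _ => ?_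
  exact (natDegree_C_mul_le _ _).trans (natDegree_thetaJ o c F hF D h0 J)

private theorem map_mapD65' {A B : Type*} [CommRing A] [CommRing B] (ψ : A →+* B) (d : A → A)
    (d' : B → B) (h0 : d 0 = 0) (h0' : d' 0 = 0) (h : ∀ x, d' (ψ x) = ψ (d x)) (F : A[X]) :
    mapD d' (F.map ψ) = (mapD d F).map ψ := by
  ext i
  rw [Pool.Agent.Helper16.TP.coeff_mapD d' h0', coeff_map, coeff_map,
    Pool.Agent.Helper16.TP.coeff_mapD d h0, h]

private theorem nn_map65' {M : Type*} [CommRing M] (ψ : R →+* M) (o : κ) (c : κ → R)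
    (F : MvPolynomial κ R) (δ : R → R) (δ' : M → M) (h0 : δ 0 = 0) (h0' : δ' 0 = 0)
    (hδ : ∀ x, δ' (ψ x) = ψ (δ x)) (j : κ) :
    (nn o c F δ j).map ψ = nn o (fun j => ψ (c j)) (F.map ψ) δ' j := by
  unfold nn
  rw [Polynomial.map_sub, Polynomial.map_mul, Polynomial.map_mul, ← derivative_map,
    ← derivative_map, ← map_mapD65' ψ δ δ' h0 h0' hδ, ← map_mapD65' ψ δ δ' h0 h0' hδ,
    Pool.Agent.Helper16.UP.pend_map, Pool.Agent.Helper16.UP.pen_map]

theorem thetaJ_map {M : Type*} [CommRing M] (ψ : R →+* M) (o : κ) (c : κ → R)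
    (F : MvPolynomial κ R) (D : Fin d → R → R) (D' : Fin d → M → M) (h0 : ∀ i, D i 0 = 0)
    (h0' : ∀ i, D' i 0 = 0) (hD : ∀ i x, D' i (ψ x) = ψ (D i x)) (J : Fin (d + 1) → κ) :
    (thetaJ o c F D J).map ψ = thetaJ o (fun j => ψ (c j)) (F.map ψ) D' J := by
  unfold thetaJ
  rw [← Polynomial.coe_mapRingHom, RingHom.map_det]
  congr 1
  ext a i : 2
  rw [RingHom.mapMatrix_apply, Matrix.map_apply, Matrix.of_apply, Matrix.of_apply,
    Polynomial.coe_mapRingHom]
  refine Fin.cases ?_ (fun i => ?_) i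
  · rw [Fin.cons_zero, Fin.cons_zero, Pool.Agent.Helper16.UP.pend_map]
  · rw [Fin.cons_succ, Fin.cons_succ]
    rw [nn_map65' ψ o c F (D i) (D' i) (h0 i) (h0' i) (hD i)]

theorem ThetaU_map {M : Type*} [CommRing M] (ψ : R →+* M) (r : ℕ) (o : κ) (c : κ → R)
    (F : MvPolynomial κ R) (D : Fin d → R → R) (D' : Fin d → M → M) (h0 : ∀ i, D i 0 = 0)
    (h0' : ∀ i, D' i 0 = 0) (hD : ∀ i x, D' i (ψ x) = ψ (D i x)) (u : (Fin (d + 1) → κ) → R) :
    ψ (ThetaU r o c F D u) =
      ThetaU r o (fun j => ψ (c j)) (F.map ψ) D' (fun J => ψ (u J)) := by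
  unfold ThetaU
  rw [← resultant_map_map, Pool.Agent.Helper16.UP.pen_map]
  congr 1
  unfold thetaU
  rw [Polynomial.map_sum]
  refine Finset.sum_congr rfl fun J _ => ?_
  rw [Polynomial.map_mul, Polynomial.map_C, thetaJ_map ψ o c F D D' h0 h0' hD]

end general

section field

variable {κ : Type*} [Fintype κ] [DecidableEq κ] {M : Type*} [Field M] {d : ℕ}

theorem jacJ_smul (D : Fin d → Derivation ℤ M M) (t : M) (J : Fin (d + 1) → κ) (x : κ → M) :
    JacJ (fun i => D i) J (fun j => t * x j) = t ^ (d + 1) * JacJ (fun i => D i) J x := by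
  let Jm : Matrix (Fin (d + 1)) (Fin (d + 1)) M := Matrix.of fun a i : Fin (d + 1) =>
    (Fin.cons (x (J a)) (fun i => D i (x (J a))) : Fin (d + 1) → M) i
  let N : Matrix (Fin (d + 1)) (Fin (d + 1)) M := Matrix.of fun i j => if i = j then t else
    (if i = 0 then (Fin.cons 0 (fun k => D k t) : Fin (d + 1) → M) j else 0)
  have hN : N.det = t ^ (d + 1) := by
    rw [Matrix.det_of_isUpperTriangular]
    · simp [N]
    · intro i j hij
      have h1 : j < i := hij
      have h2 : i ≠ j := h1.ne'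
      have h3 : i ≠ 0 := by
        rintro rfl
        exact absurd h1 (by simp)
      simp [N, h2, h3]
  have hJ0 : ∀ a, Jm a 0 = x (J a) := fun a => by simp [Jm]
  have hJs : ∀ a i, Jm a (Fin.succ i) = D i (x (J a)) := fun a i => by simp [Jm]
  have hmul : (Matrix.of fun a i : Fin (d + 1) =>
      (Fin.cons (t * x (J a)) (fun i => D i (t * x (J a))) : Fin (d + 1) → M) i) =
      Jm * N := by
    ext a j
    rw [Matrix.mul_apply, Fin.sum_univ_succ, hJ0]
    simp only [hJs]
    refine Fin.cases ?_ (fun j => ?_) j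
    · have h1 : N 0 0 = t := by simp [N]
      have h2 : ∀ i : Fin d, N (Fin.succ i) 0 = 0 := fun i => by simp [N]
      rw [h1]
      simp only [h2, mul_zero, Finset.sum_const_zero, add_zero]
      change t * x (J a) = _
      ring
    · have h1 : N 0 (Fin.succ j) = D j t := by
        change (if (0 : Fin (d + 1)) = Fin.succ j then t else (if (0 : Fin (d + 1)) = 0 then
          (Fin.cons 0 (fun k => D k t) : Fin (d + 1) → M) (Fin.succ j) else 0)) = _
        rw [if_neg (Fin.succ_ne_zero j).symm, if_pos rfl, Fin.cons_succ]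
      have h2 : ∀ i : Fin d, N (Fin.succ i) (Fin.succ j) = if i = j then t else 0 := fun i => by
        simp [N, Fin.succ_inj]
      rw [h1]
      simp only [h2, mul_ite, mul_zero]
      rw [Finset.sum_ite_eq' Finset.univ j, if_pos (Finset.mem_univ _)]
      change D j (t * x (J a)) = _
      rw [Derivation.leibniz, smul_eq_mul, smul_eq_mul]
      ring
  have h1 := congrArg Matrix.det hmul
  rw [Matrix.det_mul, hN, mul_comm] at h1
  exact h1

theorem jacU_smul (D : Fin d → Derivation ℤ M M) (t : M) (u : (Fin (d + 1) → κ) → M) (x : κ → M) :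
    JacU (fun i => D i) u (fun j => t * x j) = t ^ (d + 1) * JacU (fun i => D i) u x := by
  unfold JacU
  rw [Finset.mul_sum]
  refine Finset.sum_congr rfl fun J _ => ?_
  rw [jacJ_smul]
  ring

/-- The derivative of a value. -/
private theorem h21_eval' (δ : Derivation ℤ M M) (F : M[X]) (z : M) :
    δ (F.eval z) = (mapD δ F).eval z + (derivative F).eval z * δ z := by
  have h2 : (mapD δ F).eval z = ∑ i ∈ Finset.range (F.natDegree + 1), δ (F.coeff i) * z ^ i := by
    unfold mapD
    rw [eval_finsetSum]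
    apply Finset.sum_congr rfl
    intro i _
    rw [eval_monomial]
  have h3 : (derivative F).eval z = ∑ i ∈ Finset.range (F.natDegree + 1),
      F.coeff i * (i * z ^ (i - 1)) := by
    rw [derivative_eval, sum_over_range' _ (fun n => by simp) _ (Nat.lt_succ_self _)]
    apply Finset.sum_congr rfl
    intro i _
    ring
  rw [h2, h3, eval_eq_sum_range, map_sum, Finset.sum_mul, ← Finset.sum_add_distrib]
  apply Finset.sum_congr rfl
  intro i _
  rw [Derivation.leibniz, Derivation.leibniz_pow]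
  simp only [smul_eq_mul, nsmul_eq_mul]
  ring

theorem eval_thetaJ (o : κ) (c : κ → M) {r : ℕ} (a : M) (x : Fin r → κ → M)
    (hx : ∀ σ, x σ o = 1) (D : Fin d → Derivation ℤ M M) (J : Fin (d + 1) → κ) (σ : Fin r) :
    (thetaJ o c (MvPolynomial.C a * ∏ σ, lf (x σ)) (fun i => D i) J).eval (∑ j, c j * x σ j) =
      (derivative (pen o c (MvPolynomial.C a * ∏ σ, lf (x σ)))).eval (∑ j, c j * x σ j) ^
        (2 * d + 1) * JacJ (fun i => D i) J (x σ) := by
  set F : MvPolynomial κ M := MvPolynomial.C a * ∏ σ, lf (x σ) with hF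
  set z : M := ∑ j, c j * x σ j with hz
  set P : M[X] := pen o c F with hP
  set t : M := (derivative P).eval z with ht
  have hroot : P.eval z = 0 := by
    rw [hP, hF, Pool.Agent.Helper16.UP.pen_lf o c a x hx, eval_mul, eval_prod]
    rw [Finset.prod_eq_zero (Finset.mem_univ σ), mul_zero]
    rw [eval_sub, eval_X, eval_C, ← hz, sub_self]
  have hR : ∀ j, (pend o c F j).eval z = x σ j * t := fun j =>
    Pool.Agent.Helper16.UP.eval_pend o c a x hx σ j
  have hnn : ∀ i j, (nn o c F (D i) j).eval z = t * D i (t * x σ j) := by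
    intro i j
    have h1 := h21_eval' (D i) P z
    rw [hroot, map_zero, ← ht] at h1
    have h2 := h21_eval' (D i) (pend o c F j) z
    rw [hR] at h2
    unfold nn
    rw [eval_sub, eval_mul, eval_mul, ← hP, ← ht, mul_comm t (x σ j)]
    linear_combination (-t) * h2 + ((derivative (pend o c F j)).eval z) * h1
  have hdet : (thetaJ o c F (fun i => D i) J).eval z =
      Matrix.det (Matrix.of fun a i : Fin (d + 1) =>
      (Fin.cons 1 (fun _ => t) : Fin (d + 1) → M) i *
        (Fin.cons (t * x σ (J a)) (fun i => D i (t * x σ (J a))) :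
          Fin (d + 1) → M) i) := by
    unfold thetaJ
    rw [← coe_evalRingHom, RingHom.map_det]
    congr 1
    ext a i
    change (evalRingHom z) ((Fin.cons (pend o c F (J a))
      (fun i => nn o c F (D i) (J a)) : Fin (d + 1) → M[X]) i) =
      (Fin.cons 1 (fun _ => t) : Fin (d + 1) → M) i *
        (Fin.cons (t * x σ (J a)) (fun i => D i (t * x σ (J a))) :
          Fin (d + 1) → M) i
    refine Fin.cases ?_ (fun i => ?_) i
    · rw [Fin.cons_zero, Fin.cons_zero, Fin.cons_zero, coe_evalRingHom, hR]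
      ring
    · rw [Fin.cons_succ, Fin.cons_succ, Fin.cons_succ, coe_evalRingHom, hnn]
  rw [hdet]
  have h1 := Matrix.det_mul_row (Fin.cons 1 (fun _ => t) : Fin (d + 1) → M)
    (Matrix.of fun a i : Fin (d + 1) =>
      (Fin.cons (t * x σ (J a)) (fun i => D i (t * x σ (J a))) :
          Fin (d + 1) → M) i)
  have h2 : Matrix.det (Matrix.of fun a i : Fin (d + 1) =>
      (Fin.cons (t * x σ (J a)) (fun i => D i (t * x σ (J a))) :
          Fin (d + 1) → M) i) = t ^ (d + 1) * JacJ (fun i => D i) J (x σ) := jacJ_smul D t J (x σ)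
  rw [h2, Fin.prod_univ_succ, Fin.cons_zero, one_mul] at h1
  simp only [Fin.cons_succ, Finset.prod_const, Finset.card_univ, Fintype.card_fin] at h1
  refine Eq.trans h1 ?_
  ring

theorem ThetaU_eq (o : κ) (c : κ → M) {r : ℕ} (hr : 1 ≤ r) (a : M) (ha : a ≠ 0)
    (x : Fin r → κ → M) (hx : ∀ σ, x σ o = 1) (D : Fin d → Derivation ℤ M M)
    (u : (Fin (d + 1) → κ) → M) :
    ThetaU r o c (MvPolynomial.C a * ∏ σ, lf (x σ)) (fun i => D i) u =
      rdp r o c (MvPolynomial.C a * ∏ σ, lf (x σ)) ^ (2 * d + 1) *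
        ∏ σ, JacU (fun i => D i) u (x σ) := by
  rw [Pool.Agent.Helper16.UP.rdp_eq o c hr a ha x hx]
  unfold ThetaU
  have hpen := Pool.Agent.Helper16.UP.pen_lf o c a x hx
  have hmon : (∏ σ, (X - C (∑ j, c j * x σ j))).Monic :=
    monic_prod_of_monic _ _ fun σ _ => monic_X_sub_C _
  have hlc : (pen o c (MvPolynomial.C a * ∏ σ, lf (x σ))).leadingCoeff = a := by
    rw [hpen, leadingCoeff_mul, leadingCoeff_C, hmon.leadingCoeff, mul_one]
  have hdeg : (pen o c (MvPolynomial.C a * ∏ σ, lf (x σ))).natDegree = r := by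
    rw [hpen, natDegree_C_mul ha, natDegree_prod_of_monic _ _ fun σ _ => monic_X_sub_C _]
    rw [Finset.sum_congr rfl fun σ _ => natDegree_X_sub_C _, Finset.sum_const, Finset.card_univ,
      Fintype.card_fin, smul_eq_mul, mul_one]
  have hroots : (pen o c (MvPolynomial.C a * ∏ σ, lf (x σ))).roots =
      Finset.univ.val.map fun σ => ∑ j, c j * x σ j := by
    rw [hpen, roots_C_mul _ ha]
    exact roots_multiset_prod_X_sub_C (Finset.univ.val.map fun σ => ∑ j, c j * x σ j) ▸ by
      rw [Multiset.map_map]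
      rfl
  have hsp : (pen o c (MvPolynomial.C a * ∏ σ, lf (x σ))).Splits := by
    rw [hpen]
    exact (Splits.C a).mul (Splits.prod fun σ _ => Splits.X_sub_C _)
  have h1 := resultant_eq_prod_eval (pen o c (MvPolynomial.C a * ∏ σ, lf (x σ)))
    (thetaU o c (MvPolynomial.C a * ∏ σ, lf (x σ)) (fun i => D i) u) ((2 * d + 1) * (r - 1))
    (natDegree_thetaU o c _ (Pool.Agent.Helper16.UP.hom_prod_lf a x) _ (fun i => map_zero (D i)) u)
    hsp
  rw [hdeg, hlc, hroots, Multiset.map_map] at h1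
  rw [h1]
  have h2 : (Multiset.map ((fun z => eval z (thetaU o c (MvPolynomial.C a * ∏ σ, lf (x σ))
      (fun i => D i) u)) ∘ fun σ => ∑ j, c j * x σ j) Finset.univ.val).prod =
      ∏ σ, (((derivative (pen o c (MvPolynomial.C a * ∏ σ, lf (x σ)))).eval
        (∑ j, c j * x σ j)) ^ (2 * d + 1) * JacU (fun i => D i) u (x σ)) := by
    apply Finset.prod_congr rfl
    intro σ _
    change eval _ (thetaU o c (MvPolynomial.C a * ∏ σ, lf (x σ)) (fun i => D i) u) = _
    unfold thetaU JacU
    rw [eval_finsetSum, Finset.mul_sum]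
    apply Finset.sum_congr rfl
    intro J _
    rw [eval_mul, eval_C, eval_thetaJ o c a x hx D J σ]
    ring
  rw [h2, Finset.prod_mul_distrib, Finset.prod_pow, mul_pow, ← pow_mul, mul_comm (r - 1) (2 * d + 1),
    mul_assoc]

end field

/-- The special case of the first `d + 1` coordinates. -/
theorem ThetaU_single {R : Type*} [CommRing R] {d m : ℕ} (r : ℕ) (c : Fin (d + 1) ⊕ Fin m → R)
    (F : MvPolynomial (Fin (d + 1) ⊕ Fin m) R) (D : Fin d → R → R) :
    ThetaU r (Pool.Agent.Helper16.UP.o0 d m) c F D (Pi.single Sum.inl 1) =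
      Pool.Agent.Helper16.UP.Theta r c F D := by
  unfold ThetaU Pool.Agent.Helper16.UP.Theta
  congr 1
  unfold thetaU
  rw [Finset.sum_eq_single Sum.inl]
  · rw [Pi.single_eq_same, map_one, one_mul]
    rfl
  · intro J _ hJ
    rw [Pi.single_eq_of_ne hJ, map_zero, zero_mul]
  · intro h
    exact absurd (Finset.mem_univ _) h

end Pool.Agent.Helper16.VG
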