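import Pool.Agent.Helper16.VG.Plu
import Pool.Agent.Helper16.VG.ThU
import Pool.Agent.Helper16.UP.NullUse
import Pool.Agent.Helper16.UP.Mx

/-!
# Block VG-B1: the local inequality for logarithmic derivations

MODELS: UP/ValIneq.lean (`val_ineq`), UP/NullUse.lean (`null_use`, `aeval_le_one`).
PROOF. Scale (`jacJ_smul`, homogeneity of `g`, `φ`): `y = x / x_l` with `v (x_l) = mx v x`, so `mx v y = 1`, and it suffices: `v (JacJ J y) ≤ mg v g y`. Evaluate the relation `X l ^ n ∈ span (..)` of `Cov` for an `l` with `v (y l) = 1`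
at `y`: `y l ^ n = ∑ (values of coefficients) * w(y)` with `w` as in `Chart`, all values of polynomials over `K` at `y` have `v ≤ 1` (`aeval_le_one`), so some `w` in `Chart φ g w` has `v (w(y)) ≥ 1` (if all were
`< 1` then `v (y l ^ n) < 1`; use `Submodule.span_induction` as in `null_use`). `w = A * B i0 * mnr`, all three have `v ≤ 1`, so all three have `v = 1`. From `A g_i = B_i ∏ f_j` on `X` (evaluate `A * g i - B i * ∏ f j ∈ span (range φ)` at `y`):
`v (g_{i0}(y)) = ∏ v (f_j(y))`, so `∏ v (f_j(y)) ≤ mg v g y`. By `plu`: `v (JacJ J y) = v (det W') * v (tang (y)) ≤ v (det W')` (`tang` has coefficients in `K`), and the row of `W'` with `ρ b = inl j` has entries `e_j f_j(y)`, `D_i (f_j(y))` with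
`v ≤ v (f_j(y))` (`v (e_j) ≤ 1`), the rows with `ρ b = inr l` have `v ≤ 1`. For every `j` choose `b_j` with `ρ b_j = inl j` (injective): every term of the determinant has `v ≤ ∏_j v (f_j(y))` (see `val_ineq`).
-/

namespace Pool.Agent.Helper16.VG

open MvPolynomial (aeval)
open Pool.Agent.Helper16.UP (lf pen pend ev rs rdp lc Dec nn mx mnr)

variable {K M : Type*} [Field K] [Field M] [Algebra K M] {Γ₀ : Type*}
  [LinearOrderedCommGroupWithZero Γ₀] (v : Valuation M Γ₀) {d c : ℕ}

omit [LinearOrderedCommGroupWithZero Γ₀] in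
private theorem hs53g {κ : Type*} [Fintype κ] {F : MvPolynomial κ K} {n : ℕ} (hF : F.IsHomogeneous n) (t : M) (y : κ → M) :
    aeval (fun j => t * y j) F = t ^ n * aeval y F := by
  rw [MvPolynomial.aeval_def, MvPolynomial.aeval_def, MvPolynomial.eval₂_eq', MvPolynomial.eval₂_eq', Finset.mul_sum]
  refine Finset.sum_congr rfl fun s hs => ?_
  have h1 : Finsupp.weight 1 s = n := hF (MvPolynomial.mem_support_iff.1 hs)
  have h2 : ∑ i, s i = n := by
    rw [← Finsupp.degree_eq_sum, Finsupp.degree_eq_weight_one]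
    exact h1
  have h3 : ∏ i, (t * y i) ^ s i = t ^ n * ∏ i, y i ^ s i := by
    rw [← h2, ← Finset.prod_pow_eq_pow_sum, ← Finset.prod_mul_distrib]
    exact Finset.prod_congr rfl fun i _ => mul_pow _ _ _
  rw [h3]
  ring

private theorem det53g {n : Type*} [Fintype n] [DecidableEq n] (W : Matrix n n M) (B : n → Γ₀)
    (h : ∀ b i, v (W b i) ≤ B b) : v W.det ≤ ∏ b, B b := by
  rw [Matrix.det_apply]
  refine v.map_sum_le fun σ _ => ?_
  have h1 : v (Equiv.Perm.sign σ • ∏ i, W (σ i) i) = v (∏ i, W (σ i) i) := by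
    rcases Int.units_eq_one_or (Equiv.Perm.sign σ) with h2 | h2
    · rw [h2, one_smul]
    · rw [h2, Units.neg_smul, one_smul, Valuation.map_neg]
  rw [h1, map_prod, ← Equiv.prod_comp σ B]
  exact Finset.prod_le_prod' fun i _ => h _ _

omit [LinearOrderedCommGroupWithZero Γ₀] in
/-- the values of the elements of the ideal of `X` at a point of `X` are zero -/
private theorem aeval_span_zero {κ ι : Type*} (φ : ι → MvPolynomial κ K) (y : κ → M)
    (hφ : ∀ i, aeval y (φ i) = 0) (p : MvPolynomial κ K) (hp : p ∈ Ideal.span (Set.range φ)) :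
    aeval y p = 0 := by
  refine Submodule.span_induction (p := fun g _ => aeval y g = 0) ?_ ?_ ?_ ?_ hp
  · rintro s ⟨i, rfl⟩
    exact hφ i
  · exact map_zero _
  · intro a b _ _ ha hb
    rw [map_add, ha, hb, add_zero]
  · intro a b _ hb
    rw [smul_eq_mul, map_mul, hb, mul_zero]

/-- use of `Cov`: some chart function has value at least one -/
private theorem cov_use {ι ι' : Type*} (φ : ι → MvPolynomial (Fin (d + 1) ⊕ Fin c) K)
    (g : ι' → MvPolynomial (Fin (d + 1) ⊕ Fin c) K) (hC : Cov φ g)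
    (hK : ∀ c : K, c ≠ 0 → v (algebraMap K M c) = 1)
    (y : Fin (d + 1) ⊕ Fin c → M) (hy : mx v y = 1) (hφ : ∀ i, aeval y (φ i) = 0) :
    ∃ w, Chart φ g w ∧ 1 ≤ v (aeval y w) := by
  by_contra hcon
  push Not at hcon
  obtain ⟨n, hn⟩ := hC
  have : Nonempty (Fin (d + 1) ⊕ Fin c) := ⟨Sum.inl 0⟩
  obtain ⟨l, hl⟩ := Pool.Agent.Helper16.UP.exists_mx v y
  rw [hy] at hl
  have key : ∀ p ∈ Ideal.span (Set.range φ ∪ {w | Chart φ g w}), v (aeval y p) < 1 := by
    intro p hp
    refine Submodule.span_induction (p := fun g _ => v (aeval y g) < 1) ?_ ?_ ?_ ?_ hp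
    · rintro s (⟨i, rfl⟩ | hs)
      · rw [hφ i, map_zero]
        exact zero_lt_one
      · exact hcon s hs
    · rw [map_zero, map_zero]
      exact zero_lt_one
    · intro a b _ _ ha hb
      rw [map_add]
      exact v.map_add_lt ha hb
    · intro a b _ hb
      rw [smul_eq_mul, map_mul, map_mul]
      exact lt_of_le_of_lt (mul_le_of_le_one_left' (Pool.Agent.Helper16.UP.aeval_le_one v hK y hy.le a)) hb
  have h1 := key _ (hn l)
  rw [map_pow, MvPolynomial.aeval_X, map_pow, hl, one_pow] at h1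
  exact lt_irrefl _ h1

theorem valG {ι ι' : Type*} [Fintype ι'] (φ : ι → MvPolynomial (Fin (d + 1) ⊕ Fin c) K) (a : ι → ℕ)
    (hφ : ∀ i, (φ i).IsHomogeneous (a i)) {q : ℕ} (g : ι' → MvPolynomial (Fin (d + 1) ⊕ Fin c) K)
    (hg : ∀ i, (g i).IsHomogeneous q) (hC : Cov φ g)
    (hK : ∀ c : K, c ≠ 0 → v (algebraMap K M c) = 1) (D : Fin d → Derivation ℤ M M)
    (hD : ∀ i (c : K), D i (algebraMap K M c) = 0) (hlog : ∀ i z, v (D i z) ≤ v z)
    (x : Fin (d + 1) ⊕ Fin c → M) (l0 : Fin (d + 1) ⊕ Fin c) (hl0 : x l0 ≠ 0)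
    (hx : ∀ i, aeval x (φ i) = 0) (J : Fin (d + 1) → Fin (d + 1) ⊕ Fin c) :
    v (JacJ (fun i => D i) J x) * mx v x ^ q ≤ mx v x ^ (d + 1) * mg v g x := by
  classical
  obtain ⟨l, hl⟩ := Pool.Agent.Helper16.UP.exists_mx (κ := Fin (d + 1) ⊕ Fin c) v x
  have hmx : mx v x ≠ 0 := Pool.Agent.Helper16.UP.mx_ne_zero v x l0 hl0
  have hxl : x l ≠ 0 := by
    intro h0
    rw [h0, map_zero] at hl
    exact hmx hl.symm
  obtain ⟨t, ht⟩ : ∃ t, t = x l := ⟨_, rfl⟩
  have ht0 : t ≠ 0 := by rw [ht]; exact hxl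
  have hvt : v t = mx v x := by rw [ht]; exact hl
  obtain ⟨y, hy⟩ : ∃ y : Fin (d + 1) ⊕ Fin c → M, y = fun j => t⁻¹ * x j := ⟨_, rfl⟩
  have hxy : x = fun j => t * y j := by
    funext j
    rw [hy]
    show x j = t * (t⁻¹ * x j)
    rw [mul_inv_cancel_left₀ ht0]
  have hmy : mx v y = 1 := by
    rw [hy, Pool.Agent.Helper16.UP.mx_smul, map_inv₀, hvt, inv_mul_cancel₀ hmx]
  have hφy : ∀ i, aeval y (φ i) = 0 := by
    intro i
    rw [hy, hs53g (hφ i), hx, mul_zero]
  have hle1 : ∀ p : MvPolynomial (Fin (d + 1) ⊕ Fin c) K, v (aeval y p) ≤ 1 :=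
    fun p => Pool.Agent.Helper16.UP.aeval_le_one v hK y hmy.le p
  obtain ⟨w, ⟨I, s, f, e, A, B, i0, ρ, hf, hρ1, hid, hw⟩, hw1⟩ := cov_use v φ g hC hK y hmy hφy
  rw [hw, map_mul, map_mul, map_mul, map_mul] at hw1
  have hAB : v (aeval y A) * v (aeval y (B i0)) ≤ 1 := mul_le_one' (hle1 _) (hle1 _)
  have hm1 : v (aeval y (mnr (fun i => φ (I i)) f ρ)) = 1 := by
    refine le_antisymm (hle1 _) ?_
    exact hw1.trans (mul_le_of_le_one_left' hAB)
  rw [hm1, mul_one] at hw1
  have hA1 : v (aeval y A) = 1 :=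
    le_antisymm (hle1 _) (hw1.trans (mul_le_of_le_one_right' (hle1 _)))
  have hB1' : v (aeval y (B i0)) = 1 :=
    le_antisymm (hle1 _) (hw1.trans (mul_le_of_le_one_left' (hle1 _)))
  have hg1 : v (aeval y (g i0)) = ∏ j, v (aeval y (f j)) := by
    have h1 := aeval_span_zero φ y hφy _ (hid i0)
    rw [map_sub, map_mul, map_mul, map_prod, sub_eq_zero] at h1
    have h2 := congrArg v h1
    rw [map_mul, map_mul, hA1, hB1', one_mul, one_mul, map_prod] at h2
    exact h2
  have hdet := plu φ a hφ f e hf D hD y hφy I ρ J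
  obtain ⟨W, hW⟩ : ∃ W : Matrix (Fin (d + 1)) (Fin (d + 1)) M, W = Matrix.of fun b i : Fin (d + 1) =>
        (Fin.cons (Sum.elim (fun j => (e j : M) * aeval y (f j)) y (ρ b))
          (fun i => D i (Sum.elim (fun j => aeval y (f j)) y (ρ b))) : Fin (d + 1) → M) i := ⟨_, rfl⟩
  rw [← hW] at hdet
  have hv1 : v (JacJ (fun i => D i) J y) = v W.det * v (aeval y (tang φ I J)) := by
    have h1 := congrArg v hdet
    rw [map_mul, map_mul, hm1, one_mul] at h1
    exact h1
  -- row bounds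
  obtain ⟨C, hCdef⟩ : ∃ C : Fin (d + 1) → Γ₀, C = fun b => Sum.elim (fun j => v (aeval y (f j))) (fun _ => 1) (ρ b) := ⟨_, rfl⟩
  have hnat : ∀ k : ℕ, v ((k : ℕ) : M) ≤ 1 := by
    intro k
    by_cases hk : ((k : ℕ) : K) = 0
    · have : ((k : ℕ) : M) = 0 := by rw [← map_natCast (algebraMap K M), hk, map_zero]
      rw [this, map_zero]
      exact zero_le_one
    · rw [← map_natCast (algebraMap K M), hK _ hk]
  have hWB : ∀ b i, v (W b i) ≤ C b := by
    intro b i
    rw [hW, hCdef]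
    show v ((Fin.cons (Sum.elim (fun j => (e j : M) * aeval y (f j)) y (ρ b))
          (fun i => D i (Sum.elim (fun j => aeval y (f j)) y (ρ b))) : Fin (d + 1) → M) i) ≤
      Sum.elim (fun j => v (aeval y (f j))) (fun _ => 1) (ρ b)
    refine Fin.cases ?_ (fun i => ?_) i
    · rw [Fin.cons_zero]
      rcases ρ b with j | l'
      · show v ((e j : M) * aeval y (f j)) ≤ v (aeval y (f j))
        rw [map_mul]
        exact mul_le_of_le_one_left' (hnat _)
      · show v (y l') ≤ 1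
        rw [← hmy]
        exact Pool.Agent.Helper16.UP.le_mx v y l'
    · rw [Fin.cons_succ]
      refine (hlog i _).trans ?_
      rcases ρ b with j | l'
      · exact le_rfl
      · show v (y l') ≤ 1
        rw [← hmy]
        exact Pool.Agent.Helper16.UP.le_mx v y l'
  have hC1 : ∀ b, C b ≤ 1 := by
    intro b
    rw [hCdef]
    show Sum.elim (fun j => v (aeval y (f j))) (fun _ => 1) (ρ b) ≤ 1
    rcases ρ b with j | l'
    · exact hle1 _
    · exact le_rfl
  have hprod : ∏ b, C b ≤ ∏ j, v (aeval y (f j)) := by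
    choose b hb using hρ1
    have hinj : Function.Injective b := by
      intro j j' hjj
      have h2 := hb j
      rw [hjj, hb j'] at h2
      exact (Sum.inl_injective h2).symm
    have h3 : ∏ b, C b ≤ ∏ b ∈ Finset.univ.image b, C b :=
      Finset.prod_le_prod_of_subset_of_le_one' (Finset.subset_univ _) fun i _ _ => hC1 i
    refine h3.trans (le_of_eq ?_)
    rw [Finset.prod_image (fun j _ j' _ h => hinj h)]
    refine Finset.prod_congr rfl fun j _ => ?_
    rw [hCdef]
    show Sum.elim (fun j => v (aeval y (f j))) (fun _ => 1) (ρ (b j)) = _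
    rw [hb j]
    rfl
  have hmain : v (JacJ (fun i => D i) J y) ≤ v (aeval y (g i0)) := by
    rw [hv1, hg1]
    exact (mul_le_of_le_one_right' (hle1 _)).trans ((det53g v W C hWB).trans hprod)
  -- scaling
  have s1 : v (JacJ (fun i => D i) J x) = mx v x ^ (d + 1) * v (JacJ (fun i => D i) J y) := by
    conv_lhs => rw [hxy]
    rw [jacJ_smul, map_mul, map_pow, hvt]
  have s2 : v (aeval x (g i0)) = mx v x ^ q * v (aeval y (g i0)) := by
    conv_lhs => rw [hxy]
    rw [hs53g (hg i0), map_mul, map_pow, hvt]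
  have s3 : v (aeval x (g i0)) ≤ mg v g x :=
    Finset.le_sup (f := fun i => v (aeval x (g i))) (Finset.mem_univ i0)
  calc v (JacJ (fun i => D i) J x) * mx v x ^ q
      = mx v x ^ (d + 1) * (mx v x ^ q * v (JacJ (fun i => D i) J y)) := by
        rw [s1]; ac_rfl
    _ ≤ mx v x ^ (d + 1) * (mx v x ^ q * v (aeval y (g i0))) :=
        mul_le_mul_right (mul_le_mul_right hmain _) _
    _ = mx v x ^ (d + 1) * v (aeval x (g i0)) := by rw [s2]
    _ ≤ mx v x ^ (d + 1) * mg v g x := mul_le_mul_right s3 _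

end Pool.Agent.Helper16.VG
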